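import Mathlib
import Pool.Agent.Helper9.NS
import Pool.Agent.Helper21.TO.Defs
import Pool.Agent.Helper51.VB.Defs

/-!
# TB: genus one fibrations over an arbitrary curve, definitions

The data over the splitting field `L`: the curve `y ^ 2 = x ^ 3 + a x + b` over `L`, a map to
projective space with homogeneous coordinates `p_i (x) + q_i (x) y`, and the closed subset of
projective space defined by the forms in `I`. There is no condition on the base field of the
torsor here. The models at the places of `L` are as in project TORS.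
-/

set_option linter.unusedSectionVars false

namespace Pool.Agent.Helper21.TB

open VC VF Function Polynomial
open Pool.Agent.Helper21.TO
open Pool.Agent.Helper51.VB (Ell KPt BP rs)
open Pool.Agent.Helper51.VN (OnE Harm)

universe u

/-- The curve over the splitting field `L`, and its map to projective space. -/
structure Cv (k L : Type u) [Field k] [Field L] [Algebra k L] where
  hL : IsFunctionField k L
  a : L
  b : L
  hΔ : 4 * a ^ 3 + 27 * b ^ 2 ≠ 0
  /-- the roots of `x ^ 3 + a x + b` -/
  r : Fin 3 → L
  hr : (X ^ 3 + C a * X + C b : L[X]) = ∏ i, (X - C (r i))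
  /-- square roots of the differences of the roots -/
  s : Fin 3 → L
  hs : ∀ i, s i ^ 2 = r (i + 1) - r (i + 2)
  /-- the number of homogeneous coordinates -/
  M : ℕ
  /-- the equations of the surface -/
  I : Set (MvPolynomial (Fin M) k)
  p : Fin M → L[X]
  q : Fin M → L[X]
  ne : ∃ i, p i ≠ 0 ∨ q i ≠ 0
  sat : ∀ (K : Type u) [Field K] [Algebra k K] (ι : L →ₐ[k] K) (x y : K),
    y ^ 2 = x ^ 3 + ι a * x + ι b → Sat I (ev p q ι x y)

section cv

variable {k : Type u} [Field k] {L : Type u} [Field L] [Algebra k L]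

/-- The surface. -/
noncomputable abbrev Cv.S [IsAlgClosed k] [CharZero k] (D : Cv k L) : Variety k := proj k D.I

/-- A model of the genus one curve at the place `v` of the splitting field: the scaling `s`, the
reduction `y ^ 2 = x ^ 3 + At x + Bt` of the curve, and the reduction `P_i (x) + Q_i (x) y` of the
homogeneous coordinates, multiplied by `c`. -/
structure Md (D : Cv k L) (v : Place k L) (s : L) (At Bt : k) where
  s_ne : s ≠ 0
  hA : IsRes v (s ^ 4 * D.a) At
  hB : IsRes v (s ^ 6 * D.b) Bt
  /-- the common factor -/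
  c : L
  c_ne : c ≠ 0
  /-- the reduction of `p` -/
  P : Fin D.M → k[X]
  /-- the reduction of `q` -/
  Q : Fin D.M → k[X]
  hP : ∀ i n, IsRes v (c * s⁻¹ ^ (2 * n) * (D.p i).coeff n) ((P i).coeff n)
  hQ : ∀ i n, IsRes v (c * s⁻¹ ^ (2 * n + 3) * (D.q i).coeff n) ((Q i).coeff n)
  ne : ∃ i, P i ≠ 0 ∨ Q i ≠ 0

/-- The reduced homogeneous coordinates at the point `(X, Y)`. -/
noncomputable def Md.evt {D : Cv k L} {v : Place k L} {s : L} {At Bt : k}
    (m : Md D v s At Bt) {K : Type u} [Field K] [Algebra k K] (X Y : K) : Fin D.M → K :=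
  fun i => aeval X (m.P i) + aeval X (m.Q i) * Y

/-- The point of the surface given by a point of the reduced curve, as a cycle. -/
noncomputable def Md.sp [IsAlgClosed k] [CharZero k] {D : Cv k L} {v : Place k L} {s : L}
    {At Bt : k} (m : Md D v s At Bt) : EPt At Bt → D.S.Cycles
  | .zero => 0
  | .some X Y _ => cy D.I (m.evt X Y)

/-- The points of the reduced curve at which the homogeneous coordinates do not all vanish. -/
def Md.Good {D : Cv k L} {v : Place k L} {s : L} {At Bt : k} (m : Md D v s At Bt) :
    EPt At Bt → Prop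
  | .zero => False
  | .some X Y _ => m.evt X Y ≠ 0

open Classical in
/-- The cycle `ξ (a + b) - ξ (b)`, for a general point `b`. -/
noncomputable def Md.cyc [IsAlgClosed k] [CharZero k] {D : Cv k L} {v : Place k L} {s : L}
    {At Bt : k} (m : Md D v s At Bt) (a : EPt At Bt) : D.S.Cycles :=
  if h : ∃ b, m.Good b ∧ m.Good (a + b) then m.sp (a + h.choose) - m.sp h.choose else 0

end cv

/-! ### The base -/

/-- The extension `L` of the function field `F` of the base is Galois with group `H`, the curve is
the Jacobian fibration `D`, and the map to projective space is invariant under `H`, up to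
translations; the Jacobian has potentially multiplicative reduction at `e1`, or bad reduction, and
the divisor `E` is minimal at `e1`. -/
structure Fb {k F L : Type u} [Field k] [Field F] [Algebra k F] [Field L] [Algebra k L]
    [Algebra F L] [IsScalarTower k F L] (D : Ell k F) (C : Cv k L) where
  ha : C.a = algebraMap F L (-3 * D.al)
  hb : C.b = algebraMap F L (-2 * D.be)
  bad : 1 ≤ D.N → D.be ^ 2 / (D.be ^ 2 - D.al ^ 3) ∉ D.e1.ring ∨
    (0 < ord D.e1.ring (D.be ^ 2 - D.al ^ 3) + 12 * D.E D.e1 ∧
      ((D.al ≠ 0 ∧ ord D.e1.ring D.al + 4 * D.E D.e1 < 4) ∨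
        (D.be ≠ 0 ∧ ord D.e1.ring D.be + 6 * D.E D.e1 < 6)))
  /-- the Galois group -/
  H : Subgroup (L ≃ₐ[k] L)
  finH : Finite H
  fixF : ∀ τ ∈ H, ∀ f : F, τ (algebraMap F L f) = algebraMap F L f
  fixed : ∀ z : L, (∀ τ ∈ H, τ z = z) → z ∈ Set.range (algebraMap F L)
  tw : ∀ τ ∈ H, ∃ e, Tw C.p C.q C.a C.b τ e

section base

variable {k : Type u} [Field k] [IsAlgClosed k] [CharZero k] {F L : Type u} [Field F]
  [Algebra k F] [Field L] [Algebra k L] [Algebra F L] [IsScalarTower k F L]

/-- The place `v` of `L` lies over the place `P` of `F`. -/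
def Ab (P : Place k F) (v : Place k L) : Prop := Over P (IsScalarTower.toAlgHom k F L) v

/-- A description of a point of a nice fibre of the Jacobian fibration. -/
structure FData (D : Ell k F) (C : Cv k L) (p : Place k F × k × k) where
  /-- a place over the place of the base -/
  v : Place k L
  hv : Ab p.1 v
  /-- a model -/
  m : Md C v 1 (-3 * D.a₀ p.1) (-2 * D.b₀ p.1)
  h : (sw (-3 * D.a₀ p.1) (-2 * D.b₀ p.1)).toAffine.Nonsingular p.2.1 p.2.2

open Classical in
/-- The cycle of degree zero on the surface given by a point of a nice fibre of the Jacobian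
fibration. -/
noncomputable def cycB (D : Ell k F) (C : Cv k L) (p : Place k F × k × k) : C.S.Cycles :=
  if h : Nonempty (FData D C p) then h.some.m.cyc (EPt.mk p.2.1 p.2.2 h.some.h) else 0

/-- A model at the place `v`: the smooth model with trivial scaling over a nice place, a model with
vanishing cycles over `e1`; every point has a multiple with a nonsingular reduction. -/
structure PkB (D : Ell k F) (C : Cv k L) (v : Place k L) where
  /-- the scaling -/
  s : L
  /-- the reduced coefficient -/
  At : k
  /-- the reduced coefficient -/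
  Bt : k
  /-- the model -/
  m : Md C v s At Bt
  pow : ∀ (K : Type u) [Field K] [Algebra k K] (_ : IsFunctionField k K) (ι : L →ₐ[k] K)
    (w : Place k K), Over v ι w → ∀ P : EPt (ι C.a) (ι C.b),
      ∃ j : ℕ, 0 < j ∧ ∃ Pt : EPt At Bt, Red w (ι s) (j • P) Pt
  nice : ∀ P : Place k F, D.Nice P → Ab P v →
    s = 1 ∧ At = -3 * D.a₀ P ∧ Bt = -2 * D.b₀ P
  bad : 1 ≤ D.N → Ab D.e1 v → ∀ a, Nul C.S (m.cyc a)

end base

/-! ### The abstract link -/

/-- The properties of a map from the points of the nice fibres of the Jacobian fibration to the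
cycles of degree zero on `S` which are needed for the transfer. -/
structure LinkB {k : Type u} [Field k] [IsAlgClosed k] [CharZero k] {F : Type u} [Field F]
    [Algebra k F] (D : Ell k F) (S : Variety k) (cyc : Place k F × k × k → S.Cycles) : Prop where
  constS : ∀ (K : Type u) [Field K] [Algebra k K] (hK : IsFunctionField k K) (p : S.Pt),
    ∃ c : S.Mor K, ∀ v, S.eval hK c v = p
  pullS : ∀ (K K' : Type u) [Field K] [Algebra k K] [Field K'] [Algebra k K'] [Algebra K K']
    [IsScalarTower k K K'] (hK : IsFunctionField k K) (hK' : IsFunctionField k K')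
    (c : S.Mor K), ∃ c' : S.Mor K', ∀ w, S.eval hK' c' w = S.eval hK c (VQ.res hK hK' w)
  star : ∀ (K : Type u) [Field K] [Algebra k K] (hK : IsFunctionField k K) (c : KPt D K),
    ∃ (K₁ : Type u) (_ : Field K₁) (_ : Algebra k K₁) (_ : Algebra K K₁)
      (_ : IsScalarTower k K K₁) (hK₁ : IsFunctionField k K₁) (J : ℕ)
      (Z : Place k K₁ → S.Cycles), 0 < J ∧
      (∀ w p, c.Val (VQ.res hK hK₁ w) p → Nul S (Z w - J • cyc p)) ∧
      (∀ w, c.Zero (VQ.res hK hK₁ w) → Nul S (Z w)) ∧
      ∀ (K₂ : Type u) [Field K₂] [Algebra k K₂] [Algebra K₁ K₂] [IsScalarTower k K₁ K₂]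
        (hK₂ : IsFunctionField k K₂) (T : Set (Place k K₂)), T.Finite →
        ∃ (K₃ : Type u) (_ : Field K₃) (_ : Algebra k K₃) (_ : Algebra K₂ K₃)
          (_ : IsScalarTower k K₂ K₃) (hK₃ : IsFunctionField k K₃) (P Q : S.Mor K₃),
          ∀ w : Place k K₃, VQ.res hK₂ hK₃ w ∈ T →
            Nul S (Z (VQ.res hK₁ hK₂ (VQ.res hK₂ hK₃ w)) -
              (Finsupp.single (S.eval hK₃ P w) 1 - Finsupp.single (S.eval hK₃ Q w) 1))
  odd : ∀ p : Place k F × k × k, D.Nice p.1 → OnE (D.a₀ p.1) (D.b₀ p.1) p.2.1 p.2.2 →
    Nul S (cyc (p.1, p.2.1, -p.2.2) + cyc p)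

/-- The cycle `a` is killed by all functionals on `S` whose transform vanishes on the nice
fibres. -/
def Fibral {k : Type u} [Field k] {F : Type u} [Field F] [Algebra k F]
    (D : Ell k F) (S : Variety k) (cyc : Place k F × k × k → S.Cycles) (a : S.Cycles) : Prop :=
  ∀ φ : S.Pt → k, Kills S φ →
    (∀ p : Place k F × k × k, D.Nice p.1 → OnE (D.a₀ p.1) (D.b₀ p.1) p.2.1 p.2.2 →
      Finsupp.linearCombination ℤ φ (cyc p) = 0) → Finsupp.linearCombination ℤ φ a = 0

end Pool.Agent.Helper21.TB
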