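import Mathlib
import Pool.Agent.Helper9.NS
import Pool.Agent.Helper21.TB.Defs
import Pool.Agent.Helper17.FF.BaseChange

/-!
# TB: the data of the Jacobian fibration, arbitrary `j`

`E` is a divisor with `div a + 4 E ≥ 0`, `div b + 6 E ≥ 0`, minimal if its degree is positive. Then the
place `e1` is chosen as a zero of the discriminant, as a section of `12 E`.
-/

set_option linter.unusedSectionVars false

namespace Pool.Agent.Helper21.TB

open VC VF Function Polynomial
open Pool.Agent.Helper21.TO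
open Pool.Agent.Helper51.VB (Ell KPt BP rs OJ)
open Pool.Agent.Helper51.VN (OnE Harm)

universe u

variable {k : Type u} [Field k] [IsAlgClosed k] [CharZero k] {F : Type u} [Field F] [Algebra k F]

theorem exists_ellC (hF : IsFunctionField k F) (a b : F) (hd : 4 * a ^ 3 + 27 * b ^ 2 ≠ 0)
    (E : Place k F →₀ ℤ) (h4 : ∀ P : Place k F, a ≠ 0 → 0 ≤ ord P.ring a + 4 * E P)
    (h6 : ∀ P : Place k F, b ≠ 0 → 0 ≤ ord P.ring b + 6 * E P)
    (hmin : (1 ≤ E.sum fun _ m => m) → ∀ P : Place k F,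
      (a ≠ 0 ∧ ord P.ring a + 4 * E P < 4) ∨ (b ≠ 0 ∧ ord P.ring b + 6 * E P < 6)) :
    ∃ D : Ell k F, a = -3 * D.al ∧ b = -2 * D.be ∧ ((D.N : ℤ) = E.sum fun _ m => m) ∧
      D.E = E ∧ D.R = E.support ∧
      (1 ≤ D.N → 0 < ord D.e1.ring (D.be ^ 2 - D.al ^ 3) + 12 * D.E D.e1 ∧
        ((D.al ≠ 0 ∧ ord D.e1.ring D.al + 4 * D.E D.e1 < 4) ∨
          (D.be ≠ 0 ∧ ord D.e1.ring D.be + 6 * D.E D.e1 < 6))) := by
  have hch : CharZero F := charZero_of_injective_algebraMap (algebraMap k F).injective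
  have h3 : (3 : F) ≠ 0 := by norm_num
  have h2 : (2 : F) ≠ 0 := by norm_num
  obtain ⟨al, hal⟩ : ∃ al : F, al = -a / 3 := ⟨_, rfl⟩
  obtain ⟨be, hbe⟩ : ∃ be : F, be = -b / 2 := ⟨_, rfl⟩
  have ea : a = -3 * al := by
    rw [hal]
    field_simp
  have eb : b = -2 * be := by
    rw [hbe]
    field_simp
  have ed : 4 * a ^ 3 + 27 * b ^ 2 = 108 * (be ^ 2 - al ^ 3) := by
    rw [ea, eb]
    ring
  have hD0 : be ^ 2 - al ^ 3 ≠ 0 := by
    intro h
    apply hd
    rw [ed, h, mul_zero]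
  have ha0 : a ≠ 0 ↔ al ≠ 0 := by
    rw [ea]
    constructor
    · intro h h0
      exact h (by rw [h0, mul_zero])
    · intro h
      exact mul_ne_zero (by norm_num) h
  have hb0 : b ≠ 0 ↔ be ≠ 0 := by
    rw [eb]
    constructor
    · intro h h0
      exact h (by rw [h0, mul_zero])
    · intro h
      exact mul_ne_zero (by norm_num) h
  have hoa : ∀ P : Place k F, al ≠ 0 → ord P.ring al = ord P.ring a := by
    intro P h0
    have e : a = algebraMap k F (-3) * al := by
      rw [map_neg, map_ofNat]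
      exact ea
    have hc : (-3 : k) ≠ 0 := by norm_num
    conv_rhs => rw [e]
    rw [FF.ord_mul hF P ((_root_.map_ne_zero _).2 hc) h0, FF.ord_algebraMap hF P hc, zero_add]
  have hob : ∀ P : Place k F, be ≠ 0 → ord P.ring be = ord P.ring b := by
    intro P h0
    have e : b = algebraMap k F (-2) * be := by
      rw [map_neg, map_ofNat]
      exact eb
    have hc : (-2 : k) ≠ 0 := by norm_num
    conv_rhs => rw [e]
    rw [FF.ord_mul hF P ((_root_.map_ne_zero _).2 hc) h0, FF.ord_algebraMap hF P hc, zero_add]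
  have h4' : ∀ P : Place k F, al ≠ 0 → 0 ≤ ord P.ring al + 4 * E P := fun P h => by
    rw [hoa P h]
    exact h4 P (ha0.mpr h)
  have h6' : ∀ P : Place k F, be ≠ 0 → 0 ≤ ord P.ring be + 6 * E P := fun P h => by
    rw [hob P h]
    exact h6 P (hb0.mpr h)
  -- the discriminant is a section of `12 E`
  have h12 : ∀ P : Place k F, 0 ≤ ord P.ring (be ^ 2 - al ^ 3) + 12 * E P := by
    intro P
    obtain ⟨u, hu0, hu⟩ := FF.exists_ord_eq hF P (E P)
    have m4 : u ^ 4 * al ∈ P.ring := by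
      by_cases h : al = 0
      · rw [h, mul_zero]
        exact P.ring.zero_mem
      · rw [← FF.ord_nonneg_iff hF P (mul_ne_zero (pow_ne_zero _ hu0) h),
          FF.ord_mul hF P (pow_ne_zero _ hu0) h, FF.ord_pow hF P hu0, hu]
        have := h4' P h
        push_cast
        omega
    have m6 : u ^ 6 * be ∈ P.ring := by
      by_cases h : be = 0
      · rw [h, mul_zero]
        exact P.ring.zero_mem
      · rw [← FF.ord_nonneg_iff hF P (mul_ne_zero (pow_ne_zero _ hu0) h),
          FF.ord_mul hF P (pow_ne_zero _ hu0) h, FF.ord_pow hF P hu0, hu]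
        have := h6' P h
        push_cast
        omega
    have m12 : u ^ 12 * (be ^ 2 - al ^ 3) ∈ P.ring := by
      have e : u ^ 12 * (be ^ 2 - al ^ 3) = (u ^ 6 * be) ^ 2 - (u ^ 4 * al) ^ 3 := by ring
      rw [e]
      exact P.ring.sub_mem (pow_mem m6 2) (pow_mem m4 3)
    rw [← FF.ord_nonneg_iff hF P (mul_ne_zero (pow_ne_zero _ hu0) hD0),
      FF.ord_mul hF P (pow_ne_zero _ hu0) hD0, FF.ord_pow hF P hu0, hu] at m12
    push_cast at m12
    omega
  have hdg : FF.deg (FF.dv hF (be ^ 2 - al ^ 3) + 12 • E) = 12 * FF.deg E := by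
    rw [map_add, FF.deg_dv hF hD0, map_nsmul, zero_add, nsmul_eq_mul]
    push_cast
    ring
  have hap : ∀ P : Place k F, (FF.dv hF (be ^ 2 - al ^ 3) + 12 • E) P =
      ord P.ring (be ^ 2 - al ^ 3) + 12 * E P := by
    intro P
    rw [Finsupp.add_apply, Finsupp.smul_apply, FF.dv_apply, nsmul_eq_mul]
    push_cast
    ring
  have hdeg0 : 0 ≤ FF.deg E := by
    have h := FF.deg_nonneg (D := FF.dv hF (be ^ 2 - al ^ 3) + 12 • E) (fun P => by
      rw [hap]
      exact h12 P)
    rw [hdg] at h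
    omega
  have hsum : (E.sum fun _ m => m) = ((FF.deg E).toNat : ℤ) := by
    rw [Int.toNat_of_nonneg hdeg0, FF.deg_eq]
  -- the place `e1`
  obtain ⟨e1, he1⟩ : ∃ e1 : Place k F, 1 ≤ (FF.deg E).toNat →
      0 < ord e1.ring (be ^ 2 - al ^ 3) + 12 * E e1 := by
    by_cases h : 1 ≤ (FF.deg E).toNat
    · obtain ⟨P, hP⟩ := FF.exists_pos_of_deg (D := FF.dv hF (be ^ 2 - al ^ 3) + 12 • E) (by
        rw [hdg]
        omega)
      rw [hap] at hP
      exact ⟨P, fun _ => hP⟩
    · have := FF.infinite_place hF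
      obtain ⟨P⟩ : Nonempty (Place k F) := inferInstance
      exact ⟨P, fun h' => absurd h' h⟩
  refine ⟨{ hL := hF, al := al, be := be, hD := hD0, E := E, N := (FF.deg E).toNat, deg := hsum,
            h4 := h4', h6 := h6', R := E.support,
            nice := fun P _ _ _ hP => Finsupp.notMem_support_iff.1 hP, e1 := e1,
            bad0 := ?_ }, ea, eb, hsum.symm, rfl, rfl, fun h => ⟨he1 h, ?_⟩⟩
  · rintro hN ⟨_, _, h8, h9⟩
    have h10 := he1 hN
    rw [h8, Finsupp.notMem_support_iff.1 h9] at h10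
    simp at h10
  · have h1 : 1 ≤ E.sum fun _ m => m := by
      rw [hsum]
      exact_mod_cast h
    rcases hmin h1 e1 with ⟨h5, h7⟩ | ⟨h5, h7⟩
    · exact Or.inl ⟨ha0.mp h5, by rw [hoa e1 (ha0.mp h5)]; exact h7⟩
    · exact Or.inr ⟨hb0.mp h5, by rw [hob e1 (hb0.mp h5)]; exact h7⟩

end Pool.Agent.Helper21.TB
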