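import Mathlib
import Pool.Agent.Helper9.NS
import Pool.Agent.Helper21.TB.Defs
import Pool.Agent.Helper21.TO.Hom

/-!
# Block TB-CloDef: the closure of the graph
`clo_scale`: multiply the equation: `G (c g) = c ^ n G (g)` for forms of degree `n`
(`MvPolynomial.IsHomogeneous`, `eval₂_eq'`; compare `aeval_smul'` in TO/Defs). `clo_smul`: `G0` is homogeneous of degree `n`: if
`G0.coeff m ≠ 0` then `G.coeff m ≠ 0` (residue of `0` is `0`), so `G0 (c s) = c ^ n G0 (s)`. `exists_homB`: as `exists_hom`
(TO/Hom.lean) with coefficients in `Algebra.adjoin k V ⊆ P.ring`: an element of the algebra is the value at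
`g i / g i0` of a polynomial `G` over `F` with coefficients in `Algebra.adjoin k V` (all in `P.ring`, with residues); if
the value is zero, homogenize: `G' = ∑_d G_d * X i0 ^ (n - d)`, `G' (g) = 0`, so the reduction of `G'` vanishes at
`s`, so the reduction of `G` vanishes at `s` (`s i0 = 1`). Concretely: consider the `k`-algebra
`R0 = MvPolynomial (Fin M) (Algebra.adjoin k V)`, its homomorphism `α` to `Ω` (`X i ↦ g i / g i0`, coefficients via `j`) and its
homomorphism `β` to `k` (`X i ↦ s i`, coefficients: residues at `P`); `ker α ≤ ker β`; the range of `α` is the algebra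
in the statement. `clo_morph`: let `G` be a form over `F` with `G (ξ) = 0`, coefficients `G_m` with residues at
`P = π s`. By `hπ` `j (G_m) B_m (ξ) = A_m (ξ)`, `B_m (s) ≠ 0`, `A_m (s) = G0_m B_m (s)`. With `Π = ∏ B_m` over the
support of `G`: `H = ∑_m A_m (∏_{m' ≠ m} B_m') X ^ m` is a form over `k` (the degrees of `A_m`, `B_m` agree) with
`H (ξ) = Π (ξ) G (ξ) = 0`, so `H ∈ van k ξ` and `H (s) = 0` as `s` is a point of the closure; `H (s) = Π (s) G0 (s)`.
-/

set_option linter.unusedSectionVars false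

namespace Pool.Agent.Helper21.TB

open VC VF Function Polynomial
open Pool.Agent.Helper21.TO
open Pool.Agent.Helper51.VB (Ell KPt BP rs OJ)
open Pool.Agent.Helper51.VN (OnE Harm)

universe u

variable {k : Type u} [Field k] {F Ω : Type u} [Field F] [Algebra k F] [Field Ω] [Algebra k Ω]
  {M : ℕ}

/-- `(P, s)` is a point of the closure in `B × P^(M-1)` of the point with homogeneous coordinates
`g`: all forms with coefficients regular at `P` which vanish at `g`, vanish at `s` after
evaluation of their coefficients at `P`. -/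
def Clo (j : F →ₐ[k] Ω) (g : Fin M → Ω) (P : Place k F) (s : Fin M → k) : Prop :=
  ∀ (n : ℕ) (G : MvPolynomial (Fin M) F) (G₀ : MvPolynomial (Fin M) k), G.IsHomogeneous n →
    G.eval₂ (j : F →+* Ω) g = 0 → (∀ m, IsRes P (G.coeff m) (G₀.coeff m)) →
    MvPolynomial.aeval s G₀ = 0

/-- The polynomials vanishing at `ξ`. The forms among them are the equations of the closure of the
point of projective space with homogeneous coordinates `ξ`. -/
def vanB (k : Type u) [Field k] {Ω : Type u} [Field Ω] [Algebra k Ω] {M : ℕ} (ξ : Fin M → Ω) :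
    Set (MvPolynomial (Fin M) k) :=
  {P | MvPolynomial.aeval ξ P = 0}

/-- `π` is a morphism from the closure `S` of the point `ξ` to the curve `B` with function
field `F`, whose function field is embedded in the one of `S` by `j`: every function `f` on `B`
which is regular at `π s` is a quotient `A / B` of two forms of the same degree, with `B (s) ≠ 0`,
and `f (π s) = A (s) / B (s)`. -/
def IsMorph (j : F →ₐ[k] Ω) (ξ : Fin M → Ω) (π : PPt k k (vanB k ξ) → Place k F) : Prop :=
  ∀ (s : PPt k k (vanB k ξ)) (f : F), f ∈ (π s).ring → ∃ (n : ℕ) (A B : MvPolynomial (Fin M) k),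
    A.IsHomogeneous n ∧ B.IsHomogeneous n ∧ MvPolynomial.aeval s.1.rep B ≠ 0 ∧
    j f * MvPolynomial.aeval ξ B = MvPolynomial.aeval ξ A ∧
    IsRes (π s) f (MvPolynomial.aeval s.1.rep A / MvPolynomial.aeval s.1.rep B)

private theorem eval₂_smul53 {A K : Type*} [CommRing A] [Field K] {n : ℕ} {G : MvPolynomial (Fin M) A}
    (hG : G.IsHomogeneous n) (φ : A →+* K) (c : K) (a : Fin M → K) :
    G.eval₂ φ (fun i => c * a i) = c ^ n * G.eval₂ φ a := by
  rw [MvPolynomial.eval₂_eq', MvPolynomial.eval₂_eq', Finset.mul_sum]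
  apply Finset.sum_congr rfl
  intro d hd
  have h1 : ∑ i, d i = n := by
    have := hG (MvPolynomial.mem_support_iff.mp hd)
    rw [Finsupp.weight_apply, Finsupp.sum_fintype _ _ (fun i => by simp)] at this
    simpa using this
  simp only [mul_pow, Finset.prod_mul_distrib]
  rw [Finset.prod_pow_eq_pow_sum, h1]
  ring

private theorem homog_eval₂53 {A K : Type*} [CommRing A] [Field K] {a g : Fin M → K} {j : Fin M} {c : K}
    (φ : A →+* K) (hg : ∀ i, g i = c * a i) (hj : g j = c) (F : MvPolynomial (Fin M) A) :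
    MvPolynomial.eval₂ φ g (∑ d ∈ Finset.range (F.totalDegree + 1),
      MvPolynomial.homogeneousComponent d F * (MvPolynomial.X j) ^ (F.totalDegree - d)) =
      c ^ F.totalDegree * MvPolynomial.eval₂ φ a F := by
  have h0 : g = fun i => c * a i := funext hg
  have hs : MvPolynomial.eval₂ φ a F = ∑ d ∈ Finset.range (F.totalDegree + 1),
      MvPolynomial.eval₂ φ a (MvPolynomial.homogeneousComponent d F) := by
    rw [← MvPolynomial.eval₂_sum, MvPolynomial.sum_homogeneousComponent]
  rw [hs, MvPolynomial.eval₂_sum, Finset.mul_sum]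
  refine Finset.sum_congr rfl fun d hd => ?_
  have hd' : d ≤ F.totalDegree := by
    have := Finset.mem_range.1 hd
    omega
  rw [MvPolynomial.eval₂_mul, MvPolynomial.eval₂_pow, MvPolynomial.eval₂_X, hj]
  conv_lhs => rw [h0]
  rw [eval₂_smul53 (MvPolynomial.homogeneousComponent_isHomogeneous d F)]
  have h1 : c ^ F.totalDegree = c ^ d * c ^ (F.totalDegree - d) := by
    rw [← pow_add]
    congr 1
    omega
  rw [h1]
  ring

theorem clo_scale {j : F →ₐ[k] Ω} {g : Fin M → Ω} {P : Place k F} {s : Fin M → k} {c : Ω}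
    (hc : c ≠ 0) : Clo j (fun i => c * g i) P s ↔ Clo j g P s := by
  have key : ∀ (n : ℕ) (G : MvPolynomial (Fin M) F), G.IsHomogeneous n →
      (G.eval₂ (j : F →+* Ω) (fun i => c * g i) = 0 ↔ G.eval₂ (j : F →+* Ω) g = 0) := by
    intro n G hG
    rw [eval₂_smul53 hG, mul_eq_zero]
    exact ⟨fun h => h.resolve_left (pow_ne_zero _ hc), Or.inr⟩
  constructor
  · intro h n G G₀ hG h0 hr
    exact h n G G₀ hG ((key n G hG).2 h0) hr
  · intro h n G G₀ hG h0 hr
    exact h n G G₀ hG ((key n G hG).1 h0) hr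

theorem clo_smul {j : F →ₐ[k] Ω} {g : Fin M → Ω} {P : Place k F} {s : Fin M → k}
    (h : Clo j g P s) (c : k) : Clo j g P (fun i => c * s i) := by
  intro n G G₀ hG h0 hr
  have h1 : G₀.IsHomogeneous n := by
    intro m hm
    refine hG fun h2 => hm ?_
    have h3 := hr m
    rw [h2] at h3
    exact h3.unique isRes_zero
  rw [aeval_smul' h1, h n G G₀ hG h0 hr, mul_zero]

theorem exists_homB (j : F →ₐ[k] Ω) (g : Fin M → Ω) (i0 : Fin M) (hg : g i0 ≠ 0)
    (P : Place k F) (hres : ∀ f ∈ P.ring, ∃ c, IsRes P f c) (s : Fin M → k) (hs : s i0 = 1)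
    (hX : Clo j g P s) (V : Set F) (hV : ∀ h ∈ V, h ∈ P.ring) :
    ∃ χ : Algebra.adjoin k (Set.range (fun i => g i / g i0) ∪ j '' V) →ₐ[k] k,
      (∀ (i : Fin M) (hi : g i / g i0 ∈
        Algebra.adjoin k (Set.range (fun i => g i / g i0) ∪ j '' V)), χ ⟨g i / g i0, hi⟩ = s i) ∧
      ∀ h ∈ V, ∀ hh : j h ∈ Algebra.adjoin k (Set.range (fun i => g i / g i0) ∪ j '' V),
        IsRes P h (χ ⟨j h, hh⟩) := by
  classical
  -- the algebra of coefficients
  have hmem : ∀ x ∈ Algebra.adjoin k V, x ∈ P.ring := by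
    intro x hx
    induction hx using Algebra.adjoin_induction with
    | mem x hx => exact hV x hx
    | algebraMap r => exact P.algebraMap_mem r
    | add x y _ _ hx hy => exact P.ring.add_mem _ _ hx hy
    | mul x y _ _ hx hy => exact P.ring.mul_mem _ _ hx hy
  choose r hr using fun x : Algebra.adjoin k V => hres x.1 (hmem x.1 x.2)
  let ρ : Algebra.adjoin k V →ₐ[k] k :=
    { toFun := r
      map_one' := (hr 1).unique isRes_one
      map_mul' := fun x y => (hr (x * y)).unique ((hr x).mul (hr y))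
      map_zero' := (hr 0).unique isRes_zero
      map_add' := fun x y => (hr (x + y)).unique ((hr x).add (hr y))
      commutes' := fun c => (hr (algebraMap k _ c)).unique (isRes_const c) }
  have hρ : ∀ x, ρ x = r x := fun _ => rfl
  let jj : Algebra.adjoin k V →ₐ[k] Ω := j.comp (Algebra.adjoin k V).val
  let α : MvPolynomial (Fin M) (Algebra.adjoin k V) →ₐ[k] Ω :=
    { MvPolynomial.eval₂Hom (jj : Algebra.adjoin k V →+* Ω) (fun i => g i / g i0) with
      commutes' := fun c => by
        change MvPolynomial.eval₂ (jj : Algebra.adjoin k V →+* Ω) _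
          (MvPolynomial.C (algebraMap k (Algebra.adjoin k V) c)) = _
        rw [MvPolynomial.eval₂_C]
        exact jj.commutes c }
  let β : MvPolynomial (Fin M) (Algebra.adjoin k V) →ₐ[k] k :=
    { MvPolynomial.eval₂Hom (ρ : Algebra.adjoin k V →+* k) s with
      commutes' := fun c => by
        change MvPolynomial.eval₂ (ρ : Algebra.adjoin k V →+* k) _
          (MvPolynomial.C (algebraMap k (Algebra.adjoin k V) c)) = _
        rw [MvPolynomial.eval₂_C]
        exact ρ.commutes c }
  have hα : ∀ x, α x = MvPolynomial.eval₂ (jj : Algebra.adjoin k V →+* Ω) (fun i => g i / g i0) x := fun _ => rfl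
  have hβ : ∀ x, β x = MvPolynomial.eval₂ (ρ : Algebra.adjoin k V →+* k) s x := fun _ => rfl
  have key : ∀ x, α x = 0 → β x = 0 := by
    intro x hx
    rw [hα] at hx
    rw [hβ]
    obtain ⟨x', hx'⟩ : ∃ x', x' = ∑ d ∈ Finset.range (x.totalDegree + 1),
      MvPolynomial.homogeneousComponent d x * (MvPolynomial.X i0) ^ (x.totalDegree - d) := ⟨_, rfl⟩
    have h1 := homog_eval₂53 (a := fun i => g i / g i0) (g := g) (j := i0) (c := g i0)
      (jj : Algebra.adjoin k V →+* Ω) (fun i => (mul_div_cancel₀ (g i) hg).symm) rfl x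
    have h2 := homog_eval₂53 (a := s) (g := s) (j := i0) (c := 1)
      (ρ : Algebra.adjoin k V →+* k) (fun i => (one_mul _).symm) hs x
    rw [← hx'] at h1 h2
    rw [one_pow, one_mul] at h2
    rw [hx, mul_zero] at h1
    rw [← h2]
    have h3 : x'.IsHomogeneous x.totalDegree := by
      rw [hx']
      refine MvPolynomial.IsHomogeneous.sum _ _ _ fun d hd => ?_
      have hd' : d ≤ x.totalDegree := by
        have := Finset.mem_range.1 hd
        omega
      have h3 := (MvPolynomial.homogeneousComponent_isHomogeneous d x).mul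
        ((MvPolynomial.isHomogeneous_X (Algebra.adjoin k V) i0).pow (x.totalDegree - d))
      rwa [one_mul, Nat.add_sub_cancel' hd'] at h3
    have h4 := hX x.totalDegree (MvPolynomial.map ((Algebra.adjoin k V).val : Algebra.adjoin k V →+* F) x')
      (MvPolynomial.map (ρ : Algebra.adjoin k V →+* k) x') (h3.map _) (by
        rw [MvPolynomial.eval₂_map]
        exact h1) (fun m => by
        rw [MvPolynomial.coeff_map, MvPolynomial.coeff_map]
        exact hr _)
    rw [MvPolynomial.aeval_def, MvPolynomial.eval₂_map] at h4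
    exact h4
  have hαm : ∀ x, α x ∈ Algebra.adjoin k (Set.range (fun i => g i / g i0) ∪ j '' V) := by
    intro x
    induction x using MvPolynomial.induction_on with
    | C a =>
      rw [hα, MvPolynomial.eval₂_C]
      have h1 : j a.1 ∈ (Algebra.adjoin k V).map j := ⟨a.1, a.2, rfl⟩
      rw [AlgHom.map_adjoin] at h1
      exact Algebra.adjoin_mono Set.subset_union_right h1
    | add p q hp hq => rw [map_add]; exact Subalgebra.add_mem _ hp hq
    | mul_X p i hp =>
      rw [map_mul]
      refine Subalgebra.mul_mem _ hp ?_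
      rw [hα, MvPolynomial.eval₂_X]
      exact Algebra.subset_adjoin (Or.inl ⟨i, rfl⟩)
  let f : MvPolynomial (Fin M) (Algebra.adjoin k V) →ₐ[k]
      Algebra.adjoin k (Set.range (fun i => g i / g i0) ∪ j '' V) := α.codRestrict _ hαm
  have hX' : ∀ i (hi : g i / g i0 ∈ Algebra.adjoin k (Set.range (fun i => g i / g i0) ∪ j '' V)),
      (⟨g i / g i0, hi⟩ : Algebra.adjoin k (Set.range (fun i => g i / g i0) ∪ j '' V)) = f (MvPolynomial.X i) := by
    intro i hi
    apply Subtype.ext
    change g i / g i0 = α (MvPolynomial.X i)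
    rw [hα, MvPolynomial.eval₂_X]
  have hC' : ∀ (h : F) (hh : h ∈ V) (hi : j h ∈ Algebra.adjoin k (Set.range (fun i => g i / g i0) ∪ j '' V)),
      (⟨j h, hi⟩ : Algebra.adjoin k (Set.range (fun i => g i / g i0) ∪ j '' V)) =
        f (MvPolynomial.C ⟨h, Algebra.subset_adjoin hh⟩) := by
    intro h hh hi
    apply Subtype.ext
    change j h = α (MvPolynomial.C ⟨h, Algebra.subset_adjoin hh⟩)
    rw [hα, MvPolynomial.eval₂_C]
    rfl
  have hf : Function.Surjective f := by
    have h1 : Algebra.adjoin k (Set.range (fun i => g i / g i0) ∪ j '' V) ≤ α.range := by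
      rw [Algebra.adjoin_le_iff]
      rintro y (⟨i, rfl⟩ | ⟨h, hh, rfl⟩)
      · refine ⟨MvPolynomial.X i, ?_⟩
        change α (MvPolynomial.X i) = _
        rw [hα, MvPolynomial.eval₂_X]
      · refine ⟨MvPolynomial.C ⟨h, Algebra.subset_adjoin hh⟩, ?_⟩
        change α (MvPolynomial.C _) = _
        rw [hα, MvPolynomial.eval₂_C]
        rfl
    rintro ⟨y, hy⟩
    obtain ⟨x, hx⟩ := h1 hy
    exact ⟨x, Subtype.ext hx⟩
  have hker : ∀ x, f x = 0 → β x = 0 := fun x hx => key x (congrArg Subtype.val hx)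
  obtain ⟨χ, hχ⟩ : ∃ χ : Algebra.adjoin k (Set.range (fun i => g i / g i0) ∪ j '' V) →ₐ[k] k,
      ∀ x, χ (f x) = β x :=
    ⟨AlgHom.liftOfSurjective f hf β (fun x hx => hker x hx), fun x => AlgHom.liftOfSurjective_apply _ _ _ _ x⟩
  refine ⟨χ, fun i hi => ?_, fun h hh hi => ?_⟩
  · rw [hX', hχ, hβ, MvPolynomial.eval₂_X]
  · rw [hC' h hh hi, hχ, hβ, MvPolynomial.eval₂_C]
    exact hr ⟨h, Algebra.subset_adjoin hh⟩

theorem clo_morph {j : F →ₐ[k] Ω} {ξ : Fin M → Ω} {π : PPt k k (vanB k ξ) → Place k F}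
    (hπ : IsMorph j ξ π) (s : PPt k k (vanB k ξ)) : Clo j ξ (π s) s.1.rep := by
  classical
  intro n G G₀ hG h0 hr
  choose nn A B hA hB hBs hAB hres using fun m => hπ s (G.coeff m) (hr m).mem
  have hcoef : ∀ m, G₀.coeff m * MvPolynomial.aeval s.1.rep (B m) = MvPolynomial.aeval s.1.rep (A m) := by
    intro m
    rw [(hr m).unique (hres m)]
    exact div_mul_cancel₀ _ (hBs m)
  obtain ⟨H, hH⟩ : ∃ H : MvPolynomial (Fin M) k, H = ∑ m ∈ G.support,
    A m * (∏ m' ∈ G.support.erase m, B m') * MvPolynomial.monomial m 1 := ⟨_, rfl⟩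
  have hHh : H.IsHomogeneous (∑ m ∈ G.support, nn m + n) := by
    rw [hH]
    refine MvPolynomial.IsHomogeneous.sum _ _ _ fun m hm => ?_
    have h1 := ((hA m).mul (MvPolynomial.IsHomogeneous.prod (G.support.erase m) B nn fun m' _ => hB m')).mul
      (MvPolynomial.isHomogeneous_monomial (d := m) (1 : k) (n := n) (by
        have := hG (MvPolynomial.mem_support_iff.mp hm)
        rw [Finsupp.degree_eq_weight_one]; exact this))
    rwa [Finset.add_sum_erase _ _ hm] at h1
  have hev : ∀ {K : Type u} [Field K] [Algebra k K] (a : Fin M → K), MvPolynomial.aeval a H = ∑ m ∈ G.support,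
      MvPolynomial.aeval a (A m) * (∏ m' ∈ G.support.erase m, MvPolynomial.aeval a (B m')) * ∏ i, a i ^ m i := by
    intro K _ _ a
    rw [hH, map_sum]
    refine Finset.sum_congr rfl fun m _ => ?_
    rw [map_mul, map_mul, map_prod, MvPolynomial.aeval_monomial, map_one, one_mul, Finsupp.prod_fintype]
    intro i
    exact pow_zero _
  have h1 : MvPolynomial.aeval ξ H = 0 := by
    rw [hev]
    have h2 : ∑ m ∈ G.support, MvPolynomial.aeval ξ (A m) *
        (∏ m' ∈ G.support.erase m, MvPolynomial.aeval ξ (B m')) * ∏ i, ξ i ^ m i =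
        (∏ m' ∈ G.support, MvPolynomial.aeval ξ (B m')) * G.eval₂ (j : F →+* Ω) ξ := by
      rw [MvPolynomial.eval₂_eq', Finset.mul_sum]
      refine Finset.sum_congr rfl fun m hm => ?_
      rw [← hAB m, ← Finset.mul_prod_erase G.support _ hm]
      change j (G.coeff m) * _ * _ * _ = _ * (j (G.coeff m) * _)
      ring
    rw [h2, h0, mul_zero]
  have h2 : MvPolynomial.aeval s.1.rep H = 0 := s.2 H h1 _ hHh
  rw [hev] at h2
  have h3 : ∑ m ∈ G.support, MvPolynomial.aeval s.1.rep (A m) *
      (∏ m' ∈ G.support.erase m, MvPolynomial.aeval s.1.rep (B m')) * ∏ i, s.1.rep i ^ m i =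
      (∏ m' ∈ G.support, MvPolynomial.aeval s.1.rep (B m')) * MvPolynomial.aeval s.1.rep G₀ := by
    rw [MvPolynomial.aeval_def, MvPolynomial.eval₂_eq']
    have h4 : ∑ d ∈ G₀.support, (algebraMap k k) (MvPolynomial.coeff d G₀) * ∏ i, s.1.rep i ^ d i =
        ∑ d ∈ G.support, (algebraMap k k) (MvPolynomial.coeff d G₀) * ∏ i, s.1.rep i ^ d i := by
      refine Finset.sum_subset (fun m hm => ?_) (fun m _ hm => ?_)
      · rw [MvPolynomial.mem_support_iff] at hm ⊢
        intro h5
        apply hm
        have h6 := hr m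
        rw [h5] at h6
        exact h6.unique isRes_zero
      · rw [MvPolynomial.notMem_support_iff.1 hm, map_zero, zero_mul]
    rw [h4, Finset.mul_sum]
    refine Finset.sum_congr rfl fun m hm => ?_
    rw [← hcoef m, ← Finset.mul_prod_erase G.support _ hm]
    change _ = _ * (MvPolynomial.coeff m G₀ * _)
    ring
  rw [h3] at h2
  exact (mul_eq_zero.1 h2).resolve_left (Finset.prod_ne_zero_iff.2 fun m _ => hBs m)

end Pool.Agent.Helper21.TB
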