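import Mathlib
import Pool.Agent.Helper9.NS
import Pool.Agent.Helper21.TB.Defs

/-!
# Block TB-GoodHomB: homomorphisms to the ground field give good points
Port of TO/GoodHom.lean (simpler: no base point). Let `A0 = {z ∈ L | ι0 z ∈ R'}` and `J` the ideal of the `z` with
`χ (ι0 z) = 0`; `Ideal.image_subset_nonunits_valuationSubring` gives a valuation ring `V` of `L` containing `A0` whose
nonunits contain `J`. `t - χ (ι0 t) ∈ J` is not zero, so `V ≠ ⊤`. So `V` is the ring of a place `v` with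
`IsRes v z (χ (ι0 z))` for all `z` with `ι0 z ∈ R'`. `P i`, `Q i` have the coefficients `χ (ι0 (coeff))`, `c = 1`.
`(X0, Y0) = (χ x, χ y)` satisfies the reduced equation (apply `χ` to `he` in `R'`) and is nonsingular by `hd`.
-/

set_option linter.unusedSectionVars false

namespace Pool.Agent.Helper21.TB

open VC VF Function Polynomial
open Pool.Agent.Helper21.TO
open Pool.Agent.Helper51.VB (Ell KPt BP rs OJ)
open Pool.Agent.Helper51.VN (OnE Harm)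

universe u

variable {k : Type u} [Field k] [IsAlgClosed k] [CharZero k] {L : Type u} [Field L] [Algebra k L]

omit [IsAlgClosed k] [CharZero k] in
private lemma red_poly40 {Ω : Type u} [Field Ω] [Algebra k Ω] (ι0 : L →ₐ[k] Ω)
    (R' : Subalgebra k Ω) (χ : R' →ₐ[k] k) (p : L[X]) (hp : ∀ n, ι0 (p.coeff n) ∈ R') :
    ∃ P : k[X], (∀ n, P.coeff n = χ ⟨ι0 (p.coeff n), hp n⟩) ∧
      ∀ (x : Ω) (hx : x ∈ R'), ∃ h : p.eval₂ (ι0 : L →+* Ω) x ∈ R',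
        aeval (χ ⟨x, hx⟩) P = χ ⟨p.eval₂ (ι0 : L →+* Ω) x, h⟩ := by
  have h1 : p.map (ι0 : L →+* Ω) ∈ Polynomial.lifts (R'.val : R' →+* Ω) := by
    rw [Polynomial.lifts_iff_coeff_lifts]
    intro n
    rw [Polynomial.coeff_map]
    exact ⟨⟨ι0 (p.coeff n), hp n⟩, rfl⟩
  obtain ⟨p', hp'⟩ := (Polynomial.mem_lifts _).mp h1
  have hc : ∀ n, p'.coeff n = ⟨ι0 (p.coeff n), hp n⟩ := by
    intro n
    apply Subtype.ext
    have := congrArg (fun q : Polynomial Ω => q.coeff n) hp'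
    simp only [Polynomial.coeff_map] at this
    exact this
  refine ⟨p'.map (χ : R' →+* k), fun n => ?_, fun x hx => ?_⟩
  · rw [Polynomial.coeff_map, hc]
    rfl
  · have h2 : p.eval₂ (ι0 : L →+* Ω) x = ((p'.eval ⟨x, hx⟩ : R') : Ω) := by
      rw [← Polynomial.eval_map, ← hp', Polynomial.eval_map]
      exact Polynomial.eval₂_at_apply (R'.val : R' →+* Ω) (⟨x, hx⟩ : R')
    have h3 : p.eval₂ (ι0 : L →+* Ω) x ∈ R' := by
      rw [h2]
      exact (p'.eval ⟨x, hx⟩ : R').2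
    refine ⟨h3, ?_⟩
    have h4 : (⟨p.eval₂ (ι0 : L →+* Ω) x, h3⟩ : R') = p'.eval ⟨x, hx⟩ := Subtype.ext h2
    rw [h4, Polynomial.coe_aeval_eq_eval, Polynomial.eval_map]
    exact Polynomial.eval₂_at_apply (χ : R' →+* k) (⟨x, hx⟩ : R')

theorem good_of_homB (C : Cv k L) {Ω : Type u} [Field Ω] [Algebra k Ω] (ι0 : L →ₐ[k] Ω)
    (x y : Ω) (he : y ^ 2 = x ^ 3 + ι0 C.a * x + ι0 C.b) (R' : Subalgebra k Ω) (hx : x ∈ R')
    (hy : y ∈ R') (t : L) (htr : Transcendental k t) (ht : ι0 t ∈ R') (ha : ι0 C.a ∈ R')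
    (hb : ι0 C.b ∈ R') (hp : ∀ i n, ι0 ((C.p i).coeff n) ∈ R')
    (hq : ∀ i n, ι0 ((C.q i).coeff n) ∈ R') (hg : ∀ i, ev C.p C.q ι0 x y i ∈ R')
    (χ : R' →ₐ[k] k) (j : Fin C.M) (hj : χ ⟨ev C.p C.q ι0 x y j, hg j⟩ ≠ 0)
    (hd : 4 * χ ⟨ι0 C.a, ha⟩ ^ 3 + 27 * χ ⟨ι0 C.b, hb⟩ ^ 2 ≠ 0) :
    ∃ (v : Place k L) (m : Md C v 1 (χ ⟨ι0 C.a, ha⟩) (χ ⟨ι0 C.b, hb⟩)) (X0 Y0 : k)
      (_ : (sw (χ ⟨ι0 C.a, ha⟩) (χ ⟨ι0 C.b, hb⟩)).toAffine.Nonsingular X0 Y0),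
      (∀ i, m.evt X0 Y0 i = χ ⟨ev C.p C.q ι0 x y i, hg i⟩) ∧
      ∀ (z : L) (hz : ι0 z ∈ R'), IsRes v z (χ ⟨ι0 z, hz⟩) := by
  classical
  -- the subring and the ideal
  let A0 : Subring L := R'.toSubring.comap (ι0 : L →+* Ω)
  let ρ : A0 →+* R' := (ι0 : L →+* Ω).restrict A0 R' (fun z hz => hz)
  let φ : A0 →+* k := (χ : R' →+* k).comp ρ
  obtain ⟨B, hAB, hJ⟩ := Ideal.image_subset_nonunits_valuationSubring (RingHom.ker φ)
    (RingHom.ker_ne_top φ)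
  have hcR : ∀ c : k, ι0 (algebraMap k L c) ∈ R' := by
    intro c
    rw [AlgHom.commutes]
    exact R'.algebraMap_mem c
  have hres0 : ∀ (z : L) (hz : ι0 z ∈ R'),
      z - algebraMap k L (χ ⟨ι0 z, hz⟩) ∈ B.nonunits := by
    intro z hz
    have hmem : ι0 (z - algebraMap k L (χ ⟨ι0 z, hz⟩)) ∈ R' := by
      rw [map_sub]
      exact R'.sub_mem hz (hcR _)
    refine hJ ⟨⟨z - algebraMap k L (χ ⟨ι0 z, hz⟩), hmem⟩, ?_, rfl⟩
    show φ _ = 0
    have e : ρ ⟨z - algebraMap k L (χ ⟨ι0 z, hz⟩), hmem⟩ =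
        (⟨ι0 z, hz⟩ : R') - algebraMap k R' (χ ⟨ι0 z, hz⟩) := by
      apply Subtype.ext
      show ι0 (z - algebraMap k L (χ ⟨ι0 z, hz⟩)) = ι0 z - algebraMap k Ω (χ ⟨ι0 z, hz⟩)
      rw [map_sub, AlgHom.commutes]
    show χ (ρ ⟨z - algebraMap k L (χ ⟨ι0 z, hz⟩), hmem⟩) = 0
    rw [e, map_sub, AlgHom.commutes]
    exact sub_self _
  let v : Place k L := {
    ring := B
    algebraMap_mem := fun c => hAB (hcR c)
    ne_top := by
      intro h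
      have h1 := hres0 t ht
      rw [ValuationSubring.mem_nonunits_iff_or, h] at h1
      rcases h1 with h1 | h1
      · apply htr
        have h2 : t = algebraMap k L (χ ⟨ι0 t, ht⟩) := sub_eq_zero.mp h1
        rw [h2]
        exact isAlgebraic_algebraMap _
      · exact h1 trivial }
  have hres : ∀ (z : L) (hz : ι0 z ∈ R'), IsRes v z (χ ⟨ι0 z, hz⟩) := hres0
  -- the reductions of the polynomials
  choose P hPc hPe using fun i => red_poly40 ι0 R' χ (C.p i) (hp i)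
  choose Q hQc hQe using fun i => red_poly40 ι0 R' χ (C.q i) (hq i)
  have hev : ∀ i, aeval (χ ⟨x, hx⟩) (P i) + aeval (χ ⟨x, hx⟩) (Q i) * χ ⟨y, hy⟩ =
      χ ⟨ev C.p C.q ι0 x y i, hg i⟩ := by
    intro i
    obtain ⟨h1, h2⟩ := hPe i x hx
    obtain ⟨h3, h4⟩ := hQe i x hx
    rw [h2, h4, ← map_mul, ← map_add]
    rfl
  let m : Md C v 1 (χ ⟨ι0 C.a, ha⟩) (χ ⟨ι0 C.b, hb⟩) := {
    s_ne := one_ne_zero
    hA := by
      rw [one_pow, one_mul]
      exact hres C.a ha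
    hB := by
      rw [one_pow, one_mul]
      exact hres C.b hb
    c := 1
    c_ne := one_ne_zero
    P := P
    Q := Q
    hP := by
      intro i n
      rw [inv_one, one_pow, one_mul, one_mul, hPc]
      exact hres _ _
    hQ := by
      intro i n
      rw [inv_one, one_pow, one_mul, one_mul, hQc]
      exact hres _ _
    ne := by
      refine ⟨j, ?_⟩
      by_contra hcon
      rw [not_or, not_not, not_not] at hcon
      apply hj
      rw [← hev j, hcon.1, hcon.2]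
      simp }
  -- the equation
  have heq : χ ⟨y, hy⟩ ^ 2 = χ ⟨x, hx⟩ ^ 3 + χ ⟨ι0 C.a, ha⟩ * χ ⟨x, hx⟩ + χ ⟨ι0 C.b, hb⟩ := by
    have h1 : (⟨y, hy⟩ : R') ^ 2 = (⟨x, hx⟩ : R') ^ 3 + ⟨ι0 C.a, ha⟩ * ⟨x, hx⟩ +
        ⟨ι0 C.b, hb⟩ := Subtype.ext he
    have h2 := congrArg χ h1
    rw [map_pow, map_add, map_add, map_pow, map_mul] at h2
    exact h2
  have hns : (sw (χ ⟨ι0 C.a, ha⟩) (χ ⟨ι0 C.b, hb⟩)).toAffine.Nonsingular
        (χ ⟨x, hx⟩) (χ ⟨y, hy⟩) := by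
    rw [sw_nonsingular]
    refine ⟨heq, ?_⟩
    by_contra hcon
    rw [not_or, not_not, not_not] at hcon
    obtain ⟨h1, h2⟩ := hcon
    have hY : χ ⟨y, hy⟩ = 0 := by
      have h3 : 2 * χ ⟨y, hy⟩ = 0 := by linear_combination h2
      exact (mul_eq_zero.mp h3).resolve_left two_ne_zero
    rw [hY] at heq
    apply hd
    have hA : χ ⟨ι0 C.a, ha⟩ = -3 * χ ⟨x, hx⟩ ^ 2 := by
      linear_combination (-1) * h1
    have hB : χ ⟨ι0 C.b, hb⟩ = 2 * χ ⟨x, hx⟩ ^ 3 := by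
      linear_combination (-1) * heq + χ ⟨x, hx⟩ * h1
    rw [hA, hB]
    ring
  exact ⟨v, m, χ ⟨x, hx⟩, χ ⟨y, hy⟩, hns, fun i => hev i, hres⟩

end Pool.Agent.Helper21.TB
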