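import Mathlib
import Pool.Agent.Helper9.NS
import Pool.Agent.Helper21.TB.Defs
import Pool.Agent.Helper51.VB.Kf
import Pool.Agent.Helper51.VB.Ctc

/-!
# Block TB-Nice: nice places and places above them
`4 (-3 a) ^ 3 + 27 (-2 b) ^ 2 = 108 (b ^ 2 - a ^ 3)`, and `VB.d₀_ne` (Helper51/VB/Kf.lean). The values of
`al`, `be` at a nice place: `VB.isRes_rs` (Helper51/VB/Ctc.lean), `D.a₀ P = rs P D.al` by definition.
`Over P (toAlgHom k F L) v` gives the values of the images (`B.ha`, `B.hb`, `map_mul`, `map_neg`,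
`map_ofNat`; constants: `VF.isRes_const`). Not nice places: poles of `al`, `be` or places with
`ord (be ^ 2 - al ^ 3) ≠ 0` (finitely many, `finite_support_ord`) or in `R`. `ab_iff`: `over_res` and
`Over.eq_comap` (TO/Defs), `VQ.res hF hL v = Place.comap hF hL (toAlgHom k F L) v` (by `rfl` or `Place.ext`);
`VP.exists_res`, `VP.finite_res`. `nonsing_of_onE`: `sw_nonsingular`; singular points have
`y = 0`, `3 x ^ 2 + A = 0`, so `4 A ^ 3 + 27 B ^ 2 = 0`.
-/

set_option linter.unusedSectionVars false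

namespace Pool.Agent.Helper21.TB

open VC VF Function Polynomial
open Pool.Agent.Helper21.TO
open Pool.Agent.Helper51.VB (Ell KPt BP rs OJ)
open Pool.Agent.Helper51.VN (OnE Harm)

universe u

variable {k : Type u} [Field k] [IsAlgClosed k] [CharZero k] {F L : Type u} [Field F]
  [Algebra k F] [Field L] [Algebra k L] [Algebra F L] [IsScalarTower k F L]

private lemma poles94 {K : Type u} [Field K] [Algebra k K] (hK : IsFunctionField k K)
    (f : K) : {w : Place k K | f ∉ w.ring}.Finite := by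
  by_cases hf : f = 0
  · subst hf
    have e : {w : Place k K | (0 : K) ∉ w.ring} = ∅ := by
      ext w
      simp only [Set.mem_ofPred_eq, Set.mem_empty_iff_false, iff_false, not_not]
      exact w.ring.zero_mem
    rw [e]
    exact Set.finite_empty
  · refine (finite_support_ord hK hf).subset fun w hw h0 => hw ?_
    exact (ord_nonneg_iff hK w hf).mp h0.ge

private lemma res_three94 {P : Place k F} {f : F} {c : k} (h : IsRes P f c) :
    IsRes P (-3 * f) (-3 * c) := by
  have h1 := (isRes_const (v := P) (-3 : k)).mul h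
  rwa [map_neg, map_ofNat] at h1

private lemma res_two94 {P : Place k F} {f : F} {c : k} (h : IsRes P f c) :
    IsRes P (-2 * f) (-2 * c) := by
  have h1 := (isRes_const (v := P) (-2 : k)).mul h
  rwa [map_neg, map_ofNat] at h1

theorem nice_disc {D : Ell k F} {P : Place k F} (hP : D.Nice P) :
    4 * (-3 * D.a₀ P) ^ 3 + 27 * (-2 * D.b₀ P) ^ 2 ≠ 0 := by
  have h1 : D.d₀ P ≠ 0 := Helper51.VB.d₀_ne D hP
  have e : 4 * (-3 * D.a₀ P) ^ 3 + 27 * (-2 * D.b₀ P) ^ 2 = 108 * D.d₀ P := by
    unfold Ell.d₀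
    ring
  rw [e]
  exact mul_ne_zero (by norm_num) h1

theorem nonsing_of_onE {D : Ell k F} {P : Place k F} (hP : D.Nice P) {x y : k}
    (h : OnE (D.a₀ P) (D.b₀ P) x y) :
    (sw (-3 * D.a₀ P) (-2 * D.b₀ P)).toAffine.Nonsingular x y := by
  rw [sw_nonsingular]
  have h1 : y ^ 2 = x ^ 3 - 3 * D.a₀ P * x - 2 * D.b₀ P := h
  refine ⟨by rw [h1]; ring, ?_⟩
  by_contra hcon
  rw [not_or, not_not, not_not] at hcon
  obtain ⟨h2, h3⟩ := hcon
  have hy : y = 0 := by
    have h4 : 2 * y = 0 := by linear_combination h3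
    exact (mul_eq_zero.mp h4).resolve_left two_ne_zero
  rw [hy] at h1
  apply nice_disc hP
  have hA : -3 * D.a₀ P = -3 * x ^ 2 := by linear_combination -h2
  have hB : -2 * D.b₀ P = 2 * x ^ 3 := by linear_combination (-1) * h1 - x * hA
  rw [hA, hB]
  ring

theorem nice_res {D : Ell k F} {C : Cv k L} (B : Fb D C) {P : Place k F} (hP : D.Nice P)
    {v : Place k L} (hv : Ab P v) {K : Type u} [Field K] [Algebra k K] {ι : L →ₐ[k] K}
    {w : Place k K} (ho : Over v ι w) :
    IsRes w (ι C.a) (-3 * D.a₀ P) ∧ IsRes w (ι C.b) (-2 * D.b₀ P) := by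
  have h1 := res_three94 (Helper51.VB.isRes_rs D.hL hP.1)
  have h2 := res_two94 (Helper51.VB.isRes_rs D.hL hP.2.1)
  rw [B.ha, B.hb]
  exact ⟨ho _ _ (hv _ _ h1), ho _ _ (hv _ _ h2)⟩

theorem nice_scale {D : Ell k F} {C : Cv k L} (B : Fb D C) {P : Place k F} (hP : D.Nice P)
    {v : Place k L} (hv : Ab P v) :
    IsRes v ((1 : L) ^ 4 * C.a) (-3 * D.a₀ P) ∧ IsRes v ((1 : L) ^ 6 * C.b) (-2 * D.b₀ P) := by
  have h1 := res_three94 (Helper51.VB.isRes_rs D.hL hP.1)
  have h2 := res_two94 (Helper51.VB.isRes_rs D.hL hP.2.1)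
  rw [one_pow, one_mul, one_pow, one_mul, B.ha, B.hb]
  exact ⟨hv _ _ h1, hv _ _ h2⟩

theorem finite_not_nice (D : Ell k F) : {P : Place k F | ¬ D.Nice P}.Finite := by
  refine ((((poles94 D.hL D.al).union (poles94 D.hL D.be)).union
    (finite_support_ord D.hL D.hD)).union D.R.finite_toSet).subset ?_
  intro P hP
  by_contra hcon
  simp only [Set.mem_union, Set.mem_ofPred_eq, not_or, not_not, Finset.mem_coe] at hcon
  exact hP ⟨hcon.1.1.1, hcon.1.1.2, hcon.1.2, hcon.2⟩

theorem ab_iff (hF : IsFunctionField k F) (hL : IsFunctionField k L) {P : Place k F}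
    {v : Place k L} : Ab P v ↔ VQ.res hF hL v = P := by
  constructor
  · intro h
    exact (Over.eq_comap hF hL h).symm
  · rintro rfl
    exact over_res hF hL v

theorem ab_res (hF : IsFunctionField k F) (hL : IsFunctionField k L) (v : Place k L) :
    Ab (VQ.res hF hL v) v := (ab_iff hF hL).mpr rfl

theorem ab_unique (hF : IsFunctionField k F) (hL : IsFunctionField k L) {P P' : Place k F}
    {v : Place k L} (h : Ab P v) (h' : Ab P' v) : P = P' := by
  rw [← (ab_iff hF hL).mp h, (ab_iff hF hL).mp h']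

theorem exists_ab (hF : IsFunctionField k F) (hL : IsFunctionField k L) (P : Place k F) :
    ∃ v : Place k L, Ab P v := by
  obtain ⟨Q, hQ⟩ := VP.exists_res hF hL P
  exact ⟨Q, (ab_iff hF hL).mpr hQ⟩

theorem finite_ab (hF : IsFunctionField k F) (hL : IsFunctionField k L) {S : Set (Place k F)}
    (hS : S.Finite) : {v : Place k L | ∃ P ∈ S, Ab P v}.Finite := by
  refine (hS.biUnion fun P _ => VP.finite_res hF hL P).subset ?_
  rintro v ⟨P, hP, hv⟩
  exact Set.mem_iUnion₂.mpr ⟨P, hP, (ab_iff hF hL).mp hv⟩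

/-- A place of `K` over the place `v` of `L` is over the place of `F` below `v`. -/
theorem over_ab (hF : IsFunctionField k F) (hL : IsFunctionField k L) {P : Place k F}
    {v : Place k L} {K : Type u} [Field K] [Algebra k K] {ι : L →ₐ[k] K} {w : Place k K}
    (ho : Over v ι w) : Ab P v ↔ Over P (ι.comp (IsScalarTower.toAlgHom k F L)) w := by
  constructor
  · intro h
    exact Over.comp h ho
  · intro h z c hz
    exact (ho.isRes_iff hL).mp (h z c hz)

end Pool.Agent.Helper21.TB
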