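import Mathlib
import Pool.Agent.Helper9.NS
import Pool.Agent.Helper21.TB.Defs

/-!
# Block TB-ModelRes: the values of the homogeneous coordinates in a model
`ι c * p_i (x) = ∑ n, ι (c s⁻¹ ^ (2 n) p_{i,n}) * (ι s ^ 2 * x) ^ n` and
`ι c * q_i (x) y = ∑ n, ι (c s⁻¹ ^ (2 n + 3) q_{i,n}) * (ι s ^ 2 * x) ^ n * (ι s ^ 3 * y)`
(`Polynomial.eval₂_eq_sum_range'` with a common bound of the degrees of `p i` and `P i`); each
summand has the expected residue (`m.hP`, `m.hQ`, `ho`, `VF.IsRes.sum`, `mul`, `pow`).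
-/

set_option linter.unusedSectionVars false

namespace Pool.Agent.Helper21.TB

open VC VF Function Polynomial
open Pool.Agent.Helper21.TO

universe u

variable {k : Type u} [Field k] [IsAlgClosed k] [CharZero k] {L : Type u} [Field L]
  [Algebra k L]

theorem Md.isRes_ev {D : Cv k L} {v : Place k L} {s : L} {At Bt : k} (m : Md D v s At Bt)
    {K : Type u} [Field K] [Algebra k K] (ι : L →ₐ[k] K) {w : Place k K} (ho : Over v ι w)
    {x y : K} {X Y : k} (hx : IsRes w (ι s ^ 2 * x) X) (hy : IsRes w (ι s ^ 3 * y) Y)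
    (i : Fin D.M) : IsRes w (ι m.c * ev D.p D.q ι x y i) (m.evt X Y i) := by
  obtain ⟨N, hN1, hN2, hN3, hN4⟩ : ∃ N : ℕ, (D.p i).natDegree < N ∧ (D.q i).natDegree < N ∧
      (m.P i).natDegree < N ∧ (m.Q i).natDegree < N :=
    ⟨(D.p i).natDegree + (D.q i).natDegree + (m.P i).natDegree + (m.Q i).natDegree + 1,
      by omega, by omega, by omega, by omega⟩
  have hs : ι s ≠ 0 := (_root_.map_ne_zero ι).mpr m.s_ne
  have e1 : ι m.c * ev D.p D.q ι x y i =
      (∑ n ∈ Finset.range N, ι (m.c * s⁻¹ ^ (2 * n) * (D.p i).coeff n) * (ι s ^ 2 * x) ^ n) +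
      (∑ n ∈ Finset.range N, ι (m.c * s⁻¹ ^ (2 * n + 3) * (D.q i).coeff n) *
        (ι s ^ 2 * x) ^ n) * (ι s ^ 3 * y) := by
    simp only [ev]
    rw [Polynomial.eval₂_eq_sum_range' (ι : L →+* K) hN1 x,
      Polynomial.eval₂_eq_sum_range' (ι : L →+* K) hN2 x, mul_add, Finset.mul_sum, ← mul_assoc,
      Finset.mul_sum, Finset.sum_mul, Finset.sum_mul]
    congr 1
    · apply Finset.sum_congr rfl
      intro n _
      simp only [map_mul, map_pow, map_inv₀, RingHom.coe_coe]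
      rw [mul_pow, ← pow_mul]
      have h1 : (ι s)⁻¹ ^ (2 * n) * ι s ^ (2 * n) = 1 := by
        rw [← mul_pow, inv_mul_cancel₀ hs, one_pow]
      linear_combination (-(ι m.c * ι ((D.p i).coeff n) * x ^ n)) * h1
    · apply Finset.sum_congr rfl
      intro n _
      simp only [map_mul, map_pow, map_inv₀, RingHom.coe_coe]
      rw [mul_pow, ← pow_mul]
      have h1 : (ι s)⁻¹ ^ (2 * n + 3) * ι s ^ (2 * n + 3) = 1 := by
        rw [← mul_pow, inv_mul_cancel₀ hs, one_pow]
      rw [pow_add (ι s)] at h1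
      linear_combination (-(ι m.c * ι ((D.q i).coeff n) * x ^ n * y)) * h1
  have e2 : m.evt X Y i = (∑ n ∈ Finset.range N, (m.P i).coeff n * X ^ n) +
      (∑ n ∈ Finset.range N, (m.Q i).coeff n * X ^ n) * Y := by
    simp only [Md.evt]
    rw [Polynomial.aeval_eq_sum_range' hN3, Polynomial.aeval_eq_sum_range' hN4]
    simp only [smul_eq_mul]
  rw [e1, e2]
  refine (IsRes.sum _ fun n _ => ?_).add ((IsRes.sum _ fun n _ => ?_).mul hy)
  · exact (ho _ _ (m.hP i n)).mul (hx.pow n)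
  · exact (ho _ _ (m.hQ i n)).mul (hx.pow n)

end Pool.Agent.Helper21.TB
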