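import Mathlib
import Pool.Agent.Helper9.NS
import Pool.Agent.Helper21.TB.Defs
import Pool.Agent.Helper21.TO.Cs
import Pool.Agent.Helper21.TB.Val
import Pool.Agent.Helper21.TB.Nice
import Pool.Agent.Helper21.TB.GoodHomB

/-!
# Block TB-GoodCurveB: a curve through a point with almost all points good
Port of `good_curve38` in TO/GoodCurve.lean. `g = ev ι0 x y`. `R' ⊆ Ω` is generated by the `g i / g i0`, `g i0`, `1 / g i0`,
`x`, `y`, `ι0 a`, `ι0 b`, the inverse of `ι0 (4 a ^ 3 + 27 b ^ 2)`, the images of the coefficients of the `p i`, `q i`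
(finitely many), the images of the elements of `V`, `ι0 t` for some `t ∈ L` transcendental over `k`, and for each of
the finitely many places `v` of `L` which lie over a place of `Ex` or over a place which is not nice
(`finite_not_nice`, `finite_ab`) the images of a function `f v ∈ L` and its inverse, where `ord_v (f v) ≠ 0`
(`f v` nonzero, in `v.ring.nonunits`; exists as `v.ring ≠ ⊤`). `R ≤ R'` are of finite type over `k`, domains.
`curve_selection` (TO/Cs.lean) for `χ0` gives `K`, `χ : R' → K`, `v0`. The vector `c i = χ (g i / g i0)`, `c i0 = 1`, satisfies the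
equations and its value at `v0` is the point `s` (as in TO/GoodCurve). `ψ` is `χ` composed with
`Algebra.adjoin k V → R'` (induced by `ι0 ∘ algebraMap F L`: `Subalgebra.map`, `Algebra.adjoin_image`, or
`AlgHom.codRestrict` of the restriction of the homomorphism `F → Ω` to `Algebra.adjoin k V`). Let `T` be the finite set of the
places of `K` at which the image of a generator is not regular. For `w ∉ T` taking residues gives
`χw : R' →ₐ[k] k`. `good_of_homB`: `v`, `m : Md C v 1 At Bt`, `At = χw (ι0 a)`, `b = mk X0 Y0`, `evt = χw (g i)`, not zero.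
Let `Q = VQ.res D.hL C.hL v`, `Ab Q v`. `v` is not one of the exceptional places, as `f v` has a nonzero
residue `χw (ι0 (f v))` at `v` (its inverse is in `R'`). So `Q` is nice and not in `Ex`, and `At = -3 a₀ Q`, `Bt = -2 b₀ Q`
(`nice_res`/`nice_scale` and uniqueness of residues; `subst`). The value of `c` at `w` is `m.sp b` (as in TO/GoodCurve).
For `h ∈ V`: `χw (ι0 (algebraMap F L h))` is the residue of `ψ h` at `w`, of `algebraMap F L h` at `v` and of `h` at `Q`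
(`Over.isRes_iff`).
-/

set_option linter.unusedSectionVars false

namespace Pool.Agent.Helper21.TB

open VC VF Function Polynomial
open Pool.Agent.Helper21.TO
open Pool.Agent.Helper51.VB (Ell KPt BP rs OJ)
open Pool.Agent.Helper51.VN (OnE Harm)

universe u

variable {k : Type u} [Field k] [IsAlgClosed k] [CharZero k] {F L : Type u} [Field F]
  [Algebra k F] [Field L] [Algebra k L] [Algebra F L] [IsScalarTower k F L]

private lemma exists_reshom88 {K : Type u} [Field K] [Algebra k K] (hK : IsFunctionField k K)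
    {A : Type u} [CommRing A] [Algebra k A] (χ : A →ₐ[k] K) (w : Place k K)
    (h : ∀ z, χ z ∈ w.ring) : ∃ χw : A →ₐ[k] k, ∀ z, IsRes w (χ z) (χw z) := by
  choose f hf using fun z => VF.exists_res hK (h z)
  refine ⟨{ toFun := f, map_one' := ?_, map_mul' := ?_, map_zero' := ?_, map_add' := ?_,
            commutes' := ?_ }, hf⟩
  · exact (hf 1).unique (by rw [map_one]; exact isRes_one)
  · intro a b
    exact (hf (a * b)).unique (by rw [map_mul]; exact (hf a).mul (hf b))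
  · exact (hf 0).unique (by rw [map_zero]; exact isRes_zero)
  · intro a b
    exact (hf (a + b)).unique (by rw [map_add]; exact (hf a).add (hf b))
  · intro r
    exact (hf _).unique (by rw [AlgHom.commutes]; exact isRes_const r)

private lemma finite_poles88 {K : Type u} [Field K] [Algebra k K] (hK : IsFunctionField k K)
    (f : K) : {w : Place k K | f ∉ w.ring}.Finite := by
  by_cases hf : f = 0
  · subst hf
    have e : {w : Place k K | (0 : K) ∉ w.ring} = ∅ := by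
      ext w
      simp only [Set.mem_ofPred_eq, Set.mem_empty_iff_false, iff_false, not_not]
      exact w.ring.zero_mem
    rw [e]
    exact Set.finite_empty
  · refine (finite_support_ord hK hf).subset fun w hw h0 => hw ?_
    exact (ord_nonneg_iff hK w hf).mp h0.ge

private lemma finite_coeffs88 {Ω : Type u} [Field Ω] [Algebra k Ω] (ι0 : L →ₐ[k] Ω) {M : ℕ}
    (p : Fin M → L[X]) : (Set.range fun a : Fin M × ℕ => ι0 ((p a.1).coeff a.2)).Finite := by
  have h1 : (insert (0 : Ω) (⋃ i : Fin M, (fun n => ι0 ((p i).coeff n)) ''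
      ((p i).support : Set ℕ))).Finite :=
    (Set.finite_iUnion fun i => ((p i).support.finite_toSet).image _).insert 0
  refine h1.subset ?_
  rintro _ ⟨⟨i, n⟩, rfl⟩
  by_cases hn : (p i).coeff n = 0
  · left
    simp only [hn, map_zero]
  · right
    exact Set.mem_iUnion.mpr ⟨i, n, Polynomial.mem_support_iff.mpr hn, rfl⟩

private lemma good_curve88 {D : Ell k F} {C : Cv k L} (B : Fb D C) {Ω : Type u} [Field Ω]
    [Algebra k Ω] (ι0 : L →ₐ[k] Ω) (x y : Ω) (he : y ^ 2 = x ^ 3 + ι0 C.a * x + ι0 C.b)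
    (Ex : Set (Place k F)) (hE : Ex.Finite) (i0 : Fin C.M) (g : Fin C.M → Ω)
    (hgd : g = ev C.p C.q ι0 x y)
    (hgj : g i0 ≠ 0) (V : Finset F) (ι' : F →ₐ[k] Ω)
    (hι' : ι' = ι0.comp (IsScalarTower.toAlgHom k F L)) (R : Subalgebra k Ω)
    (hR : R = Algebra.adjoin k (Set.range (fun i => g i / g i0) ∪ ι' '' (V : Set F)))
    (χ0 : R →ₐ[k] k) (s : Fin C.M → k) (hs : s ≠ 0) (hss : Sat C.I s)
    (hχ : ∀ (i : Fin C.M) (hi : g i / g i0 ∈ R), χ0 ⟨_, hi⟩ = s i) :
    ∃ (K : Type u) (_ : Field K) (_ : Algebra k K) (hK : IsFunctionField k K) (c : C.S.Mor K)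
      (v0 : Place k K) (T : Set (Place k K)) (ψ : Algebra.adjoin k (V : Set F) →ₐ[k] K),
      C.S.eval hK c v0 = ppt s hs hss ∧
      (∀ (h : F) (hh : h ∈ V) (h2 : ι' h ∈ R),
        IsRes v0 (ψ ⟨h, Algebra.subset_adjoin hh⟩) (χ0 ⟨_, h2⟩)) ∧ T.Finite ∧
      ∀ w ∉ T, ∃ (Q : Place k F) (v : Place k L) (_ : Ab Q v)
        (m : Md C v 1 (-3 * D.a₀ Q) (-2 * D.b₀ Q)) (b : EPt (-3 * D.a₀ Q) (-2 * D.b₀ Q)),
        D.Nice Q ∧ Q ∉ Ex ∧ m.Good b ∧ Finsupp.single (C.S.eval hK c w) 1 = m.sp b ∧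
        ∀ (h : F) (hh : h ∈ V), ∃ r, IsRes w (ψ ⟨h, Algebra.subset_adjoin hh⟩) r ∧ IsRes Q h r := by
  have hgs : Sat C.I g := hgd ▸ C.sat Ω ι0 x y he
  -- the exceptional places
  set E : Set (Place k L) := {v | ∃ P ∈ Ex ∪ {P | ¬ D.Nice P}, Ab P v} with hEd
  have hEf : E.Finite := finite_ab D.hL C.hL (hE.union (finite_not_nice D))
  have hf : ∀ v : Place k L, ∃ f : L, f ≠ 0 ∧ f ∈ v.ring.nonunits := by
    intro v
    obtain ⟨f, hf0, hf1⟩ := FF.exists_uniformizer C.hL v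
    exact ⟨f, hf0, (FF.ord_pos_iff C.hL v hf0).mp (by rw [hf1]; exact one_pos)⟩
  choose f hf0 hfn using hf
  obtain ⟨t, htr, _⟩ := C.hL
  have hΔ : ι0 (4 * C.a ^ 3 + 27 * C.b ^ 2) ≠ 0 := (_root_.map_ne_zero ι0).mpr C.hΔ
  -- the generators
  set G : Set Ω := (Set.range fun i => g i / g i0) ∪
    (({g i0, (g i0)⁻¹, x, y, ι0 t, ι0 C.a, ι0 C.b,
      (ι0 (4 * C.a ^ 3 + 27 * C.b ^ 2))⁻¹} : Set Ω) ∪
    ((Set.range fun a : Fin C.M × ℕ => ι0 ((C.p a.1).coeff a.2)) ∪
      ((Set.range fun a : Fin C.M × ℕ => ι0 ((C.q a.1).coeff a.2)) ∪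
        (ι' '' (V : Set F) ∪ (fun v => (ι0 (f v))⁻¹) '' E)))) with hGdef
  have hG : G.Finite := by
    refine (Set.finite_range _).union ((Set.toFinite _).union
      ((finite_coeffs88 ι0 C.p).union ((finite_coeffs88 ι0 C.q).union
        ((V.finite_toSet.image _).union (hEf.image _)))))
  have hGr : ∀ i, g i / g i0 ∈ G := fun i => Or.inl ⟨i, rfl⟩
  have hGj : g i0 ∈ G := Or.inr (Or.inl (by simp))
  have hGj' : (g i0)⁻¹ ∈ G := Or.inr (Or.inl (by simp))
  have hGx : x ∈ G := Or.inr (Or.inl (by simp))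
  have hGy : y ∈ G := Or.inr (Or.inl (by simp))
  have hGt : ι0 t ∈ G := Or.inr (Or.inl (by simp))
  have hGa : ι0 C.a ∈ G := Or.inr (Or.inl (by simp))
  have hGb : ι0 C.b ∈ G := Or.inr (Or.inl (by simp))
  have hGΔ : (ι0 (4 * C.a ^ 3 + 27 * C.b ^ 2))⁻¹ ∈ G := Or.inr (Or.inl (by simp))
  have hGp : ∀ i n, ι0 ((C.p i).coeff n) ∈ G := fun i n => Or.inr (Or.inr (Or.inl ⟨(i, n), rfl⟩))
  have hGq : ∀ i n, ι0 ((C.q i).coeff n) ∈ G :=
    fun i n => Or.inr (Or.inr (Or.inr (Or.inl ⟨(i, n), rfl⟩)))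
  have hGV : ∀ h ∈ V, ι' h ∈ G :=
    fun h hh => Or.inr (Or.inr (Or.inr (Or.inr (Or.inl ⟨h, hh, rfl⟩))))
  have hGf : ∀ v ∈ E, (ι0 (f v))⁻¹ ∈ G :=
    fun v hv => Or.inr (Or.inr (Or.inr (Or.inr (Or.inr ⟨v, hv, rfl⟩))))
  clear_value G
  set R' : Subalgebra k Ω := Algebra.adjoin k G with hR'
  have hsub : ∀ z, z ∈ G → z ∈ R' := fun z hz => Algebra.subset_adjoin hz
  have f1 : Algebra.FiniteType k R' :=
    (Subalgebra.fg_iff_finiteType _).mp (Subalgebra.fg_def.mpr ⟨G, hG, rfl⟩)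
  have f2 : Algebra.FiniteType k R :=
    (Subalgebra.fg_iff_finiteType _).mp (Subalgebra.fg_def.mpr
      ⟨_, (Set.finite_range _).union (V.finite_toSet.image _), hR.symm⟩)
  have hRR : R ≤ R' := by
    rw [hR]
    apply Algebra.adjoin_mono
    rintro z (⟨i, rfl⟩ | ⟨h, hh, rfl⟩)
    · exact hGr i
    · exact hGV h hh
  let _ : Algebra R R' := (Subalgebra.inclusion hRR).toRingHom.toAlgebra
  have _ : IsScalarTower k R R' := IsScalarTower.of_algebraMap_eq (fun r => rfl)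
  have hinj : Injective (algebraMap R R') := Subalgebra.inclusion_injective hRR
  obtain ⟨K, iK, iA, hK, χ, v0, hv0⟩ := curve_selection hinj χ0
  -- the vector
  have hrR : ∀ i, g i / g i0 ∈ R := fun i => by
    rw [hR]
    exact Algebra.subset_adjoin (Or.inl ⟨i, rfl⟩)
  let r : Fin C.M → R' := fun i => ⟨g i / g i0, hsub _ (hGr i)⟩
  have hgR : ∀ i, g i ∈ R' := fun i => by
    have h1 := R'.mul_mem (hsub _ (hGr i)) (hsub _ hGj)
    rwa [div_mul_cancel₀ _ hgj] at h1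
  let c : Fin C.M → K := fun i => χ (r i)
  have hr0 : ∀ P ∈ C.I, ∀ n, P.IsHomogeneous n → MvPolynomial.aeval r P = 0 := by
    intro P hP n hn
    apply Subtype.ext
    have h1 := MvPolynomial.comp_aeval_apply (R := k) r R'.val P
    have h2 := (hgs.smul (g i0)⁻¹) P hP n hn
    have h3 : (fun i => R'.val (r i)) = fun i => (g i0)⁻¹ * g i := by
      funext i
      change g i / g i0 = _
      rw [div_eq_inv_mul]
    rw [h3, h2] at h1
    exact h1
  have hcs : Sat C.I c := by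
    intro P hP n hn
    have h1 := MvPolynomial.comp_aeval_apply (R := k) r χ P
    rw [hr0 P hP n hn, map_zero] at h1
    exact h1.symm
  have hrj : r i0 = 1 := Subtype.ext (div_self hgj)
  have hcj : c i0 = 1 := by
    change χ (r i0) = 1
    rw [hrj, map_one]
  have hc : c ≠ 0 := by
    intro h0
    have h1 := congrFun h0 i0
    rw [hcj] at h1
    exact one_ne_zero h1
  have _ : Finite G := hG.to_subtype
  -- the homomorphism `ψ`
  have hVR : Algebra.adjoin k (V : Set F) ≤ R'.comap ι' :=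
    Algebra.adjoin_le fun h hh => hsub _ (hGV h hh)
  let φ : Algebra.adjoin k (V : Set F) →ₐ[k] R' :=
    AlgHom.codRestrict (ι'.comp (Algebra.adjoin k (V : Set F)).val) R' (fun z => hVR z.2)
  refine ⟨K, iK, iA, hK, ppt c hc hcs, v0,
    ⋃ z : G, {w : Place k K | χ ⟨z.1, hsub z.1 z.2⟩ ∉ w.ring}, χ.comp φ, ?_, ?_, ?_, ?_⟩
  · refine peval_eq hK v0 hc hcs hs hss (fun i => ?_)
    have h1 := hv0 ⟨g i / g i0, hrR i⟩
    rw [hχ i (hrR i)] at h1
    exact h1
  · intro h hh h2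
    exact hv0 ⟨ι' h, h2⟩
  · exact Set.finite_iUnion fun z => finite_poles88 hK _
  · intro w hw
    have hreg : ∀ z (hz : z ∈ G), χ ⟨z, hsub z hz⟩ ∈ w.ring := by
      intro z hz
      by_contra h0
      exact hw (Set.mem_iUnion.mpr ⟨⟨z, hz⟩, h0⟩)
    have hall : ∀ z : R', χ z ∈ w.ring := by
      rintro ⟨z, hz⟩
      induction hz using Algebra.adjoin_induction with
      | mem z hz => exact hreg z hz
      | algebraMap s =>
        have h1 : χ (algebraMap k R' s) ∈ w.ring := by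
          rw [AlgHom.commutes]
          exact w.algebraMap_mem s
        exact h1
      | add a b ha hb h1 h2 =>
        have h3 : (⟨a + b, add_mem ha hb⟩ : R') = ⟨a, ha⟩ + ⟨b, hb⟩ := rfl
        rw [h3, map_add]
        exact w.ring.add_mem _ _ h1 h2
      | mul a b ha hb h1 h2 =>
        have h3 : (⟨a * b, mul_mem ha hb⟩ : R') = ⟨a, ha⟩ * ⟨b, hb⟩ := rfl
        rw [h3, map_mul]
        exact w.ring.mul_mem _ _ h1 h2
    obtain ⟨χw, hχw⟩ := exists_reshom88 hK χ w hall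
    have hwj : χw ⟨g i0, hgR i0⟩ ≠ 0 := by
      intro h0
      have h1 : (⟨g i0, hgR i0⟩ : R') * ⟨(g i0)⁻¹, hsub _ hGj'⟩ = 1 :=
        Subtype.ext (mul_inv_cancel₀ hgj)
      have h2 := congrArg χw h1
      rw [map_mul, h0, zero_mul, map_one] at h2
      exact zero_ne_one h2
    have hd : 4 * χw ⟨ι0 C.a, hsub _ hGa⟩ ^ 3 + 27 * χw ⟨ι0 C.b, hsub _ hGb⟩ ^ 2 ≠ 0 := by
      intro h0
      have h1 : (4 * (⟨ι0 C.a, hsub _ hGa⟩ : R') ^ 3 + 27 * (⟨ι0 C.b, hsub _ hGb⟩ : R') ^ 2) *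
          ⟨(ι0 (4 * C.a ^ 3 + 27 * C.b ^ 2))⁻¹, hsub _ hGΔ⟩ = 1 := by
        apply Subtype.ext
        change (4 * ι0 C.a ^ 3 + 27 * ι0 C.b ^ 2) * (ι0 (4 * C.a ^ 3 + 27 * C.b ^ 2))⁻¹ = 1
        have h2 : ι0 (4 * C.a ^ 3 + 27 * C.b ^ 2) = 4 * ι0 C.a ^ 3 + 27 * ι0 C.b ^ 2 := by
          simp only [map_add, map_mul, map_pow, map_ofNat]
        rw [h2] at hΔ ⊢
        exact mul_inv_cancel₀ hΔ
      have h3 := congrArg χw h1
      simp only [map_mul, map_add, map_pow, map_ofNat, map_one] at h3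
      rw [h0, zero_mul] at h3
      exact zero_ne_one h3
    have hgR' : ∀ i, ev C.p C.q ι0 x y i ∈ R' := fun i => by
      rw [← hgd]
      exact hgR i
    have hge : ∀ i, (⟨ev C.p C.q ι0 x y i, hgR' i⟩ : R') = ⟨g i, hgR i⟩ := fun i =>
      Subtype.ext (congrFun hgd.symm i)
    obtain ⟨At, Bt, hAt, hBt, v, m, X0, Y0, hns, hev, hres⟩ :
        ∃ (At Bt : k) (_ : χw ⟨ι0 C.a, hsub _ hGa⟩ = At) (_ : χw ⟨ι0 C.b, hsub _ hGb⟩ = Bt)
          (v : Place k L) (m : Md C v 1 At Bt) (X0 Y0 : k)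
          (_ : (sw At Bt).toAffine.Nonsingular X0 Y0),
          (∀ i, m.evt X0 Y0 i = χw ⟨ev C.p C.q ι0 x y i, hgR' i⟩) ∧
          ∀ (z : L) (hz : ι0 z ∈ R'), IsRes v z (χw ⟨ι0 z, hz⟩) :=
      ⟨_, _, rfl, rfl, good_of_homB C ι0 x y he R' (hsub _ hGx) (hsub _ hGy) t htr (hsub _ hGt)
        (hsub _ hGa) (hsub _ hGb) (fun i n => hsub _ (hGp i n)) (fun i n => hsub _ (hGq i n))
        hgR' χw i0 (by rw [hge]; exact hwj) hd⟩
    have hab : Ab (VQ.res D.hL C.hL v) v := ab_res D.hL C.hL v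
    generalize VQ.res D.hL C.hL v = Q at hab
    have hvE : v ∉ E := by
      intro hv
      have h1 := (hres (f v)⁻¹ (by rw [map_inv₀]; exact hsub _ (hGf v hv))).mem
      have h2 := hfn v
      rw [ValuationSubring.mem_nonunits_iff_or] at h2
      rcases h2 with h2 | h2
      · exact hf0 v h2
      · exact h2 h1
    have hQn : D.Nice Q := by
      by_contra hn
      exact hvE ⟨Q, Or.inr hn, hab⟩
    have hQE : Q ∉ Ex := fun hq => hvE ⟨Q, Or.inl hq, hab⟩
    obtain ⟨hra, hrb⟩ := nice_scale B hQn hab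
    rw [one_pow, one_mul] at hra hrb
    have hAt' : At = -3 * D.a₀ Q := by
      rw [← hAt]
      exact (hres C.a (hsub _ hGa)).unique hra
    have hBt' : Bt = -2 * D.b₀ Q := by
      rw [← hBt]
      exact (hres C.b (hsub _ hGb)).unique hrb
    clear hAt hBt
    subst hAt' hBt'
    have hne : m.evt X0 Y0 ≠ 0 := by
      intro h0
      apply hwj
      rw [← hge, ← hev i0, h0]
      rfl
    obtain ⟨hs', hsp⟩ := m.sp_good (h := hns) hne
    refine ⟨Q, v, hab, m, EPt.mk X0 Y0 hns, hQn, hQE, hne, ?_, ?_⟩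
    · rw [hsp]
      have h5 : C.S.eval hK (ppt c hc hcs) w = ppt (m.evt X0 Y0) hne hs' := by
        refine peval_eq' hK w hc hcs hne hs' (χ ⟨g i0, hgR i0⟩) (fun i => ?_)
        rw [hev i, hge]
        have h6 : χ ⟨g i0, hgR i0⟩ * c i = χ ⟨g i, hgR i⟩ := by
          change χ ⟨g i0, hgR i0⟩ * χ (r i) = _
          rw [← map_mul]
          congr 1
          exact Subtype.ext (mul_div_cancel₀ _ hgj)
        rw [h6]
        exact hχw _
      rw [h5]
    · intro h hh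
      refine ⟨χw ⟨ι' h, hsub _ (hGV h hh)⟩, hχw ⟨ι' h, hsub _ (hGV h hh)⟩, ?_⟩
      have hz : ι0 (algebraMap F L h) ∈ R' := by
        have h1 := hsub _ (hGV h hh)
        rw [hι'] at h1
        exact h1
      have h2 := hres (algebraMap F L h) hz
      have h3 : (⟨ι' h, hsub _ (hGV h hh)⟩ : R') = ⟨ι0 (algebraMap F L h), hz⟩ := by
        apply Subtype.ext
        change ι' h = ι0 (algebraMap F L h)
        rw [hι']
        rfl
      rw [h3]
      exact (Over.isRes_iff D.hL (hab : TO.Over Q (IsScalarTower.toAlgHom k F L) v)).mp h2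

theorem good_curveB {D : Ell k F} {C : Cv k L} (B : Fb D C) {Ω : Type u} [Field Ω] [Algebra k Ω]
    (ι0 : L →ₐ[k] Ω) (x y : Ω) (he : y ^ 2 = x ^ 3 + ι0 C.a * x + ι0 C.b)
    (Ex : Set (Place k F)) (hE : Ex.Finite) (i0 : Fin C.M)
    (hg : ev C.p C.q ι0 x y i0 ≠ 0) (V : Finset F)
    (χ0 : Algebra.adjoin k (Set.range (fun i => ev C.p C.q ι0 x y i / ev C.p C.q ι0 x y i0) ∪
      (ι0.comp (IsScalarTower.toAlgHom k F L)) '' (V : Set F)) →ₐ[k] k)
    (s : Fin C.M → k) (hs : s ≠ 0) (hss : Sat C.I s)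
    (hχ : ∀ (i : Fin C.M) (hi : ev C.p C.q ι0 x y i / ev C.p C.q ι0 x y i0 ∈
      Algebra.adjoin k (Set.range (fun i => ev C.p C.q ι0 x y i / ev C.p C.q ι0 x y i0) ∪
      (ι0.comp (IsScalarTower.toAlgHom k F L)) '' (V : Set F))), χ0 ⟨_, hi⟩ = s i) :
    ∃ (K : Type u) (_ : Field K) (_ : Algebra k K) (hK : IsFunctionField k K) (c : C.S.Mor K)
      (v0 : Place k K) (T : Set (Place k K)) (ψ : Algebra.adjoin k (V : Set F) →ₐ[k] K),
      C.S.eval hK c v0 = ppt s hs hss ∧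
      (∀ (h : F) (hh : h ∈ V) (h2 : ι0.comp (IsScalarTower.toAlgHom k F L) h ∈
        Algebra.adjoin k (Set.range (fun i => ev C.p C.q ι0 x y i / ev C.p C.q ι0 x y i0) ∪
        (ι0.comp (IsScalarTower.toAlgHom k F L)) '' (V : Set F))),
        IsRes v0 (ψ ⟨h, Algebra.subset_adjoin hh⟩) (χ0 ⟨_, h2⟩)) ∧ T.Finite ∧
      ∀ w ∉ T, ∃ (Q : Place k F) (v : Place k L) (_ : Ab Q v)
        (m : Md C v 1 (-3 * D.a₀ Q) (-2 * D.b₀ Q)) (b : EPt (-3 * D.a₀ Q) (-2 * D.b₀ Q)),
        D.Nice Q ∧ Q ∉ Ex ∧ m.Good b ∧ Finsupp.single (C.S.eval hK c w) 1 = m.sp b ∧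
        ∀ (h : F) (hh : h ∈ V), ∃ r, IsRes w (ψ ⟨h, Algebra.subset_adjoin hh⟩) r ∧ IsRes Q h r :=
  good_curve88 B ι0 x y he Ex hE i0 _ rfl hg V _ rfl _ rfl χ0 s hs hss hχ

end Pool.Agent.Helper21.TB
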