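import Mathlib
import Pool.Agent.Helper9.NS
import Pool.Agent.Helper21.TB.Defs

/-!
# Block TB-ExModel: existence of a model with given scaling
Let `N` bound the degrees of all `p i`, `q i`. Consider the finite family of the elements
`s⁻¹ ^ (2 n) * (p i).coeff n` and `s⁻¹ ^ (2 n + 3) * (q i).coeff n`, `n ≤ N`, of `L` (index type
`Fin M × Fin (N + 1) × Bool`, transported to `Fin r` by `Fintype.equivFin`), not all zero by `D.ne`.
By `VF.exists_max` (Helper83/VF/Defs.lean) there is a nonzero member `a` of the family such that all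
members multiplied by `a⁻¹` are in `v.ring`. Put `c = a⁻¹`, take residues (`VF.exists_res`), and let
`P i = ∑ n ≤ N, C (residue) * X ^ n`. The residue for the chosen member is `1`, so `ne` holds. For
`n > N` the coefficients are `0`.
-/

set_option linter.unusedSectionVars false

namespace Pool.Agent.Helper21.TB

open VC VF Function Polynomial
open Pool.Agent.Helper21.TO

universe u

variable {k : Type u} [Field k] [IsAlgClosed k] [CharZero k] {L : Type u} [Field L]
  [Algebra k L]

private lemma exists_poly {N : ℕ} (g : ℕ → k) (hg : ∀ n, N < n → g n = 0) :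
    ∃ P : k[X], ∀ n, P.coeff n = g n := by
  refine ⟨∑ n ∈ Finset.range (N + 1), Polynomial.C (g n) * X ^ n, fun n => ?_⟩
  rw [finsetSum_coeff]
  simp only [coeff_C_mul_X_pow]
  rw [Finset.sum_ite_eq]
  split_ifs with h
  · rfl
  · rw [hg n]
    rw [Finset.mem_range] at h
    omega

theorem exists_md (D : Cv k L) (v : Place k L) {s : L} (hs : s ≠ 0) {At Bt : k}
    (hA : IsRes v (s ^ 4 * D.a) At) (hB : IsRes v (s ^ 6 * D.b) Bt) :
    Nonempty (Md D v s At Bt) := by
  classical
  obtain ⟨N, hN⟩ : ∃ N : ℕ, ∀ i n, N < n → (D.p i).coeff n = 0 ∧ (D.q i).coeff n = 0 := by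
    refine ⟨(Finset.univ.sup fun i => (D.p i).natDegree) ⊔
      (Finset.univ.sup fun i => (D.q i).natDegree), fun i n hn => ⟨?_, ?_⟩⟩
    · apply coeff_eq_zero_of_natDegree_lt
      refine lt_of_le_of_lt ?_ hn
      exact (Finset.le_sup (f := fun i => (D.p i).natDegree) (Finset.mem_univ i)).trans le_sup_left
    · apply coeff_eq_zero_of_natDegree_lt
      refine lt_of_le_of_lt ?_ hn
      exact (Finset.le_sup (f := fun i => (D.q i).natDegree) (Finset.mem_univ i)).trans le_sup_right
  let G : Fin D.M → ℕ → Bool → L := fun i n t =>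
    if t then s⁻¹ ^ (2 * n + 3) * (D.q i).coeff n else s⁻¹ ^ (2 * n) * (D.p i).coeff n
  have hG : ∀ i n t, N < n → G i n t = 0 := by
    intro i n t hn
    cases t
    · show s⁻¹ ^ (2 * n) * (D.p i).coeff n = 0
      rw [(hN i n hn).1, mul_zero]
    · show s⁻¹ ^ (2 * n + 3) * (D.q i).coeff n = 0
      rw [(hN i n hn).2, mul_zero]
  have hsi : s⁻¹ ≠ 0 := inv_ne_zero hs
  obtain ⟨i₀, n₀, t₀, h₀⟩ : ∃ i n t, G i n t ≠ 0 := by
    obtain ⟨i, hi⟩ := D.ne
    rcases hi with hi | hi
    · obtain ⟨n, hn⟩ : ∃ n, (_ : L[X]).coeff n ≠ 0 := ⟨_, leadingCoeff_ne_zero.mpr hi⟩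
      refine ⟨i, n, false, ?_⟩
      show s⁻¹ ^ (2 * n) * (D.p i).coeff n ≠ 0
      exact mul_ne_zero (pow_ne_zero _ hsi) hn
    · obtain ⟨n, hn⟩ : ∃ n, (_ : L[X]).coeff n ≠ 0 := ⟨_, leadingCoeff_ne_zero.mpr hi⟩
      refine ⟨i, n, true, ?_⟩
      show s⁻¹ ^ (2 * n + 3) * (D.q i).coeff n ≠ 0
      exact mul_ne_zero (pow_ne_zero _ hsi) hn
  have hn₀ : n₀ < N + 1 := by
    by_contra h
    exact h₀ (hG _ _ _ (by omega))
  let e := Fintype.equivFin (Fin D.M × Fin (N + 1) × Bool)
  let f : Fin (Fintype.card (Fin D.M × Fin (N + 1) × Bool)) → L :=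
    fun j => G (e.symm j).1 (e.symm j).2.1 (e.symm j).2.2
  have hf : f ≠ 0 := by
    intro h
    have h1 := congrFun h (e (i₀, ⟨n₀, hn₀⟩, t₀))
    apply h₀
    have h2 : f (e (i₀, ⟨n₀, hn₀⟩, t₀)) = G i₀ n₀ t₀ := by
      simp only [f, Equiv.symm_apply_apply]
    rw [← h2, h1]
    rfl
  obtain ⟨j, hj, hj'⟩ := exists_max v.ring f hf
  have hreg : ∀ i n t, (f j)⁻¹ * G i n t ∈ v.ring := by
    intro i n t
    by_cases hn : n < N + 1
    · have h1 := hj' (e (i, ⟨n, hn⟩, t))
      have h2 : f (e (i, ⟨n, hn⟩, t)) = G i n t := by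
        simp only [f, Equiv.symm_apply_apply]
      rw [h2, mul_comm] at h1
      exact h1
    · rw [hG i n t (by omega), mul_zero]
      exact v.ring.zero_mem
  choose b hb using fun i n t => exists_res D.hL (hreg i n t)
  have hb0 : ∀ i n t, N < n → b i n t = 0 := by
    intro i n t hn
    have h1 := hb i n t
    rw [hG i n t hn, mul_zero] at h1
    exact h1.unique isRes_zero
  choose P hP using fun i => exists_poly (fun n => b i n false) (fun n => hb0 i n false)
  choose Q hQ using fun i => exists_poly (fun n => b i n true) (fun n => hb0 i n true)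
  refine ⟨⟨hs, hA, hB, (f j)⁻¹, inv_ne_zero hj, P, Q, fun i n => ?_, fun i n => ?_, ?_⟩⟩
  · rw [hP i n, mul_assoc]
    exact hb i n false
  · rw [hQ i n, mul_assoc]
    exact hb i n true
  · have h1 : b (e.symm j).1 (e.symm j).2.1 (e.symm j).2.2 = 1 := by
      have h2 := hb (e.symm j).1 (e.symm j).2.1 (e.symm j).2.2
      have h3 : G (e.symm j).1 (e.symm j).2.1 (e.symm j).2.2 = f j := rfl
      rw [h3, inv_mul_cancel₀ hj] at h2
      exact h2.unique isRes_one
    refine ⟨(e.symm j).1, ?_⟩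
    cases ht : (e.symm j).2.2
    · left
      intro h0
      rw [ht, ← hP, h0, coeff_zero] at h1
      exact zero_ne_one h1
    · right
      intro h0
      rw [ht, ← hQ, h0, coeff_zero] at h1
      exact zero_ne_one h1

end Pool.Agent.Helper21.TB
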