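import Mathlib
import Pool.Agent.Helper9.NS
import Pool.Agent.Helper21.TB.Defs
import Pool.Agent.Helper21.TO.Wa
import Pool.Agent.Helper21.TB.Nice

/-!
# Block TB-Tra: the Galois group is transitive on the places over a place of the base
As in TO/Tra.lean (copy it): the product `N` of the conjugates of `y` is fixed by `H`, so
`N = algebraMap F L f` (`B.fixed`). `N` has the residue `1` at `v` and `0` at `v'`; as `v`, `v'` are both over
`P` (`Over.isRes_iff` for `Over P (toAlgHom k F L) v`, hypothesis `D.hL : IsFunctionField k F`), `f` has both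
residues at `P`.
-/

set_option linter.unusedSectionVars false

namespace Pool.Agent.Helper21.TB

open VC VF Function Polynomial
open Pool.Agent.Helper21.TO
open Pool.Agent.Helper51.VB (Ell KPt BP rs OJ)
open Pool.Agent.Helper51.VN (OnE Harm)

universe u

variable {k : Type u} [Field k] [IsAlgClosed k] [CharZero k] {F L : Type u} [Field F]
  [Algebra k F] [Field L] [Algebra k L] [Algebra F L] [IsScalarTower k F L]

lemma isRes_prodB {K : Type u} [Field K] [Algebra k K] {v : Place k K} {ι : Type*}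
    (s : Finset ι) (f : ι → K) (g : ι → k) (h : ∀ i ∈ s, IsRes v (f i) (g i)) :
    IsRes v (∏ i ∈ s, f i) (∏ i ∈ s, g i) := by
  classical
  induction s using Finset.induction_on with
  | empty =>
    rw [Finset.prod_empty, Finset.prod_empty]
    exact isRes_one
  | insert a s ha ih =>
    rw [Finset.prod_insert ha, Finset.prod_insert ha]
    exact (h a (Finset.mem_insert_self a s)).mul
      (ih fun i hi => h i (Finset.mem_insert_of_mem hi))

theorem traB {D : Ell k F} {C : Cv k L} (B : Fb D C) {P : Place k F} {v v' : Place k L}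
    (h : Ab P v) (h' : Ab P v') : ∃ τ ∈ B.H, Over v' ((τ : L ≃ₐ[k] L) : L →ₐ[k] L) v := by
  classical
  by_contra hcon
  push Not at hcon
  have hF : Finite B.H := B.finH
  have hFt : Fintype B.H := Fintype.ofFinite _
  let V : B.H → Place k L := fun τ => Place.comap C.hL C.hL ((τ : L ≃ₐ[k] L) : L →ₐ[k] L) v
  let V' : B.H → Place k L := fun τ => Place.comap C.hL C.hL ((τ : L ≃ₐ[k] L) : L →ₐ[k] L) v'
  have hV : ∀ τ, Over (V τ) ((τ : L ≃ₐ[k] L) : L →ₐ[k] L) v := fun τ => over_comap _ _ _ _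
  have hV' : ∀ τ, Over (V' τ) ((τ : L ≃ₐ[k] L) : L →ₐ[k] L) v' := fun τ => over_comap _ _ _ _
  have hne : ∀ ρ τ, V' ρ ≠ V τ := by
    intro ρ τ h
    refine hcon _ (τ * ρ⁻¹).2 ?_
    intro z c hz
    have h1 : IsRes (V' ρ) ((ρ : L ≃ₐ[k] L).symm z) c := by
      rw [← (hV' ρ).isRes_iff C.hL]
      have e : (((ρ : L ≃ₐ[k] L) : L →ₐ[k] L)) ((ρ : L ≃ₐ[k] L).symm z) = z :=
        (ρ : L ≃ₐ[k] L).apply_symm_apply z
      rwa [e]
    rw [h] at h1
    exact hV τ _ _ h1
  obtain ⟨y, hy⟩ := wa C.hL (Set.range V ∪ Set.range V')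
    ((Set.finite_range V).union (Set.finite_range V')) (fun _ => 1) (fun _ => one_ne_zero)
    (fun w => if w ∈ Set.range V then 1 else 0)
  have h1 : ∀ τ : B.H, IsRes v ((τ : L ≃ₐ[k] L) y) 1 := by
    intro τ
    have h := hy (V τ) (Or.inl ⟨τ, rfl⟩)
    have e : (if V τ ∈ Set.range V then (1 : k) else 0) = 1 := if_pos ⟨τ, rfl⟩
    rw [one_mul, e] at h
    exact hV τ _ _ h
  have h2 : ∀ τ : B.H, IsRes v' ((τ : L ≃ₐ[k] L) y) 0 := by
    intro τ
    have h := hy (V' τ) (Or.inr ⟨τ, rfl⟩)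
    have e : (if V' τ ∈ Set.range V then (1 : k) else 0) = 0 := by
      apply if_neg
      rintro ⟨ρ, hρ⟩
      exact hne τ ρ hρ.symm
    rw [one_mul, e] at h
    exact hV' τ _ _ h
  have h3 : IsRes v (∏ τ : B.H, (τ : L ≃ₐ[k] L) y) 1 := by
    have := isRes_prodB (v := v) Finset.univ (fun τ : B.H => (τ : L ≃ₐ[k] L) y) (fun _ => 1)
      (fun τ _ => h1 τ)
    rwa [Finset.prod_const_one] at this
  have h4 : IsRes v' (∏ τ : B.H, (τ : L ≃ₐ[k] L) y) 0 := by
    have := isRes_prodB (v := v') Finset.univ (fun τ : B.H => (τ : L ≃ₐ[k] L) y) (fun _ => 0)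
      (fun τ _ => h2 τ)
    have e : (∏ _τ : B.H, (0 : k)) = 0 := Finset.prod_eq_zero (Finset.mem_univ (1 : B.H)) rfl
    rwa [e] at this
  have h5 : (∏ τ : B.H, (τ : L ≃ₐ[k] L) y) ∈ Set.range (algebraMap F L) := by
    apply B.fixed
    intro σ hσ
    rw [map_prod]
    exact Fintype.prod_equiv (Equiv.mulLeft (⟨σ, hσ⟩ : B.H)) _ _ (fun τ => rfl)
  obtain ⟨f, hf⟩ := h5
  rw [← hf] at h3 h4
  have h6 : IsRes P f 1 := (h.isRes_iff D.hL).mp h3
  have h7 : IsRes P f 0 := (h'.isRes_iff D.hL).mp h4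
  exact one_ne_zero (h6.unique h7)

end Pool.Agent.Helper21.TB
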