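import Mathlib
import Pool.Agent.Helper9.NS
import Pool.Agent.Helper21.TB.Defs
import Pool.Agent.Helper21.TO.FinPt
import Pool.Agent.Helper21.TO.RedMap
import Pool.Agent.Helper21.TO.RedAdd
import Pool.Agent.Helper21.TB.FinBad
import Pool.Agent.Helper21.TB.Val
import Pool.Agent.Helper21.TO.Sc

/-!
# Block TB-Twist: twisting a model by an element of the Galois group
`D.a`, `D.b` are fixed by `τ` (`map_cA`, `map_cB` in Defs2 with `ι = τ`, `τ t = t`). Let `et` be the
reduction of `e` at `v` with scaling `s` (`red_exists`, with `RedData v s D.a D.b At Bt`; here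
`e : EPt D.a D.b` and `K = L`). `F` is the finite set of the `b` with: `¬ m.Good b`, or
`¬ m'.Good (scF (b + et))` (finite, as `b ↦ scF (b + et)` is injective, `scF_bijective`, and
`Md.finite_bad`), or `X (b) = X (et)` (`b = ± et`, if `et ≠ 0`), or `b = 0` or `b = -et`, or `b` has
`X` with `X ^ 3 + At X + Bt = 0` (`finite_X`).
Let `b = mk X0 Y0 ∉ F`. `x = X0 / s ^ 2`, `K` an extension of `L` with `y`,
`y ^ 2 = x ^ 3 + a x + b`, `w` a place of `K` over `v`, `ι = IsScalarTower.toAlgHom k L K`, such that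
`P = mk x y` (nonsingular: `nonsing_of_x`) has the reduction `b` (as in the block SatModel:
the residue of `ι s ^ 3 y` is `± Y0`, replace `y` by `-y`). `mapPt ι e` has the reduction `et`
(`red_map`), so `P + mapPt ι e` has the reduction `b + et` (`red_add`), which is affine, so
`P + mapPt ι e = mk x' y'` with `ι s ^ 2 x' → X'`, `ι s ^ 3 y' → Y'`, `b + et = mk X' Y'`.
`x ≠ ι xe` if `e = mk xe ye` (otherwise `X0` is the residue of `s ^ 2 xe`, so `et = mk X0 _`, excluded).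
So by `he` the vectors `ev ι x y` and `ev (ι.comp τ) x' y'` are proportional. By
`Md.val` (for `m`, `ι`, `w`) the value at `w` of the point of the first vector is `m.sp b`. For the
second: `Over v' (ι.comp τ) w` (`Over.comp`), `(ι.comp τ) s' ^ 2 x' = ι (τ s' / s) ^ 2 (ι s ^ 2 x')` has
the residue `c ^ 2 X'`, and `(ι.comp τ) s' ^ 3 y' → c ^ 3 Y'`, so by `Md.val` (for `m'`, `ι.comp τ`,
`w`, and the point `scF (b + et)`; note `(ι.comp τ) D.a = ι D.a`, so `(x', y')` is a nonsingular point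
of the right curve) its value is `m'.sp (scF (b + et))`. Proportional vectors give the same point
(`ppt_eq_of_cross`).
-/

set_option linter.unusedSectionVars false

namespace Pool.Agent.Helper21.TB

open VC VF Function Polynomial
open Pool.Agent.Helper21.TO

universe u

variable {k : Type u} [Field k] [IsAlgClosed k] [CharZero k] {L : Type u} [Field L]
  [Algebra k L]

private lemma finite_cub_h12 (a b : k) : {x : k | x ^ 3 + a * x + b = 0}.Finite := by
  have h0 : (X ^ 3 + C a * X + C b : k[X]) ≠ 0 := by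
    intro h
    have h1 := congrArg (fun p : k[X] => p.coeff 3) h
    simp at h1
  refine (Polynomial.finite_setOfPred_isRoot h0).subset ?_
  intro x hx
  have hx' : x ^ 3 + a * x + b = 0 := hx
  show IsRoot (X ^ 3 + C a * X + C b : k[X]) x
  unfold IsRoot
  simp only [eval_add, eval_pow, eval_X, eval_mul, eval_C]
  exact hx'

/-- A point over an extension with prescribed reduction. -/
private lemma lift_pt_h12 {w : Place k L} {σ a b : L} {At Bt : k} (hd : RedData w σ a b At Bt)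
    {X0 Y0 : k} (hX0 : X0 ^ 3 + At * X0 + Bt ≠ 0) (h0 : (sw At Bt).toAffine.Nonsingular X0 Y0)
    {z : L} (hz : σ ^ 2 * z = algebraMap k L X0) :
    ∃ (K : Type u) (_ : Field K) (_ : Algebra k K) (hK : IsFunctionField k K) (ι : L →ₐ[k] K)
      (w' : Place k K) (ho : Over w ι w') (y : K)
      (h : (sw (ι a) (ι b)).toAffine.Nonsingular (ι z) y),
      Red w' (ι σ) (EPt.mk (ι z) y h) (EPt.mk X0 Y0 h0) := by
  have hzr : IsRes w (σ ^ 2 * z) X0 := by
    rw [hz]
    exact isRes_const _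
  obtain ⟨K', _, _, _, _, y, hK', hy⟩ := VF.exists_roots hd.hK (m := 2) two_ne_zero
    (fun _ : Fin 1 => z ^ 3 + a * z + b)
  obtain ⟨w', hw'⟩ := VP.exists_res hd.hK hK' w
  have ho : Over w (IsScalarTower.toAlgHom k L K') w' := by
    rw [← hw']
    exact over_res hd.hK hK' w'
  obtain ⟨κ, hκ⟩ : ∃ κ : L →ₐ[k] K', κ = IsScalarTower.toAlgHom k L K' := ⟨_, rfl⟩
  rw [← hκ] at ho
  have hd' : RedData w' (κ σ) (κ a) (κ b) At Bt := hd.map hK' κ ho
  have hz' : IsRes w' (κ σ ^ 2 * κ z) X0 := by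
    have h1 := ho _ _ hzr
    rwa [map_mul, map_pow] at h1
  have heq : y 0 ^ 2 = κ z ^ 3 + κ a * κ z + κ b := by
    rw [hy 0, ← map_mul, ← map_pow, ← map_add, ← map_add, hκ]
    rfl
  have hns := nonsing_of_x hd' hX0 hz' heq
  obtain ⟨Y1, h1, hY1, hU⟩ := red_of_x hd' hX0 hz' hns
  have e0 := (sw_nonsingular.mp h0).1
  have e1 := (sw_nonsingular.mp h1).1
  have e2 : Y1 ^ 2 = Y0 ^ 2 := by rw [e1, e0]
  rcases sq_eq_sq_iff_eq_or_eq_neg.mp e2 with e3 | e3
  · subst e3
    exact ⟨K', _, _, hK', κ, w', ho, y 0, hns, hU⟩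
  · have hns' : (sw (κ a) (κ b)).toAffine.Nonsingular (κ z) (-y 0) := by
      have e4 : (-y 0) ^ 2 = κ z ^ 3 + κ a * κ z + κ b := by rw [neg_sq]; exact heq
      exact nonsing_of_x hd' hX0 hz' e4
    refine ⟨K', _, _, hK', κ, w', ho, -y 0, hns', hU.1, ?_⟩
    have h2 : IsRes w' (κ σ ^ 3 * y 0) Y1 := hU.2
    have h3 := h2.neg
    rw [e3, neg_neg] at h3
    show IsRes w' (κ σ ^ 3 * -y 0) Y0
    rw [mul_neg]
    exact h3

theorem Md.twist {D : Cv k L} {τ : L ≃ₐ[k] L} (hτa : τ D.a = D.a) (hτb : τ D.b = D.b) {e : EPt D.a D.b}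
    (he : Tw D.p D.q D.a D.b τ e) {v v' : Place k L} (hv : Over v' (τ : L →ₐ[k] L) v)
    {s s' : L} {At Bt At' Bt' : k} (m : Md D v s At Bt) (m' : Md D v' s' At' Bt') {c : k}
    (hc : c ≠ 0) (hs : IsRes v (τ s' / s) c) (hA : At' = c ^ 4 * At) (hB : Bt' = c ^ 6 * Bt)
    (hΔ : 4 * At ^ 3 + 27 * Bt ^ 2 ≠ 0) :
    ∃ (et : EPt At Bt) (F : Set (EPt At Bt)), F.Finite ∧ ∀ b ∉ F, m.Good b ∧
      m'.Good (scF c hc hA hB (b + et)) ∧ m.sp b = m'.sp (scF c hc hA hB (b + et)) := by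
  have hd : RedData v s D.a D.b At Bt := ⟨D.hL, m.s_ne, m.hA, m.hB⟩
  obtain ⟨et, het⟩ := red_exists hd hΔ e
  refine ⟨et, ({b | ¬ m.Good b} ∪ {b | ¬ m'.Good (scF c hc hA hB (b + et))}) ∪
    ({b | ∃ X Y h, b = EPt.mk X Y h ∧ X ∈ ({X : k | X ^ 3 + At * X + Bt = 0} ∪
      {X : k | ∃ Y h, et = EPt.mk X Y h})} ∪ {0, -et}), ?_, ?_⟩
  · refine (m.finite_bad.union ?_).union ((finite_X _ ((finite_cub_h12 At Bt).union ?_)).union
      (Set.toFinite _))
    · have hinj : Injective (fun b : EPt At Bt => scF c hc hA hB (b + et)) :=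
        (scF_bijective c hc hA hB).1.comp (add_left_injective et)
      exact m'.finite_bad.preimage hinj.injOn
    · apply Set.Subsingleton.finite
      rintro X ⟨Y, h, h1⟩ X' ⟨Y', h', h2⟩
      rw [h1] at h2
      simp only [WeierstrassCurve.Affine.Point.some.injEq] at h2
      exact h2.1
  · intro b hb
    simp only [Set.mem_union, Set.mem_ofPred_eq, Set.mem_insert_iff, Set.mem_singleton_iff,
      not_or, not_not, not_exists, not_and] at hb
    obtain ⟨⟨hg, hg'⟩, hX, hb0, hbet⟩ := hb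
    refine ⟨hg, hg', ?_⟩
    rcases b with _ | ⟨X0, Y0, h0⟩
    · exact absurd rfl hb0
    obtain ⟨hX0, hXe⟩ := hX X0 Y0 h0 rfl
    have hs2 : s ^ 2 ≠ 0 := pow_ne_zero 2 m.s_ne
    have hz : s ^ 2 * (algebraMap k L X0 / s ^ 2) = algebraMap k L X0 := mul_div_cancel₀ _ hs2
    obtain ⟨z, hzdef⟩ : ∃ z : L, z = algebraMap k L X0 / s ^ 2 := ⟨_, rfl⟩
    rw [← hzdef] at hz
    obtain ⟨K, _, _, hK, ι, w, ho, y, h, hP⟩ := lift_pt_h12 hd hX0 h0 hz
    have hd' : RedData w (ι s) (ι D.a) (ι D.b) At Bt := hd.map hK ι ho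
    have hE : Red w (ι s) (mapPt ι e) et := (red_map D.hL ι ho e et).mpr het
    have hsum := red_add hd' hP hE
    -- the sum of the reductions is affine
    obtain ⟨Q, hQ⟩ : ∃ Q : EPt At Bt, Q = EPt.mk X0 Y0 h0 + et := ⟨_, rfl⟩
    have hQ0 : Q ≠ 0 := by
      rw [hQ]
      intro h1
      exact hbet (eq_neg_of_add_eq_zero_left h1)
    obtain ⟨R, hR⟩ : ∃ R : EPt (ι D.a) (ι D.b), R = EPt.mk (ι z) y h + mapPt ι e := ⟨_, rfl⟩
    change m.sp (EPt.mk X0 Y0 h0) = m'.sp (scF c hc hA hB (EPt.mk X0 Y0 h0 + et))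
    change m'.Good (scF c hc hA hB (EPt.mk X0 Y0 h0 + et)) at hg'
    rw [← hQ] at hsum hg' ⊢
    rw [← hR] at hsum
    rcases Q with _ | ⟨X', Y', H'⟩
    · exact absurd rfl hQ0
    rcases R with _ | ⟨x', y', h'⟩
    · exact absurd (show (WeierstrassCurve.Affine.Point.some X' Y' H' : EPt At Bt) = 0 from hsum) hQ0
    obtain ⟨hx', hy'⟩ : IsRes w (ι s ^ 2 * x') X' ∧ IsRes w (ι s ^ 3 * y') Y' := hsum
    -- the condition on the `x`-coordinates
    have hcond : ∀ xe ye he, e = EPt.mk xe ye he → ι z ≠ ι xe := by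
      rintro xe ye hee rfl hzz
      have hzx : z = xe := ι.toRingHom.injective hzz
      subst hzx
      rcases et with _ | ⟨Xe, Ye, hXY⟩
      · have h1 : s ^ 2 * z ∉ v.ring := het
        rw [hz] at h1
        exact h1 (isRes_const (v := v) X0).mem
      · have h1 : IsRes v (s ^ 2 * z) Xe := het.1
        rw [hz] at h1
        have h2 : Xe = X0 := h1.unique (isRes_const _)
        subst h2
        exact hXe Ye hXY rfl
    have hcross := he K ι (ι z) y x' y' h h' hR.symm hcond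
    -- the embedding twisted by `τ`
    have eA : (ι.comp (τ : L →ₐ[k] L)) D.a = ι D.a := by
      show ι (τ D.a) = ι D.a
      rw [hτa]
    have eB : (ι.comp (τ : L →ₐ[k] L)) D.b = ι D.b := by
      show ι (τ D.b) = ι D.b
      rw [hτb]
    have h'' : (sw ((ι.comp (τ : L →ₐ[k] L)) D.a) ((ι.comp (τ : L →ₐ[k] L)) D.b)).toAffine.Nonsingular
        x' y' := by
      rw [eA, eB]
      exact h'
    have ho' : Over v' (ι.comp (τ : L →ₐ[k] L)) w := hv.comp ho
    have hq : (ι.comp (τ : L →ₐ[k] L)) s' = ι (τ s' / s) * ι s := by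
      show ι (τ s') = _
      rw [← map_mul, div_mul_cancel₀ _ m.s_ne]
    have hcw : IsRes w (ι (τ s' / s)) c := ho _ _ hs
    have hred : Red w ((ι.comp (τ : L →ₐ[k] L)) s') (EPt.mk x' y' h'')
        (scF c hc hA hB (WeierstrassCurve.Affine.Point.some X' Y' H')) := by
      constructor
      · show IsRes w ((ι.comp (τ : L →ₐ[k] L)) s' ^ 2 * x') (c ^ 2 * X')
        rw [hq, mul_pow, mul_assoc]
        exact (hcw.pow 2).mul hx'
      · show IsRes w ((ι.comp (τ : L →ₐ[k] L)) s' ^ 3 * y') (c ^ 3 * Y')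
        rw [hq, mul_pow, mul_assoc]
        exact (hcw.pow 3).mul hy'
    obtain ⟨hne1, hs1, hv1⟩ := m.val hK ι ho hP hg
    obtain ⟨hne2, hs2', hv2⟩ := m'.val hK (ι.comp (τ : L →ₐ[k] L)) ho' hred hg'
    rw [← hv1, ← hv2]
    congr 2
    exact ppt_eq_of_cross hcross

end Pool.Agent.Helper21.TB
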