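import Mathlib
import Pool.Agent.Helper9.NS
import Pool.Agent.Helper21.TB.Defs
import Pool.Agent.Helper21.TB.Nice
import Pool.Agent.Helper21.TB.Tra
import Pool.Agent.Helper21.TB.ExModel
import Pool.Agent.Helper21.TB.TwistCyc
import Pool.Agent.Helper21.TB.PsiM
import Pool.Agent.Helper21.TO.Sc

/-!
# Block TB-CycB: the cycle of a point of a nice fibre
`FData D C p` is nonempty (`exists_ab`, `nice_scale`, `exists_md`, `nonsing_of_onE` or the given `h`); let
`d` be the chosen one (`dif_pos`). `traB` gives `τ ∈ B.H` with `Over d.v τ v`, `B.tw` gives `e`.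
`Md.twist_cyc` with `s = s' = 1`, `c = 1` (`τ 1 / 1 = 1`; `hA`, `hB` by `simp`/`ring`; `τ C.a = C.a` by `B.ha` and
`B.fixF`) gives `Nul (m.cyc a - d.m.cyc (scF 1 a))` and `scF_one` (TO/Sc.lean).
`cycB_odd`: for one `v`, `m`: `cycB (x, -y) ~ m.cyc (-a)`, `cycB (x, y) ~ m.cyc a`, and
`m.cyc (-a) + m.cyc a ~ m.cyc 0 = 0` (`Md.nul_cyc_add`, `Md.cyc_zero`); `EPt.mk x (-y) = - EPt.mk x y`
(`WeierstrassCurve.Affine.Point.neg_some`, `negY` with `a₁ = a₃ = 0`).
-/

set_option linter.unusedSectionVars false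

namespace Pool.Agent.Helper21.TB

open VC VF Function Polynomial
open Pool.Agent.Helper21.TO
open Pool.Agent.Helper51.VB (Ell KPt BP rs OJ)
open Pool.Agent.Helper51.VN (OnE Harm)

universe u

variable {k : Type u} [Field k] [IsAlgClosed k] [CharZero k] {F L : Type u} [Field F]
  [Algebra k F] [Field L] [Algebra k L] [Algebra F L] [IsScalarTower k F L]

theorem exists_fdata {D : Ell k F} {C : Cv k L} (B : Fb D C) {p : Place k F × k × k}
    (hP : D.Nice p.1) (h : (sw (-3 * D.a₀ p.1) (-2 * D.b₀ p.1)).toAffine.Nonsingular p.2.1 p.2.2) :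
    Nonempty (FData D C p) := by
  obtain ⟨v, hv⟩ := exists_ab D.hL C.hL p.1
  obtain ⟨h1, h2⟩ := nice_scale B hP hv
  obtain ⟨m⟩ := exists_md C v one_ne_zero h1 h2
  exact ⟨⟨v, hv, m, h⟩⟩

theorem cycB_eq {D : Ell k F} {C : Cv k L} (B : Fb D C) {p : Place k F × k × k}
    (hP : D.Nice p.1) {v : Place k L} (hv : Ab p.1 v)
    (m : Md C v 1 (-3 * D.a₀ p.1) (-2 * D.b₀ p.1))
    (h : (sw (-3 * D.a₀ p.1) (-2 * D.b₀ p.1)).toAffine.Nonsingular p.2.1 p.2.2) :
    Nul C.S (cycB D C p - m.cyc (EPt.mk p.2.1 p.2.2 h)) := by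
  classical
  have hne := exists_fdata B hP h
  unfold cycB
  rw [dif_pos hne]
  generalize hne.some = d
  obtain ⟨τ, hτ, ho⟩ := traB B hv d.hv
  obtain ⟨e, he⟩ := B.tw τ hτ
  have hτa : τ C.a = C.a := by
    rw [B.ha]
    exact B.fixF τ hτ _
  have hτb : τ C.b = C.b := by
    rw [B.hb]
    exact B.fixF τ hτ _
  have hs : IsRes v (τ 1 / 1) (1 : k) := by
    rw [map_one, div_one]
    exact isRes_one
  have h1 := Md.twist_cyc hτa hτb he ho m d.m (c := 1) one_ne_zero hs (by ring) (by ring)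
    (nice_disc hP) (EPt.mk p.2.1 p.2.2 h)
  rw [scF_one] at h1
  have h2 := h1.neg
  rwa [neg_sub] at h2

theorem cycB_odd {D : Ell k F} {C : Cv k L} (B : Fb D C) {p : Place k F × k × k}
    (hP : D.Nice p.1) (h : OnE (D.a₀ p.1) (D.b₀ p.1) p.2.1 p.2.2) :
    Nul C.S (cycB D C (p.1, p.2.1, -p.2.2) + cycB D C p) := by
  have h' : OnE (D.a₀ p.1) (D.b₀ p.1) p.2.1 (-p.2.2) := by
    unfold OnE at h ⊢
    rw [neg_sq]
    exact h
  have hn := nonsing_of_onE hP h
  have hn' := nonsing_of_onE hP h'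
  obtain ⟨d⟩ := exists_fdata B hP hn
  have h1 := cycB_eq B hP d.hv d.m hn
  have h2 := cycB_eq B (p := (p.1, p.2.1, -p.2.2)) hP d.hv d.m hn'
  have e : EPt.mk p.2.1 (-p.2.2) hn' = -EPt.mk p.2.1 p.2.2 hn := by
    have e1 : (sw (-3 * D.a₀ p.1) (-2 * D.b₀ p.1)).toAffine.negY p.2.1 p.2.2 = -p.2.2 := by
      simp [WeierstrassCurve.Affine.negY]
    rw [WeierstrassCurve.Affine.Point.neg_some]
    congr 1
    exact e1.symm
  have h3 := d.m.nul_cyc_add (-EPt.mk p.2.1 p.2.2 hn) (EPt.mk p.2.1 p.2.2 hn)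
  rw [neg_add_cancel, d.m.cyc_zero, ← e] at h3
  intro φ hφ
  have e1 := h1 φ hφ
  have e2 := h2 φ hφ
  have e3 := h3 φ hφ
  rw [map_sub] at e1 e2
  rw [map_sub, map_zero, map_add] at e3
  rw [map_add]
  linear_combination e1 + e2 - e3

end Pool.Agent.Helper21.TB
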