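import Mathlib
import Pool.Agent.Helper9.NS
import Pool.Agent.Helper21.TB.Defs
import Pool.Agent.Helper21.TB.ExModel
import Pool.Agent.Helper21.TB.FinBad
import Pool.Agent.Helper21.TB.Val

/-!
# Block TB-SecB: a multisection
Copy `kc_sec` from TO/KapConst.lean (with its auxiliary lemmas), with `s = 1` instead of `1 ^ N` and `v` arbitrary: no
base point is needed. The reduced point is `(x0, Y0)`, nonsingular as `Y0 ≠ 0`.
-/

set_option linter.unusedSectionVars false

namespace Pool.Agent.Helper21.TB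

open VC VF Function Polynomial
open Pool.Agent.Helper21.TO
open Pool.Agent.Helper51.VB (Ell KPt BP rs OJ)
open Pool.Agent.Helper51.VN (OnE Harm)

universe u

variable {k : Type u} [Field k] [IsAlgClosed k] [CharZero k] {L : Type u} [Field L] [Algebra k L]

private lemma sb_norm_ne {F : Type*} [Field F] {P Q : F[X]} (h : P ≠ 0 ∨ Q ≠ 0) (a b : F) :
    P ^ 2 - Q ^ 2 * (X ^ 3 + C a * X + C b) ≠ 0 := by
  intro h0
  have h1 : P ^ 2 = Q ^ 2 * (X ^ 3 + C a * X + C b) := sub_eq_zero.mp h0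
  have hd : (X ^ 3 + C a * X + C b : F[X]).natDegree = 3 := by compute_degree!
  have hF : (X ^ 3 + C a * X + C b : F[X]) ≠ 0 := by
    intro h2
    rw [h2, natDegree_zero] at hd
    exact absurd hd (by norm_num)
  by_cases hQ : Q = 0
  · rw [hQ] at h1
    have h2 : P ^ 2 = 0 := by rw [h1]; ring
    rcases h with h | h
    · exact h (pow_eq_zero_iff two_ne_zero |>.mp h2)
    · exact h hQ
  · have h2 := congrArg natDegree h1
    rw [natDegree_mul (pow_ne_zero 2 hQ) hF, natDegree_pow, natDegree_pow, hd] at h2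
    omega

/-- A constant which is not a root. -/
private lemma sb_finite {F : Type u} [Field F] [Algebra k F] {G : F[X]} (hG : G ≠ 0) :
    {x : k | G.eval (algebraMap k F x) = 0}.Finite := by
  refine Set.Finite.of_injOn (f := algebraMap k F) ?_ (algebraMap k F).injective.injOn
    (Polynomial.finite_setOf_isRoot hG)
  intro x hx
  exact hx

private lemma sb_unit {v : Place k L} (hL : IsFunctionField k L) {f : L} (hf : f ≠ 0)
    (h : ord v.ring f = 0) : ∃ c : k, c ≠ 0 ∧ IsRes v f c := by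
  have h1 : f ∈ v.ring := (VC.ord_nonneg_iff hL v hf).mp (by rw [h])
  obtain ⟨c, hc⟩ := exists_res hL h1
  refine ⟨c, ?_, hc⟩
  rintro rfl
  have h2 := (VC.ord_pos_iff hL v hf).mpr (isRes_zero_iff.mp hc)
  omega

private lemma sb_res_inv {K : Type u} [Field K] [Algebra k K] {v : Place k K} {x : K} {c : k}
    (h : IsRes v x c) (hc : c ≠ 0) : IsRes v x⁻¹ c⁻¹ := by
  obtain ⟨h0, h1⟩ := h.inv_mem hc
  have h2 : x⁻¹ - algebraMap k K c⁻¹ =
      (-(x⁻¹ * algebraMap k K c⁻¹)) * (x - algebraMap k K c) := by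
    have hc' : algebraMap k K c ≠ 0 := (_root_.map_ne_zero _).mpr hc
    rw [map_inv₀]
    field_simp
    ring
  unfold IsRes
  rw [h2]
  exact nonunits_mul (v.ring.neg_mem _ (v.ring.mul_mem _ _ h1 (v.algebraMap_mem _))) h

/-- The section and the exceptional places. -/
private lemma sb_sec (D : Cv k L) : ∃ (K : Type u) (_ : Field K) (_ : Algebra k K)
    (_ : Algebra L K) (_ : IsScalarTower k L K) (hK : IsFunctionField k K) (O' : D.S.Mor K)
    (T : Set (Place k L)), T.Finite ∧ ∀ v ∉ T, ∀ (At Bt : k) (m : Md D v 1 At Bt)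
      (w : Place k K), Over v (IsScalarTower.toAlgHom k L K) w →
      ∃ b : EPt At Bt, m.Good b ∧ Finsupp.single (D.S.eval hK O' w) 1 = m.sp b := by
  obtain ⟨i, hi⟩ := D.ne
  obtain ⟨x0, hx0⟩ := ((sb_finite (k := k) (sb_norm_ne hi D.a D.b)).union
    (sb_finite (k := k) (G := (X ^ 3 + C D.a * X + C D.b : L[X])) (by
      intro h2
      have hd : (X ^ 3 + C D.a * X + C D.b : L[X]).natDegree = 3 := by compute_degree!
      rw [h2, natDegree_zero] at hd
      exact absurd hd (by norm_num)))).exists_notMem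
  rw [Set.mem_union, not_or] at hx0
  obtain ⟨hx1, hx2⟩ := hx0
  obtain ⟨x, hx⟩ : ∃ x : L, x = algebraMap k L x0 := ⟨_, rfl⟩
  obtain ⟨z', hz'⟩ : ∃ z' : L, z' = x ^ 3 + D.a * x + D.b := ⟨_, rfl⟩
  obtain ⟨z, hz⟩ : ∃ z : L, z = (D.p i).eval x ^ 2 - (D.q i).eval x ^ 2 * z' := ⟨_, rfl⟩
  have hz0 : z ≠ 0 := by
    intro h
    apply hx1
    show Polynomial.eval (algebraMap k L x0) _ = 0
    rw [← hx]
    simp only [eval_sub, eval_add, eval_pow, eval_X, eval_mul, eval_C]
    rw [← hz', ← hz, h]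
  have hz'0 : z' ≠ 0 := by
    intro h
    apply hx2
    show Polynomial.eval (algebraMap k L x0) _ = 0
    rw [← hx]
    simp only [eval_add, eval_pow, eval_X, eval_mul, eval_C]
    rw [← hz', h]
  obtain ⟨K, _, _, _, _, y, hK, hy⟩ := exists_roots (k := k) D.hL (m := 2) two_ne_zero
    (fun _ : Fin 1 => z')
  obtain ⟨y0, hy0⟩ : ∃ y0, y0 = y 0 := ⟨_, rfl⟩
  obtain ⟨ι, hι⟩ : ∃ ι : L →ₐ[k] K, ι = IsScalarTower.toAlgHom k L K := ⟨_, rfl⟩
  have hιa : ∀ a, ι a = algebraMap L K a := fun a => by rw [hι]; rfl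
  have hysq : y0 ^ 2 = ι z' := by rw [hy0, hy 0, hιa]
  have hιz' : ι z' ≠ 0 := (_root_.map_ne_zero ι).mpr hz'0
  have hιz : ι z ≠ 0 := (_root_.map_ne_zero ι).mpr hz0
  have hy00 : y0 ≠ 0 := by
    intro h
    apply hιz'
    rw [← hysq, h]
    norm_num
  have hev : ∀ (Y : K) (j : Fin D.M), ev D.p D.q ι (ι x) Y j =
      ι ((D.p j).eval x) + ι ((D.q j).eval x) * Y := by
    intro Y j
    have h1 : ∀ p : L[X], p.eval₂ (ι : L →+* K) (ι x) = ι (p.eval x) := fun p =>
      Polynomial.eval₂_at_apply (ι : L →+* K) x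
    unfold ev
    rw [h1, h1]
  have hprod : ev D.p D.q ι (ι x) y0 i * ev D.p D.q ι (ι x) (-y0) i = ι z := by
    rw [hev, hev, hz, map_sub, map_mul, map_pow, map_pow, ← hysq]
    ring
  have hne : ev D.p D.q ι (ι x) y0 ≠ 0 := by
    intro h
    apply hιz
    rw [← hprod, h, Pi.zero_apply, zero_mul]
  have heqn : y0 ^ 2 = (ι x) ^ 3 + ι D.a * ι x + ι D.b := by
    rw [hysq, hz']
    simp only [map_add, map_mul, map_pow]
  have hsat : Sat D.I (ev D.p D.q ι (ι x) y0) := D.sat K ι _ _ heqn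
  have hchar : CharZero K := charZero_of_injective_algebraMap (algebraMap k K).injective
  have hns : (sw (ι D.a) (ι D.b)).toAffine.Nonsingular (ι x) y0 := by
    rw [sw_nonsingular]
    refine ⟨heqn, Or.inr ?_⟩
    intro h
    apply hy00
    have h1 : (2 : K) * y0 = 0 := by linear_combination h
    rcases mul_eq_zero.mp h1 with h2 | h2
    · exact absurd h2 two_ne_zero
    · exact h2
  classical
  let E : Finset L := (Finset.univ.biUnion fun j => (D.p j).coeffs) ∪
    (Finset.univ.biUnion fun j => (D.q j).coeffs) ∪ {z, z'}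
  have hE0 : ∀ e ∈ E, e ≠ 0 := by
    intro e he
    simp only [E, Finset.mem_union, Finset.mem_biUnion, Finset.mem_univ, true_and,
      Finset.mem_insert, Finset.mem_singleton] at he
    rcases he with (⟨j, hj⟩ | ⟨j, hj⟩) | h | h
    · obtain ⟨n, hn, rfl⟩ := Polynomial.mem_coeffs_iff.mp hj
      exact Polynomial.mem_support_iff.mp hn
    · obtain ⟨n, hn, rfl⟩ := Polynomial.mem_coeffs_iff.mp hj
      exact Polynomial.mem_support_iff.mp hn
    · rw [h]; exact hz0
    · rw [h]; exact hz'0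
  have hEp : ∀ j n, (D.p j).coeff n ≠ 0 → (D.p j).coeff n ∈ E := by
    intro j n h
    simp only [E, Finset.mem_union, Finset.mem_biUnion, Finset.mem_univ, true_and]
    exact Or.inl (Or.inl ⟨j, Polynomial.coeff_mem_coeffs h⟩)
  have hEq : ∀ j n, (D.q j).coeff n ≠ 0 → (D.q j).coeff n ∈ E := by
    intro j n h
    simp only [E, Finset.mem_union, Finset.mem_biUnion, Finset.mem_univ, true_and]
    exact Or.inl (Or.inr ⟨j, Polynomial.coeff_mem_coeffs h⟩)
  have hEz : z ∈ E := by simp [E]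
  have hEz' : z' ∈ E := by simp [E]
  refine ⟨K, inferInstance, inferInstance, inferInstance, inferInstance, hK, ppt _ hne hsat,
    ⋃ e ∈ E, {v : Place k L | ord v.ring e ≠ 0}, ?_, ?_⟩
  · exact Set.Finite.biUnion E.finite_toSet fun e he => finite_support_ord D.hL (hE0 e he)
  · intro v hv At Bt m w ho
    rw [← hι] at ho
    have hunit : ∀ e ∈ E, ∃ c : k, c ≠ 0 ∧ IsRes v e c := by
      intro e he
      refine sb_unit D.hL (hE0 e he) ?_
      by_contra h
      exact hv (Set.mem_biUnion (show e ∈ (E : Set L) from he) h)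
    obtain ⟨s, hs⟩ : ∃ s : L, s = 1 := ⟨_, rfl⟩
    have hs1 : s = 1 := hs
    have hsn : ∀ n : ℕ, s⁻¹ ^ n = 1 := fun n => by rw [hs1, inv_one, one_pow]
    revert m
    rw [← hs]
    intro m
    -- the common factor is a unit
    obtain ⟨cc, hcc0, hcc⟩ : ∃ c : k, c ≠ 0 ∧ IsRes v m.c c := by
      obtain ⟨j, hj⟩ := m.ne
      rcases hj with hj | hj
      · have h1 := m.hP j (m.P j).natDegree
        rw [hsn, mul_one] at h1
        have h2 : (m.P j).coeff (m.P j).natDegree ≠ 0 := leadingCoeff_ne_zero.mpr hj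
        have h3 := h1.ne_zero h2
        obtain ⟨c', hc'0, hc'⟩ := hunit _ (hEp j _ (right_ne_zero_of_mul h3))
        have h4 := h1.mul (sb_res_inv hc' hc'0)
        rw [mul_assoc, mul_inv_cancel₀ (right_ne_zero_of_mul h3), mul_one] at h4
        exact ⟨_, mul_ne_zero h2 (inv_ne_zero hc'0), h4⟩
      · have h1 := m.hQ j (m.Q j).natDegree
        rw [hsn, mul_one] at h1
        have h2 : (m.Q j).coeff (m.Q j).natDegree ≠ 0 := leadingCoeff_ne_zero.mpr hj
        have h3 := h1.ne_zero h2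
        obtain ⟨c', hc'0, hc'⟩ := hunit _ (hEq j _ (right_ne_zero_of_mul h3))
        have h4 := h1.mul (sb_res_inv hc' hc'0)
        rw [mul_assoc, mul_inv_cancel₀ (right_ne_zero_of_mul h3), mul_one] at h4
        exact ⟨_, mul_ne_zero h2 (inv_ne_zero hc'0), h4⟩
    obtain ⟨e, he0, he⟩ := hunit _ hEz'
    obtain ⟨d, hd0, hd⟩ := hunit _ hEz
    obtain ⟨Y0, hY0, hY0e⟩ := exists_res_of_pow hK two_ne_zero (x := y0) (v := w) (c := e) (by
      rw [hysq]
      exact ho _ _ he)
    have hY00 : Y0 ≠ 0 := by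
      rintro rfl
      apply he0
      rw [← hY0e]
      norm_num
    have hxr : IsRes w (ι x) x0 := ho _ _ (by rw [hx]; exact isRes_const x0)
    have hxr' : IsRes w (ι s ^ 2 * ι x) x0 := by
      rw [hs1, map_one, one_pow, one_mul]
      exact hxr
    have hyr : IsRes w (ι s ^ 3 * y0) Y0 := by
      rw [hs1, map_one, one_pow, one_mul]
      exact hY0
    have hyr' : IsRes w (ι s ^ 3 * -y0) (-Y0) := by
      rw [hs1, map_one, one_pow, one_mul]
      exact hY0.neg
    have hevt : m.evt x0 Y0 ≠ 0 := by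
      intro h
      have h1 := (m.isRes_ev ι ho hxr' hyr i).mul (m.isRes_ev ι ho hxr' hyr' i)
      rw [h, Pi.zero_apply, zero_mul] at h1
      have h2 : ι m.c * ev D.p D.q ι (ι x) y0 i * (ι m.c * ev D.p D.q ι (ι x) (-y0) i) =
          ι (m.c * m.c * z) := by
        rw [map_mul, map_mul, ← hprod]
        ring
      rw [h2] at h1
      have h3 := ho _ _ ((hcc.mul hcc).mul hd)
      exact mul_ne_zero (mul_ne_zero hcc0 hcc0) hd0 (h3.unique h1)
    have hAr : IsRes v D.a At := by
      have h1 := m.hA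
      rwa [hs1, one_pow, one_mul] at h1
    have hBr : IsRes v D.b Bt := by
      have h1 := m.hB
      rwa [hs1, one_pow, one_mul] at h1
    have hns' : (sw At Bt).toAffine.Nonsingular x0 Y0 := by
      rw [sw_nonsingular]
      refine ⟨?_, Or.inr ?_⟩
      · rw [hY0e]
        have h1 : IsRes v z' (x0 ^ 3 + At * x0 + Bt) := by
          rw [hz']
          have hxv : IsRes v x x0 := by rw [hx]; exact isRes_const x0
          exact ((hxv.pow 3).add (hAr.mul hxv)).add hBr
        exact he.unique h1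
      · intro h
        apply hY00
        have h1 : (2 : k) * Y0 = 0 := by linear_combination h
        rcases mul_eq_zero.mp h1 with h2 | h2
        · exact absurd h2 two_ne_zero
        · exact h2
    refine ⟨EPt.mk x0 Y0 hns', hevt, ?_⟩
    obtain ⟨hne', hs', h⟩ := m.val hK ι ho (h := hns) (Pt := EPt.mk x0 Y0 hns') ⟨hxr', hyr⟩ hevt
    exact h

theorem exists_secB (C : Cv k L) : ∃ (K : Type u) (_ : Field K) (_ : Algebra k K)
    (_ : Algebra L K) (_ : IsScalarTower k L K) (hK : IsFunctionField k K) (O' : C.S.Mor K)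
    (T : Set (Place k L)), T.Finite ∧ ∀ v ∉ T, ∀ (At Bt : k) (m : Md C v 1 At Bt)
      (w : Place k K), Over v (IsScalarTower.toAlgHom k L K) w →
      ∃ b : EPt At Bt, m.Good b ∧ Finsupp.single (C.S.eval hK O' w) 1 = m.sp b := by
  exact sb_sec C

end Pool.Agent.Helper21.TB
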