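import Mathlib
import Pool.Agent.Helper9.NS
import Pool.Agent.Helper21.TB.Defs
import Pool.Agent.Helper21.TB.Hrm
import Pool.Agent.Helper21.TB.SecB
import Pool.Agent.Helper21.TB.Nice
import Pool.Agent.Helper21.TB.Tra
import Pool.Agent.Helper21.TB.CycB
import Pool.Agent.Helper21.TB.TwistCyc
import Pool.Agent.Helper21.TB.PsiM
import Pool.Agent.Helper21.TB.ExModel

/-!
# Block TB-KapB: the function on the base
`kappaB_one`: `φ_lin (m.cyc a) = 0` for all `a` (`a = 0`: `Md.cyc_zero`; `a = mk x y`: `cycB_eq` and `h`, `OnE` from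
`sw_nonsingular`). With `ψ` from `Md.lin_cyc`: `ψ = 0`, so `φ_lin (sp (a + b)) = φ_lin (sp b)` for good points.
`kappaB_two`: `traB` gives `τ ∈ B.H` with `Over v' τ v`, `e` from `B.tw`; `Md.twist_sp` with `c = 1`, `s = s' = 1`
(compare TO/Kappa.lean; `κ = φ_lin (sp b)`). `exists_kapB`: take `K`, `O'`, `T` from `exists_secB`, `F → K` by composition;
`φ ∘ O'` is harmonic (`harm_kills`), `κ` is its average over `F` (`exists_avg`), `Ex` = the places of `F` which are not
nice or below a place of `T`. For `P ∉ Ex`: let `A` be the common value of `φ_lin (m.sp b)` for all `v`, `m`, `b` over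
`P` (`kappaB_two`; they exist: `exists_ab`, `nice_scale`, `exists_md`, `Md.exists_good`). For `w` over `P`, `v = VQ.res w` is over `P`,
not in `T`, so `φ (O' w) = φ_lin (m.sp b) = A` for a model `m` at `v`; so `κ P = A`.
-/

set_option linter.unusedSectionVars false

namespace Pool.Agent.Helper21.TB

open VC VF Function Polynomial
open Pool.Agent.Helper21.TO
open Pool.Agent.Helper51.VB (Ell KPt BP rs OJ)
open Pool.Agent.Helper51.VN (OnE Harm)

universe u

variable {k : Type u} [Field k] [IsAlgClosed k] [CharZero k] {F L : Type u} [Field F]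
  [Algebra k F] [Field L] [Algebra k L] [Algebra F L] [IsScalarTower k F L]

theorem kappaB_one {D : Ell k F} {C : Cv k L} (B : Fb D C) {φ : C.S.Pt → k} (hφ : Kills C.S φ)
    (h : ∀ p : Place k F × k × k, D.Nice p.1 → OnE (D.a₀ p.1) (D.b₀ p.1) p.2.1 p.2.2 →
      Finsupp.linearCombination ℤ φ (cycB D C p) = 0)
    {P : Place k F} (hP : D.Nice P) {v : Place k L} (hv : Ab P v)
    (m : Md C v 1 (-3 * D.a₀ P) (-2 * D.b₀ P)) (b b' : EPt (-3 * D.a₀ P) (-2 * D.b₀ P))
    (h1 : m.Good b) (h2 : m.Good b') :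
    Finsupp.linearCombination ℤ φ (m.sp b) = Finsupp.linearCombination ℤ φ (m.sp b') := by
  obtain ⟨ψ, hψ1, hψ2⟩ := m.lin_cyc hφ
  have hψ : ∀ a, ψ a = 0 := by
    intro a
    rcases a with _ | ⟨x, y, hxy⟩
    · exact map_zero ψ
    · have hO : OnE (D.a₀ P) (D.b₀ P) x y := by
        have h3 := (sw_nonsingular.mp hxy).1
        unfold OnE
        rw [h3]
        ring
      have h3 := cycB_eq B (p := (P, x, y)) hP hv m hxy φ hφ
      rw [map_sub, h (P, x, y) hP hO, zero_sub, neg_eq_zero] at h3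
      rw [← hψ2]
      exact h3
  have e : (b' - b) + b = b' := sub_add_cancel b' b
  have h4 := hψ1 (b' - b) b h1 (by rw [e]; exact h2)
  rw [e, hψ, sub_eq_zero] at h4
  exact h4.symm

theorem kappaB_two {D : Ell k F} {C : Cv k L} (B : Fb D C) {φ : C.S.Pt → k} (hφ : Kills C.S φ)
    (h : ∀ p : Place k F × k × k, D.Nice p.1 → OnE (D.a₀ p.1) (D.b₀ p.1) p.2.1 p.2.2 →
      Finsupp.linearCombination ℤ φ (cycB D C p) = 0)
    {P : Place k F} (hP : D.Nice P) {v v' : Place k L} (hv : Ab P v) (hv' : Ab P v')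
    (m : Md C v 1 (-3 * D.a₀ P) (-2 * D.b₀ P)) (m' : Md C v' 1 (-3 * D.a₀ P) (-2 * D.b₀ P))
    (b b' : EPt (-3 * D.a₀ P) (-2 * D.b₀ P)) (h1 : m.Good b) (h2 : m'.Good b') :
    Finsupp.linearCombination ℤ φ (m.sp b) = Finsupp.linearCombination ℤ φ (m'.sp b') := by
  obtain ⟨τ, hτ, ho⟩ := traB B hv hv'
  obtain ⟨e, he⟩ := B.tw τ hτ
  have hτa : τ C.a = C.a := by rw [B.ha]; exact B.fixF τ hτ _
  have hτb : τ C.b = C.b := by rw [B.hb]; exact B.fixF τ hτ _
  have hs : IsRes v (τ 1 / 1) (1 : k) := by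
    rw [map_one, div_one]
    exact isRes_one
  exact Md.twist_sp hτa hτb he ho m m' (c := 1) one_ne_zero hs (by ring) (by ring) (nice_disc hP)
    (fun b₁ hb₁ => kappaB_one B hφ h hP hv m b₁ b hb₁ h1)
    (fun b₁ hb₁ => kappaB_one B hφ h hP hv' m' b₁ b' hb₁ h2)

theorem exists_kapB {D : Ell k F} {C : Cv k L} (B : Fb D C) {φ : C.S.Pt → k} (hφ : Kills C.S φ)
    (h : ∀ p : Place k F × k × k, D.Nice p.1 → OnE (D.a₀ p.1) (D.b₀ p.1) p.2.1 p.2.2 →
      Finsupp.linearCombination ℤ φ (cycB D C p) = 0) :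
    ∃ (κ : Place k F → k) (Ex : Set (Place k F)), Harm D.hL κ ∧ Ex.Finite ∧ ∀ P ∉ Ex, D.Nice P ∧
      ∀ v : Place k L, Ab P v → ∀ (m : Md C v 1 (-3 * D.a₀ P) (-2 * D.b₀ P))
        (b : EPt (-3 * D.a₀ P) (-2 * D.b₀ P)), m.Good b →
        Finsupp.linearCombination ℤ φ (m.sp b) = κ P := by
  obtain ⟨K, iF, iA, iAL, iT, hK, O', T, hT, hO⟩ := exists_secB C
  let iAF : Algebra F K := ((algebraMap L K).comp (algebraMap F L)).toAlgebra
  have iT2 : IsScalarTower k F K := by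
    refine IsScalarTower.of_algebraMap_eq fun x => ?_
    change algebraMap k K x = algebraMap L K (algebraMap F L (algebraMap k F x))
    rw [← IsScalarTower.algebraMap_apply k F L, ← IsScalarTower.algebraMap_apply k L K]
  obtain ⟨κ, hκ, hκ2⟩ := exists_avg D.hL hK (harm_kills hφ hK O')
  refine ⟨κ, {P | ¬ D.Nice P} ∪ {P | ∃ v ∈ T, Ab P v}, hκ, ?_, ?_⟩
  · refine (finite_not_nice D).union ((hT.image (VQ.res D.hL C.hL)).subset ?_)
    rintro P ⟨v, hv, hPv⟩
    exact ⟨v, hv, (ab_iff D.hL C.hL).mp hPv⟩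
  · intro P hP
    rw [Set.mem_union, not_or] at hP
    have hN : D.Nice P := not_not.mp hP.1
    refine ⟨hN, fun v hv m b hg => ?_⟩
    symm
    apply hκ2
    intro w hw
    have ho := over_res C.hL hK w
    obtain ⟨v', hv'⟩ : ∃ v', v' = VQ.res C.hL hK w := ⟨_, rfl⟩
    rw [← hv'] at ho
    have hPv' : Ab P v' := by
      rw [over_ab D.hL C.hL ho]
      have h1 := over_res D.hL hK w
      rw [hw] at h1
      exact h1
    have hvT : v' ∉ T := fun hmem => hP.2 ⟨v', hmem, hPv'⟩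
    obtain ⟨h3, h4⟩ := nice_scale B hN hPv'
    obtain ⟨m'⟩ := exists_md C v' one_ne_zero h3 h4
    obtain ⟨b', hb1, hb2⟩ := hO v' hvT _ _ m' w ho
    have h5 := kappaB_two B hφ h hN hv hPv' m m' b b' hg hb1
    rw [h5, ← hb2, Finsupp.linearCombination_single, one_smul]

end Pool.Agent.Helper21.TB
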