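import Mathlib
import Pool.Agent.Helper9.NS
import Pool.Agent.Helper21.TB.Defs

/-!
# Block TB-PlaceOf: a morphism to the base from a homomorphism
First case: `ψ` is injective. `Algebra.adjoin k V` has the fraction field `F` (`hgen`:
`IntermediateField.adjoin k V = ⊤`; every element of `IntermediateField.adjoin` is a quotient of two elements of
`Algebra.adjoin`: `IntermediateField.mem_adjoin_iff_div`), so `ψ` extends to `ι : F →ₐ[k] K` (`IsFractionRing.lift`, or
`IsLocalization.lift`). Take `c' = Sum.inr ι`; for `w`, `Q` as in the condition: `Place.comap hF hK ι w` and `Q` have the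
same residues on `V` (`over_comap` and `Over.isRes_iff`, TO/Defs), so they are equal by `hsep`.
Second case: `ψ a = 0`, `a ≠ 0`. `a` is not in `k` (`ψ` is `k`-linear), so it is transcendental over `k`. For `h` in
`Algebra.adjoin k V`: `h` is algebraic over `k (a)` (`F` has transcendence degree one), so there is a nonzero
polynomial `f ∈ k[X][Y]` with `f (a, h) = 0`; dividing by a power of `X` (the algebra is a domain) we may
assume that `f (0, Y) ≠ 0`. So `f (0, ψ h) = 0`, `ψ h` is algebraic over `k`, `ψ h = algebraMap (c h)`. If there are no `w`, `Q` with the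
condition take any `c'` (`Sum.inl` of a place, `VC.exists_place`). Otherwise take `c' = Sum.inl Q0` for one such `Q0`; every such
`Q` has the residues `c h` on `V` (uniqueness of residues), so `Q = Q0` by `hsep`.
-/

set_option linter.unusedSectionVars false

namespace Pool.Agent.Helper21.TB

open VC VF Function Polynomial
open Pool.Agent.Helper21.TO
open Pool.Agent.Helper51.VB (Ell KPt BP rs OJ)
open Pool.Agent.Helper51.VN (OnE Harm)

universe u

variable {k : Type u} [Field k] [IsAlgClosed k] [CharZero k] {F : Type u} [Field F] [Algebra k F]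

open scoped IntermediateField.algebraAdjoinAdjoin in
private lemma hom_alg {F' K' : Type u} [Field F'] [Algebra k F'] [Field K'] [Algebra k K']
    (hF : IsFunctionField k F') (V : Set F') (ψ : Algebra.adjoin k V →ₐ[k] K')
    (a : Algebra.adjoin k V) (ha : a ≠ 0) (hψa : ψ a = 0) (h : Algebra.adjoin k V) :
    ∃ c : k, ψ h = algebraMap k K' c := by
  have hmem : ∀ x : K', IsAlgebraic k x → ∃ c : k, x = algebraMap k K' c := by
    intro x hx
    have hint : IsIntegral k x := hx.isIntegral
    have hdeg := IsAlgClosed.degree_eq_one_of_irreducible k (minpoly.irreducible hint)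
    obtain ⟨b, hb⟩ := minpoly.mem_range_of_degree_eq_one k x hdeg
    exact ⟨b, hb.symm⟩
  apply hmem
  by_cases htr : Transcendental k (h : F')
  · have hfin := hF.finiteDimensional htr
    have halg : IsAlgebraic (IntermediateField.adjoin k {(h : F')}) (a : F') :=
      Algebra.IsAlgebraic.isAlgebraic _
    have halg' : IsAlgebraic (Algebra.adjoin k {(h : F')}) (a : F') :=
      (IsFractionRing.isAlgebraic_iff (Algebra.adjoin k {(h : F')})
        (IntermediateField.adjoin k {(h : F')}) F').2 halg
    obtain ⟨q, hq0, hq⟩ := halg'.exists_nonzero_coeff_and_aeval_eq_zero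
      (mem_nonZeroDivisors_of_ne_zero (fun h0 => ha (Subtype.ext h0)))
    have hle : Algebra.adjoin k {(h : F')} ≤ Algebra.adjoin k V := by
      rw [Algebra.adjoin_le_iff, Set.singleton_subset_iff]
      exact h.2
    let j := Subalgebra.inclusion hle
    have h1 : Polynomial.eval₂ j.toRingHom a q = 0 := by
      apply Subtype.ext
      have h2 : ((Polynomial.eval₂ j.toRingHom a q : Algebra.adjoin k V) : F') =
          Polynomial.aeval (a : F') q := by
        rw [Polynomial.aeval_def]
        exact Polynomial.hom_eval₂ q j.toRingHom (Algebra.adjoin k V).val.toRingHom a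
      rw [h2, hq]
      rfl
    have h3 : Polynomial.eval₂ (ψ.toRingHom.comp j.toRingHom) (ψ a) q = 0 := by
      have h4 := Polynomial.hom_eval₂ q j.toRingHom ψ.toRingHom a
      rw [h1, map_zero] at h4
      exact h4.symm
    rw [hψa, Polynomial.eval₂_at_zero] at h3
    obtain ⟨p, hp⟩ : ∃ p : k[X], Polynomial.aeval (h : F') p = (q.coeff 0 : F') := by
      exact (Algebra.adjoin_singleton_eq_range_aeval k (h : F')).le (q.coeff 0).2
    have hp0 : p ≠ 0 := by
      rintro rfl
      rw [map_zero] at hp
      exact hq0 (Subtype.ext hp.symm)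
    have h6 : j (q.coeff 0) = Polynomial.aeval h p := by
      apply Subtype.ext
      have h7 : ((Polynomial.aeval h p : Algebra.adjoin k V) : F') = Polynomial.aeval (h : F') p :=
        (Polynomial.aeval_algHom_apply (Algebra.adjoin k V).val h p).symm
      rw [h7, hp]
      rfl
    refine ⟨p, hp0, ?_⟩
    rw [Polynomial.aeval_algHom_apply, ← h6]
    exact h3
  · rw [Transcendental, not_not] at htr
    obtain ⟨p, hp0, hp⟩ := htr
    refine ⟨p, hp0, ?_⟩
    rw [Polynomial.aeval_algHom_apply]
    have h7 : ((Polynomial.aeval h p : Algebra.adjoin k V) : F') = Polynomial.aeval (h : F') p :=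
      (Polynomial.aeval_algHom_apply (Algebra.adjoin k V).val h p).symm
    have h8 : (Polynomial.aeval h p : Algebra.adjoin k V) = 0 := by
      apply Subtype.ext
      rw [h7, hp]
      rfl
    rw [h8, map_zero]

theorem place_of (hF : IsFunctionField k F) (V : Finset F)
    (hgen : IntermediateField.adjoin k (V : Set F) = ⊤)
    (hsep : ∀ Q Q' : Place k F, (∀ h ∈ V, ∃ c, IsRes Q h c ∧ IsRes Q' h c) → Q = Q')
    {K : Type u} [Field K] [Algebra k K] (hK : IsFunctionField k K)
    (ψ : Algebra.adjoin k (V : Set F) →ₐ[k] K) :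
    ∃ c' : (curve hF).Mor K, ∀ (w : Place k K) (Q : Place k F),
      (∀ (h : F) (hh : h ∈ V), ∃ c,
        IsRes w (ψ ⟨h, Algebra.subset_adjoin hh⟩) c ∧ IsRes Q h c) →
      (curve hF).eval hK c' w = Q := by
  by_cases hinj : Injective ψ
  · have hfr : IsFractionRing (Algebra.adjoin k (V : Set F)) F := by
      refine IsFractionRing.of_field _ _ fun x => ?_
      have hx : x ∈ IntermediateField.adjoin k (V : Set F) := by
        rw [hgen]
        exact IntermediateField.mem_top
      obtain ⟨r, hr, s, hs, e⟩ := IntermediateField.mem_adjoin_iff_div.1 hx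
      exact ⟨⟨r, hr⟩, ⟨s, hs⟩, e⟩
    let ι : F →ₐ[k] K := IsFractionRing.liftAlgHom (g := ψ) hinj
    have hι : ∀ z : Algebra.adjoin k (V : Set F), ι (z : F) = ψ z := fun z =>
      IsFractionRing.lift_algebraMap hinj z
    refine ⟨Sum.inr ι, fun w Q hQ => ?_⟩
    change Place.comap hF hK ι w = Q
    apply hsep
    intro h hh
    obtain ⟨c, h1, h2⟩ := hQ h hh
    refine ⟨c, ?_, h2⟩
    rw [← hι] at h1
    exact ((over_comap hF hK ι w).isRes_iff hF).1 h1
  · obtain ⟨a, ha, hψa⟩ : ∃ a : Algebra.adjoin k (V : Set F), a ≠ 0 ∧ ψ a = 0 := by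
      rw [injective_iff_map_eq_zero] at hinj
      push Not at hinj
      obtain ⟨a, h1, h2⟩ := hinj
      exact ⟨a, h2, h1⟩
    have hc := fun h => hom_alg hF (V : Set F) ψ a ha hψa h
    choose c hc using hc
    by_cases hex : ∃ (w : Place k K) (Q : Place k F), ∀ (h : F) (hh : h ∈ V), ∃ c,
        IsRes w (ψ ⟨h, Algebra.subset_adjoin hh⟩) c ∧ IsRes Q h c
    · obtain ⟨w0, Q0, h0⟩ := hex
      have key : ∀ (w : Place k K) (Q : Place k F), (∀ (h : F) (hh : h ∈ V), ∃ c,
          IsRes w (ψ ⟨h, Algebra.subset_adjoin hh⟩) c ∧ IsRes Q h c) → ∀ (h : F) (hh : h ∈ V),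
          IsRes Q h (c ⟨h, Algebra.subset_adjoin hh⟩) := by
        intro w Q hQ h hh
        obtain ⟨e, h1, h2⟩ := hQ h hh
        rw [hc] at h1
        rwa [h1.unique (isRes_const _)] at h2
      refine ⟨Sum.inl Q0, fun w Q hQ => ?_⟩
      change Q0 = Q
      apply hsep
      intro h hh
      exact ⟨_, key w0 Q0 h0 h hh, key w Q hQ h hh⟩
    · obtain ⟨t, ht, -⟩ := id hF
      obtain ⟨P, -⟩ := VC.exists_place hF ht
      exact ⟨Sum.inl P, fun w Q hQ => absurd ⟨w, Q, hQ⟩ hex⟩

end Pool.Agent.Helper21.TB
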