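import Mathlib
import Pool.Agent.Helper9.NS
import Pool.Agent.Helper21.TB.Defs

/-!
# Block TB-Sep: finitely many functions which separate the places
Let `u ∈ F` be transcendental over `k`; replacing `u` by `1 / u` we may assume `u ∈ P.ring`. Let `A` be the integral
closure of `k[u]` in `F` (`Algebra.adjoin k {u}` or `k[X]` acting through `u`). `F` is finite and separable over
`k (u)`, so `A` is finite over `k[u]` (`IsIntegralClosure.finite`), hence generated as a `k`-algebra by a finite
set `V0` containing `u`; `A` is a Dedekind domain with fraction field `F` (`IsIntegralClosure.isDedekindDomain`,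
`IsIntegralClosure.isFractionRing_of_finite_extension`). `A ⊆ Q.ring` for all places `Q` with `u ∈ Q.ring` (valuation rings are
integrally closed), in particular for `P`. Let `V = V0`, so `IntermediateField.adjoin k V = ⊤` (it contains `A`, whose
fraction field is `F`). Let `Q`, `Q'` have the same residues on `V` (in particular `V ⊆ Q.ring, Q'.ring`). Then they have the
same residues on `A` (`Algebra.adjoin_induction`), so `A ∩ Q.nonunits = A ∩ Q'.nonunits = p`, a maximal ideal.
The localisation `A_p` is a discrete valuation ring. Let `f ∈ Q.ring`. If `f ∈ A_p`, `f = a / b`, `b ∉ p`, then `b` is a unit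
of `Q'.ring` and `f ∈ Q'.ring`. Otherwise `1 / f` is a nonunit of `A_p`, so `1 / f = a / b` with `a ∈ p`, `b ∉ p`, a
nonunit of `Q.ring`, so `f ∉ Q.ring`. By symmetry `Q = Q'` (`Place.ext`).
-/

set_option linter.unusedSectionVars false

namespace Pool.Agent.Helper21.TB

open VC VF Function Polynomial
open Pool.Agent.Helper21.TO
open Pool.Agent.Helper51.VB (Ell KPt BP rs OJ)
open Pool.Agent.Helper51.VN (OnE Harm)

universe u

variable {k : Type u} [Field k] [IsAlgClosed k] [CharZero k] {F : Type u} [Field F] [Algebra k F]

omit [IsAlgClosed k] [CharZero k] in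
private lemma transcendental_sub_23 {t : F} (ht : Transcendental k t)
    (a : k) : Transcendental k (t - algebraMap k F a) := by
  intro h
  apply ht
  have := h.add (isAlgebraic_algebraMap a)
  rwa [sub_add_cancel] at this

/-- Integral over `k[t]`. -/
private def Int23 (t b : F) : Prop :=
  ((aeval t : k[X] →ₐ[k] F) : k[X] →+* F).IsIntegralElem b

open IntermediateField WithZero IsDedekindDomain in
private lemma place_eq_23 (hF : IsFunctionField k F) {t : F} (htr : Transcendental k t)
    {Q Q' : Place k F} (hQ : t ∈ Q.ring.nonunits) (hQ' : t ∈ Q'.ring.nonunits)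
    (h : ∀ b : F, Int23 (k := k) t b → (b ∈ Q.ring.nonunits ↔ b ∈ Q'.ring.nonunits)) : Q = Q' := by
  have hfin := hF.finiteDimensional htr
  let i1 : Algebra k[X] F := polyAlg t
  let i3 : Algebra (RatFunc k) F := ratAlg t htr
  have s1 : IsScalarTower k k[X] F := IsScalarTower.of_algebraMap_eq (fun x =>
    (aeval t : k[X] →ₐ[k] F).commutes x |>.symm)
  have s3 : IsScalarTower k[X] (RatFunc k) F := IsScalarTower.of_algebraMap_eq (fun x =>
    (ratAlg_poly t htr x).symm)
  have f1 : FiniteDimensional (RatFunc k) F := finiteDimensional_ratAlg t htr hfin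
  have hc0 : CharZero (RatFunc k) :=
    charZero_of_injective_algebraMap (algebraMap k (RatFunc k)).injective
  have hBd : IsDedekindDomain (integralClosure k[X] F) :=
    integralClosure.isDedekindDomain k[X] (RatFunc k) F
  have hBf : IsFractionRing (integralClosure k[X] F) F :=
    integralClosure.isFractionRing_of_finite_extension (RatFunc k) F
  have f1 : FaithfulSMul k[X] (integralClosure k[X] F) := by
    rw [faithfulSMul_iff_algebraMap_injective]
    intro x y hxy
    have h := congrArg (algebraMap (integralClosure k[X] F) F) hxy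
    rw [← IsScalarTower.algebraMap_apply, ← IsScalarTower.algebraMap_apply,
      IsScalarTower.algebraMap_apply k[X] (RatFunc k) F,
      IsScalarTower.algebraMap_apply k[X] (RatFunc k) F] at h
    exact IsFractionRing.injective k[X] (RatFunc k) ((algebraMap (RatFunc k) F).injective h)
  have hX : algebraMap k[X] F X = t := by
    change aeval t X = t
    simp
  have hP : OverZero Q := by
    unfold OverZero
    rw [hX]
    exact hQ
  have hP' : OverZero Q' := by
    unfold OverZero
    rw [hX]
    exact hQ'
  apply center_injective (integralClosure k[X] F) Q Q' hP hP'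
  ext b
  rw [mem_center, mem_center]
  apply h
  exact b.2

open IntermediateField WithZero IsDedekindDomain in
private lemma gens_23 (hF : IsFunctionField k F) {t : F} (htr : Transcendental k t) :
    ∃ (n : ℕ) (s : Fin n → F), (∀ i, Int23 (k := k) t (s i)) ∧
      (∀ b : F, Int23 (k := k) t b → ∃ c : Fin n → k[X], b = ∑ i, aeval t (c i) * s i) ∧
      ∀ x : F, ∃ a b : F, Int23 (k := k) t a ∧ Int23 (k := k) t b ∧ b ≠ 0 ∧ x = a / b := by
  have hfin := hF.finiteDimensional htr
  let i1 : Algebra k[X] F := polyAlg t
  let i3 : Algebra (RatFunc k) F := ratAlg t htr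
  have s1 : IsScalarTower k k[X] F := IsScalarTower.of_algebraMap_eq (fun x =>
    (aeval t : k[X] →ₐ[k] F).commutes x |>.symm)
  have s3 : IsScalarTower k[X] (RatFunc k) F := IsScalarTower.of_algebraMap_eq (fun x =>
    (ratAlg_poly t htr x).symm)
  have f1 : FiniteDimensional (RatFunc k) F := finiteDimensional_ratAlg t htr hfin
  have hc0 : CharZero (RatFunc k) :=
    charZero_of_injective_algebraMap (algebraMap k (RatFunc k)).injective
  have hBf : IsFractionRing (integralClosure k[X] F) F :=
    integralClosure.isFractionRing_of_finite_extension (RatFunc k) F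
  have hBfin : Module.Finite k[X] (integralClosure k[X] F) :=
    IsIntegralClosure.finite k[X] (RatFunc k) F (integralClosure k[X] F)
  obtain ⟨n, s, hs⟩ := Module.Finite.exists_fin (R := k[X]) (M := integralClosure k[X] F)
  refine ⟨n, fun i => (s i : F), fun i => (s i).2, ?_, ?_⟩
  · intro b hb
    have h1 : (⟨b, hb⟩ : integralClosure k[X] F) ∈ Submodule.span k[X] (Set.range s) := by
      rw [hs]
      exact Submodule.mem_top
    rw [Submodule.mem_span_range_iff_exists_fun] at h1
    obtain ⟨c, hc⟩ := h1
    refine ⟨c, ?_⟩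
    have h2 := congrArg (fun z : integralClosure k[X] F => (z : F)) hc
    simp only [AddSubmonoidClass.coe_finsetSum] at h2
    rw [← h2]
    apply Finset.sum_congr rfl
    intro i _
    change c i • (s i : F) = _
    rw [Algebra.smul_def]
    rfl
  · intro x
    obtain ⟨a, b, hb, hab⟩ := IsFractionRing.div_surjective (A := integralClosure k[X] F) x
    refine ⟨(a : F), (b : F), a.2, b.2, ?_, hab.symm⟩
    intro h0
    apply nonZeroDivisors.ne_zero hb
    exact Subtype.ext h0

private lemma mem_of_int_23 {t : F} {Q : Place k F} (ht : t ∈ Q.ring) {b : F}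
    (hb : Int23 (k := k) t b) : b ∈ Q.ring := by
  have h0 : ∀ p : k[X], ((aeval t : k[X] →ₐ[k] F) : k[X] →+* F) p ∈ Q.ring := by
    intro p
    change aeval t p ∈ Q.ring
    induction p using Polynomial.induction_on with
    | C a => rw [aeval_C]; exact Q.algebraMap_mem a
    | add p q hp hq => rw [map_add]; exact Q.ring.add_mem _ _ hp hq
    | monomial n a ih =>
      rw [pow_succ, ← mul_assoc, map_mul, aeval_X]
      exact Q.ring.mul_mem _ _ ih ht
  let f : k[X] →+* Q.ring := (((aeval t : k[X] →ₐ[k] F) : k[X] →+* F)).codRestrict Q.ring h0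
  obtain ⟨p, hp, hp'⟩ := hb
  have h1 : IsIntegral Q.ring b := by
    refine ⟨p.map f, hp.map f, ?_⟩
    rw [Polynomial.eval₂_map]
    exact hp'
  obtain ⟨y, hy⟩ := IsIntegrallyClosed.isIntegral_iff.mp h1
  rw [← hy]
  exact y.2

private lemma int_sub_23 {t b : F} (c : k) (hb : Int23 (k := k) (t - algebraMap k F c) b) :
    Int23 (k := k) t b := by
  obtain ⟨p, hp, hp'⟩ := hb
  refine ⟨p.map (compRingHom (X - C c)), hp.map _, ?_⟩
  rw [Polynomial.eval₂_map]
  have h1 : (((aeval t : k[X] →ₐ[k] F) : k[X] →+* F)).comp (compRingHom (X - C c)) =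
      ((aeval (t - algebraMap k F c) : k[X] →ₐ[k] F) : k[X] →+* F) := by
    apply Polynomial.ringHom_ext
    · intro a
      simp
    · simp
  rw [h1]
  exact hp'

theorem exists_sep (hF : IsFunctionField k F) (P : Place k F) : ∃ V : Finset F,
    (∀ h ∈ V, h ∈ P.ring) ∧ (∃ t ∈ V, Transcendental k t) ∧
    IntermediateField.adjoin k (V : Set F) = ⊤ ∧
    ∀ Q Q' : Place k F, (∀ h ∈ V, ∃ c, IsRes Q h c ∧ IsRes Q' h c) → Q = Q' := by
  classical
  obtain ⟨u, hu, -⟩ := id hF
  obtain ⟨t, ht, htP⟩ : ∃ t : F, Transcendental k t ∧ t ∈ P.ring := by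
    rcases P.ring.mem_or_inv_mem u with h | h
    · exact ⟨u, hu, h⟩
    · exact ⟨u⁻¹, VP.transcendental_inv hu, h⟩
  obtain ⟨n, s, hs, hgen, hfrac⟩ := gens_23 hF ht
  refine ⟨insert t (Finset.univ.image s), ?_, ⟨t, Finset.mem_insert_self _ _, ht⟩, ?_, ?_⟩
  · intro h hh
    rw [Finset.mem_insert, Finset.mem_image] at hh
    rcases hh with rfl | ⟨i, _, rfl⟩
    · exact htP
    · exact mem_of_int_23 htP (hs i)
  · rw [eq_top_iff]
    intro x _
    have ht' : t ∈ IntermediateField.adjoin k
        ((insert t (Finset.univ.image s) : Finset F) : Set F) :=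
      IntermediateField.subset_adjoin k _ (by simp)
    have hs' : ∀ i, s i ∈ IntermediateField.adjoin k
        ((insert t (Finset.univ.image s) : Finset F) : Set F) := fun i =>
      IntermediateField.subset_adjoin k _ (by simp)
    have hp : ∀ p : k[X], aeval t p ∈ IntermediateField.adjoin k
        ((insert t (Finset.univ.image s) : Finset F) : Set F) := by
      intro p
      induction p using Polynomial.induction_on with
      | C a => rw [aeval_C]; exact IntermediateField.algebraMap_mem _ a
      | add p q hp hq => rw [map_add]; exact add_mem hp hq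
      | monomial n a ih =>
        rw [pow_succ, ← mul_assoc, map_mul, aeval_X]
        exact mul_mem ih ht'
    have hb : ∀ b, Int23 (k := k) t b → b ∈ IntermediateField.adjoin k
        ((insert t (Finset.univ.image s) : Finset F) : Set F) := by
      intro b hb
      obtain ⟨c, rfl⟩ := hgen b hb
      exact sum_mem fun i _ => mul_mem (hp _) (hs' i)
    obtain ⟨a, b, ha, hb', _, rfl⟩ := hfrac x
    exact div_mem (hb a ha) (hb b hb')
  · intro Q Q' h
    obtain ⟨c, hc, hc'⟩ := h t (Finset.mem_insert_self _ _)
    have key : ∀ b, Int23 (k := k) t b → ∃ d, IsRes Q b d ∧ IsRes Q' b d := by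
      intro b hb
      obtain ⟨e, rfl⟩ := hgen b hb
      have h1 : ∀ i, ∃ d, IsRes Q (s i) d ∧ IsRes Q' (s i) d := fun i =>
        h (s i) (by simp)
      choose d hd hd' using h1
      exact ⟨∑ i, (e i).eval c * d i, IsRes.sum _ fun i _ => hc.poly.mul (hd i),
        IsRes.sum _ fun i _ => hc'.poly.mul (hd' i)⟩
    refine place_eq_23 hF (t := t - algebraMap k F c) (transcendental_sub_23 ht c) hc hc' ?_
    intro b hb
    obtain ⟨d, hd, hd'⟩ := key b (int_sub_23 c hb)
    rw [← isRes_zero_iff, ← isRes_zero_iff]
    constructor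
    · intro h0
      rw [h0.unique hd]
      exact hd'
    · intro h0
      rw [h0.unique hd']
      exact hd

end Pool.Agent.Helper21.TB
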