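import Mathlib
import Pool.Agent.Helper9.NS
import Pool.Agent.Helper21.TB.Defs
import Pool.Agent.Helper21.TB.KapB
import Pool.Agent.Helper21.TB.Sep
import Pool.Agent.Helper21.TB.PlaceOf
import Pool.Agent.Helper21.TB.CloDef
import Pool.Agent.Helper21.TB.GoodCurveB
import Pool.Agent.Helper21.TB.Hrm
import Pool.Agent.Helper21.TB.Pull
import Pool.Agent.Helper21.TO.Hom

/-!
# Block TB-ConstX: functionals with vanishing transform come from the base
`κ`, `Ex` from `exists_kapB`. First part: let `(P, s)` be in the closure. Choose `i0` with `s i0 ≠ 0` and replace `s` by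
`s / s i0` (`clo_smul`, `Sat.smul`, the same point by `ppt_eq_of_cross`). `g = ev ι0 x y`; `g i0 ≠ 0`: otherwise the form
`X i0` vanishes at `g`, is in `C.I` (`hI`), and `s i0 = 0`. `V` from `exists_sep` for `P`, `χ0` from `exists_homB` for
`j = ι0.comp (toAlgHom k F L)` (`hres`: `VF.exists_res`), then `good_curveB` gives `K`, `c`, `v0`, `T`, `ψ`, and `place_of` gives
`c'` with `(curve D.hL).eval hK c' w = Q` for the `Q` of all `w ∉ T`, and `(curve D.hL).eval hK c' v0 = P` (the residues of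
`ψ h` at `v0` and of `h` at `P` are both `χ0 (j h)`). The function `w ↦ φ (c (w)) - κ (c' (w))` is harmonic (`harm_kills` for
`φ`, `harm_curve` and `harm_kills` for `κ` and `curve D.hL`, `harm_sub`), and zero for `w ∉ T`: `φ (c (w)) = φ_lin (m.sp b) = κ Q`.
So it is zero at `v0` (`harm_zero`): `φ (s) = κ P`.
Second part (`κ` constant `= c`): for any point `s` choose `i0` as before, `V = ∅`, `χ0` from `exists_hom` (TO/Hom.lean; its
condition holds as forms vanishing at `g` are in `C.I`), `good_curveB`: `φ (c (w)) = κ Q = c` for `w ∉ T`, so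
`φ (s) = c` (`harm_const`, `harm_zero`).
-/

set_option linter.unusedSectionVars false

namespace Pool.Agent.Helper21.TB

open VC VF Function Polynomial
open Pool.Agent.Helper21.TO
open Pool.Agent.Helper51.VB (Ell KPt BP rs OJ)
open Pool.Agent.Helper51.VN (OnE Harm)

universe u

variable {k : Type u} [Field k] [IsAlgClosed k] [CharZero k] {F L : Type u} [Field F]
  [Algebra k F] [Field L] [Algebra k L] [Algebra F L] [IsScalarTower k F L]

theorem const_X {D : Ell k F} {C : Cv k L} (B : Fb D C) {Ω : Type u} [Field Ω] [Algebra k Ω]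
    (ι0 : L →ₐ[k] Ω) (x y : Ω) (he : y ^ 2 = x ^ 3 + ι0 C.a * x + ι0 C.b)
    (hI : ∀ (P : MvPolynomial (Fin C.M) k) (n : ℕ), P.IsHomogeneous n →
      MvPolynomial.aeval (ev C.p C.q ι0 x y) P = 0 → P ∈ C.I)
    {φ : C.S.Pt → k} (hφ : Kills C.S φ)
    (h : ∀ p : Place k F × k × k, D.Nice p.1 → OnE (D.a₀ p.1) (D.b₀ p.1) p.2.1 p.2.2 →
      Finsupp.linearCombination ℤ φ (cycB D C p) = 0) :
    ∃ κ : Place k F → k, Harm D.hL κ ∧
      (∀ (P : Place k F) (s : Fin C.M → k) (hs : s ≠ 0) (hss : Sat C.I s),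
        Clo (ι0.comp (IsScalarTower.toAlgHom k F L)) (ev C.p C.q ι0 x y) P s →
        φ (ppt s hs hss) = κ P) ∧
      ∀ c : k, (∀ P, κ P = c) → ∀ s : C.S.Pt, φ s = c := by
  obtain ⟨κ, Ex, hκ, hEx, hκE⟩ := exists_kapB B hφ h
  obtain ⟨g, hg⟩ : ∃ g, g = ev C.p C.q ι0 x y := ⟨_, rfl⟩
  -- nonvanishing coordinates
  have hg0 : ∀ (s : Fin C.M → k), Sat C.I s → ∀ i, s i ≠ 0 → ev C.p C.q ι0 x y i ≠ 0 := by
    intro s hss i hi h0
    apply hi
    have h1 : MvPolynomial.aeval (ev C.p C.q ι0 x y) (MvPolynomial.X i : MvPolynomial (Fin C.M) k) = 0 := by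
      rw [MvPolynomial.aeval_X]
      exact h0
    have h2 := hss _ (hI _ 1 (MvPolynomial.isHomogeneous_X k i) h1) 1 (MvPolynomial.isHomogeneous_X k i)
    rwa [MvPolynomial.aeval_X] at h2
  -- normalization
  have hnorm : ∀ (s : Fin C.M → k) (hs : s ≠ 0) (hss : Sat C.I s), ∃ (i0 : Fin C.M) (c : k)
      (hs' : (fun i => c * s i) ≠ 0), c * s i0 = 1 ∧ s i0 ≠ 0 ∧
      ppt s hs hss = ppt (fun i => c * s i) hs' (hss.smul c) := by
    intro s hs hss
    obtain ⟨i0, hi0⟩ := Function.ne_iff.mp hs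
    have hi0' : s i0 ≠ 0 := hi0
    have h1 : (s i0)⁻¹ * s i0 = 1 := inv_mul_cancel₀ hi0'
    refine ⟨i0, (s i0)⁻¹, ?_, h1, hi0', ?_⟩
    · intro h0
      have h2 := congrFun h0 i0
      rw [Pi.zero_apply, h1] at h2
      exact one_ne_zero h2
    · apply ppt_eq_of_cross
      intro i j
      ring
  -- the values at the good points
  have hval : ∀ (K : Type u) [Field K] [Algebra k K] (hK : IsFunctionField k K) (c : C.S.Mor K)
      (w : Place k K) (Q : Place k F) (v : Place k L) (_ : Ab Q v)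
      (m : Md C v 1 (-3 * D.a₀ Q) (-2 * D.b₀ Q)) (b : EPt (-3 * D.a₀ Q) (-2 * D.b₀ Q)),
      Q ∉ Ex → m.Good b → Finsupp.single (C.S.eval hK c w) 1 = m.sp b →
      φ (C.S.eval hK c w) = κ Q := by
    intro K _ _ hK c w Q v hQv m b hQ hgood hsp
    have h1 := (hκE Q hQ).2 v hQv m b hgood
    rw [← hsp, Finsupp.linearCombination_single, one_smul] at h1
    exact h1
  refine ⟨κ, hκ, ?_, ?_⟩
  · intro P s₁ hs₁ hss₁ hclo₁
    obtain ⟨i0, r, hs, hsi, hi0, e⟩ := hnorm s₁ hs₁ hss₁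
    rw [e]
    have hclo := clo_smul hclo₁ r
    have hgi := hg0 s₁ hss₁ i0 hi0
    obtain ⟨V, hVP, hVt, hVgen, hVsep⟩ := exists_sep D.hL P
    obtain ⟨χ0, hχ1, hχ2⟩ := exists_homB (ι0.comp (IsScalarTower.toAlgHom k F L))
      (ev C.p C.q ι0 x y) i0 hgi P (fun f hf => exists_res D.hL hf) (fun i => r * s₁ i) hsi hclo
      (V : Set F) (fun a ha => hVP a ha)
    obtain ⟨K, _, _, hK, c, v0, T, ψ, hc0, hψ0, hT, hw⟩ := good_curveB B ι0 x y he Ex hEx i0 hgi V χ0
      (fun i => r * s₁ i) hs (hss₁.smul r) hχ1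
    obtain ⟨c', hc'⟩ := place_of D.hL V hVgen hVsep hK ψ
    have hmem : ∀ a ∈ V, (ι0.comp (IsScalarTower.toAlgHom k F L)) a ∈
        Algebra.adjoin k (Set.range (fun i => ev C.p C.q ι0 x y i / ev C.p C.q ι0 x y i0) ∪
        (ι0.comp (IsScalarTower.toAlgHom k F L)) '' (V : Set F)) := fun a ha =>
      Algebra.subset_adjoin (Or.inr ⟨a, ha, rfl⟩)
    have hP : (curve D.hL).eval hK c' v0 = P := hc' v0 P fun a ha =>
      ⟨χ0 ⟨_, hmem a ha⟩, hψ0 a ha (hmem a ha), hχ2 a ha (hmem a ha)⟩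
    have harm : Harm hK (fun w => φ (C.S.eval hK c w) - κ ((curve D.hL).eval hK c' w)) :=
      harm_sub (harm_kills hφ hK c) (harm_kills (harm_curve hκ) hK c')
    have hz : ∀ w ∉ T, φ (C.S.eval hK c w) - κ ((curve D.hL).eval hK c' w) = 0 := by
      intro w hwT
      obtain ⟨Q, v, hQv, m, b, hN, hQE, hgood, hsp, hr⟩ := hw w hwT
      have h1 := hval K hK c w Q v hQv m b hQE hgood hsp
      have h2 : (curve D.hL).eval hK c' w = Q := hc' w Q hr
      rw [h1, h2, sub_self]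
    have h3 := harm_zero harm hT hz v0
    have h4 : φ (C.S.eval hK c v0) - κ ((curve D.hL).eval hK c' v0) = 0 := h3
    rw [hc0, hP, sub_eq_zero] at h4
    exact h4
  · intro c₁ hc₁ p
    obtain ⟨s₁, hs₁, hss₁, rfl⟩ := exists_ppt p
    obtain ⟨i0, r, hs, hsi, hi0, e⟩ := hnorm s₁ hs₁ hss₁
    rw [e]
    have hgi := hg0 s₁ hss₁ i0 hi0
    have hset : Set.range (fun i => ev C.p C.q ι0 x y i / ev C.p C.q ι0 x y i0) ∪
        (ι0.comp (IsScalarTower.toAlgHom k F L)) '' ((∅ : Finset F) : Set F) =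
        Set.range (fun i => ev C.p C.q ι0 x y i / ev C.p C.q ι0 x y i0) := by
      rw [Finset.coe_empty, Set.image_empty, Set.union_empty]
    obtain ⟨χ0, hχ1⟩ : ∃ χ0 : Algebra.adjoin k
        (Set.range (fun i => ev C.p C.q ι0 x y i / ev C.p C.q ι0 x y i0) ∪
        (ι0.comp (IsScalarTower.toAlgHom k F L)) '' ((∅ : Finset F) : Set F)) →ₐ[k] k,
        ∀ (i : Fin C.M) (hi : ev C.p C.q ι0 x y i / ev C.p C.q ι0 x y i0 ∈ Algebra.adjoin k
        (Set.range (fun i => ev C.p C.q ι0 x y i / ev C.p C.q ι0 x y i0) ∪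
        (ι0.comp (IsScalarTower.toAlgHom k F L)) '' ((∅ : Finset F) : Set F))),
        χ0 ⟨_, hi⟩ = (fun i => r * s₁ i) i := by
      rw [hset]
      exact exists_hom (ev C.p C.q ι0 x y) i0 hgi (fun i => r * s₁ i) hsi
        (fun P n hn h0 => (hss₁.smul r) P (hI P n hn h0) n hn)
    obtain ⟨K, _, _, hK, c, v0, T, ψ, hc0, hψ0, hT, hw⟩ := good_curveB B ι0 x y he Ex hEx i0 hgi ∅ χ0
      (fun i => r * s₁ i) hs (hss₁.smul r) hχ1
    have harm : Harm hK (fun w => φ (C.S.eval hK c w) - c₁) :=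
      harm_sub (harm_kills hφ hK c) (harm_const hK c₁)
    have hz : ∀ w ∉ T, φ (C.S.eval hK c w) - c₁ = 0 := by
      intro w hwT
      obtain ⟨Q, v, hQv, m, b, hN, hQE, hgood, hsp, hr⟩ := hw w hwT
      rw [hval K hK c w Q v hQv m b hQE hgood hsp, hc₁ Q, sub_self]
    have h4 : φ (C.S.eval hK c v0) - c₁ = 0 := harm_zero harm hT hz v0
    rw [hc0, sub_eq_zero] at h4
    exact h4

end Pool.Agent.Helper21.TB
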