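import Mathlib
import Pool.Agent.Helper9.NS
import Pool.Agent.Helper21.TB.Defs
import Pool.Agent.Helper17.FF.Genus
import Pool.Agent.Helper51.VB.Van

/-!
# Block TB-EllOf: the data of the Jacobian fibration
`al = - a / 3`, `be = - b / 2`, `be ^ 2 - al ^ 3 = (4 a ^ 3 + 27 b ^ 2) / 108`. `al ≠ 0`: otherwise `a ^ 3 = 0 = 0 * ..`, against
`hj 0`. `be ≠ 0`: otherwise `a ^ 3 = (1 / 4) (4 a ^ 3 + 27 b ^ 2)`, against `hj (1 / 4)`. `hj`: if
`be ^ 2 = c (be ^ 2 - al ^ 3)` then `27 b ^ 2 = c (4 a ^ 3 + 27 b ^ 2)`, so `a ^ 3 = ((1 - c) / 4) (4 a ^ 3 + 27 b ^ 2)`. `N = deg E`: the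
divisor `div a + 4 E` is effective of degree `4 deg E` (`FF.deg_dv`), so `deg E ≥ 0`. If `deg E = 0` then
`div a + 4 E = 0`, `div b + 6 E = 0` (effective of degree zero), so `ord_P (a ^ 3 / b ^ 2) = 0` for all `P`, so
`a ^ 3 / b ^ 2` is constant (a nonconstant function has a pole: `VC.exists_place`-like lemma, `FF` files), against `hj`.
`R` = the support of `E`. `e1` = a pole of `j' = be ^ 2 / (be ^ 2 - al ^ 3)`, which is not constant (`hj`). `bad`: if `al`, `be` are
regular and `be ^ 2 - al ^ 3` is a unit at `e1` then `j'` is regular.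
-/

set_option linter.unusedSectionVars false

namespace Pool.Agent.Helper21.TB

open VC VF Function Polynomial
open Pool.Agent.Helper21.TO
open Pool.Agent.Helper51.VB (Ell KPt BP rs OJ gen_of_j)
open Pool.Agent.Helper51.VN (OnE Harm)

universe u

variable {k : Type u} [Field k] [IsAlgClosed k] [CharZero k] {F : Type u} [Field F] [Algebra k F]

theorem exists_ell (hF : IsFunctionField k F) (a b : F) (hd : 4 * a ^ 3 + 27 * b ^ 2 ≠ 0)
    (hj : ∀ c : k, a ^ 3 ≠ algebraMap k F c * (4 * a ^ 3 + 27 * b ^ 2))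
    (E : Place k F →₀ ℤ) (h4 : ∀ P : Place k F, 0 ≤ ord P.ring a + 4 * E P)
    (h6 : ∀ P : Place k F, 0 ≤ ord P.ring b + 6 * E P) :
    ∃ D : Ell k F, a = -3 * D.al ∧ b = -2 * D.be ∧ ((D.N : ℤ) = E.sum fun _ m => m) ∧
      D.be ^ 2 / (D.be ^ 2 - D.al ^ 3) ∉ D.e1.ring ∧ D.Gen := by
  have hch : CharZero F := charZero_of_injective_algebraMap (algebraMap k F).injective
  have h3 : (3 : F) ≠ 0 := by norm_num
  have h2 : (2 : F) ≠ 0 := by norm_num
  -- the coefficients
  obtain ⟨al, hal⟩ : ∃ al : F, al = -a / 3 := ⟨_, rfl⟩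
  obtain ⟨be, hbe⟩ : ∃ be : F, be = -b / 2 := ⟨_, rfl⟩
  have ea : a = -3 * al := by
    rw [hal]
    field_simp
  have eb : b = -2 * be := by
    rw [hbe]
    field_simp
  have ed : 4 * a ^ 3 + 27 * b ^ 2 = 108 * (be ^ 2 - al ^ 3) := by
    rw [ea, eb]
    ring
  have ha0 : a ≠ 0 := by
    intro h
    apply hj 0
    rw [h, map_zero, zero_mul]
    ring
  have hb0 : b ≠ 0 := by
    intro h
    apply hj (1 / 4)
    rw [h, map_div₀, map_one, map_ofNat]
    ring
  have hal0 : al ≠ 0 := by
    intro h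
    apply ha0
    rw [ea, h, mul_zero]
  have hbe0 : be ≠ 0 := by
    intro h
    apply hb0
    rw [eb, h, mul_zero]
  have hD0 : be ^ 2 - al ^ 3 ≠ 0 := by
    intro h
    apply hd
    rw [ed, h, mul_zero]
  have hj' : ∀ c : k, be ^ 2 ≠ algebraMap k F c * (be ^ 2 - al ^ 3) := by
    intro c hc
    apply hj ((1 - c) / 4)
    rw [ed, map_div₀, map_sub, map_one, map_ofNat, ea]
    linear_combination (-27) * hc
  -- the degree
  have hdega := FF.deg_dv hF ha0
  have hdegb := FF.deg_dv hF hb0
  have h4' : ∀ P, 0 ≤ (FF.dv hF a + 4 • E) P := by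
    intro P
    rw [Finsupp.add_apply, Finsupp.smul_apply, FF.dv_apply]
    simpa using h4 P
  have h6' : ∀ P, 0 ≤ (FF.dv hF b + 6 • E) P := by
    intro P
    rw [Finsupp.add_apply, Finsupp.smul_apply, FF.dv_apply]
    simpa using h6 P
  have hdeg : 0 < FF.deg E := by
    have h7 := FF.deg_nonneg h4'
    rw [map_add, hdega, map_nsmul, zero_add] at h7
    have h8 : 0 ≤ FF.deg E := by
      rw [nsmul_eq_mul] at h7
      push_cast at h7
      omega
    rcases h8.lt_or_eq with h9 | h9
    · exact h9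
    · exfalso
      have e1 := FF.eq_zero_of_deg h4' (by rw [map_add, hdega, map_nsmul, ← h9]; simp)
      have e2 := FF.eq_zero_of_deg h6' (by rw [map_add, hdegb, map_nsmul, ← h9]; simp)
      have hord : ∀ P : Place k F, 0 ≤ ord P.ring (a ^ 3 / b ^ 2) := by
        intro P
        have f1 := DFunLike.congr_fun e1 P
        have f2 := DFunLike.congr_fun e2 P
        rw [Finsupp.add_apply, Finsupp.smul_apply, FF.dv_apply, Finsupp.coe_zero,
          Pi.zero_apply, nsmul_eq_mul] at f1 f2
        rw [FF.ord_div hF P (pow_ne_zero 3 ha0) (pow_ne_zero 2 hb0), FF.ord_pow hF P ha0,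
          FF.ord_pow hF P hb0]
        push_cast at f1 f2 ⊢
        omega
      obtain ⟨c, hc⟩ := FF.exists_const_of_dv_eq_zero hF hord
      have hc2 : a ^ 3 = algebraMap k F c * b ^ 2 := by
        rw [hc]
        field_simp
      have hc3 : 4 * c + 27 ≠ 0 := by
        intro h
        apply hd
        have h10 : (4 : F) * algebraMap k F c + 27 = 0 := by
          have h11 := congrArg (algebraMap k F) h
          rw [map_add, map_mul, map_ofNat, map_ofNat, map_zero] at h11
          exact h11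
        rw [hc2]
        linear_combination b ^ 2 * h10
      apply hj (c / (4 * c + 27))
      have hc4 : (4 : F) * algebraMap k F c + 27 ≠ 0 := by
        intro h
        apply hc3
        apply (algebraMap k F).injective
        rw [map_add, map_mul, map_ofNat, map_ofNat, map_zero]
        exact h
      rw [map_div₀, map_add, map_mul, map_ofNat, map_ofNat, hc2, div_mul_eq_mul_div,
        eq_div_iff hc4]
      ring
  -- a pole of the invariant
  have hj0 : be ^ 2 / (be ^ 2 - al ^ 3) ≠ 0 := div_ne_zero (pow_ne_zero 2 hbe0) hD0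
  obtain ⟨e1, he1⟩ : ∃ P : Place k F, ord P.ring (be ^ 2 / (be ^ 2 - al ^ 3)) < 0 := by
    by_contra hcon
    push Not at hcon
    obtain ⟨c, hc⟩ := FF.exists_const_of_dv_eq_zero hF hcon
    apply hj' c
    rw [hc]
    field_simp
  have he1' : be ^ 2 / (be ^ 2 - al ^ 3) ∉ e1.ring := by
    intro h
    have := (FF.ord_nonneg_iff hF e1 hj0).2 h
    omega
  have hoa : ∀ P : Place k F, ord P.ring al = ord P.ring a := by
    intro P
    have e : a = algebraMap k F (-3) * al := by
      rw [map_neg, map_ofNat]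
      exact ea
    have hc : (-3 : k) ≠ 0 := by norm_num
    conv_rhs => rw [e]
    rw [FF.ord_mul hF P ((_root_.map_ne_zero _).2 hc) hal0, FF.ord_algebraMap hF P hc, zero_add]
  have hob : ∀ P : Place k F, ord P.ring be = ord P.ring b := by
    intro P
    have e : b = algebraMap k F (-2) * be := by
      rw [map_neg, map_ofNat]
      exact eb
    have hc : (-2 : k) ≠ 0 := by norm_num
    conv_rhs => rw [e]
    rw [FF.ord_mul hF P ((_root_.map_ne_zero _).2 hc) hbe0, FF.ord_algebraMap hF P hc, zero_add]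
  have hsum : (E.sum fun _ m => m) = ((FF.deg E).toNat : ℤ) := by
    rw [Int.toNat_of_nonneg hdeg.le, FF.deg_eq]
  refine ⟨{ hL := hF, al := al, be := be, hD := hD0,
            E := E, N := (FF.deg E).toNat, deg := hsum,
            h4 := fun P _ => by rw [hoa]; exact h4 P,
            h6 := fun P _ => by rw [hob]; exact h6 P,
            R := E.support,
            nice := fun P _ _ _ hP => Finsupp.notMem_support_iff.1 hP, e1 := e1,
            bad0 := fun _ => ?_ }, ea, eb, hsum.symm, he1', gen_of_j ?_ hj'⟩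
  swap
  · change 1 ≤ (FF.deg E).toNat
    omega
  rintro ⟨_, h7, h8, _⟩
  rw [FF.ord_div hF e1 (pow_ne_zero 2 hbe0) hD0, FF.ord_pow hF e1 hbe0, h8] at he1
  have h9 := (FF.ord_nonneg_iff hF e1 hbe0).2 h7
  push_cast at he1
  omega

end Pool.Agent.Helper21.TB
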