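import Mathlib
import Pool.Agent.Helper9.NS
import Pool.Agent.Helper21.TB.Defs
import Pool.Agent.Helper21.TB.Nice
import Pool.Agent.Helper21.TB.ExModel
import Pool.Agent.Helper21.TB.CycB
import Pool.Agent.Helper21.TO.MapPt
import Pool.Agent.Helper21.TO.RedMap
import Pool.Agent.Helper21.TO.RedAdd
import Pool.Agent.Helper21.TO.FinPt
import Pool.Agent.Helper21.TB.FinBad
import Pool.Agent.Helper21.TB.Val
import Pool.Agent.Helper21.TB.PsiM

/-!
# Block TB-StarC: points over a constant point of the base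
`exists_ab`, `nice_scale`, `exists_md`: a place `v` over `P` and a model `m : Md C v 1 At Bt`, `At = -3 a₀`,
`Bt = -2 b₀`. The point `P0 = mk x y : EPt (algebraMap At) (algebraMap Bt)` (`algebraMap k K (-3 * a₀) =
-3 * algebraMap a₀`; nonsingular as the discriminant is not zero). `RedData w 1 (algebraMap At) (algebraMap Bt) At Bt` is
trivial, so `P0` has a reduction `Pt w` at every `w` (`red_exists`). `Z w = m.cyc (Pt w)`. If `x → X`,
`y → Y` then `Pt w = mk X Y` and `Z w ~ cycB` (`cycB_eq`); if `x` is not regular then `Pt w = 0`,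
`Z w = m.cyc 0 = 0`. The last part as in TO/Star2.lean, over `K₂`: choose `b ∈ EPt At Bt` such that `b` and
`Pt (res w) + b` are good for all `w ∈ T` (`Md.finite_bad`, `Md.finite_bad_add`, `infinite_EPt`). The constant
point `mapPt (Algebra.ofId k K₂) b` reduces to `b`, and `P0' + b` (with `P0'` the point `P0` in `K₂`, `mapPt`)
reduces to `Pt (res w) + b` (`red_map`, `red_add`), so it is affine `mk x' y'` if `T` is not empty. Take
`P = evt x' y'`, `Q = evt b` (`Md.val_const`), `Md.nul_cyc`. If `T` is empty take constants.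
-/

set_option linter.unusedSectionVars false

namespace Pool.Agent.Helper21.TB

open VC VF Function Polynomial
open Pool.Agent.Helper21.TO
open Pool.Agent.Helper51.VB (Ell KPt BP rs OJ)
open Pool.Agent.Helper51.VN (OnE Harm)

universe u

variable {k : Type u} [Field k] [IsAlgClosed k] [CharZero k] {F L : Type u} [Field F]
  [Algebra k F] [Field L] [Algebra k L] [Algebra F L] [IsScalarTower k F L]

private lemma cast61 {K : Type u} [Field K] [Algebra k K] {a b a' b' : K} (ha : a = a')
    (hb : b = b') (P : EPt a b) :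
    ∃ P' : EPt a' b', ∀ (w : Place k K) (σ : K) (At Bt : k) (Pt : EPt At Bt),
      Red w σ P Pt → Red w σ P' Pt := by
  subst ha hb
  exact ⟨P, fun _ _ _ _ _ h => h⟩

private lemma good_affine61 {D : Cv k L} {v : Place k L} {s : L} {At Bt : k}
    {m : Md D v s At Bt} {b : EPt At Bt} (h : m.Good b) :
    ∃ X Y hXY, b = EPt.mk X Y hXY := by
  rcases b with _ | ⟨X, Y, hXY⟩
  · exact h.elim
  · exact ⟨X, Y, hXY, rfl⟩

private lemma redData61 {K : Type u} [Field K] [Algebra k K] (hK : IsFunctionField k K)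
    (At Bt : k) (w : Place k K) :
    RedData w (1 : K) (algebraMap k K At) (algebraMap k K Bt) At Bt :=
  ⟨hK, one_ne_zero, by rw [one_pow, one_mul]; exact isRes_const _,
    by rw [one_pow, one_mul]; exact isRes_const _⟩

private lemma nonsing61 {K : Type u} [Field K] [CharZero K] {a b x y : K}
    (hΔ : 4 * a ^ 3 + 27 * b ^ 2 ≠ 0) (h : y ^ 2 = x ^ 3 + a * x + b) :
    (sw a b).toAffine.Nonsingular x y := by
  rw [sw_nonsingular]
  refine ⟨h, ?_⟩
  by_contra hcon
  rw [not_or, not_not, not_not] at hcon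
  obtain ⟨h1, h2⟩ := hcon
  have h3 : 2 * y = 0 := by linear_combination h2
  have h4 : y = 0 := (mul_eq_zero.mp h3).resolve_left two_ne_zero
  apply hΔ
  have ha : a = -3 * x ^ 2 := by linear_combination -h1
  have hb : b = 2 * x ^ 3 := by
    rw [h4, ha] at h
    linear_combination -h
  rw [ha, hb]
  ring

/-- The part of the statement concerning finitely many places of a larger field. -/
private lemma fin61 {C : Cv k L} {v : Place k L} {At Bt : k} (m : Md C v 1 At Bt)
    {K : Type u} [Field K] [Algebra k K] (hK : IsFunctionField k K)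
    (P1 : EPt (algebraMap k K At) (algebraMap k K Bt)) (a : Place k K → EPt At Bt)
    (ha : ∀ w, Red w (1 : K) P1 (a w)) (T : Set (Place k K)) (hT : T.Finite) :
    ∃ P Q : C.S.Mor K, ∀ w ∈ T, Nul C.S (m.cyc (a w) -
      (Finsupp.single (C.S.eval hK P w) 1 - Finsupp.single (C.S.eval hK Q w) 1)) := by
  have hrd := redData61 hK At Bt
  rcases T.eq_empty_or_nonempty with hT0 | ⟨w0, hw0⟩
  · obtain ⟨b, hgb, -, -⟩ := m.exists_good 0 ∅ Set.finite_empty
    obtain ⟨X0, Y0, h0, rfl⟩ := good_affine61 hgb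
    obtain ⟨hs0, -⟩ := m.sp_good (h := h0) hgb
    obtain ⟨q, -⟩ := pconst K hK (ppt (m.evt X0 Y0) hgb hs0)
    refine ⟨q, q, fun w hw => ?_⟩
    rw [hT0] at hw
    exact hw.elim
  · have hfin : ({b | ¬ m.Good b} ∪ ⋃ w ∈ T, {b | ¬ m.Good (a w + b)}).Finite :=
      m.finite_bad.union (hT.biUnion fun w _ => m.finite_bad_add (a w))
    have := infinite_EPt At Bt
    obtain ⟨b, hbn⟩ := hfin.exists_notMem
    rw [Set.mem_union, not_or] at hbn
    have hgb : m.Good b := not_not.mp hbn.1
    have hgab : ∀ w ∈ T, m.Good (a w + b) := by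
      intro w hw
      by_contra hcon
      apply hbn.2
      rw [Set.mem_iUnion₂]
      exact ⟨w, hw, hcon⟩
    obtain ⟨X0, Y0, h0, hbeq⟩ := good_affine61 hgb
    have h0' : (sw (algebraMap k K At) (algebraMap k K Bt)).toAffine.Nonsingular
        (algebraMap k K X0) (algebraMap k K Y0) := nonsingular_map (Algebra.ofId k K) h0
    have hred : ∀ w : Place k K, Red w (1 : K) (EPt.mk (algebraMap k K X0) (algebraMap k K Y0) h0')
        b := by
      intro w
      rw [hbeq]
      refine ⟨?_, ?_⟩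
      · rw [one_pow, one_mul]
        exact isRes_const _
      · rw [one_pow, one_mul]
        exact isRes_const _
    have hsum := fun w : Place k K => red_add (hrd w) (ha w) (hred w)
    obtain ⟨hneQ, hsQ, -⟩ := m.val_const hK (hred w0) hgb
    obtain ⟨R, hR⟩ : ∃ R, R = P1 + EPt.mk (algebraMap k K X0) (algebraMap k K Y0) h0' := ⟨_, rfl⟩
    rw [← hR] at hsum
    rcases R with _ | ⟨x, y, h⟩
    · exfalso
      have h1 : a w0 + b = 0 := hsum w0
      have h2 := hgab w0 hw0
      rw [h1] at h2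
      exact h2
    obtain ⟨hneP, hsP, -⟩ := m.val_const hK (hsum w0) (hgab w0 hw0)
    refine ⟨ppt _ hneP hsP, ppt _ hneQ hsQ, fun w hw => ?_⟩
    obtain ⟨_, _, e1⟩ := m.val_const hK (hsum w) (hgab w hw)
    obtain ⟨_, _, e2⟩ := m.val_const hK (hred w) hgb
    have h1 := m.nul_cyc (a w) b hgb (hgab w hw)
    rw [← e1, ← e2] at h1
    exact h1

theorem starC {D : Ell k F} {C : Cv k L} (B : Fb D C) {P : Place k F} (hP : D.Nice P)
    {K : Type u} [Field K] [Algebra k K] (hK : IsFunctionField k K) (x y : K)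
    (hE : OnE (algebraMap k K (D.a₀ P)) (algebraMap k K (D.b₀ P)) x y) :
    ∃ Z : Place k K → C.S.Cycles,
      (∀ (w : Place k K) (X Y : k), IsRes w x X → IsRes w y Y →
        Nul C.S (Z w - cycB D C (P, X, Y))) ∧
      (∀ w : Place k K, x ∉ w.ring → Nul C.S (Z w)) ∧
      ∀ (K₂ : Type u) [Field K₂] [Algebra k K₂] [Algebra K K₂] [IsScalarTower k K K₂]
        (hK₂ : IsFunctionField k K₂) (T : Set (Place k K₂)), T.Finite →
        ∃ P Q : C.S.Mor K₂, ∀ w ∈ T, Nul C.S (Z (VQ.res hK hK₂ w) -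
          (Finsupp.single (C.S.eval hK₂ P w) 1 - Finsupp.single (C.S.eval hK₂ Q w) 1)) := by
  have hL := C.hL
  have hF := D.hL
  obtain ⟨v, hv⟩ := exists_ab hF hL P
  obtain ⟨hA, hB⟩ := nice_scale B hP hv
  obtain ⟨m⟩ := exists_md C v one_ne_zero hA hB
  have hdisc := nice_disc hP
  set At : k := -3 * D.a₀ P with hAt
  set Bt : k := -2 * D.b₀ P with hBt
  have hcz : CharZero K := charZero_of_injective_algebraMap (algebraMap k K).injective
  have hΔK : 4 * (algebraMap k K At) ^ 3 + 27 * (algebraMap k K Bt) ^ 2 ≠ 0 := by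
    have h1 : algebraMap k K (4 * At ^ 3 + 27 * Bt ^ 2) ≠ 0 := (_root_.map_ne_zero _).mpr hdisc
    rwa [map_add, map_mul, map_mul, map_pow, map_pow, map_ofNat, map_ofNat] at h1
  have hxy : y ^ 2 = x ^ 3 + algebraMap k K At * x + algebraMap k K Bt := by
    unfold OnE at hE
    rw [hE, hAt, hBt, map_mul, map_mul, map_neg, map_neg, map_ofNat, map_ofNat]
    ring
  have hns := nonsing61 hΔK hxy
  choose a ha using fun w : Place k K => red_exists (redData61 hK At Bt w) hdisc (EPt.mk x y hns)
  refine ⟨fun w => m.cyc (a w), ?_, ?_, ?_⟩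
  · intro w X Y hX hY
    have hXY : OnE (D.a₀ P) (D.b₀ P) X Y := by
      have h1 : IsRes w (y ^ 2) (Y ^ 2) := hY.pow 2
      have h2 : IsRes w (x ^ 3 + algebraMap k K At * x + algebraMap k K Bt)
          (X ^ 3 + At * X + Bt) :=
        ((hX.pow 3).add ((isRes_const _).mul hX)).add (isRes_const _)
      rw [← hxy] at h2
      have h3 := h1.unique h2
      unfold OnE
      rw [h3, hAt, hBt]
      ring
    have hns' := nonsing_of_onE hP hXY
    have h1 : Red w (1 : K) (EPt.mk x y hns) (EPt.mk X Y hns') := by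
      refine ⟨?_, ?_⟩
      · rw [one_pow, one_mul]
        exact hX
      · rw [one_pow, one_mul]
        exact hY
    have h2 : a w = EPt.mk X Y hns' := red_unique (ha w) h1
    have h3 := (cycB_eq B (p := (P, X, Y)) hP hv m hns').neg
    rw [neg_sub] at h3
    show Nul C.S (m.cyc (a w) - cycB D C (P, X, Y))
    rw [h2]
    exact h3
  · intro w hx
    have h1 : Red w (1 : K) (EPt.mk x y hns) (0 : EPt At Bt) := by
      show (1 : K) ^ 2 * x ∉ w.ring
      rwa [one_pow, one_mul]
    have h2 : a w = 0 := red_unique (ha w) h1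
    show Nul C.S (m.cyc (a w))
    rw [h2, m.cyc_zero]
    exact Nul.zero
  · intro K₂ _ _ _ _ hK₂ T hT
    obtain ⟨κ, hκ⟩ : ∃ κ : K →ₐ[k] K₂, κ = IsScalarTower.toAlgHom k K K₂ := ⟨_, rfl⟩
    obtain ⟨P1, hP1⟩ := cast61 (k := k) (κ.commutes At) (κ.commutes Bt)
      (mapPt κ (EPt.mk x y hns))
    have hred : ∀ w : Place k K₂, Red w (1 : K₂) P1 (a (VQ.res hK hK₂ w)) := by
      intro w
      have ho : Over (VQ.res hK hK₂ w) κ w := by
        rw [hκ]
        exact over_res hK hK₂ w
      have h1 := (red_map hK κ ho (EPt.mk x y hns) (a (VQ.res hK hK₂ w))).mpr (ha _)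
      rw [map_one] at h1
      exact hP1 _ _ _ _ _ h1
    exact fin61 m hK₂ P1 (fun w => a (VQ.res hK hK₂ w)) hred T hT

end Pool.Agent.Helper21.TB
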