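import Mathlib
import Pool.Agent.Helper9.NS
import Pool.Agent.Helper21.TB.Defs

/-!
# Block TB-EmbB: a common extension of two extensions of a function field
`L` is algebraic over `F`: `F` contains `t` transcendental over `k` (`hF`) whose image in `L` is transcendental,
and `L` is finite over `k (t)` (`VC.IsFunctionField.finiteDimensional`, Helper26/VC/Main3.lean). Let `Ω` be an
algebraic closure of `K` (`AlgebraicClosure K`, in `Type u`), an `F`-algebra via `ι0`. `IsAlgClosed.lift` gives
an `F`-homomorphism `L → Ω`. Let `K₁ ⊆ Ω` be generated over `K` by the image of `L`: `L` is finite over `F`, so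
`K₁` is generated over `K` by finitely many algebraic elements, hence finite over `K`, and a function
field by `VF.ff_ext`. Compare TO/Emb.lean (the same with `F = k (t)`; it may be copied).
-/

set_option linter.unusedSectionVars false

namespace Pool.Agent.Helper21.TB

open VC VF Function Polynomial
open Pool.Agent.Helper21.TO
open Pool.Agent.Helper51.VB (Ell KPt BP rs OJ)
open Pool.Agent.Helper51.VN (OnE Harm)

universe u

variable {k : Type u} [Field k] [IsAlgClosed k] [CharZero k] {F L : Type u} [Field F]
  [Algebra k F] [Field L] [Algebra k L] [Algebra F L] [IsScalarTower k F L]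

theorem embB (hF : IsFunctionField k F) (hL : IsFunctionField k L) {K : Type u} [Field K]
    [Algebra k K] (hK : IsFunctionField k K) (ι0 : F →ₐ[k] K) :
    ∃ (K₁ : Type u) (_ : Field K₁) (_ : Algebra k K₁) (_ : Algebra K K₁)
      (_ : IsScalarTower k K K₁) (_ : IsFunctionField k K₁) (ι : L →ₐ[k] K₁),
      ∀ f : F, ι (algebraMap F L f) = algebraMap K K₁ (ι0 f) := by
  have hfin : FiniteDimensional F L := VC.finite_of_isFunctionField hF hL
  let φ : F →ₐ[k] AlgebraicClosure K := (IsScalarTower.toAlgHom k K (AlgebraicClosure K)).comp ι0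
  let a1 : Algebra F (AlgebraicClosure K) := φ.toRingHom.toAlgebra
  have a3 : Algebra.IsAlgebraic F L := Algebra.IsAlgebraic.of_finite _ _
  let ι1 : L →ₐ[F] AlgebraicClosure K := IsAlgClosed.lift
  have hι1 : ∀ c : F, ι1 (algebraMap F L c) = algebraMap K (AlgebraicClosure K) (ι0 c) :=
    fun c => ι1.commutes c
  let b := Module.finBasis F L
  let S : Set (AlgebraicClosure K) := Set.range fun i => ι1 (b i)
  have hS : Finite S := (Set.finite_range _).to_subtype
  let K₁ : IntermediateField K (AlgebraicClosure K) := IntermediateField.adjoin K S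
  have hfin' : FiniteDimensional K K₁ := by
    apply IntermediateField.finiteDimensional_adjoin
    intro x _
    exact (Algebra.IsAlgebraic.isAlgebraic x).isIntegral
  have hmem : ∀ x : L, ι1 x ∈ K₁ := by
    intro x
    rw [← b.sum_repr x, map_sum]
    refine sum_mem fun i _ => ?_
    rw [Algebra.smul_def, map_mul, hι1]
    exact mul_mem (K₁.algebraMap_mem _) (IntermediateField.subset_adjoin K S ⟨i, rfl⟩)
  let ι : L →ₐ[k] K₁ :=
    { toFun := fun x => ⟨ι1 x, hmem x⟩
      map_one' := Subtype.ext (map_one ι1)
      map_mul' := fun x y => Subtype.ext (map_mul ι1 x y)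
      map_zero' := Subtype.ext (map_zero ι1)
      map_add' := fun x y => Subtype.ext (map_add ι1 x y)
      commutes' := fun r => Subtype.ext (by
        change ι1 (algebraMap k L r) = algebraMap k (AlgebraicClosure K) r
        rw [IsScalarTower.algebraMap_apply k F L, hι1, ι0.commutes,
          ← IsScalarTower.algebraMap_apply]) }
  exact ⟨K₁, inferInstance, inferInstance, inferInstance, inferInstance, ff_ext (F := K) hK, ι,
    fun f => Subtype.ext (hι1 f)⟩

end Pool.Agent.Helper21.TB
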