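import Mathlib
import Pool.Agent.Helper9.NS
import Pool.Agent.Helper70.VP.Basic
import Pool.Agent.Helper17.FF.Approx
import Pool.Agent.Helper21.TO.ScaleZero
import Pool.Agent.Helper21.TB.Defs
import Pool.Agent.Helper21.TB.PsiM
import Pool.Agent.Helper21.TB.TwistCyc

/-!
# TB: additive, potentially good reduction

At a place `P` of the base where the reduction is bad, but potentially good, with a minimal divisor,
an element of the inertia group acts on the reduced curve over `L` by a nontrivial scaling, so the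
cycles of degree zero on the fibre are zero.
-/

set_option linter.unusedSectionVars false

namespace Pool.Agent.Helper21.TB

open VC VF Function Polynomial
open Pool.Agent.Helper21.TO
open Pool.Agent.Helper51.VB (Ell KPt BP rs OJ)
open Pool.Agent.Helper51.VN (OnE Harm)

universe u

variable {k : Type u} [Field k] [IsAlgClosed k] [CharZero k] {F L : Type u} [Field F]
  [Algebra k F] [Field L] [Algebra k L] [Algebra F L] [IsScalarTower k F L]

private lemma isRes_inv97 {v : Place k L} {x : L} {c : k} (h : IsRes v x c) (hc : c ≠ 0) :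
    IsRes v x⁻¹ c⁻¹ := by
  obtain ⟨hx, hi⟩ := h.inv_mem hc
  have h1 : x⁻¹ - algebraMap k L c⁻¹ = -((algebraMap k L c⁻¹ * x⁻¹) * (x - algebraMap k L c)) := by
    have hc' : algebraMap k L c ≠ 0 := (_root_.map_ne_zero _).mpr hc
    rw [map_inv₀]
    field_simp
    ring
  unfold IsRes
  rw [h1]
  have h2 := nonunits_mul (v.ring.mul_mem _ _ (v.algebraMap_mem c⁻¹) hi) h
  have h3 := nonunits_mul (v.algebraMap_mem (-1)) h2
  rw [map_neg, map_one, neg_one_mul] at h3
  exact h3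

private lemma isRes_div97 {v : Place k L} {x y : L} {c d : k} (h : IsRes v x c)
    (h' : IsRes v y d) (hd : d ≠ 0) : IsRes v (x / y) (c / d) := by
  rw [div_eq_mul_inv, div_eq_mul_inv]
  exact h.mul (isRes_inv97 h' hd)

private lemma ord_zero97 (hL : IsFunctionField k L) {v : Place k L} {x : L} {c : k}
    (h : IsRes v x c) (hc : c ≠ 0) : x ≠ 0 ∧ ord v.ring x = 0 := by
  obtain ⟨hx, hi⟩ := h.inv_mem hc
  refine ⟨hx, ?_⟩
  have h1 := (FF.ord_nonneg_iff hL v hx).mpr h.mem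
  have h2 := (FF.ord_nonneg_iff hL v (inv_ne_zero hx)).mpr hi
  rw [FF.ord_inv hL v hx] at h2
  omega

/-- The elements of the Galois group fix the coefficients. -/
theorem Fb.fix_a {D : Ell k F} {C : Cv k L} (B : Fb D C) {τ : L ≃ₐ[k] L} (hτ : τ ∈ B.H) :
    τ C.a = C.a := by
  rw [B.ha]
  exact B.fixF τ hτ _

/-- The elements of the Galois group fix the coefficients. -/
theorem Fb.fix_b {D : Ell k F} {C : Cv k L} (B : Fb D C) {τ : L ≃ₐ[k] L} (hτ : τ ∈ B.H) :
    τ C.b = C.b := by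
  rw [B.hb]
  exact B.fixF τ hτ _

/-- If all elements of the decomposition group act trivially on the residue of the scaling, then the
order of the scaling is a multiple of the ramification index. -/
theorem inertiaB {D : Ell k F} {C : Cv k L} (B : Fb D C) {v : Place k L} {s : L} (hs : s ≠ 0)
    {At Bt : k} (hA : IsRes v (s ^ 4 * C.a) At) (hB : IsRes v (s ^ 6 * C.b) Bt)
    (hΔ : 4 * At ^ 3 + 27 * Bt ^ 2 ≠ 0) 
    (hno : ∀ f : F, f ≠ 0 → ord v.ring (algebraMap F L f) ≠ ord v.ring s) :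
    ∃ τ ∈ B.H, Over v ((τ : L ≃ₐ[k] L) : L →ₐ[k] L) v ∧
      ∃ c0 : k, c0 ≠ 0 ∧ c0 ≠ 1 ∧ IsRes v (τ s / s) c0 := by
  classical
  have hL := C.hL
  obtain ⟨Dt, hDt⟩ : ∃ Dt : L, Dt = 4 * C.a ^ 3 + 27 * C.b ^ 2 := ⟨_, rfl⟩
  have hDt0 : Dt ≠ 0 := by
    rw [hDt]
    exact C.hΔ
  have r1 : IsRes v (s ^ 12 * Dt) (4 * At ^ 3 + 27 * Bt ^ 2) := by
    have h4 := (isRes_const (v := v) (4 : k)).mul (hA.pow 3)
    have h27 := (isRes_const (v := v) (27 : k)).mul (hB.pow 2)
    have h := h4.add h27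
    have e : s ^ 12 * Dt = algebraMap k L 4 * (s ^ 4 * C.a) ^ 3 +
        algebraMap k L 27 * (s ^ 6 * C.b) ^ 2 := by
      rw [hDt, map_ofNat, map_ofNat]
      ring
    rw [e]
    exact h
  have fixD : ∀ τ ∈ B.H, τ Dt = Dt := by
    intro τ hτ
    rw [hDt, map_add, map_mul, map_mul, map_pow, map_pow, B.fix_a hτ, B.fix_b hτ, map_ofNat,
      map_ofNat]
  by_contra hcon
  have hone : ∀ τ ∈ B.H, Over v ((τ : L ≃ₐ[k] L) : L →ₐ[k] L) v → IsRes v (τ s / s) 1 := by
    intro τ hτ hov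
    have h1 : IsRes v (τ (s ^ 12 * Dt)) (4 * At ^ 3 + 27 * Bt ^ 2) := hov _ _ r1
    have h2 := isRes_div97 h1 r1 hΔ
    rw [div_self hΔ] at h2
    have e : τ (s ^ 12 * Dt) / (s ^ 12 * Dt) = (τ s / s) ^ 12 := by
      rw [map_mul, map_pow, fixD τ hτ]
      field_simp
    rw [e] at h2
    obtain ⟨c0, hc0, hc1⟩ := exists_res_of_pow hL (by norm_num) h2
    have hc00 : c0 ≠ 0 := by
      rintro rfl
      rw [zero_pow (by norm_num)] at hc1
      exact zero_ne_one hc1
    by_cases h3 : c0 = 1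
    · rwa [h3] at hc0
    · exact (hcon ⟨τ, hτ, hov, c0, hc00, h3, hc0⟩).elim
  -- (4)
  have hfin : Finite B.H := B.finH
  let i1 : Fintype B.H := Fintype.ofFinite B.H
  let vt : B.H → Place k L := fun τ => Place.comap hL hL ((τ : L ≃ₐ[k] L) : L →ₐ[k] L) v
  have hov : ∀ τ : B.H, Over (vt τ) ((τ : L ≃ₐ[k] L) : L →ₐ[k] L) v := fun τ =>
    over_comap hL hL _ v
  have hsτ : ∀ τ : B.H, (τ : L ≃ₐ[k] L).symm s ≠ 0 := fun τ =>
    (_root_.map_ne_zero _).mpr hs
  obtain ⟨r, hr0, hr⟩ : ∃ r : ℤ, r ≤ - ord v.ring s ∧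
      ∀ τ : B.H, r ≤ - ord (vt τ).ring ((τ : L ≃ₐ[k] L).symm s) := by
    obtain ⟨r1, hr1⟩ := (Set.finite_range fun τ : B.H =>
      - ord (vt τ).ring ((τ : L ≃ₐ[k] L).symm s)).bddBelow
    refine ⟨min r1 (- ord v.ring s), min_le_right _ _, fun τ => (min_le_left _ _).trans ?_⟩
    exact hr1 ⟨τ, rfl⟩
  obtain ⟨y, hy⟩ := FF.approx hL (insert v (Finset.univ.image vt))
    (fun P => if P = v then s else 0) r
  have hyv : IsRes v (y / s) 1 := by
    have h1 := hy v (Finset.mem_insert_self _ _)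
    rw [if_pos rfl] at h1
    have e : y / s - algebraMap k L 1 = (y - s) / s := by
      rw [map_one]
      field_simp
    unfold IsRes
    rw [e, ← FF.val_lt_one_iff hL, map_div₀]
    have h2 : 0 < FF.val hL v s := zero_lt_iff.mpr ((Valuation.ne_zero_iff _).mpr hs)
    rw [div_lt_one₀ h2]
    refine lt_of_lt_of_le h1 ?_
    rw [FF.val_eq_exp hL v hs, WithZero.exp_le_exp]
    exact hr0
  have hyt : ∀ τ : B.H, vt τ ≠ v → IsRes (vt τ) (y / (τ : L ≃ₐ[k] L).symm s) 0 := by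
    intro τ hτ
    have h1 := hy (vt τ) (Finset.mem_insert_of_mem (Finset.mem_image_of_mem _ (Finset.mem_univ τ)))
    rw [if_neg hτ, sub_zero] at h1
    rw [isRes_zero_iff, ← FF.val_lt_one_iff hL, map_div₀]
    have h2 : 0 < FF.val hL (vt τ) ((τ : L ≃ₐ[k] L).symm s) :=
      zero_lt_iff.mpr ((Valuation.ne_zero_iff _).mpr (hsτ τ))
    rw [div_lt_one₀ h2]
    refine lt_of_lt_of_le h1 ?_
    rw [FF.val_eq_exp hL _ (hsτ τ), WithZero.exp_le_exp]
    exact hr τ
  have hres : ∀ τ : B.H, IsRes v ((τ : L ≃ₐ[k] L) y / s) (if vt τ = v then 1 else 0) := by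
    intro τ
    by_cases hτ : vt τ = v
    · rw [if_pos hτ]
      have ho : Over v ((τ : L ≃ₐ[k] L) : L →ₐ[k] L) v := by
        have := hov τ
        rwa [hτ] at this
      have h1 : IsRes v ((τ : L ≃ₐ[k] L) (y / s)) 1 := ho _ _ hyv
      have h2 := hone τ.1 τ.2 ho
      have h3 := h1.mul h2
      rw [mul_one] at h3
      have e : (τ : L ≃ₐ[k] L) (y / s) * ((τ : L ≃ₐ[k] L) s / s) =
          (τ : L ≃ₐ[k] L) y / s := by
        have hne : (τ : L ≃ₐ[k] L) s ≠ 0 := (_root_.map_ne_zero _).mpr hs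
        rw [map_div₀]
        field_simp
      rw [e] at h3
      exact h3
    · rw [if_neg hτ]
      have h1 : IsRes v ((τ : L ≃ₐ[k] L) (y / (τ : L ≃ₐ[k] L).symm s)) 0 :=
        hov τ _ _ (hyt τ hτ)
      rw [map_div₀, AlgEquiv.apply_symm_apply] at h1
      exact h1
  -- (5)
  obtain ⟨Y, hY⟩ : ∃ Y : L, Y = ∑ τ : B.H, (τ : L ≃ₐ[k] L) y := ⟨_, rfl⟩
  have hYfix : ∀ σ ∈ B.H, σ Y = Y := by
    intro σ hσ
    rw [hY, map_sum]
    exact Fintype.sum_equiv (Equiv.mulLeft (⟨σ, hσ⟩ : B.H)) _ _ fun τ => rfl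
  obtain ⟨f, hf⟩ := B.fixed Y hYfix
  have hYres : IsRes v (Y / s) (∑ τ : B.H, if vt τ = v then (1 : k) else 0) := by
    rw [hY, Finset.sum_div]
    exact IsRes.sum _ fun τ _ => hres τ
  have hcard : (∑ τ : B.H, if vt τ = v then (1 : k) else 0) ≠ 0 := by
    rw [Finset.sum_ite, Finset.sum_const_zero, add_zero, Finset.sum_const, nsmul_eq_mul, mul_one]
    rw [Nat.cast_ne_zero]
    apply Finset.card_ne_zero_of_mem (a := (1 : B.H))
    rw [Finset.mem_filter]
    refine ⟨Finset.mem_univ _, ?_⟩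
    symm
    apply Over.eq_comap hL hL
    intro z c0 hz
    exact hz
  obtain ⟨hY0, hYo⟩ := ord_zero97 hL hYres hcard
  have hYne : Y ≠ 0 := by
    rintro rfl
    rw [zero_div] at hY0
    exact hY0 rfl
  rw [FF.ord_div hL v hYne hs] at hYo
  refine hno f ?_ ?_
  · rintro rfl
    exact hYne (by rw [← hf, map_zero])
  · rw [hf]
    omega

theorem Md.nul_bad {D : Ell k F} {C : Cv k L} (B : Fb D C) {v : Place k L} {P : Place k F}
    (hv : Ab P v) {e : ℤ} (hbad : 0 < ord P.ring (D.be ^ 2 - D.al ^ 3) + 12 * e)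
    (hmin : (D.al ≠ 0 ∧ ord P.ring D.al + 4 * e < 4) ∨ (D.be ≠ 0 ∧ ord P.ring D.be + 6 * e < 6))
    {s : L} {At Bt : k} (m : Md C v s At Bt) (hΔ : 4 * At ^ 3 + 27 * Bt ^ 2 ≠ 0)
    (a : EPt At Bt) : Nul C.S (m.cyc a) := by
  have hc0 : CharZero L := charZero_of_injective_algebraMap (algebraMap k L).injective
  have hcF : CharZero F := charZero_of_injective_algebraMap (algebraMap k F).injective
  have hs := m.s_ne
  have hL := C.hL
  -- the ramification index
  obtain ⟨ε, hε, hord⟩ := VP.ord_comap D.hL C.hL (IsScalarTower.toAlgHom k F L) v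
  rw [← hv.eq_comap D.hL C.hL] at hord
  -- the order of the scaling
  have e1 : 4 * C.a ^ 3 + 27 * C.b ^ 2 =
      algebraMap F L (108 * (D.be ^ 2 - D.al ^ 3)) := by
    rw [B.ha, B.hb]
    simp only [map_mul, map_neg, map_ofNat, map_sub, map_pow]
    ring
  have o1 : ord v.ring (4 * C.a ^ 3 + 27 * C.b ^ 2) = ε * ord P.ring (D.be ^ 2 - D.al ^ 3) := by
    rw [e1]
    have h108 : (108 : F) ≠ 0 := by norm_num
    have h := hord (108 * (D.be ^ 2 - D.al ^ 3)) (mul_ne_zero h108 D.hD)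
    rw [IsScalarTower.toAlgHom_apply] at h
    rw [h, FF.ord_mul D.hL P h108 D.hD]
    have h2 : ord P.ring (108 : F) = 0 := by
      have h3 := FF.ord_algebraMap D.hL P (a := (108 : k)) (by norm_num)
      rwa [map_ofNat] at h3
    rw [h2, zero_add]
  have r1 : IsRes v (s ^ 12 * (4 * C.a ^ 3 + 27 * C.b ^ 2)) (4 * At ^ 3 + 27 * Bt ^ 2) := by
    have h4 := (isRes_const (v := v) (4 : k)).mul (m.hA.pow 3)
    have h27 := (isRes_const (v := v) (27 : k)).mul (m.hB.pow 2)
    have h := h4.add h27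
    have e : s ^ 12 * (4 * C.a ^ 3 + 27 * C.b ^ 2) = algebraMap k L 4 * (s ^ 4 * C.a) ^ 3 +
        algebraMap k L 27 * (s ^ 6 * C.b) ^ 2 := by
      rw [map_ofNat, map_ofNat]
      ring
    rw [e]
    exact h
  have o2 := (ord_zero97 hL r1 hΔ).2
  rw [FF.ord_mul hL v (pow_ne_zero _ hs) C.hΔ, FF.ord_pow hL v hs, o1] at o2
  push_cast at o2
  -- the order is smaller than `ε e`
  have o3 : ord v.ring s < ε * e := by nlinarith
  -- and larger than `ε (e - 1)`
  have o4 : ε * (e - 1) < ord v.ring s := by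
    by_contra hcon
    push Not at hcon
    have reg : ∀ (z : F) (n : ℕ) (c : k), z ≠ 0 → IsRes v (s ^ n * algebraMap F L z) c →
        (n : ℤ) ≤ ord P.ring z + n * e := by
      intro z n c hz hres
      have hz' : algebraMap F L z ≠ 0 := (_root_.map_ne_zero _).mpr hz
      have h1 := (FF.ord_nonneg_iff hL v (mul_ne_zero (pow_ne_zero n hs) hz')).mpr hres.mem
      rw [FF.ord_mul hL v (pow_ne_zero n hs) hz', FF.ord_pow hL v hs] at h1
      have h2 := hord z hz
      rw [IsScalarTower.toAlgHom_apply] at h2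
      rw [h2] at h1
      have h3 : (n : ℤ) * ord v.ring s ≤ n * (ε * (e - 1)) :=
        mul_le_mul_of_nonneg_left hcon (Int.natCast_nonneg n)
      have h4 : 0 ≤ ε * (ord P.ring z + n * e - n) := by nlinarith
      by_contra h5
      push Not at h5
      have h6 : ε * (ord P.ring z + n * e - n) < 0 := mul_neg_of_pos_of_neg hε (by omega)
      omega
    have h3F : (-3 : F) ≠ 0 := by norm_num
    have h2F : (-2 : F) ≠ 0 := by norm_num
    have hu : ∀ (z : F) (c : k), c ≠ 0 → z ≠ 0 → ord P.ring (algebraMap k F c * z) = ord P.ring z := by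
      intro z c hc hz
      rw [FF.ord_mul D.hL P ((_root_.map_ne_zero _).mpr hc) hz, FF.ord_algebraMap D.hL P hc,
        zero_add]
    rcases hmin with ⟨h0, h1⟩ | ⟨h0, h1⟩
    · have hA := m.hA
      rw [B.ha] at hA
      have h2 := reg _ 4 _ (mul_ne_zero h3F h0) hA
      have h3 := hu D.al (-3) (by norm_num) h0
      rw [map_neg, map_ofNat] at h3
      rw [h3] at h2
      push_cast at h2
      omega
    · have hB := m.hB
      rw [B.hb] at hB
      have h2 := reg _ 6 _ (mul_ne_zero h2F h0) hB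
      have h3 := hu D.be (-2) (by norm_num) h0
      rw [map_neg, map_ofNat] at h3
      rw [h3] at h2
      push_cast at h2
      omega
  -- an element of the inertia group
  obtain ⟨τ, hτ, hov, c0, hc0, hc1, hres⟩ := inertiaB B hs m.hA m.hB hΔ (by
    intro f hf h
    have h2 := hord f hf
    rw [IsScalarTower.toAlgHom_apply] at h2
    rw [h2] at h
    rw [← h] at o3 o4
    have h3 : ord P.ring f < e := lt_of_mul_lt_mul_left o3 hε.le
    have h4 : e - 1 < ord P.ring f := lt_of_mul_lt_mul_left o4 hε.le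
    omega)
  obtain ⟨e', he'⟩ := B.tw τ hτ
  have hτa := B.fix_a hτ
  have hτb := B.fix_b hτ
  have hA : At = c0 ^ 4 * At := by
    have h1 : IsRes v (((τ : L ≃ₐ[k] L) : L →ₐ[k] L) (s ^ 4 * C.a)) At := hov _ _ m.hA
    have h2 : ((τ : L ≃ₐ[k] L) : L →ₐ[k] L) (s ^ 4 * C.a) = (τ s / s) ^ 4 * (s ^ 4 * C.a) := by
      change τ (s ^ 4 * C.a) = _
      rw [map_mul, map_pow, hτa]
      field_simp
    rw [h2] at h1
    exact h1.unique ((hres.pow 4).mul m.hA)
  have hB : Bt = c0 ^ 6 * Bt := by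
    have h1 : IsRes v (((τ : L ≃ₐ[k] L) : L →ₐ[k] L) (s ^ 6 * C.b)) Bt := hov _ _ m.hB
    have h2 : ((τ : L ≃ₐ[k] L) : L →ₐ[k] L) (s ^ 6 * C.b) = (τ s / s) ^ 6 * (s ^ 6 * C.b) := by
      change τ (s ^ 6 * C.b) = _
      rw [map_mul, map_pow, hτb]
      field_simp
    rw [h2] at h1
    exact h1.unique ((hres.pow 6).mul m.hB)
  intro φ hφ
  obtain ⟨ψ, -, hψ⟩ := m.lin_cyc hφ
  rw [hψ]
  apply psi_zero_of_scale hΔ hc0 hc1 hA hB ψ
  intro b
  have h3 := Md.twist_cyc hτa hτb he' hov m m hc0 hres hA hB hΔ b φ hφ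
  rw [map_sub, hψ, hψ, sub_eq_zero] at h3
  exact h3.symm

end Pool.Agent.Helper21.TB
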