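import Mathlib
import Pool.Agent.Helper9.NS
import Pool.Agent.Helper21.TB.Defs

/-!
# Block TB-Scaling: the scaling at an arbitrary place
The roots `r i` are distinct (`D.hΔ`: `4 a ^ 3 + 27 b ^ 2 = - (r0 - r1) ^ 2 (r1 - r2) ^ 2 (r2 - r0) ^ 2`, from
`D.hr` comparing coefficients: `r0 + r1 + r2 = 0`, `a = r0 r1 + r1 r2 + r2 r0`, `b = - r0 r1 r2`). The
differences are `d i = r (i + 1) - r (i + 2) = s i ^ 2`, `s i ≠ 0`. By `VF.exists_max` there is `j` with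
`d i / d j` regular at `v` for all `i`. Put `s = (D.s j)⁻¹`, so `s ^ 2 = 1 / d j`. Then
`s ^ 2 (r i - r i')` is regular for all `i, i'`, and `3 r i = (r i - r i') + (r i - r i'')`, so
`s ^ 2 r i` is regular with residue `ρ i`, `ρ 0 + ρ 1 + ρ 2 = 0`, and `ρ (j + 1) - ρ (j + 2) = 1`.
`s ^ 4 a`, `s ^ 6 b` have the residues `At = ρ0 ρ1 + ρ1 ρ2 + ρ2 ρ0`, `Bt = - ρ0 ρ1 ρ2`. If the `ρ i` are
distinct then `4 At ^ 3 + 27 Bt ^ 2 ≠ 0`. Otherwise two of them are equal, to `n`, and the third is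
`- 2 n`; `n ≠ 0` as not all are equal; `At = - 3 n ^ 2`, `Bt = 2 n ^ 3`.
-/

set_option linter.unusedSectionVars false

namespace Pool.Agent.Helper21.TB

open VC VF Function Polynomial
open Pool.Agent.Helper21.TO

universe u

variable {k : Type u} [Field k] [IsAlgClosed k] [CharZero k] {L : Type u} [Field L]
  [Algebra k L]

/-- the coefficients of the cubic polynomial -/
private theorem coeffs_47 (D : Cv k L) : D.r 0 + D.r 1 + D.r 2 = 0 ∧
    D.a = D.r 0 * D.r 1 + D.r 1 * D.r 2 + D.r 2 * D.r 0 ∧ D.b = -(D.r 0 * D.r 1 * D.r 2) := by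
  have hc0 : CharZero L := charZero_of_injective_algebraMap (algebraMap k L).injective
  have hr : ∀ z : L, z ^ 3 + D.a * z + D.b = (z - D.r 0) * (z - D.r 1) * (z - D.r 2) := by
    intro z
    have h := congrArg (Polynomial.eval z) D.hr
    rw [Fin.prod_univ_three] at h
    simpa using h
  have g0 := hr 0
  have g1 := hr 1
  have g2 := hr (-1)
  have hs1 : D.r 0 + D.r 1 + D.r 2 = 0 := by
    have g3 : (2 : L) * (D.r 0 + D.r 1 + D.r 2) = 0 := by linear_combination g1 + g2 - 2 * g0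
    exact (mul_eq_zero.1 g3).resolve_left two_ne_zero
  refine ⟨hs1, ?_, ?_⟩
  · linear_combination g1 - g0 - hs1
  · linear_combination g0

/-- the discriminant -/
private theorem disc_47 {F : Type*} [CommRing F] {x y z : F} (h : x + y + z = 0) :
    4 * (x * y + y * z + z * x) ^ 3 + 27 * (-(x * y * z)) ^ 2 =
      -((x - y) ^ 2 * (y - z) ^ 2 * (z - x) ^ 2) := by
  have h1 : z = -x - y := by linear_combination h
  rw [h1]
  ring

theorem root_ne (D : Cv k L) {i j : Fin 3} (h : i ≠ j) : D.r i ≠ D.r j := by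
  obtain ⟨h1, h2, h3⟩ := coeffs_47 D
  have h4 : 4 * D.a ^ 3 + 27 * D.b ^ 2 ≠ 0 := D.hΔ
  rw [h2, h3, disc_47 h1] at h4
  intro h5
  apply h4
  fin_cases i <;> fin_cases j <;> simp_all

theorem exists_scaling (D : Cv k L) (v : Place k L) :
    ∃ (s : L) (At Bt : k), s ≠ 0 ∧ IsRes v (s ^ 4 * D.a) At ∧ IsRes v (s ^ 6 * D.b) Bt ∧
      (4 * At ^ 3 + 27 * Bt ^ 2 ≠ 0 ∨ ∃ (n : k) (σ : Equiv.Perm (Fin 3)), n ≠ 0 ∧
        At = -3 * n ^ 2 ∧ Bt = 2 * n ^ 3 ∧ IsRes v (s ^ 2 * D.r (σ 0)) n ∧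
        IsRes v (s ^ 2 * D.r (σ 1)) n ∧ IsRes v (s ^ 2 * D.r (σ 2)) (-2 * n)) := by
  have hc0 : CharZero L := charZero_of_injective_algebraMap (algebraMap k L).injective
  obtain ⟨h1, h2, h3⟩ := coeffs_47 D
  have hd0 : ∀ i, D.r (i + 1) - D.r (i + 2) ≠ 0 := by
    intro i
    apply sub_ne_zero.2
    apply root_ne D
    fin_cases i <;> decide
  obtain ⟨j, hj, hj'⟩ := exists_max v.ring (fun i => D.r (i + 1) - D.r (i + 2))
    (fun h => hd0 0 (congrFun h 0))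
  have hsj : D.s j ≠ 0 := by
    intro h0
    apply hj
    rw [← D.hs j, h0]
    ring
  have hs2 : (D.s j)⁻¹ ^ 2 = (D.r (j + 1) - D.r (j + 2))⁻¹ := by
    rw [inv_pow, D.hs j]
  set s := (D.s j)⁻¹ with hs
  have hs0 : s ≠ 0 := inv_ne_zero hsj
  have hmem : ∀ i, s ^ 2 * D.r i ∈ v.ring := by
    intro i
    have e : s ^ 2 * D.r i = algebraMap k L (1 / 3) *
        ((D.r (i + 2 + 1) - D.r (i + 2 + 2)) * (D.r (j + 1) - D.r (j + 2))⁻¹ -
          (D.r (i + 1 + 1) - D.r (i + 1 + 2)) * (D.r (j + 1) - D.r (j + 2))⁻¹) := by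
      rw [← hs2, map_div₀, map_one, map_ofNat]
      have e2 : D.r (i + 2 + 1) - D.r (i + 2 + 2) - (D.r (i + 1 + 1) - D.r (i + 1 + 2)) =
          3 * D.r i := by
        fin_cases i
        · show D.r 0 - D.r 1 - (D.r 2 - D.r 0) = 3 * D.r 0
          linear_combination -h1
        · show D.r 1 - D.r 2 - (D.r 0 - D.r 1) = 3 * D.r 1
          linear_combination -h1
        · show D.r 2 - D.r 0 - (D.r 1 - D.r 2) = 3 * D.r 2
          linear_combination -h1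
      linear_combination -(1 / 3 : L) * s ^ 2 * e2
    rw [e]
    exact v.ring.mul_mem _ _ (isRes_const _).mem
      (v.ring.sub_mem (hj' (i + 2)) (hj' (i + 1)))
  choose ρ hρ using fun i => exists_res D.hL (hmem i)
  have hsum : ρ 0 + ρ 1 + ρ 2 = 0 := by
    have e := ((hρ 0).add (hρ 1)).add (hρ 2)
    have e2 : s ^ 2 * D.r 0 + s ^ 2 * D.r 1 + s ^ 2 * D.r 2 = 0 := by
      linear_combination s ^ 2 * h1
    rw [e2] at e
    have e3 := isRes_const (v := v) (0 : k)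
    rw [map_zero] at e3
    exact e.unique e3
  have hdj : ρ (j + 1) - ρ (j + 2) = 1 := by
    have e := (hρ (j + 1)).sub (hρ (j + 2))
    rw [← mul_sub, hs2, inv_mul_cancel₀ hj] at e
    exact e.unique isRes_one
  refine ⟨s, ρ 0 * ρ 1 + ρ 1 * ρ 2 + ρ 2 * ρ 0, -(ρ 0 * ρ 1 * ρ 2), hs0, ?_, ?_, ?_⟩
  · have e : s ^ 4 * D.a = s ^ 2 * D.r 0 * (s ^ 2 * D.r 1) + s ^ 2 * D.r 1 * (s ^ 2 * D.r 2) +
        s ^ 2 * D.r 2 * (s ^ 2 * D.r 0) := by
      rw [h2]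
      ring
    rw [e]
    exact (((hρ 0).mul (hρ 1)).add ((hρ 1).mul (hρ 2))).add ((hρ 2).mul (hρ 0))
  · have e : s ^ 6 * D.b = -(s ^ 2 * D.r 0 * (s ^ 2 * D.r 1) * (s ^ 2 * D.r 2)) := by
      rw [h3]
      ring
    rw [e]
    exact (((hρ 0).mul (hρ 1)).mul (hρ 2)).neg
  · by_cases h0 : 4 * (ρ 0 * ρ 1 + ρ 1 * ρ 2 + ρ 2 * ρ 0) ^ 3 + 27 * (-(ρ 0 * ρ 1 * ρ 2)) ^ 2 = 0
    swap
    · exact Or.inl h0
    right
    rw [disc_47 hsum] at h0
    have key : ∀ σ : Equiv.Perm (Fin 3), ρ (σ 0) = ρ (σ 1) → ρ (σ 0) + ρ (σ 1) + ρ (σ 2) = 0 →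
        (ρ 0 * ρ 1 + ρ 1 * ρ 2 + ρ 2 * ρ 0 =
          ρ (σ 0) * ρ (σ 1) + ρ (σ 1) * ρ (σ 2) + ρ (σ 2) * ρ (σ 0)) →
        (ρ 0 * ρ 1 * ρ 2 = ρ (σ 0) * ρ (σ 1) * ρ (σ 2)) →
        (∀ i, i = σ 0 ∨ i = σ 1 ∨ i = σ 2) →
        ∃ (n : k) (σ : Equiv.Perm (Fin 3)), n ≠ 0 ∧
        ρ 0 * ρ 1 + ρ 1 * ρ 2 + ρ 2 * ρ 0 = -3 * n ^ 2 ∧ -(ρ 0 * ρ 1 * ρ 2) = 2 * n ^ 3 ∧
        IsRes v (s ^ 2 * D.r (σ 0)) n ∧
        IsRes v (s ^ 2 * D.r (σ 1)) n ∧ IsRes v (s ^ 2 * D.r (σ 2)) (-2 * n) := by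
      intro σ g1 g2 g3 g4 g5
      have g6 : ρ (σ 2) = -2 * ρ (σ 0) := by linear_combination g2 + g1
      refine ⟨ρ (σ 0), σ, ?_, ?_, ?_, hρ _, ?_, ?_⟩
      · intro g7
        have g8 : ∀ i, ρ i = 0 := by
          intro i
          rcases g5 i with g | g | g
          · rw [g, g7]
          · rw [g, ← g1, g7]
          · rw [g, g6, g7, mul_zero]
        rw [g8, g8, sub_self] at hdj
        exact zero_ne_one hdj
      · rw [g3, g6, ← g1]
        ring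
      · rw [g4, g6, ← g1]
        ring
      · have := hρ (σ 1)
        rwa [← g1] at this
      · have := hρ (σ 2)
        rwa [g6] at this
    have h5 : (ρ 0 - ρ 1) ^ 2 * (ρ 1 - ρ 2) ^ 2 * (ρ 2 - ρ 0) ^ 2 = 0 := by
      linear_combination -h0
    rcases mul_eq_zero.1 h5 with h6 | h6
    · rcases mul_eq_zero.1 h6 with h7 | h7
      · have h8 := sub_eq_zero.1 ((pow_eq_zero_iff two_ne_zero).1 h7)
        exact key 1 h8 hsum rfl rfl (by decide)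
      · have h8 := sub_eq_zero.1 ((pow_eq_zero_iff two_ne_zero).1 h7)
        refine key (Equiv.addRight 1) h8 ?_ ?_ ?_ (by decide)
        · show ρ 1 + ρ 2 + ρ 0 = 0
          linear_combination hsum
        · show _ = ρ 1 * ρ 2 + ρ 2 * ρ 0 + ρ 0 * ρ 1
          ring
        · show _ = ρ 1 * ρ 2 * ρ 0
          ring
    · have h8 := sub_eq_zero.1 ((pow_eq_zero_iff two_ne_zero).1 h6)
      refine key (Equiv.addRight 2) h8 ?_ ?_ ?_ (by decide)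
      · show ρ 2 + ρ 0 + ρ 1 = 0
        linear_combination hsum
      · show _ = ρ 2 * ρ 0 + ρ 0 * ρ 1 + ρ 1 * ρ 2
        ring
      · show _ = ρ 2 * ρ 0 * ρ 1
        ring

end Pool.Agent.Helper21.TB
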