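import Mathlib
import Pool.Agent.Helper9.NS
import Pool.Agent.Helper21.TB.Defs
import Pool.Agent.Helper21.TB.Nice
import Pool.Agent.Helper21.TB.ExModel
import Pool.Agent.Helper21.TB.Scaling
import Pool.Agent.Helper21.TO.RedMap
import Pool.Agent.Helper21.TO.NodP
import Pool.Agent.Helper21.TB.Nodal
import Pool.Agent.Helper21.TB.BadNul

/-!
# Block TB-PkEx: existence of a model at every place
Let `P = VQ.res D.hL C.hL v`, so `Ab P v` (`ab_res`). If `P` is nice: `s = 1`, `nice_scale`, `exists_md`;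
`pow` with `j = 1` by `red_exists` (TO/RedMap; `RedData w (ι 1) (ι a) (ι b) At Bt` from `nice_res`,
`nice_disc`); `nice`: `ab_unique`; `bad`: `D.e1 = P` would be nice, against `D.bad`. If `P` is not nice:
`exists_scaling` (TB/Scaling) and `exists_md`; `nice` is void by `ab_unique`. If `4 At ^ 3 + 27 Bt ^ 2 ≠ 0`: `pow`
by `red_exists`; `bad`: let `Ab D.e1 v` and `j' = be ^ 2 / (be ^ 2 - al ^ 3)`; its image in `L` is
`27 b ^ 2 / (4 a ^ 3 + 27 b ^ 2) = 27 (s ^ 6 b) ^ 2 / (4 (s ^ 4 a) ^ 3 + 27 (s ^ 6 b) ^ 2)` (`B.ha`, `B.hb`), regular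
at `v` (the denominator has a nonzero residue, `VF.IsRes.inv_mem`), against the first case of `B.bad` and `Over.notMem`
(in the second case `Md.nul_bad`).
Otherwise `At = - 3 n ^ 2`, `Bt = 2 n ^ 3` (`subst`): `pow` by `nod_pow` (TO/NodP, used as in TO/PkEx.lean), and
`bad` by `Md.nul_nodal`.
-/

set_option linter.unusedSectionVars false

namespace Pool.Agent.Helper21.TB

open VC VF Function Polynomial
open Pool.Agent.Helper21.TO
open Pool.Agent.Helper51.VB (Ell KPt BP rs OJ)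
open Pool.Agent.Helper51.VN (OnE Harm)

universe u

variable {k : Type u} [Field k] [IsAlgClosed k] [CharZero k] {F L : Type u} [Field F]
  [Algebra k F] [Field L] [Algebra k L] [Algebra F L] [IsScalarTower k F L]

private lemma over_data_px {K : Type u} [Field K] [Algebra k K] (hK : IsFunctionField k K)
    (ι : L →ₐ[k] K) {v : Place k L} {w : Place k K} (ho : Over v ι w) {s : L} (hs : s ≠ 0)
    {a b : L} {At Bt : k} (hA : IsRes v (s ^ 4 * a) At) (hB : IsRes v (s ^ 6 * b) Bt) :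
    RedData w (ι s) (ι a) (ι b) At Bt := by
  refine ⟨hK, (_root_.map_ne_zero ι).mpr hs, ?_, ?_⟩
  · have h := ho _ _ hA
    rwa [map_mul, map_pow] at h
  · have h := ho _ _ hB
    rwa [map_mul, map_pow] at h

private lemma roots_map_px (C' : Cv k L) {K : Type u} [Field K] [Algebra k K] (ι : L →ₐ[k] K)
    (σ : Equiv.Perm (Fin 3)) (z : K) : z ^ 3 + ι C'.a * z + ι C'.b =
      (z - ι (C'.r (σ 0))) * (z - ι (C'.r (σ 1))) * (z - ι (C'.r (σ 2))) := by
  have h := congrArg (fun p : L[X] => p.eval₂ (ι : L →+* K) z) C'.hr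
  simp only [eval₂_add, eval₂_mul, eval₂_pow, eval₂_X, eval₂_C, eval₂_finsetProd,
    eval₂_sub] at h
  have h1 : ∏ i, (z - (ι : L →+* K) (C'.r i)) = ∏ i, (z - (ι : L →+* K) (C'.r (σ i))) :=
    (Equiv.prod_comp σ fun i => z - (ι : L →+* K) (C'.r i)).symm
  rw [h1, Fin.prod_univ_three] at h
  exact h

private lemma pole_px {D : Ell k F} {C' : Cv k L} (B : Fb D C')
    (hp : D.be ^ 2 / (D.be ^ 2 - D.al ^ 3) ∉ D.e1.ring) {v : Place k L} {s : L}
    (hs : s ≠ 0) {At Bt : k} (hA : IsRes v (s ^ 4 * C'.a) At) (hB : IsRes v (s ^ 6 * C'.b) Bt)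
    (hΔ : 4 * At ^ 3 + 27 * Bt ^ 2 ≠ 0) (he : Ab D.e1 v) : False := by
  have h1 := Over.notMem he hp
  apply h1
  have hc0 : CharZero L := charZero_of_injective_algebraMap (algebraMap k L).injective
  have hB2 := hB.pow 2
  have h4 : IsRes v (algebraMap k L 4) 4 := isRes_const _
  have h27 : IsRes v (algebraMap k L 27) 27 := isRes_const _
  rw [map_ofNat] at h4 h27
  have hden : IsRes v (4 * (s ^ 4 * C'.a) ^ 3 + 27 * (s ^ 6 * C'.b) ^ 2)
      (4 * At ^ 3 + 27 * Bt ^ 2) := (h4.mul (hA.pow 3)).add (h27.mul (hB.pow 2))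
  have hnum : IsRes v (27 * (s ^ 6 * C'.b) ^ 2) (27 * Bt ^ 2) := h27.mul (hB.pow 2)
  have hmem := v.ring.mul_mem _ _ hnum.mem (hden.inv_mem hΔ).2
  have e : (IsScalarTower.toAlgHom k F L) (D.be ^ 2 / (D.be ^ 2 - D.al ^ 3)) =
      27 * (s ^ 6 * C'.b) ^ 2 * (4 * (s ^ 4 * C'.a) ^ 3 + 27 * (s ^ 6 * C'.b) ^ 2)⁻¹ := by
    rw [IsScalarTower.toAlgHom_apply, B.ha, B.hb]
    simp only [map_div₀, map_mul, map_neg, map_ofNat, map_sub, map_pow]
    have hd : algebraMap F L D.be ^ 2 - algebraMap F L D.al ^ 3 ≠ 0 := by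
      rw [← map_pow, ← map_pow, ← map_sub]
      exact (_root_.map_ne_zero (algebraMap F L)).mpr D.hD
    have e1 : 4 * (s ^ 4 * (-3 * algebraMap F L D.al)) ^ 3 + 27 * (s ^ 6 * (-2 * algebraMap F L D.be)) ^ 2 =
        108 * s ^ 12 * (algebraMap F L D.be ^ 2 - algebraMap F L D.al ^ 3) := by ring
    rw [e1]
    have h108 : (108 : L) ≠ 0 := by norm_num
    field_simp
    ring
  rw [e]
  exact hmem

theorem exists_pkB {D : Ell k F} {C : Cv k L} (B : Fb D C) (v : Place k L) :
    Nonempty (PkB D C v) := by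
  have hab : Ab (VQ.res D.hL C.hL v) v := ab_res D.hL C.hL v
  by_cases hn : D.Nice (VQ.res D.hL C.hL v)
  · obtain ⟨hA, hB⟩ := nice_scale B hn hab
    obtain ⟨m⟩ := exists_md C v one_ne_zero hA hB
    refine ⟨⟨1, _, _, m, ?_, ?_, ?_⟩⟩
    · intro K _ _ hK ι w ho P'
      obtain ⟨Pt, hPt⟩ := red_exists (over_data_px hK ι ho one_ne_zero hA hB) (nice_disc hn) P'
      exact ⟨1, one_pos, Pt, by rwa [one_smul]⟩
    · intro P' _ hab'
      rw [ab_unique D.hL C.hL hab' hab]
      exact ⟨rfl, rfl, rfl⟩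
    · intro hN he a
      have h := ab_unique D.hL C.hL he hab
      rw [← h] at hn
      exact absurd hn (D.bad0 hN)
  · obtain ⟨s, At, Bt, hs, hA, hB, hcase⟩ := exists_scaling C v
    obtain ⟨m⟩ := exists_md C v hs hA hB
    rcases hcase with hΔ | ⟨n, σ, hn0, rfl, rfl, h0, h1, h2⟩
    · refine ⟨⟨s, At, Bt, m, ?_, ?_, ?_⟩⟩
      · intro K _ _ hK ι w ho P'
        obtain ⟨Pt, hPt⟩ := red_exists (over_data_px hK ι ho hs hA hB) hΔ P'
        exact ⟨1, one_pos, Pt, by rwa [one_smul]⟩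
      · intro P' hn' hab'
        rw [ab_unique D.hL C.hL hab' hab] at hn'
        exact absurd hn' hn
      · intro hN he a
        rcases B.bad hN with hp | ⟨h1, h2⟩
        · exact (pole_px B hp hs hA hB hΔ he).elim
        · exact m.nul_bad B he h1 h2 hΔ a
    · refine ⟨⟨s, _, _, m, ?_, ?_, fun _ _ a => m.nul_nodal hn0 a⟩⟩
      · intro K _ _ hK ι w ho P'
        have hres : ∀ i {d : k}, IsRes v (s ^ 2 * C.r i) d →
            IsRes w (ι s ^ 2 * ι (C.r i)) d := by
          intro i d h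
          have h' := ho _ _ h
          rwa [map_mul, map_pow] at h'
        have h12 : ι (C.r (σ 0)) ≠ ι (C.r (σ 1)) := by
          intro h
          have h3 := ι.toRingHom.injective h
          exact root_ne C (fun h4 => by
            have := σ.injective h4
            exact absurd this (by decide)) h3
        exact nod_pow (over_data_px hK ι ho hs hA hB) hn0 (roots_map_px C ι σ) h12 (hres _ h0)
          (hres _ h1) (hres _ h2) P'
      · intro P' hn' hab'
        rw [ab_unique D.hL C.hL hab' hab] at hn'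
        exact absurd hn' hn

end Pool.Agent.Helper21.TB
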