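import Mathlib
import Pool.Agent.Helper9.NS
import Pool.Agent.Helper21.TB.Defs
import Pool.Agent.Helper21.TO.Wa
import Pool.Agent.Helper21.TO.MapPt
import Pool.Agent.Helper21.TO.RedMap
import Pool.Agent.Helper21.TO.RedAdd
import Pool.Agent.Helper21.TO.FinPt
import Pool.Agent.Helper21.TB.FinBad
import Pool.Agent.Helper21.TB.Val
import Pool.Agent.Helper21.TB.PsiM

/-!
# Block TB-StarL: lifting a point of the Jacobian to a difference of two points
This is the second half of TO/Star1.lean (copy from `hX` on), with `R` in place of `J • P1` and without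
`star_loc`. If `T` is empty take for `P = Q` a constant point (`pconst`) in `K₃ = K` (`Algebra.id`); a point of `S`
exists by a good point (`Md.exists_good`, `Md.sp_good`) of the model at some place (`VC.exists_place`).
Otherwise: choose `X0 w` for `w ∈ T` with `X0 ^ 3 + At X0 + Bt ≠ 0` such that the points `b` with this
`x`-coordinate and `Pt w + b` are good (`exists_X`, `Md.finite_bad`, `Md.finite_bad_add`); `wa` (TO/Wa) gives
`z ∈ K` with `ι (s w) ^ 2 z → X0 w` for `w ∈ T`; `K₃ ⊇ K` contains `y`, `y ^ 2 = z ^ 3 + ι a z + ι b`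
(`VF.exists_roots`), `κ : K → K₃`, `U = mk (κ z) y`, `P' = mapPt κ R + U`. At `w` over `w0 ∈ T`: `U` reduces to a
good `b` (`red_of_x`), `P'` to `Pt w0 + b` (`red_map`, `red_add`), good, so `P'` is affine; `Md.val` with the
embedding `κ.comp ι` (`Over.comp`) computes the two values, `Md.nul_cyc` gives the claim.
-/

set_option linter.unusedSectionVars false

namespace Pool.Agent.Helper21.TB

open VC VF Function Polynomial
open Pool.Agent.Helper21.TO
open Pool.Agent.Helper51.VB (Ell KPt BP rs OJ)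
open Pool.Agent.Helper51.VN (OnE Harm)

universe u

variable {k : Type u} [Field k] [IsAlgClosed k] [CharZero k] {L : Type u} [Field L] [Algebra k L]

/-- The reduction data of a model in a larger field. -/
private lemma redData_h94 {C : Cv k L} {v : Place k L} {s : L} {At Bt : k} (m : Md C v s At Bt)
    {K : Type u} [Field K] [Algebra k K] (hK : IsFunctionField k K) (ι : L →ₐ[k] K)
    {w : Place k K} (ho : Over v ι w) : RedData w (ι s) (ι C.a) (ι C.b) At Bt := by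
  refine ⟨hK, (_root_.map_ne_zero ι).mpr m.s_ne, ?_, ?_⟩
  · have h1 := ho _ _ m.hA
    rwa [map_mul, map_pow] at h1
  · have h1 := ho _ _ m.hB
    rwa [map_mul, map_pow] at h1

/-- The surface has a point. -/
private lemma exists_pt_h94 {C : Cv k L} {v : Place k L} {s : L} {At Bt : k}
    (m : Md C v s At Bt) : Nonempty C.S.Pt := by
  obtain ⟨b, hgb, -, -⟩ := m.exists_good 0 ∅ Set.finite_empty
  rcases b with _ | ⟨X0, Y0, h0⟩
  · exact hgb.elim
  · obtain ⟨hs0, -⟩ := m.sp_good (h := h0) hgb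
    exact ⟨ppt (m.evt X0 Y0) hgb hs0⟩

theorem star_lift (C : Cv k L) {K : Type u} [Field K] [Algebra k K] (hK : IsFunctionField k K)
    (ι : L →ₐ[k] K) (R : EPt (ι C.a) (ι C.b)) (T : Set (Place k K)) (hT : T.Finite)
    (v : Place k K → Place k L) (hv : ∀ w, Over (v w) ι w) (s : Place k K → L)
    (At Bt : Place k K → k) (m : ∀ w, Md C (v w) (s w) (At w) (Bt w))
    (Pt : ∀ w, EPt (At w) (Bt w)) (hr : ∀ w ∈ T, Red w (ι (s w)) R (Pt w)) :
    ∃ (K₃ : Type u) (_ : Field K₃) (_ : Algebra k K₃) (_ : Algebra K K₃)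
      (_ : IsScalarTower k K K₃) (hK₃ : IsFunctionField k K₃) (P Q : C.S.Mor K₃),
      ∀ w : Place k K₃, VQ.res hK hK₃ w ∈ T →
        Nul C.S ((m (VQ.res hK hK₃ w)).cyc (Pt (VQ.res hK hK₃ w)) -
          (Finsupp.single (C.S.eval hK₃ P w) 1 - Finsupp.single (C.S.eval hK₃ Q w) 1)) := by
  classical
  rcases T.eq_empty_or_nonempty with hT0 | ⟨w0, hw0T⟩
  · obtain ⟨t, ht, -⟩ := id hK
    obtain ⟨w0, -⟩ := exists_place hK ht
    obtain ⟨p0⟩ := exists_pt_h94 (m w0)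
    obtain ⟨q, -⟩ := pconst K hK p0
    refine ⟨K, inferInstance, inferInstance, Algebra.id K, inferInstance, hK, q, q,
      fun w hw => ?_⟩
    rw [hT0] at hw
    exact hw.elim
  have hX : ∀ w, ∃ X : k, X ^ 3 + (At w) * X + (Bt w) ≠ 0 ∧
        ∀ Y h, (m w).Good (EPt.mk X Y h) ∧ (m w).Good (Pt w + EPt.mk X Y h) := by
    intro w
    obtain ⟨X, h1, h2⟩ := exists_X _ ((Md.finite_bad (m w)).union
      (Md.finite_bad_add (m w) (Pt w)))
    refine ⟨X, h1, fun Y h => ?_⟩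
    have h3 := h2 Y h
    simp only [Set.mem_union, Set.mem_ofPred_eq, not_or, not_not] at h3
    exact h3
  choose X0 hX1 hX2 using hX
  obtain ⟨z, hz⟩ := wa hK T hT (fun w => ι (s w) ^ 2)
    (fun w => pow_ne_zero 2 ((_root_.map_ne_zero ι).mpr (m w).s_ne)) X0
  -- the extension
  obtain ⟨K2, iF2, iA2, iAK2, iT2, y, hK2, hy⟩ := VF.exists_roots hK (m := 2) two_ne_zero
    (fun _ : Fin 1 => z ^ 3 + ι C.a * z + ι C.b)
  obtain ⟨κ, hκ⟩ : ∃ κ : K →ₐ[k] K2, κ = IsScalarTower.toAlgHom k K K2 := ⟨_, rfl⟩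
  have ho2 : ∀ w : Place k K2, Over (VQ.res hK hK2 w) κ w := by
    intro w
    rw [hκ]
    exact over_res hK hK2 w
  have ho3 : ∀ w : Place k K2, Over (v (VQ.res hK hK2 w)) (κ.comp ι) w :=
    fun w => (hv _).comp (ho2 w)
  have heq : y 0 ^ 2 = κ z ^ 3 + κ (ι C.a) * κ z + κ (ι C.b) := by
    rw [hy 0, ← map_mul, ← map_pow, ← map_add, ← map_add, hκ]
    rfl
  have hrd : ∀ w : Place k K2, RedData w (κ (ι (s (VQ.res hK hK2 w)))) (κ (ι C.a))
      (κ (ι C.b)) (At (VQ.res hK hK2 w)) (Bt (VQ.res hK hK2 w)) := fun w =>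
    (redData_h94 (m (VQ.res hK hK2 w)) hK ι (hv _)).map hK2 κ (ho2 w)
  have hzr : ∀ w : Place k K2, VQ.res hK hK2 w ∈ T →
      IsRes w (κ (ι (s (VQ.res hK hK2 w))) ^ 2 * κ z) (X0 (VQ.res hK hK2 w)) := by
    intro w hw
    have h1 := ho2 w _ _ (hz _ hw)
    rwa [map_mul, map_pow] at h1
  obtain ⟨w2, hw2⟩ := VP.exists_res hK hK2 w0
  have hw2' : VQ.res hK hK2 w2 ∈ T := by
    rw [show VQ.res hK hK2 w2 = w0 from hw2]
    exact hw0T
  have hns : (sw (κ (ι C.a)) (κ (ι C.b))).toAffine.Nonsingular (κ z) (y 0) :=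
    nonsing_of_x (hrd w2) (hX1 _) (hzr w2 hw2') heq
  -- the reductions
  have hmain : ∀ w : Place k K2, VQ.res hK hK2 w ∈ T →
      ∃ b : EPt (At (VQ.res hK hK2 w)) (Bt (VQ.res hK hK2 w)),
        Red w (κ (ι (s (VQ.res hK hK2 w)))) (EPt.mk (κ z) (y 0) hns) b ∧
        Red w (κ (ι (s (VQ.res hK hK2 w))))
          (mapPt κ R + EPt.mk (κ z) (y 0) hns) (Pt (VQ.res hK hK2 w) + b) ∧
        (m (VQ.res hK hK2 w)).Good b ∧
        (m (VQ.res hK hK2 w)).Good (Pt (VQ.res hK hK2 w) + b) := by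
    intro w hw
    obtain ⟨Y, h', -, hU⟩ := red_of_x (hrd w) (hX1 _) (hzr w hw) hns
    refine ⟨EPt.mk _ Y h', hU, ?_, (hX2 _ Y h').1, (hX2 _ Y h').2⟩
    exact red_add (hrd w) ((red_map hK κ (ho2 w) R _).mpr (hr _ hw)) hU
  obtain ⟨x', y', h', hxy⟩ : ∃ x' y' h', mapPt κ R + EPt.mk (κ z) (y 0) hns =
      EPt.mk (a := κ (ι C.a)) (b := κ (ι C.b)) x' y' h' := by
    obtain ⟨b, -, h1, -, h2⟩ := hmain w2 hw2'
    rcases hcase : mapPt κ R + EPt.mk (κ z) (y 0) hns with _ | ⟨x', y', h'⟩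
    · rw [hcase] at h1
      have h3 : Pt (VQ.res hK hK2 w2) + b = 0 := h1
      rw [h3] at h2
      exact absurd h2 id
    · exact ⟨x', y', h', rfl⟩
  rw [hxy] at hmain
  obtain ⟨b0, hr1, hr2, hg1, hg2⟩ := hmain w2 hw2'
  obtain ⟨hneQ, hsQ, -⟩ := (m (VQ.res hK hK2 w2)).val hK2 (κ.comp ι) (ho3 w2) hr1 hg1
  obtain ⟨hneP, hsP, -⟩ := (m (VQ.res hK hK2 w2)).val hK2 (κ.comp ι) (ho3 w2) hr2 hg2
  refine ⟨K2, iF2, iA2, iAK2, iT2, hK2, ppt _ hneP hsP, ppt _ hneQ hsQ, ?_⟩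
  intro w hw
  obtain ⟨b, h2, h3, h4, h5⟩ := hmain w hw
  obtain ⟨hneQ', hsQ', hQ⟩ := (m (VQ.res hK hK2 w)).val hK2 (κ.comp ι) (ho3 w) h2 h4
  obtain ⟨hneP', hsP', hP⟩ := (m (VQ.res hK hK2 w)).val hK2 (κ.comp ι) (ho3 w) h3 h5
  have h7 := (m (VQ.res hK hK2 w)).nul_cyc _ b h4 h5
  rw [← hQ, ← hP] at h7
  exact h7

end Pool.Agent.Helper21.TB
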