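import Mathlib
import Pool.Agent.Helper9.NS
import Pool.Agent.Helper21.TB.Defs
import Pool.Agent.Helper21.TB.Nice
import Pool.Agent.Helper21.TB.EmbB
import Pool.Agent.Helper21.TB.PkEx
import Pool.Agent.Helper21.TB.StarL
import Pool.Agent.Helper21.TB.CycB
import Pool.Agent.Helper21.TO.RedMap
import Pool.Agent.Helper21.TO.RedAdd
import Pool.Agent.Helper21.TO.MapPt

/-!
# Block TB-StarE: points over the generic point of the base
`embB` gives `K₁ ⊇ K` and `ι : L → K₁` with `ι ∘ algebraMap F L = algebraMap K K₁ ∘ ι0`. The point `(x, y)` gives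
`P1 = mk (algebraMap x) (algebraMap y) : EPt (ι C.a) (ι C.b)` (`B.ha`, `B.hb`; nonsingular since
`4 a ^ 3 + 27 b ^ 2 ≠ 0`, `C.hΔ`). Choose packages `pk v` for all `v` (`exists_pkB`), `v w = Place.comap C.hL hK₁ ι w`
(`over_comap`). If `v w` is over a nice place `P` (which is `VQ.res D.hL C.hL (v w)`), every point
has a reduction at `w` (`red_exists`; `(pk (v w)).s = 1`, ... by `nice`, `nice_disc`; careful with
dependent types: obtain the fields of the package and `subst`). For the other `w`, finitely many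
(`finite_not_nice`, `finite_ab` and the finiteness of the places of `K₁` over a place of `L`), `pow` gives
`j w > 0`. `J = ∏ j w` over these; for all `w` the point `J • P1` has a reduction `Pt w` at `w` (`red_nsmul`).
`Z w = (pk (v w)).m.cyc (Pt w)`.
* Let `P` be nice, `Over P ι0 (res w)`. Then `Ab P (v w)` (`over_ab`). If `x`, `y` have the residues `X`, `Y` at
  `res w` then `P1` reduces at `w` to `mk X Y` (`over_res`: residues in the larger field), so
  `Pt w = J • mk X Y` (`red_nsmul`, `red_unique`), `Z w ~ J • m.cyc (mk X Y) ~ J • cycB` (`Md.nul_cyc_nsmul`,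
  `cycB_eq`). If `x` is not regular at `res w` then `P1` reduces to `0` and `Z w = m.cyc 0 = 0`.
* Over `e1`: `bad`.
* The last part: for `K₂ ⊇ K₁`, `T`: `star_lift` for `K₂`, `κ.comp ι`, `κ = toAlgHom k K₁ K₂`, the point
  `mapPt κ (J • P1)` (`(κ.comp ι) C.a = κ (ι C.a)` by `rfl`), `v (res w)`, the models of the packages at
  `v (res w)`, `Pt (res w)`, and `red_map`.
-/

set_option linter.unusedSectionVars false

namespace Pool.Agent.Helper21.TB

open VC VF Function Polynomial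
open Pool.Agent.Helper21.TO
open Pool.Agent.Helper51.VB (Ell KPt BP rs OJ)
open Pool.Agent.Helper51.VN (OnE Harm)

universe u

variable {k : Type u} [Field k] [IsAlgClosed k] [CharZero k] {F L : Type u} [Field F]
  [Algebra k F] [Field L] [Algebra k L] [Algebra F L] [IsScalarTower k F L]

/-- The reduction data of a model in a larger field. -/
private lemma redData_h82 {C : Cv k L} {v : Place k L} {s : L} {At Bt : k} (m : Md C v s At Bt)
    {K : Type u} [Field K] [Algebra k K] (hK : IsFunctionField k K) (ι : L →ₐ[k] K)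
    {w : Place k K} (ho : Over v ι w) : RedData w (ι s) (ι C.a) (ι C.b) At Bt := by
  refine ⟨hK, (_root_.map_ne_zero ι).mpr m.s_ne, ?_, ?_⟩
  · have h1 := ho _ _ m.hA
    rwa [map_mul, map_pow] at h1
  · have h1 := ho _ _ m.hB
    rwa [map_mul, map_pow] at h1

/-- Finitely many places over a place, for an embedding. -/
private lemma finite_comap_h82 {L K : Type u} [Field L] [Algebra k L] [Field K] [Algebra k K]
    (hL : IsFunctionField k L) (hK : IsFunctionField k K) (ι : L →ₐ[k] K) (v : Place k L) :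
    {w : Place k K | Place.comap hL hK ι w = v}.Finite := by
  let _ : Algebra L K := ι.toRingHom.toAlgebra
  have : IsScalarTower k L K := IsScalarTower.of_algebraMap_eq (fun x => (ι.commutes x).symm)
  have e : ι = IsScalarTower.toAlgHom k L K := by
    ext z
    rfl
  rw [e]
  exact VP.finite_res hL hK v

/-- The point over the generic point of the base is nonsingular. -/
private lemma nonsing_h82 (C : Cv k L) {K : Type u} [Field K] [Algebra k K] (ι : L →ₐ[k] K)
    {x y : K} (h : y ^ 2 = x ^ 3 + ι C.a * x + ι C.b) :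
    (sw (ι C.a) (ι C.b)).toAffine.Nonsingular x y := by
  have : CharZero K := charZero_of_injective_algebraMap (algebraMap k K).injective
  rw [sw_nonsingular]
  refine ⟨h, ?_⟩
  by_contra hcon
  rw [not_or, not_not, not_not] at hcon
  obtain ⟨h1, h2⟩ := hcon
  have hy : y = 0 := by
    have h3 : 2 * y = 0 := by linear_combination h2
    exact (mul_eq_zero.mp h3).resolve_left two_ne_zero
  rw [hy] at h
  have hA : ι C.a = -3 * x ^ 2 := by linear_combination (-1) * h1
  have hB : ι C.b = 2 * x ^ 3 := by linear_combination (-1) * h + x * h1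
  have h4 : ι (4 * C.a ^ 3 + 27 * C.b ^ 2) = 0 := by
    have e : ι (4 * C.a ^ 3 + 27 * C.b ^ 2) = 4 * ι C.a ^ 3 + 27 * ι C.b ^ 2 := by
      rw [map_add, map_mul, map_mul, map_pow, map_pow, map_ofNat, map_ofNat]
    rw [e, hA, hB]
    ring
  exact C.hΔ ((map_eq_zero ι).mp h4)

/-- The comparison at a place over a nice place at which the point is regular. -/
private lemma loc_h82 {D : Ell k F} {C : Cv k L} (B : Fb D C) {p : Place k F × k × k}
    (hP : D.Nice p.1) {v : Place k L} (hv : Ab p.1 v) {s : L} {At Bt : k} (m : Md C v s At Bt)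
    (hs : s = 1) (hAt : At = -3 * D.a₀ p.1) (hBt : Bt = -2 * D.b₀ p.1) {K : Type u} [Field K]
    [Algebra k K] (hK : IsFunctionField k K) (ι : L →ₐ[k] K) {w : Place k K} (ho : Over v ι w)
    {x y : K} (hns : (sw (ι C.a) (ι C.b)).toAffine.Nonsingular x y) (hx : IsRes w x p.2.1)
    (hy : IsRes w y p.2.2) (J : ℕ) {Pt : EPt At Bt}
    (hr : Red w (ι s) (J • EPt.mk x y hns) Pt) : Nul C.S (m.cyc Pt - J • cycB D C p) := by
  subst hs hAt hBt
  have hd := redData_h82 m hK ι ho
  obtain ⟨Qt, hQ⟩ := red_exists hd (nice_disc hP) (EPt.mk x y hns)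
  rcases Qt with _ | ⟨X, Y, h'⟩
  · have h1 : ι 1 ^ 2 * x ∉ w.ring := hQ
    rw [map_one, one_pow, one_mul] at h1
    exact absurd hx.mem h1
  · have h1 : IsRes w (ι 1 ^ 2 * x) X := hQ.1
    have h2 : IsRes w (ι 1 ^ 3 * y) Y := hQ.2
    rw [map_one, one_pow, one_mul] at h1 h2
    have e1 := h1.unique hx
    have e2 := h2.unique hy
    subst e1 e2
    have h3 := red_unique hr (red_nsmul hd hQ J)
    subst h3
    have h4 := m.nul_cyc_nsmul J (EPt.mk p.2.1 p.2.2 h')
    have h5 := (cycB_eq B hP hv m h').nsmul J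
    have h6 := h4.sub h5
    rw [smul_sub] at h6
    have e : m.cyc (J • EPt.mk p.2.1 p.2.2 h') - J • cycB D C p =
        m.cyc (J • EPt.mk p.2.1 p.2.2 h') - J • m.cyc (EPt.mk p.2.1 p.2.2 h') -
          (J • cycB D C p - J • m.cyc (EPt.mk p.2.1 p.2.2 h')) := by abel
    rw [e]
    exact h6

/-- The cycle vanishes at a place over a nice place at which the point reduces to zero. -/
private lemma loc_zero_h82 {C : Cv k L} {v : Place k L} {s : L} {At Bt : k} (m : Md C v s At Bt)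
    (hs : s = 1) {K : Type u} [Field K] [Algebra k K] (hK : IsFunctionField k K)
    (ι : L →ₐ[k] K) {w : Place k K} (ho : Over v ι w) {x y : K}
    (hns : (sw (ι C.a) (ι C.b)).toAffine.Nonsingular x y) (hx : x ∉ w.ring) (J : ℕ)
    {Pt : EPt At Bt} (hr : Red w (ι s) (J • EPt.mk x y hns) Pt) : Nul C.S (m.cyc Pt) := by
  subst hs
  have hd := redData_h82 m hK ι ho
  have h0 : Red w (ι 1) (EPt.mk x y hns) (0 : EPt At Bt) := by
    change ι 1 ^ 2 * x ∉ w.ring
    rw [map_one, one_pow, one_mul]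
    exact hx
  have h1 := red_nsmul hd h0 J
  rw [smul_zero] at h1
  rw [red_unique hr h1, m.cyc_zero]
  exact Nul.zero

theorem starE {D : Ell k F} {C : Cv k L} (B : Fb D C) {K : Type u} [Field K] [Algebra k K]
    (hK : IsFunctionField k K) (ι0 : F →ₐ[k] K) (x y : K)
    (hE : OnE (ι0 D.al) (ι0 D.be) x y) :
    ∃ (K₁ : Type u) (_ : Field K₁) (_ : Algebra k K₁) (_ : Algebra K K₁)
      (_ : IsScalarTower k K K₁) (hK₁ : IsFunctionField k K₁) (J : ℕ)
      (Z : Place k K₁ → C.S.Cycles), 0 < J ∧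
      (∀ (w : Place k K₁) (p : Place k F × k × k), D.Nice p.1 → Over p.1 ι0 (VQ.res hK hK₁ w) →
        IsRes (VQ.res hK hK₁ w) x p.2.1 → IsRes (VQ.res hK hK₁ w) y p.2.2 →
        Nul C.S (Z w - J • cycB D C p)) ∧
      (∀ (w : Place k K₁) (P : Place k F), D.Nice P → Over P ι0 (VQ.res hK hK₁ w) →
        x ∉ (VQ.res hK hK₁ w).ring → Nul C.S (Z w)) ∧
      (1 ≤ D.N → ∀ w : Place k K₁, Over D.e1 ι0 (VQ.res hK hK₁ w) → Nul C.S (Z w)) ∧
      ∀ (K₂ : Type u) [Field K₂] [Algebra k K₂] [Algebra K₁ K₂] [IsScalarTower k K₁ K₂]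
        (hK₂ : IsFunctionField k K₂) (T : Set (Place k K₂)), T.Finite →
        ∃ (K₃ : Type u) (_ : Field K₃) (_ : Algebra k K₃) (_ : Algebra K₂ K₃)
          (_ : IsScalarTower k K₂ K₃) (hK₃ : IsFunctionField k K₃) (P Q : C.S.Mor K₃),
          ∀ w : Place k K₃, VQ.res hK₂ hK₃ w ∈ T →
            Nul C.S (Z (VQ.res hK₁ hK₂ (VQ.res hK₂ hK₃ w)) -
              (Finsupp.single (C.S.eval hK₃ P w) 1 - Finsupp.single (C.S.eval hK₃ Q w) 1)) := by
  classical
  obtain ⟨K₁, iF1, iA1, iAK1, iT1, hK₁, ι, hι⟩ := embB D.hL C.hL hK ι0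
  have hvo : ∀ w : Place k K₁, Over (Place.comap C.hL hK₁ ι w) ι w := fun w =>
    over_comap C.hL hK₁ ι w
  let pk : ∀ v : Place k L, PkB D C v := fun v => (exists_pkB B v).some
  -- the point
  have heq : (algebraMap K K₁ y) ^ 2 =
      (algebraMap K K₁ x) ^ 3 + ι C.a * algebraMap K K₁ x + ι C.b := by
    have e : y ^ 2 = x ^ 3 + ι0 (-3 * D.al) * x + ι0 (-2 * D.be) := by
      have h1 : y ^ 2 = x ^ 3 - 3 * ι0 D.al * x - 2 * ι0 D.be := hE
      rw [h1, map_mul, map_mul, map_neg, map_neg, map_ofNat, map_ofNat]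
      ring
    rw [B.ha, B.hb, hι, hι, ← map_pow, e, map_add, map_add, map_mul, map_pow]
  have hns := nonsing_h82 C ι heq
  -- places over a place of the base
  have hιF : ι.comp (IsScalarTower.toAlgHom k F L) =
      (IsScalarTower.toAlgHom k K K₁).comp ι0 := AlgHom.ext fun f => hι f
  have hab : ∀ (w : Place k K₁) (P : Place k F), Over P ι0 (VQ.res hK hK₁ w) →
      Ab P (Place.comap C.hL hK₁ ι w) := by
    intro w P hP
    rw [over_ab D.hL C.hL (hvo w), hιF]
    exact hP.comp (over_res hK hK₁ w)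
  -- the exceptional places
  obtain ⟨T0, hT0⟩ : ∃ T0 : Set (Place k K₁),
      T0 = {w | ¬ D.Nice (VQ.res D.hL C.hL (Place.comap C.hL hK₁ ι w))} := ⟨_, rfl⟩
  have hfin : T0.Finite := by
    have h1 := finite_ab D.hL C.hL (finite_not_nice D)
    refine (h1.biUnion fun v _ => finite_comap_h82 C.hL hK₁ ι v).subset ?_
    intro w hw
    rw [hT0] at hw
    refine Set.mem_biUnion (x := Place.comap C.hL hK₁ ι w) ?_ rfl
    exact ⟨_, hw, ab_res D.hL C.hL _⟩
  choose j hj Qt hQt using fun w : Place k K₁ =>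
    (pk (Place.comap C.hL hK₁ ι w)).pow K₁ hK₁ ι w (hvo w) (EPt.mk _ _ hns)
  obtain ⟨J, hJ⟩ : ∃ J : ℕ, J = ∏ w ∈ hfin.toFinset, j w := ⟨_, rfl⟩
  have hJ0 : 0 < J := by
    rw [hJ]
    exact Finset.prod_pos fun w _ => hj w
  have hred : ∀ w : Place k K₁, ∃ a : EPt (pk (Place.comap C.hL hK₁ ι w)).At
      (pk (Place.comap C.hL hK₁ ι w)).Bt,
      Red w (ι (pk (Place.comap C.hL hK₁ ι w)).s) (J • EPt.mk _ _ hns) a := by
    intro w
    have hd := redData_h82 (pk (Place.comap C.hL hK₁ ι w)).m hK₁ ι (hvo w)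
    by_cases hw : w ∈ T0
    · obtain ⟨c, hc⟩ : j w ∣ J := by
        rw [hJ]
        exact Finset.dvd_prod_of_mem _ (hfin.mem_toFinset.mpr hw)
      refine ⟨c • Qt w, ?_⟩
      rw [hc, mul_comm, mul_smul]
      exact red_nsmul hd (hQt w) c
    · rw [hT0] at hw
      have hn : D.Nice (VQ.res D.hL C.hL (Place.comap C.hL hK₁ ι w)) := not_not.mp hw
      obtain ⟨-, h2, h3⟩ := (pk (Place.comap C.hL hK₁ ι w)).nice _ hn
        (ab_res D.hL C.hL _)
      refine red_exists hd ?_ _
      rw [h2, h3]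
      exact nice_disc hn
  choose Pt hPt using hred
  refine ⟨K₁, iF1, iA1, iAK1, iT1, hK₁, J,
    fun w => (pk (Place.comap C.hL hK₁ ι w)).m.cyc (Pt w), hJ0, ?_, ?_, ?_, ?_⟩
  · intro w p hP ho hx hy
    obtain ⟨h1, h2, h3⟩ := (pk (Place.comap C.hL hK₁ ι w)).nice _ hP (hab w _ ho)
    exact loc_h82 B hP (hab w _ ho) (pk (Place.comap C.hL hK₁ ι w)).m h1 h2 h3 hK₁ ι (hvo w) hns
      (over_res hK hK₁ w _ _ hx) (over_res hK hK₁ w _ _ hy) J (hPt w)
  · intro w P hP ho hx
    obtain ⟨h1, -, -⟩ := (pk (Place.comap C.hL hK₁ ι w)).nice _ hP (hab w _ ho)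
    exact loc_zero_h82 (pk (Place.comap C.hL hK₁ ι w)).m h1 hK₁ ι (hvo w) hns
      ((over_res hK hK₁ w).notMem hx) J (hPt w)
  · intro hN w ho
    exact (pk (Place.comap C.hL hK₁ ι w)).bad hN (hab w _ ho) _
  · intro K₂ _ _ _ _ hK₂ T hT
    exact star_lift C hK₂ ((IsScalarTower.toAlgHom k K₁ K₂).comp ι)
      (mapPt (IsScalarTower.toAlgHom k K₁ K₂) (J • EPt.mk _ _ hns)) T hT
      (fun w => Place.comap C.hL hK₁ ι (VQ.res hK₁ hK₂ w))
      (fun w => (hvo _).comp (over_res hK₁ hK₂ w))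
      (fun w => (pk (Place.comap C.hL hK₁ ι (VQ.res hK₁ hK₂ w))).s)
      (fun w => (pk (Place.comap C.hL hK₁ ι (VQ.res hK₁ hK₂ w))).At)
      (fun w => (pk (Place.comap C.hL hK₁ ι (VQ.res hK₁ hK₂ w))).Bt)
      (fun w => (pk (Place.comap C.hL hK₁ ι (VQ.res hK₁ hK₂ w))).m)
      (fun w => Pt (VQ.res hK₁ hK₂ w))
      (fun w _ => (red_map hK₁ (IsScalarTower.toAlgHom k K₁ K₂) (over_res hK₁ hK₂ w)
        (J • EPt.mk _ _ hns) _).mpr (hPt _))

end Pool.Agent.Helper21.TB
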