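import Mathlib
import Pool.Agent.Helper9.NS
import Pool.Agent.Helper21.TB.Defs
import Pool.Agent.Helper21.TB.StarE
import Pool.Agent.Helper21.TB.StarC
import Pool.Agent.Helper21.TB.CycB

/-!
# Block TB-Link: the link
`constS`: `pconst` (TO/Defs); `pullS`: `ppull` (TO/Defs) (both as in TO/LinkEx.lean). `star`: let `c : KPt D K`, cases
on `c.p`. `c.p = .emb ι0`: `c.hE : OnE (ι0 D.al) (ι0 D.be) c.x c.y` (`BP.ev` unfolds), `starE`; `c.Val w p` unfolds to
`D.Nice p.1 ∧ Over p.1 ι0 w ∧ IsRes .. ∧ IsRes ..`, (`Helper51.VB.Over` and `TO.Over` have the same definition),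
`c.Zero w` to `Over D.e1 ι0 w ∨ ∃ P, D.Nice P ∧ Over P ι0 w ∧ c.x ∉ w.ring`. `c.p = .cst P`: `c.nc` gives
`D.Nice P`, `starC`, with `K₁ = K` (`Algebra.id`), `J = 1`, `VQ.res hK hK w = w` (`Place.ext`, the ring is a
`comap` along the identity); `c.Val w p` gives `P = p.1`; `c.Zero w`: `P = D.e1` is impossible as `D.e1` is not nice
(`D.bad`), otherwise `c.x ∉ w.ring`. In the last part `K₃ = K₂` (`Algebra.id`). `odd`: `cycB_odd`.
-/

set_option linter.unusedSectionVars false

namespace Pool.Agent.Helper21.TB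

open VC VF Function Polynomial
open Pool.Agent.Helper21.TO
open Pool.Agent.Helper51.VB (Ell KPt BP rs OJ)
open Pool.Agent.Helper51.VN (OnE Harm)

universe u

variable {k : Type u} [Field k] [IsAlgClosed k] [CharZero k] {F L : Type u} [Field F]
  [Algebra k F] [Field L] [Algebra k L] [Algebra F L] [IsScalarTower k F L]

omit [IsAlgClosed k] [CharZero k] in
private lemma res_self_23 {K : Type u} [Field K] [Algebra k K] (hK : IsFunctionField k K)
    (w : Place k K) : VQ.res hK hK w = w := by
  apply Place.ext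
  ext x
  exact Iff.rfl

theorem linkB {D : Ell k F} {C : Cv k L} (B : Fb D C) : LinkB D C.S (cycB D C) where
  constS := fun K _ _ hK p => pconst K hK p
  pullS := fun K K' _ _ _ _ _ _ hK hK' c => ppull hK hK' c
  odd := fun p hP h => cycB_odd B hP h
  star := by
    intro K _ _ hK c
    obtain ⟨cp, x, y, nc, hE⟩ := c
    cases cp with
    | emb ι0 =>
      obtain ⟨K₁, i1, i2, i3, i4, hK₁, J, Z, hJ, h1, h2, h3, h4⟩ := starE B hK ι0 x y hE
      refine ⟨K₁, i1, i2, i3, i4, hK₁, J, Z, hJ, ?_, ?_, h4⟩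
      · intro w p hv
        exact h1 w p hv.1 hv.2.1 hv.2.2.1 hv.2.2.2
      · intro w hv
        rcases hv with hv | ⟨P, hP, hO, hx⟩
        · exact h3 hv.1 w hv.2
        · exact h2 w P hP hO hx
    | cst P =>
      have hP : D.Nice P := nc P rfl
      obtain ⟨Z, h1, h2, h3⟩ := starC B hP hK x y hE
      refine ⟨K, inferInstance, inferInstance, Algebra.id K, inferInstance, hK, 1, Z, one_pos,
        ?_, ?_, ?_⟩
      · intro w p hv
        rw [res_self_23] at hv
        obtain ⟨P', X, Y⟩ := p
        obtain ⟨_, hO, hX, hY⟩ := hv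
        have hO' : P = P' := hO
        subst hO'
        rw [one_smul]
        exact h1 w X Y hX hY
      · intro w hv
        rw [res_self_23] at hv
        rcases hv with hv | ⟨P', _, _, hx⟩
        · have hv' : P = D.e1 := hv.2
          rw [hv'] at hP
          exact absurd hP (D.bad0 hv.1)
        · exact h2 w hx
      · intro K₂ _ _ _ _ hK₂ T hT
        obtain ⟨P, Q, hPQ⟩ := h3 K₂ hK₂ T hT
        refine ⟨K₂, inferInstance, inferInstance, Algebra.id K₂, inferInstance, hK₂, P, Q, ?_⟩
        intro w hw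
        rw [res_self_23] at hw ⊢
        exact hPQ w hw

end Pool.Agent.Helper21.TB
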