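import Mathlib
import Pool.Agent.Helper9.NS
import Pool.Agent.Helper21.TB.Defs
import Pool.Agent.Helper21.TB.CloDef
import Pool.Agent.Helper21.TB.Hrm

/-!
# Block TB-RatB: a rational curve which meets the general curve of the family
`H`: the point `z ↦ f (z)` of `P^(M-1)` over `K` lies on the closure of the generic curve. It satisfies the equations
`C.I` by `hS`. Let `c` be the corresponding morphism (`ppt`). (1) For every place `w` of `K`: let `P = Place.comap D.hL hK ιF w`
and let `s` be coordinates of the value of `c` at `w`: `exists_pcoord` gives coordinates `a` of `c` and `b` of the value with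
residues `b i`. Then `Clo j g P b`: let `G` be a form over `F` with `G (g) = 0` and coefficients with residues; by
`H` `(ιF G) (f (z)) = 0`, so `(ιF G) (a) = 0` (proportional vectors), and taking residues (`over_comap`)
`G0 (b) = 0`. So `φ (c (w)) = κ (P)` (`hκ`). (2) `φ (c (w))` does not depend on `w`: if `z ∈ k` the morphism `c` is
constant. Otherwise `z` is transcendental; divide the `f i` by their greatest common divisor, so that they
have no common zero (`EuclideanDomain`/`Finset.gcd`, or choose the representation of minimal degree); then at all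
places with `z` of value `t` the value of `c` is the point `f (t)`, so `VF.path` (Helper83/VF/Kill.lean) shows that
`φ (c (w))` is the same for all `w` with `z` regular, and `harm_kills`, `harm_const`, `harm_zero` for the others
(finitely many). (3) So `κ` is constant on the image of `Place k K`, which is everything
(`VP.exists_res` with the algebra structure `ιF`).
-/

set_option linter.unusedSectionVars false

namespace Pool.Agent.Helper21.TB

open VC VF Function Polynomial
open Pool.Agent.Helper21.TO
open Pool.Agent.Helper51.VB (Ell KPt BP rs OJ)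
open Pool.Agent.Helper51.VN (OnE Harm)

universe u

variable {k : Type u} [Field k] [IsAlgClosed k] [CharZero k] {F L : Type u} [Field F]
  [Algebra k F] [Field L] [Algebra k L] [Algebra F L] [IsScalarTower k F L]

theorem eval₂_smul_homog {K : Type u} [Field K] {M n : ℕ} {G : MvPolynomial (Fin M) F}
    (hG : G.IsHomogeneous n) (φ : F →+* K) (l : K) (a : Fin M → K) :
    G.eval₂ φ (fun i => l * a i) = l ^ n * G.eval₂ φ a := by
  rw [MvPolynomial.eval₂_eq', MvPolynomial.eval₂_eq', Finset.mul_sum]
  apply Finset.sum_congr rfl
  intro d hd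
  have h1 : ∑ i, d i = n := by
    have := hG (MvPolynomial.mem_support_iff.mp hd)
    rw [Finsupp.weight_apply, Finsupp.sum_fintype _ _ (fun i => by simp)] at this
    simpa using this
  simp only [mul_pow, Finset.prod_mul_distrib]
  rw [Finset.prod_pow_eq_pow_sum, h1]
  ring

theorem isRes_prodR {K : Type u} [Field K] [Algebra k K] {v : Place k K} {ι : Type*}
    (s : Finset ι) (f : ι → K) (g : ι → k) (h : ∀ i ∈ s, IsRes v (f i) (g i)) :
    IsRes v (∏ i ∈ s, f i) (∏ i ∈ s, g i) := by
  classical
  induction s using Finset.induction_on with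
  | empty =>
    rw [Finset.prod_empty, Finset.prod_empty]
    exact isRes_one
  | insert a s ha ih =>
    rw [Finset.prod_insert ha, Finset.prod_insert ha]
    exact (h a (Finset.mem_insert_self a s)).mul
      (ih fun i hi => h i (Finset.mem_insert_of_mem hi))

theorem isRes_eval₂ {K : Type u} [Field K] [Algebra k K] {M : ℕ} {P : Place k F} {w : Place k K}
    {ι : F →ₐ[k] K} (ho : Over P ι w) {G : MvPolynomial (Fin M) F} {G₀ : MvPolynomial (Fin M) k}
    (h : ∀ m, IsRes P (G.coeff m) (G₀.coeff m)) {a : Fin M → K} {b : Fin M → k}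
    (hab : ∀ i, IsRes w (a i) (b i)) :
    IsRes w (G.eval₂ (ι : F →+* K) a) (MvPolynomial.aeval b G₀) := by
  have hsub : G₀.support ⊆ G.support := by
    intro m hm
    rw [MvPolynomial.mem_support_iff] at hm ⊢
    intro h0
    apply hm
    have h1 := h m
    rw [h0] at h1
    exact h1.unique isRes_zero
  have e : MvPolynomial.aeval b G₀ = ∑ d ∈ G.support, G₀.coeff d * ∏ i, b i ^ d i := by
    rw [MvPolynomial.aeval_def, MvPolynomial.eval₂_eq']
    apply Finset.sum_subset hsub
    intro m _ hm
    rw [MvPolynomial.notMem_support_iff.mp hm]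
    simp
  rw [e, MvPolynomial.eval₂_eq']
  apply IsRes.sum
  intro d _
  apply IsRes.mul
  · exact ho _ _ (h d)
  · apply isRes_prodR
    intro i _
    exact (hab i).pow _

/-- Division by the greatest common divisor. -/
theorem exists_primitive {M : ℕ} (f : Fin M → k[X]) (hf : f ≠ 0) :
    ∃ (d : k[X]) (g : Fin M → k[X]), d ≠ 0 ∧ (∀ i, f i = d * g i) ∧
      ∀ t : k, (fun i => (g i).eval t) ≠ 0 := by
  set J : Ideal k[X] := Ideal.span (Set.range f) with hJ
  set d := Submodule.IsPrincipal.generator J with hd
  have hmem : ∀ i, f i ∈ J := fun i => Ideal.subset_span ⟨i, rfl⟩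
  have hdvd : ∀ i, d ∣ f i := fun i => (Submodule.IsPrincipal.mem_iff_generator_dvd J).mp (hmem i)
  choose g hg using hdvd
  have hd0 : d ≠ 0 := by
    intro h0
    apply hf
    funext i
    rw [hg i, h0, zero_mul]
    rfl
  refine ⟨d, g, hd0, hg, ?_⟩
  intro t h0
  have h1 : d ∈ J := Submodule.IsPrincipal.generator_mem J
  rw [hJ, Ideal.span, Submodule.mem_span_range_iff_exists_fun] at h1
  obtain ⟨c, hc⟩ := h1
  have h2 : d * (∑ i, c i * g i) = d * 1 := by
    rw [mul_one, Finset.mul_sum]
    conv_rhs => rw [← hc]
    apply Finset.sum_congr rfl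
    intro i _
    rw [smul_eq_mul, hg i]
    ring
  have h3 := mul_left_cancel₀ hd0 h2
  have h4 := congrArg (Polynomial.eval t) h3
  rw [Polynomial.eval_finsetSum, Polynomial.eval_one] at h4
  apply zero_ne_one (α := k)
  rw [← h4]
  symm
  apply Finset.sum_eq_zero
  intro i _
  rw [Polynomial.eval_mul]
  have h5 : (g i).eval t = 0 := congrFun h0 i
  rw [h5, mul_zero]

/-- The value of a functional along a rational curve is constant. -/
theorem const_rat {M : ℕ} {I : Set (MvPolynomial (Fin M) k)} {φ : (proj k I).Pt → k}
    (hφ : Kills (proj k I) φ) {K : Type u} [Field K] [Algebra k K] (hK : IsFunctionField k K)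
    (z : K) (f : Fin M → k[X]) (hf : (fun i => aeval z (f i)) ≠ 0)
    (hS : Sat I (fun i => aeval z (f i))) :
    ∃ c : k, ∀ w, φ ((proj k I).eval hK (ppt _ hf hS) w) = c := by
  classical
  by_cases hz : Transcendental k z
  swap
  · obtain ⟨t, rfl⟩ : ∃ t, algebraMap k K t = z := by
      have h1 : IsAlgebraic k z := by
        by_contra h2
        exact hz h2
      have h2 : (minpoly k z).degree = 1 :=
        IsAlgClosed.degree_eq_one_of_irreducible k (minpoly.irreducible h1.isIntegral)
      exact minpoly.mem_range_of_degree_eq_one k z h2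
    have e : ∀ i, aeval (algebraMap k K t) (f i) = algebraMap k K ((f i).eval t) := by
      intro i
      rw [Polynomial.aeval_algebraMap_apply, Polynomial.coe_aeval_eq_eval]
    have hb : (fun i => (f i).eval t) ≠ 0 := by
      intro h0
      apply hf
      funext i
      have h1 : (f i).eval t = 0 := congrFun h0 i
      rw [e, h1, map_zero]
      rfl
    have hb' : Sat I (fun i => (f i).eval t) := by
      intro P hP n hn
      have h1 := hS P hP n hn
      have e2 : (fun i => aeval (algebraMap k K t) (f i)) =
          fun i => algebraMap k K ((f i).eval t) := funext e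
      rw [e2] at h1
      have h2 : MvPolynomial.aeval (fun i => algebraMap k K ((f i).eval t)) P =
        algebraMap k K (MvPolynomial.aeval (fun i => (f i).eval t) P) :=
        MvPolynomial.aeval_algebraMap_apply K (fun i => (f i).eval t) P
      rw [h2] at h1
      exact (_root_.map_eq_zero _).mp h1
    refine ⟨φ (ppt _ hb hb'), fun w => ?_⟩
    rw [peval_eq hK w hf hS hb hb' (fun i => by rw [e]; exact isRes_const _)]
  · have hf0 : f ≠ 0 := by
      rintro rfl
      apply hf
      funext i
      exact map_zero _
    obtain ⟨d, g, hd, hfg, hg⟩ := exists_primitive f hf0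
    have hdz : aeval z d ≠ 0 := by
      intro h0
      exact hd ((transcendental_iff.mp hz) d h0)
    have hx : ∀ i, (aeval z d)⁻¹ * aeval z (f i) = aeval z (g i) := by
      intro i
      rw [hfg, map_mul, ← mul_assoc, inv_mul_cancel₀ hdz, one_mul]
    have hSg : ∀ t : k, Sat I (fun i => (g i).eval t) := by
      intro t P hP n hn
      have h1 : Sat I (fun i => aeval z (g i)) := by
        have := hS.smul (aeval z d)⁻¹
        simpa only [hx] using this
      have h2 := h1 P hP n hn
      have h3 : aeval z (MvPolynomial.aeval g P) = 0 := by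
        rw [← h2]
        have := MvPolynomial.comp_aeval_apply (φ := (aeval z : k[X] →ₐ[k] K)) g P
        exact this
      have h4 := (transcendental_iff.mp hz) _ h3
      have h5 := MvPolynomial.comp_aeval_apply (φ := (aeval t : k[X] →ₐ[k] k)) g P
      rw [h4, map_zero] at h5
      rw [Polynomial.coe_aeval_eq_eval] at h5
      exact h5.symm
    have hval : ∀ (t : k) (w : Place k K), IsRes w z t →
        (proj k I).eval hK (ppt _ hf hS) w = ppt _ (hg t) (hSg t) := by
      intro t w hw
      apply peval_eq' hK w hf hS (hg t) (hSg t) (aeval z d)⁻¹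
      intro i
      rw [hx]
      exact hw.poly
    set A := φ (ppt _ (hg 0) (hSg 0)) with hA
    have hA' : ∀ t : k, φ (ppt _ (hg t) (hSg t)) = A := by
      intro t
      by_cases ht : t = 0
      · subst ht
        rfl
      · exact path hφ hK (ppt _ hf hS) hz ht (fun v hv => by rw [hval t v hv])
          (fun v hv => by rw [hval 0 v hv])
    refine ⟨A, fun w => ?_⟩
    have hz0 : z ≠ 0 := by
      rintro rfl
      exact hz isAlgebraic_zero
    have hH := harm_sub (harm_kills hφ hK (ppt _ hf hS)) (harm_const hK A)
    have h0 := harm_zero hH (finite_support_ord hK hz0) (fun w hw => by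
      have h1 : ord w.ring z = 0 := by
        by_contra h2
        exact hw h2
      have h2 : z ∈ w.ring := by
        rw [← ord_nonneg_iff hK w hz0, h1]
      obtain ⟨t, ht⟩ := exists_res hK h2
      rw [hval t w ht, hA', sub_self]) w
    exact sub_eq_zero.mp h0

theorem kappa_rat {D : Ell k F} {C : Cv k L} {Ω : Type u} [Field Ω] [Algebra k Ω]
    (j : F →ₐ[k] Ω) (g : Fin C.M → Ω) {φ : C.S.Pt → k} (hφ : Kills C.S φ) (κ : Place k F → k)
    (hκ : ∀ (P : Place k F) (s : Fin C.M → k) (hs : s ≠ 0) (hss : Sat C.I s), Clo j g P s →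
      φ (ppt s hs hss) = κ P)
    {K : Type u} [Field K] [Algebra k K] (hK : IsFunctionField k K) (ιF : F →ₐ[k] K) (z : K)
    (f : Fin C.M → k[X]) (hf : (fun i => aeval z (f i)) ≠ 0)
    (hS : Sat C.I (fun i => aeval z (f i)))
    (H : ∀ (n : ℕ) (G : MvPolynomial (Fin C.M) F), G.IsHomogeneous n →
      G.eval₂ (j : F →+* Ω) g = 0 → G.eval₂ (ιF : F →+* K) (fun i => aeval z (f i)) = 0) :
    ∃ c : k, ∀ P, κ P = c := by
  classical
  obtain ⟨c, hc⟩ := const_rat hφ hK z f hf hS
  have key : ∀ w : Place k K, κ (Place.comap D.hL hK ιF w) = c := by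
    intro w
    rw [← hc w]
    obtain ⟨a, ha, hsa, b, hb, hsb, hca, heval, hres⟩ := exists_pcoord hK w (ppt _ hf hS)
    rw [heval]
    symm
    apply hκ _ b hb hsb
    intro n G G₀ hG hGg hcoeff
    rw [ppt_eq_iff] at hca
    obtain ⟨l, hl⟩ := hca
    have hl0 : l ≠ 0 := by
      rintro rfl
      apply hf
      funext i
      rw [← hl i, zero_mul]
      rfl
    have h1 := H n G hG hGg
    have e : (fun i => aeval z (f i)) = fun i => l * a i := funext fun i => (hl i).symm
    rw [e, eval₂_smul_homog hG] at h1
    have h2 : G.eval₂ (ιF : F →+* K) a = 0 :=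
      (mul_eq_zero.mp h1).resolve_left (pow_ne_zero _ hl0)
    have h3 := isRes_eval₂ (over_comap D.hL hK ιF w) hcoeff hres
    rw [h2] at h3
    exact h3.unique isRes_zero
  refine ⟨c, fun P => ?_⟩
  let _ : Algebra F K := ιF.toRingHom.toAlgebra
  have : IsScalarTower k F K := IsScalarTower.of_algebraMap_eq fun x => (ιF.commutes x).symm
  obtain ⟨w, hw⟩ := VP.exists_res D.hL hK P
  rw [← key w]
  congr 1
  rw [← hw]
  rfl

end Pool.Agent.Helper21.TB
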