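import Mathlib
import Pool.Agent.Helper9.NS
import Pool.Agent.Helper21.TB.Defs

/-!
# Block TB-MultiB: several points at once
Induction on `n` (`Fin (n + 1)` with `Fin.cons`, or a `Finset` of slots), as in TO/Multi.lean. Let the data
for the first slots be given over `K₁`; pull back the last point `c` to `K₁` (`KPt.map`: the embedding of `F` composed
with `K → K₁`, the images of the coordinates; `Val`, `Zero` at `res w` give `Val`, `Zero` at `w`: `over_res`, `Over.comp`,
for poles: `algebraMap x ∈ w.ring ↔ x ∈ (res w).ring` by definition of the restriction), apply `h.star` over `K₁`,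
get `K₁' ⊇ K₁`, and take `Z i w = Z i (res w)` for the old slots. For `K₂ ⊇ K₁'`, `T`: apply the last
part of the data of the old slots (for `K₂` as an extension of `K₁`) to get `K₃ ⊇ K₂` with the old `P i`, `Q i`,
then `h.star` for `K₃` (as an extension of `K₁'`) and the finite set `{w | res w ∈ T}` (`VP.finite_res`) to get
`K₄ ⊇ K₃`, and pull back the old `P i`, `Q i` (`h.pullS`). Restrictions compose (`VQ.res_comap`, see the
private lemma `res_res6` in TO/Star1.lean).
-/

set_option linter.unusedSectionVars false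

namespace Pool.Agent.Helper21.TB

open VC VF Function Polynomial
open Pool.Agent.Helper21.TO
open Pool.Agent.Helper51.VB (Ell KPt BP rs OJ)
open Pool.Agent.Helper51.VN (OnE Harm)

universe u

variable {k : Type u} [Field k] [IsAlgClosed k] [CharZero k] {F : Type u} [Field F] [Algebra k F]
  {D : Ell k F} {S : Variety k} {cyc : Place k F × k × k → S.Cycles}

private lemma isRes_comap97 {K K' : Type u} [Field K] [Algebra k K] [Field K'] [Algebra k K']
    (hK : IsFunctionField k K) (hK' : IsFunctionField k K') (φ : K →ₐ[k] K') (w : Place k K')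
    (x : K) (c : k) : IsRes (Place.comap hK hK' φ w) x c ↔ IsRes w (φ x) c := by
  unfold IsRes
  change x - algebraMap k K c ∈ (w.ring.comap φ.toRingHom).nonunits ↔ _
  rw [mem_nonunits_comap]
  have e : φ.toRingHom (x - algebraMap k K c) = φ x - algebraMap k K' c := by
    change φ (x - algebraMap k K c) = _
    rw [map_sub, φ.commutes]
  rw [e]

private lemma ev_map97 {K K' : Type u} [Field K] [Algebra k K] [Field K'] [Algebra k K']
    (φ : K →ₐ[k] K') (p : BP k F K) (f : F) : (p.map φ).ev f = φ (p.ev f) := by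
  cases p with
  | cst P => exact (φ.commutes _).symm
  | emb ι => rfl

private lemma ov_map97 {K K' : Type u} [Field K] [Algebra k K] [Field K'] [Algebra k K']
    (hK : IsFunctionField k K) (hK' : IsFunctionField k K') (φ : K →ₐ[k] K') (w : Place k K')
    (p : BP k F K) (P : Place k F) :
    (p.map φ).Ov w P ↔ p.Ov (Place.comap hK hK' φ w) P := by
  cases p with
  | cst P' => exact Iff.rfl
  | emb ι =>
    change (∀ (f : F) (c : k), IsRes P f c → IsRes w (φ (ι f)) c) ↔
      ∀ (f : F) (c : k), IsRes P f c → IsRes (Place.comap hK hK' φ w) (ι f) c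
    constructor
    · intro h f c hf
      exact (isRes_comap97 hK hK' φ w _ _).2 (h f c hf)
    · intro h f c hf
      exact (isRes_comap97 hK hK' φ w _ _).1 (h f c hf)

/-- Points over an extension of the field. -/
private noncomputable def kmap97 {K K' : Type u} [Field K] [Algebra k K] [Field K'] [Algebra k K']
    (φ : K →ₐ[k] K') (c : KPt D K) : KPt D K' where
  p := c.p.map φ
  x := φ c.x
  y := φ c.y
  nc := by
    intro P hP
    apply c.nc P
    revert hP
    cases c.p with
    | cst P' =>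
      intro hP
      have h2 : P' = P := BP.cst.inj hP
      rw [h2]
    | emb ι =>
      intro hP
      change BP.emb (φ.comp ι) = BP.cst P at hP
      cases hP
  hE := by
    have h := c.hE
    unfold OnE at h ⊢
    rw [ev_map97, ev_map97, ← map_pow, h]
    simp only [map_sub, map_mul, map_pow, map_ofNat]

private theorem kmap_val97 {K K' : Type u} [Field K] [Algebra k K] [Field K'] [Algebra k K']
    (hK : IsFunctionField k K) (hK' : IsFunctionField k K') (φ : K →ₐ[k] K') (c : KPt D K)
    (w : Place k K') (p : Place k F × k × k) (h : c.Val (Place.comap hK hK' φ w) p) :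
    (kmap97 φ c).Val w p :=
  ⟨h.1, (ov_map97 hK hK' φ w _ _).2 h.2.1, (isRes_comap97 hK hK' φ w _ _).1 h.2.2.1,
    (isRes_comap97 hK hK' φ w _ _).1 h.2.2.2⟩

private theorem kmap_zero97 {K K' : Type u} [Field K] [Algebra k K] [Field K'] [Algebra k K']
    (hK : IsFunctionField k K) (hK' : IsFunctionField k K') (φ : K →ₐ[k] K') (c : KPt D K)
    (w : Place k K') (h : c.Zero (Place.comap hK hK' φ w)) : (kmap97 φ c).Zero w := by
  rcases h with h1 | ⟨P, h1, h2, h3⟩
  · exact Or.inl ⟨h1.1, (ov_map97 hK hK' φ w _ _).2 h1.2⟩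
  · exact Or.inr ⟨P, h1, (ov_map97 hK hK' φ w _ _).2 h2, fun h4 => h3 h4⟩

private theorem multiB_aux97 (h : LinkB D S cyc) (n : ℕ) {K : Type u} [Field K] [Algebra k K]
    (hK : IsFunctionField k K) (c : Fin n → KPt D K) (s : Finset (Fin n)) :
    ∃ (K₁ : Type u) (_ : Field K₁) (_ : Algebra k K₁) (_ : Algebra K K₁)
      (_ : IsScalarTower k K K₁) (hK₁ : IsFunctionField k K₁) (J : Fin n → ℕ)
      (Z : Fin n → Place k K₁ → S.Cycles), (∀ i ∈ s, 0 < J i) ∧
      (∀ i ∈ s, ∀ w p, (c i).Val (VQ.res hK hK₁ w) p → Nul S (Z i w - J i • cyc p)) ∧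
      (∀ i ∈ s, ∀ w, (c i).Zero (VQ.res hK hK₁ w) → Nul S (Z i w)) ∧
      ∀ (K₂ : Type u) [Field K₂] [Algebra k K₂] [Algebra K₁ K₂] [IsScalarTower k K₁ K₂]
        (hK₂ : IsFunctionField k K₂) (T : Set (Place k K₂)), T.Finite →
        ∃ (K₃ : Type u) (_ : Field K₃) (_ : Algebra k K₃) (_ : Algebra K₂ K₃)
          (_ : IsScalarTower k K₂ K₃) (hK₃ : IsFunctionField k K₃), ∀ i ∈ s,
          ∃ P Q : S.Mor K₃, ∀ w : Place k K₃, VQ.res hK₂ hK₃ w ∈ T →
            Nul S (Z i (VQ.res hK₁ hK₂ (VQ.res hK₂ hK₃ w)) -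
              (Finsupp.single (S.eval hK₃ P w) 1 - Finsupp.single (S.eval hK₃ Q w) 1)) := by
  classical
  induction s using Finset.induction_on with
  | empty =>
    refine ⟨K, inferInstance, inferInstance, Algebra.id K, inferInstance, hK, fun _ => 0,
      fun _ _ => 0, fun i hi => absurd hi (Finset.notMem_empty i),
      fun i hi => absurd hi (Finset.notMem_empty i),
      fun i hi => absurd hi (Finset.notMem_empty i), ?_⟩
    intro K₂ _ _ _ _ hK₂ T _
    exact ⟨K₂, inferInstance, inferInstance, Algebra.id K₂, inferInstance, hK₂,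
      fun i hi => absurd hi (Finset.notMem_empty i)⟩
  | insert a s ha ih =>
    obtain ⟨K₁, _, _, _, _, hK₁, J, Z, hJ, hval, hzero, hlast⟩ := ih
    obtain ⟨L₁, _, _, _, _, hL₁, j, z, hj, hzval, hzzero, hzlast⟩ := h.star K₁ hK₁
      (kmap97 (IsScalarTower.toAlgHom k K K₁) (c a))
    let _ : Algebra K L₁ := ((algebraMap K₁ L₁).comp (algebraMap K K₁)).toAlgebra
    have _ : IsScalarTower k K L₁ := IsScalarTower.of_algebraMap_eq fun x => by
      change algebraMap k L₁ x = algebraMap K₁ L₁ (algebraMap K K₁ (algebraMap k K x))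
      rw [← IsScalarTower.algebraMap_apply k K K₁, ← IsScalarTower.algebraMap_apply k K₁ L₁]
    have hres : ∀ w : Place k L₁, VQ.res hK hL₁ w = VQ.res hK hK₁ (VQ.res hK₁ hL₁ w) := by
      intro w
      ext x
      rfl
    have hne : ∀ i ∈ s, i ≠ a := fun i hi e => ha (e ▸ hi)
    refine ⟨L₁, inferInstance, inferInstance, inferInstance, inferInstance, hL₁,
      fun i => if i = a then j else J i,
      fun i w => if i = a then z w else Z i (VQ.res hK₁ hL₁ w), ?_, ?_, ?_, ?_⟩
    · intro i hi
      rcases Finset.mem_insert.mp hi with rfl | hi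
      · simpa using hj
      · simpa [hne i hi] using hJ i hi
    · intro i hi w p hp
      rw [hres] at hp
      rcases Finset.mem_insert.mp hi with rfl | hi
      · simp only [if_true]
        exact hzval w p (kmap_val97 hK hK₁ _ _ _ _ hp)
      · simp only [if_neg (hne i hi)]
        exact hval i hi _ p hp
    · intro i hi w hp
      rw [hres] at hp
      rcases Finset.mem_insert.mp hi with rfl | hi
      · simp only [if_true]
        exact hzzero w (kmap_zero97 hK hK₁ _ _ _ hp)
      · simp only [if_neg (hne i hi)]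
        exact hzero i hi _ hp
    · intro K₂ _ _ _ _ hK₂ T hT
      let _ : Algebra K₁ K₂ := ((algebraMap L₁ K₂).comp (algebraMap K₁ L₁)).toAlgebra
      have _ : IsScalarTower k K₁ K₂ := IsScalarTower.of_algebraMap_eq fun x => by
        change algebraMap k K₂ x = algebraMap L₁ K₂ (algebraMap K₁ L₁ (algebraMap k K₁ x))
        rw [← IsScalarTower.algebraMap_apply k K₁ L₁, ← IsScalarTower.algebraMap_apply k L₁ K₂]
      obtain ⟨K₃, _, _, _, _, hK₃, hPQ⟩ := hlast K₂ hK₂ T hT
      let _ : Algebra L₁ K₃ := ((algebraMap K₂ K₃).comp (algebraMap L₁ K₂)).toAlgebra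
      have _ : IsScalarTower k L₁ K₃ := IsScalarTower.of_algebraMap_eq fun x => by
        change algebraMap k K₃ x = algebraMap K₂ K₃ (algebraMap L₁ K₂ (algebraMap k L₁ x))
        rw [← IsScalarTower.algebraMap_apply k L₁ K₂, ← IsScalarTower.algebraMap_apply k K₂ K₃]
      have hT' : {w : Place k K₃ | VQ.res hK₂ hK₃ w ∈ T}.Finite := by
        have e : {w : Place k K₃ | VQ.res hK₂ hK₃ w ∈ T} =
            ⋃ P ∈ T, {w : Place k K₃ | VQ.res hK₂ hK₃ w = P} := by
          ext w
          simp
        rw [e]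
        exact hT.biUnion fun P _ => VP.finite_res hK₂ hK₃ P
      obtain ⟨K₄, _, _, _, _, hK₄, P, Q, hPQ4⟩ := hzlast K₃ hK₃ _ hT'
      let _ : Algebra K₂ K₄ := ((algebraMap K₃ K₄).comp (algebraMap K₂ K₃)).toAlgebra
      have _ : IsScalarTower k K₂ K₄ := IsScalarTower.of_algebraMap_eq fun x => by
        change algebraMap k K₄ x = algebraMap K₃ K₄ (algebraMap K₂ K₃ (algebraMap k K₂ x))
        rw [← IsScalarTower.algebraMap_apply k K₂ K₃, ← IsScalarTower.algebraMap_apply k K₃ K₄]
      have hres4 : ∀ w : Place k K₄, VQ.res hK₂ hK₄ w = VQ.res hK₂ hK₃ (VQ.res hK₃ hK₄ w) := by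
        intro w
        ext x
        rfl
      have hres3 : ∀ w : Place k K₃, VQ.res hL₁ hK₃ w = VQ.res hL₁ hK₂ (VQ.res hK₂ hK₃ w) := by
        intro w
        ext x
        rfl
      have hres2 : ∀ w : Place k K₂, VQ.res hK₁ hK₂ w = VQ.res hK₁ hL₁ (VQ.res hL₁ hK₂ w) := by
        intro w
        ext x
        rfl
      refine ⟨K₄, inferInstance, inferInstance, inferInstance, inferInstance, hK₄, ?_⟩
      intro i hi
      rcases Finset.mem_insert.mp hi with rfl | hi
      · refine ⟨P, Q, fun w hw => ?_⟩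
        simp only [if_true]
        rw [hres4] at hw ⊢
        rw [← hres3]
        exact hPQ4 w hw
      · obtain ⟨P', Q', hPQ'⟩ := hPQ i hi
        obtain ⟨P'', hP''⟩ := h.pullS K₃ K₄ hK₃ hK₄ P'
        obtain ⟨Q'', hQ''⟩ := h.pullS K₃ K₄ hK₃ hK₄ Q'
        refine ⟨P'', Q'', fun w hw => ?_⟩
        simp only [if_neg (hne i hi)]
        rw [hres4] at hw ⊢
        rw [hP'', hQ'', ← hres2]
        exact hPQ' _ hw

theorem multiB (h : LinkB D S cyc) (n : ℕ) {K : Type u} [Field K] [Algebra k K]
    (hK : IsFunctionField k K) (c : Fin n → KPt D K) :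
    ∃ (K₁ : Type u) (_ : Field K₁) (_ : Algebra k K₁) (_ : Algebra K K₁)
      (_ : IsScalarTower k K K₁) (hK₁ : IsFunctionField k K₁) (J : Fin n → ℕ)
      (Z : Fin n → Place k K₁ → S.Cycles), (∀ i, 0 < J i) ∧
      (∀ i w p, (c i).Val (VQ.res hK hK₁ w) p → Nul S (Z i w - J i • cyc p)) ∧
      (∀ i w, (c i).Zero (VQ.res hK hK₁ w) → Nul S (Z i w)) ∧
      ∀ (K₂ : Type u) [Field K₂] [Algebra k K₂] [Algebra K₁ K₂] [IsScalarTower k K₁ K₂]
        (hK₂ : IsFunctionField k K₂) (T : Set (Place k K₂)), T.Finite →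
        ∃ (K₃ : Type u) (_ : Field K₃) (_ : Algebra k K₃) (_ : Algebra K₂ K₃)
          (_ : IsScalarTower k K₂ K₃) (hK₃ : IsFunctionField k K₃) (P Q : Fin n → S.Mor K₃),
          ∀ w : Place k K₃, VQ.res hK₂ hK₃ w ∈ T → ∀ i,
            Nul S (Z i (VQ.res hK₁ hK₂ (VQ.res hK₂ hK₃ w)) -
              (Finsupp.single (S.eval hK₃ (P i) w) 1 - Finsupp.single (S.eval hK₃ (Q i) w) 1)) := by
  obtain ⟨K₁, _, _, _, _, hK₁, J, Z, hJ, hval, hzero, hlast⟩ :=
    multiB_aux97 h n hK c Finset.univ
  refine ⟨K₁, inferInstance, inferInstance, inferInstance, inferInstance, hK₁, J, Z,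
    fun i => hJ i (Finset.mem_univ i), fun i w p => hval i (Finset.mem_univ i) w p,
    fun i w => hzero i (Finset.mem_univ i) w, ?_⟩
  intro K₂ _ _ _ _ hK₂ T hT
  obtain ⟨K₃, _, _, _, _, hK₃, hPQ⟩ := hlast K₂ hK₂ T hT
  choose P Q hPQ using fun i => hPQ i (Finset.mem_univ i)
  exact ⟨K₃, inferInstance, inferInstance, inferInstance, inferInstance, hK₃, P, Q,
    fun w hw i => hPQ i w hw⟩

end Pool.Agent.Helper21.TB
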