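import Mathlib
import Pool.Agent.Helper9.NS
import Pool.Agent.Helper21.TB.Defs
import Pool.Agent.Helper21.TB.Hrm
import Pool.Agent.Helper21.TB.MultiB
import Pool.Agent.Helper21.TO.ExtCongr

/-!
# Block TB-OjOf: the transform of a functional is of class OJ
`altL Φ z` is the alternating sum. It is multilinear in `z` (`extM` in Helper26/VC/Ext.lean, `ext'`; `extProd a = ext' a`),
alternating (`altL (z ∘ π) = sign π * altL z`: reindex the sum), and changing `z i` by a `Nul` cycle does not change
it (`ext_congr`, TO/ExtCongr.lean, with `h.constS`). `odd`: `cyc (x, -y) ~ - cyc (x, y)` (`h.odd`). `alt`: clear.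
`harm`: `multiB` gives `K₁`, `J`, `Z`. Let `G' w = (∏ J i)⁻¹ * altL Φ (fun i => Z i w)` on the places of `K₁`. It is harmonic:
for `f ≠ 0` in `K₁` let `T` be its support, apply the last part of `multiB` with `K₂ = K₁` (`Algebra.id`,
`VQ.res` is the identity) to get `K₃`, `P`, `Q`; at places `w` of `K₃` over `T`:
`altL Φ (Z (res w)) = altL Φ ([P i w] - [Q i w])` (`ext_congr`), a finite sum of `± Φ` at values at `w` of morphisms to
`S ^ n` (as in TO/Trans.lean), so the sum `∑_w ord_w f * ..` over the places of `K₃` is `0` (`hΦ`, `Kills.gen`);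
descend to `K₁` by `QF.kills_res` (as in TO/Trans.lean). Let `G` be the average of `G'` (`exists_avg`). If all
`(c i).Val v (p i)`: for all `w` over `v`: `altL Φ (Z w) = altL Φ (J i • cyc (p i)) = (∏ J i) Ψ p`. If
`(c i).Zero v`: `Z i w` is `Nul` for all `w` over `v`, so `G' w = 0`.
-/

set_option linter.unusedSectionVars false

namespace Pool.Agent.Helper21.TB

open VC VF Function Polynomial
open Pool.Agent.Helper21.TO
open Pool.Agent.Helper51.VB (Ell KPt BP rs OJ)
open Pool.Agent.Helper51.VN (OnE Harm)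

universe u

variable {k : Type u} [Field k] [IsAlgClosed k] [CharZero k] {F : Type u} [Field F] [Algebra k F]
  {D : Ell k F} {S : Variety k} {cyc : Place k F × k × k → S.Cycles}

/-- The alternating sum of the values of a functional on exterior products. -/
noncomputable def altL {n : ℕ} (Φ : (S.pow n).Pt → k) (z : Fin n → S.Cycles) : k :=
  ∑ σ : Equiv.Perm (Fin n), ((Equiv.Perm.sign σ : ℤˣ) : ℤ) •
    Finsupp.linearCombination ℤ Φ (extProd (fun i => z (σ i)))

theorem altL_eq_of {n : ℕ} (Φ : (S.pow n).Pt → k) (z : Fin n → S.Cycles) :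
    altL Φ z = ∑ σ : Equiv.Perm (Fin n), (((Equiv.Perm.sign σ : ℤˣ) : ℤ) : k) *
      Finsupp.linearCombination ℤ Φ (extProd (fun i => z (σ i))) := by
  unfold altL
  apply Finset.sum_congr rfl
  intro σ _
  rw [zsmul_eq_mul]

theorem lin_ext_smul {n : ℕ} (Φ : (S.pow n).Pt → k) (m : Fin n → ℤ) (z : Fin n → S.Cycles) :
    Finsupp.linearCombination ℤ Φ (extProd (fun i => m i • z i)) =
      ((∏ i, m i : ℤ) : k) * Finsupp.linearCombination ℤ Φ (extProd z) := by
  have h1 : extProd (fun i => m i • z i) = (∏ i, m i) • extProd z :=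
    MultilinearMap.map_smul_univ (extM S.Pt n) m _
  rw [h1, map_smul, zsmul_eq_mul]

theorem altL_smul {n : ℕ} (Φ : (S.pow n).Pt → k) (m : Fin n → ℤ) (z : Fin n → S.Cycles) :
    altL Φ (fun i => m i • z i) = ((∏ i, m i : ℤ) : k) * altL Φ z := by
  rw [altL_eq_of, altL_eq_of, Finset.mul_sum]
  apply Finset.sum_congr rfl
  intro σ _
  rw [lin_ext_smul Φ (fun i => m (σ i)) (fun i => z (σ i)), Equiv.prod_comp σ m]
  ring

theorem altL_congr (hc : ∀ (K : Type u) [Field K] [Algebra k K] (hK : IsFunctionField k K)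
    (p : S.Pt), ∃ c : S.Mor K, ∀ v, S.eval hK c v = p) {n : ℕ} {Φ : (S.pow n).Pt → k}
    (hΦ : Kills (S.pow n) Φ) (a b : Fin n → S.Cycles) (h : ∀ i, Nul S (a i - b i)) :
    altL Φ a = altL Φ b := by
  unfold altL
  apply Finset.sum_congr rfl
  intro σ _
  rw [ext_congr hc hΦ (fun i => a (σ i)) (fun i => b (σ i)) (fun i => h (σ i))]

theorem nul_self_sub (a : S.Cycles) : Nul S (a - a) := by
  intro φ _
  rw [sub_self, map_zero]

theorem altL_nul (hc : ∀ (K : Type u) [Field K] [Algebra k K] (hK : IsFunctionField k K)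
    (p : S.Pt), ∃ c : S.Mor K, ∀ v, S.eval hK c v = p) {n : ℕ} {Φ : (S.pow n).Pt → k}
    (hΦ : Kills (S.pow n) Φ) (a : Fin n → S.Cycles) (i : Fin n) (h : Nul S (a i)) :
    altL Φ a = 0 := by
  classical
  have h1 : altL Φ a = altL Φ (fun j => (if j = i then (0 : ℤ) else 1) • a j) := by
    apply altL_congr hc hΦ
    intro j
    by_cases hj : j = i
    · subst hj
      rw [if_pos rfl, zero_smul, sub_zero]
      exact h
    · rw [if_neg hj, one_smul]
      exact nul_self_sub _
  have h2 : (∏ j, (if j = i then (0 : ℤ) else 1)) = 0 :=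
    Finset.prod_eq_zero (Finset.mem_univ i) (if_pos rfl)
  rw [h1, altL_smul, h2, Int.cast_zero, zero_mul]

theorem altL_comp {n : ℕ} (Φ : (S.pow n).Pt → k) (z : Fin n → S.Cycles)
    (π : Equiv.Perm (Fin n)) :
    altL Φ (fun i => z (π i)) = (((Equiv.Perm.sign π : ℤˣ) : ℤ) : k) * altL Φ z := by
  rw [altL_eq_of, altL_eq_of, Finset.mul_sum, ← Equiv.sum_comp (Equiv.mulLeft π) (fun τ =>
    (((Equiv.Perm.sign π : ℤˣ) : ℤ) : k) * ((((Equiv.Perm.sign τ : ℤˣ) : ℤ) : k) *
      Finsupp.linearCombination ℤ Φ (extProd (fun i => z (τ i)))))]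
  apply Finset.sum_congr rfl
  intro σ _
  rw [Equiv.coe_mulLeft, Equiv.Perm.sign_mul, Units.val_mul, Int.cast_mul, ← mul_assoc,
    ← mul_assoc, ← Int.cast_mul, ← Units.val_mul, Int.units_mul_self, Units.val_one, Int.cast_one,
    one_mul]
  rfl

theorem harm_lin {K : Type u} [Field K] [Algebra k K] {hK : IsFunctionField k K} {ι : Type*}
    (s : Finset ι) (c : ι → k) (G : ι → Place k K → k) (h : ∀ i ∈ s, Harm hK (G i)) :
    Harm hK (fun w => ∑ i ∈ s, c i * G i w) := by
  intro f hf
  have e : ∀ v : Place k K, (ord v.ring f : k) * ∑ i ∈ s, c i * G i v =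
      ∑ i ∈ s, c i * ((ord v.ring f : k) * G i v) := by
    intro v
    rw [Finset.mul_sum]
    apply Finset.sum_congr rfl
    intro i _
    ring
  simp only [e]
  rw [Finset.sum_comm]
  apply Finset.sum_eq_zero
  intro i hi
  rw [← Finset.mul_sum, h i hi f hf, mul_zero]

theorem ext_diffB {α : Type u} {n : ℕ} (p q : Fin n → α) :
    ext' (fun i => Finsupp.single (p i) (1 : ℤ) - Finsupp.single (q i) 1) =
      ∑ s : Fin n → Bool, (∏ i, (if s i then (1 : ℤ) else -1)) •
        Finsupp.single (fun i => if s i then p i else q i) 1 := by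
  classical
  have h1 : ∀ i, Finsupp.single (p i) (1 : ℤ) - Finsupp.single (q i) 1 =
      ∑ b : Bool, (if b then (1 : ℤ) else -1) • Finsupp.single (if b then p i else q i) (1 : ℤ) := by
    intro i
    rw [Fintype.sum_bool]
    simp [sub_eq_add_neg]
  simp only [h1]
  rw [← extM_apply, MultilinearMap.map_sum]
  apply Finset.sum_congr rfl
  intro s _
  rw [MultilinearMap.map_smul_univ, extM_apply, ext'_single]

theorem harm_ext {K : Type u} [Field K] [Algebra k K] (hK : IsFunctionField k K) {n : ℕ}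
    {Φ : (S.pow n).Pt → k} (hΦ : Kills (S.pow n) Φ) (P Q : Fin n → S.Mor K) :
    Harm hK (fun w => Finsupp.linearCombination ℤ Φ (extProd (fun i =>
      Finsupp.single (S.eval hK (P i) w) (1 : ℤ) - Finsupp.single (S.eval hK (Q i) w) 1))) := by
  classical
  let R : (Fin n → Bool) → Fin n → S.Mor K := fun s i => if s i then P i else Q i
  have hR : ∀ s w, (S.pow n).eval hK (R s) w =
      fun i => if s i then S.eval hK (P i) w else S.eval hK (Q i) w := by
    intro s w
    funext i
    change S.eval hK (if s i then P i else Q i) w = _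
    split_ifs <;> rfl
  have e : (fun w => Finsupp.linearCombination ℤ Φ (extProd (fun i =>
      Finsupp.single (S.eval hK (P i) w) (1 : ℤ) - Finsupp.single (S.eval hK (Q i) w) 1))) =
      fun w => ∑ s : Fin n → Bool, ((∏ i, (if s i then (1 : ℤ) else -1) : ℤ) : k) *
        Φ ((S.pow n).eval hK (R s) w) := by
    funext w
    have h3 : extProd (X := S) (fun i => Finsupp.single (S.eval hK (P i) w) (1 : ℤ) -
        Finsupp.single (S.eval hK (Q i) w) 1) = _ :=
      ext_diffB (fun i => S.eval hK (P i) w) (fun i => S.eval hK (Q i) w)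
    rw [h3, map_sum]
    apply Finset.sum_congr rfl
    intro s _
    rw [hR, map_smul, Finsupp.linearCombination_single, one_smul, zsmul_eq_mul]
  rw [e]
  exact harm_lin _ _ _ (fun s _ f hf => hΦ.gen hK (R s) hf)

theorem harm_altL {K : Type u} [Field K] [Algebra k K] (hK : IsFunctionField k K) {n : ℕ}
    {Φ : (S.pow n).Pt → k} (hΦ : Kills (S.pow n) Φ) (P Q : Fin n → S.Mor K) :
    Harm hK (fun w => altL Φ (fun i =>
      Finsupp.single (S.eval hK (P i) w) (1 : ℤ) - Finsupp.single (S.eval hK (Q i) w) 1)) := by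
  have e : (fun w => altL Φ (fun i =>
      Finsupp.single (S.eval hK (P i) w) (1 : ℤ) - Finsupp.single (S.eval hK (Q i) w) 1)) =
      fun w => ∑ σ : Equiv.Perm (Fin n), (((Equiv.Perm.sign σ : ℤˣ) : ℤ) : k) *
        Finsupp.linearCombination ℤ Φ (extProd (fun i =>
          Finsupp.single (S.eval hK (P (σ i)) w) (1 : ℤ) -
            Finsupp.single (S.eval hK (Q (σ i)) w) 1)) := by
    funext w
    exact altL_eq_of _ _
  rw [e]
  exact harm_lin _ _ _ (fun σ _ => harm_ext hK hΦ (fun i => P (σ i)) (fun i => Q (σ i)))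

theorem res_idB {K : Type u} [Field K] [Algebra k K] (hK : IsFunctionField k K)
    (v : Place k K) : VQ.res hK hK v = v := by
  apply Place.ext
  ext x
  exact Iff.rfl

theorem oj_of_link (h : LinkB D S cyc) {n : ℕ} {Φ : (S.pow n).Pt → k}
    (hΦ : Kills (S.pow n) Φ) : OJ D n (fun p => altL Φ (fun i => cyc (p i))) := by
  classical
  refine ⟨?_, ?_, ?_⟩
  · intro K _ _ hK c
    obtain ⟨K₁, iF, iA, iAK, iT, hK₁, J, Z, hJ, hval, hzero, hpair⟩ := multiB h n hK c
    have hJ0 : ((∏ i, (J i : ℤ) : ℤ) : k) ≠ 0 := by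
      rw [Int.cast_ne_zero, Finset.prod_ne_zero_iff]
      intro i _
      exact_mod_cast (hJ i).ne'
    have hH : Harm hK₁ (fun w => altL Φ (fun i => Z i w)) := by
      intro f hf
      obtain ⟨K₃, iF3, iA3, iAK3, iT3, hK₃, P, Q, hPQ⟩ :=
        hpair K₁ hK₁ {v | ord v.ring f ≠ 0} (finite_support_ord hK₁ hf)
      have hf' : algebraMap K₁ K₃ f ≠ 0 := (_root_.map_ne_zero _).mpr hf
      apply Pool.Agent.Helper83.QF.kills_res hK₁ hK₃ (fun w => altL Φ (fun i => Z i w)) hf hf'
      rw [← harm_altL hK₃ hΦ P Q (algebraMap K₁ K₃ f) hf']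
      apply Finset.sum_congr rfl
      intro w hw
      have hw' : ord w.ring (algebraMap K₁ K₃ f) ≠ 0 := by
        rw [Set.Finite.mem_toFinset] at hw
        exact hw
      have hw2 : ord (VQ.res hK₁ hK₃ w).ring f ≠ 0 := by
        intro h0
        apply hw'
        rw [VP.ord_ram hK₁ hK₃ w f hf, h0, mul_zero]
      congr 1
      apply altL_congr h.constS hΦ
      intro i
      have h3 := hPQ w hw2 i
      rwa [res_idB] at h3
    have hG' : Harm hK₁ (fun w => ((∏ i, (J i : ℤ) : ℤ) : k)⁻¹ * altL Φ (fun i => Z i w)) := by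
      intro f hf
      have e : ∀ v : Place k K₁, (ord v.ring f : k) * (((∏ i, (J i : ℤ) : ℤ) : k)⁻¹ *
          altL Φ (fun i => Z i v)) = ((∏ i, (J i : ℤ) : ℤ) : k)⁻¹ *
          ((ord v.ring f : k) * altL Φ (fun i => Z i v)) := by
        intro v
        ring
      simp only [e]
      rw [← Finset.mul_sum, hH f hf, mul_zero]
    obtain ⟨G, hG, hGA⟩ := exists_avg hK hK₁ hG'
    refine ⟨G, hG, ?_, ?_⟩
    · intro v p hp
      apply hGA
      intro w hw
      have h1 : altL Φ (fun i => Z i w) = altL Φ (fun i => (J i : ℤ) • cyc (p i)) := by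
        apply altL_congr h.constS hΦ
        intro i
        have h2 := hval i w (p i) (by rw [hw]; exact hp i)
        rwa [← natCast_zsmul] at h2
      rw [h1, altL_smul, ← mul_assoc, inv_mul_cancel₀ hJ0, one_mul]
    · intro v i hi
      apply hGA
      intro w hw
      have h1 : altL Φ (fun i => Z i w) = 0 :=
        altL_nul h.constS hΦ _ i (hzero i w (by rw [hw]; exact hi))
      rw [h1, mul_zero]
  · intro p i hp
    have h1 : altL Φ (fun j => cyc (update p i ((p i).1, (p i).2.1, -(p i).2.2) j)) =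
        altL Φ (fun j => (if j = i then (-1 : ℤ) else 1) • cyc (p j)) := by
      apply altL_congr h.constS hΦ
      intro j
      by_cases hj : j = i
      · subst hj
        rw [update_self, if_pos rfl, neg_smul, one_smul, sub_neg_eq_add]
        exact h.odd (p j) (hp j).1 (hp j).2
      · rw [update_of_ne hj, if_neg hj, one_smul]
        exact nul_self_sub _
    have h2 : (∏ j, (if j = i then (-1 : ℤ) else 1)) = -1 := by
      rw [Finset.prod_ite_eq' Finset.univ i (fun _ => (-1 : ℤ)), if_pos (Finset.mem_univ i)]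
    rw [h1, altL_smul, h2]
    push_cast
    ring
  · intro i j hij p hp
    rw [altL_comp Φ (fun l => cyc (p l)) (Equiv.swap i j), Equiv.Perm.sign_swap hij]
    push_cast
    ring

end Pool.Agent.Helper21.TB
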