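import Mathlib
import Pool.Agent.Helper9.NS
import Pool.Agent.Helper21.TB.Defs
import Pool.Agent.Helper21.TB.OjOf
import Pool.Agent.Helper21.TO.ExtCongr
import Pool.Agent.Helper51.VB.Main

/-!
# Block TB-TransferB: the transfer
As in TO/Transfer.lean: by the separation lemma used there it suffices to show `altL Φ a = 0` for all `Φ` with
`Kills (S.pow n) Φ`. Claim for all `j ≤ n`: `altL Φ z = 0` if `z i` is `Fibral` for `i < j` and
`z i = cyc (p i)` with `p i` on a nice fibre for `i ≥ j`. `j = 0`: `oj_of_link` and `VB.vb_main`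
(Helper51/VB/Main.lean). Step: fix the other slots; `φ x = altL Φ (z with [x] in the slot j)` is `Kills S`
(TO/Transfer.lean has this step), and `φ_lin (cyc p) = altL Φ (.. cyc p ..) = 0` by the induction hypothesis, so
`φ_lin (z j) = 0` for `Fibral` `z j`.
-/

set_option linter.unusedSectionVars false

namespace Pool.Agent.Helper21.TB

open VC VF Function Polynomial
open Pool.Agent.Helper21.TO
open Pool.Agent.Helper51.VB (Ell KPt BP rs OJ)
open Pool.Agent.Helper51.VN (OnE Harm)

universe u

variable {k : Type u} [Field k] [IsAlgClosed k] [CharZero k] {F : Type u} [Field F] [Algebra k F]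
  {D : Ell k F} {S : Variety k} {cyc : Place k F × k × k → S.Cycles}

/-- The functionals of class `OJ` in `n` variables vanish at the nice points. -/
def Van (D : Ell k F) (n : ℕ) : Prop :=
  ∀ Ψ : (Fin n → Place k F × k × k) → k, OJ D n Ψ → ∀ p : Fin n → Place k F × k × k,
    (∀ i, D.Nice (p i).1 ∧ OnE (D.a₀ (p i).1) (D.b₀ (p i).1) (p i).2.1 (p i).2.2) → Ψ p = 0

/-- The functional on exterior products as a multilinear map. -/
private noncomputable def TM4 (X : Variety k) {n : ℕ} (Φ : (X.pow n).Pt → k) :
    MultilinearMap ℤ (fun _ : Fin n => X.Cycles) k :=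
  (Finsupp.linearCombination ℤ Φ).compMultilinearMap (extM X.Pt n)

private lemma TM4_apply {X : Variety k} {n : ℕ} (Φ : (X.pow n).Pt → k) (z : Fin n → X.Cycles) :
    TM4 X Φ z = Finsupp.linearCombination ℤ Φ (extProd z) := rfl

private lemma alt_apply4 {n : ℕ} (Φ : (S.pow n).Pt → k) (z : Fin n → S.Cycles) :
    (TM4 S Φ).alternatization z = altL Φ z := by
  rw [MultilinearMap.alternatization_apply]
  unfold altL
  refine Finset.sum_congr rfl fun σ _ => ?_
  rw [Units.smul_def]
  rfl

private lemma alt_step4 (h : LinkB D S cyc) {n : ℕ} (hvan : Van D n) {Φ : (S.pow n).Pt → k} (hΦ : Kills (S.pow n) Φ) (j : ℕ) :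
    j ≤ n → ∀ z : Fin n → S.Cycles, (∀ i : Fin n, (i : ℕ) < j → Fibral D S cyc (z i)) →
      (∀ i : Fin n, j ≤ (i : ℕ) → ∃ p : Place k F × k × k,
        (D.Nice p.1 ∧ OnE (D.a₀ p.1) (D.b₀ p.1) p.2.1 p.2.2) ∧ z i = cyc p) →
      (TM4 S Φ).alternatization z = 0 := by
  classical
  induction j with
  | zero =>
    intro _ z _ hz
    choose p hp hzp using fun i => hz i (Nat.zero_le _)
    have e : z = fun i => cyc (p i) := funext hzp
    rw [e, alt_apply4]
    exact hvan _ (oj_of_link h hΦ) p hp
  | succ j ih =>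
    intro hj z hz0 hz1
    have hjn : j < n := hj
    set i : Fin n := ⟨j, hjn⟩ with hi
    let φ : S.Pt → k := fun x => (TM4 S Φ).alternatization (update z i (Finsupp.single x 1))
    have hlin : ∀ w : S.Cycles, Finsupp.linearCombination ℤ φ w =
        (TM4 S Φ).alternatization (update z i w) := by
      intro w
      induction w using Finsupp.induction_linear with
      | zero => rw [map_zero, AlternatingMap.map_update_zero]
      | add a b ha hb => rw [map_add, ha, hb, AlternatingMap.map_update_add]
      | single x m =>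
        rw [Finsupp.linearCombination_single]
        have e : (Finsupp.single x m : S.Cycles) = m • Finsupp.single x 1 := by
          rw [Finsupp.smul_single, smul_eq_mul, mul_one]
        rw [e, AlternatingMap.map_update_smul]
    have hkill : Kills S φ := by
      intro r hr
      rw [hlin, alt_apply4]
      refine altL_nul h.constS hΦ _ i ?_
      rw [update_self]
      exact fun ψ hψ => hψ r hr
    have h3 := hz0 i (Nat.lt_succ_self j) φ hkill (fun p hp1 hp2 => by
      rw [hlin]
      refine ih (by omega) _ (fun l hl => ?_) (fun l hl => ?_)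
      · rw [update_of_ne (by
          intro h'
          rw [h'] at hl
          exact lt_irrefl _ hl)]
        exact hz0 l (by omega)
      · by_cases hl' : l = i
        · subst hl'
          exact ⟨p, ⟨hp1, hp2⟩, update_self _ _ _⟩
        · rw [update_of_ne hl']
          refine hz1 l ?_
          have : (l : ℕ) ≠ j := fun h' => hl' (Fin.ext h')
          omega)
    rw [hlin, update_eq_self] at h3
    exact h3

theorem transferV (h : LinkB D S cyc) {n : ℕ} (hvan : Van D n) (a : Fin n → S.Cycles) (ha : ∀ i, Fibral D S cyc (a i)) :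
    ∃ m : ℕ, 0 < m ∧ m • ∑ σ : Equiv.Perm (Fin n), ((Equiv.Perm.sign σ : ℤˣ) : ℤ) •
      extProd (fun i => a (σ i)) ∈ (S.pow n).Rat := by
  refine separation (S.pow n) _ fun Φ hΦ => ?_
  have h1 := alt_step4 h hvan hΦ n le_rfl a (fun i _ => ha i)
    (fun i hi => absurd i.2 (not_lt.2 hi))
  rw [alt_apply4] at h1
  rw [map_sum, ← h1]
  unfold altL
  refine Finset.sum_congr rfl fun σ _ => ?_
  rw [map_smul]

theorem transferB [D.Gen] (h : LinkB D S cyc) {g : ℕ} (hg : IsGenus k F g) {n : ℕ} (hn : D.N + g ≤ n)
    (a : Fin n → S.Cycles) (ha : ∀ i, Fibral D S cyc (a i)) :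
    ∃ m : ℕ, 0 < m ∧ m • ∑ σ : Equiv.Perm (Fin n), ((Equiv.Perm.sign σ : ℤˣ) : ℤ) •
      extProd (fun i => a (σ i)) ∈ (S.pow n).Rat :=
  transferV h (fun _ hΨ p hp => Helper51.VB.vb_main D hg hn hΨ p hp) a ha

end Pool.Agent.Helper21.TB
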