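import Mathlib
import Pool.Agent.Helper9.NS
import Pool.Agent.Helper21.TB.Fib
import Pool.Agent.Helper21.TB.Link
import Pool.Agent.Helper21.TB.TransferB
import Pool.Agent.Helper21.TB.ConstX
import Pool.Agent.Helper21.TB.RatB
import Pool.Agent.Helper21.TB.EllOf
import Pool.Agent.Helper21.TO.Num
import Pool.Agent.Helper21.TO.TwOf
import Pool.Agent.Helper21.TO.ResL

/-!
# TB: the final assembly
-/

set_option linter.unusedSectionVars false

namespace Pool.Agent.Helper21.TB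

open VC VF Function Polynomial
open Pool.Agent.Helper21.TO
open Pool.Agent.Helper51.VB (Ell KPt BP rs OJ)
open Pool.Agent.Helper51.VN (OnE Harm)

universe u

variable {k : Type u} [Field k] [IsAlgClosed k] [CharZero k] {F L Ω : Type u} [Field F]
  [Algebra k F] [Field L] [Algebra k L] [Algebra F L] [IsScalarTower k F L] [Field Ω]
  [Algebra k Ω] [Algebra L Ω] [IsScalarTower k L Ω]

lemma nonsing_of_disc {K : Type*} [Field K] [CharZero K] {a b e f : K}
    (h : 4 * a ^ 3 + 27 * b ^ 2 ≠ 0)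
    (h1 : f ^ 2 = e ^ 3 + a * e + b) : (sw a b).toAffine.Nonsingular e f := by
  rw [sw_nonsingular]
  refine ⟨h1, ?_⟩
  by_contra hcon
  push Not at hcon
  obtain ⟨h2, h3⟩ := hcon
  apply h
  have h4 : f = 0 := by
    have : 2 * f = 0 := by linear_combination h3
    exact (mul_eq_zero.mp this).resolve_left two_ne_zero
  have h6 : a = -3 * e ^ 2 := by linear_combination -h2
  have h7 : b = 2 * e ^ 3 := by
    rw [h4, h6] at h1
    linear_combination -h1
  rw [h6, h7]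
  ring

/-- The data over the splitting field. -/
noncomputable def mkCv (T : Fibration k F L Ω) {M : ℕ} (ξ : Fin M → Ω) (hξ : ξ ≠ 0) (c : Ω)
    (p q : Fin M → L[X]) (hc : c ≠ 0)
    (hg : ∀ i, c * ξ i = aeval T.x (p i) + aeval T.x (q i) * T.y) : Cv k L where
  hL := T.hL
  a := algebraMap F L T.a
  b := algebraMap F L T.b
  hΔ := by
    rw [← map_pow, ← map_pow, ← map_ofNat (algebraMap F L) 4, ← map_ofNat (algebraMap F L) 27,
      ← map_mul, ← map_mul, ← map_add]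
    exact (_root_.map_ne_zero _).mpr T.disc
  r := T.r
  hr := T.hr
  s := T.s
  hs := T.hs
  M := M
  I := vanB k ξ
  p := p
  q := q
  ne := by
    by_contra hcon
    push Not at hcon
    obtain ⟨i, hi⟩ := Function.ne_iff.mp hξ
    have h1 := hg i
    rw [(hcon i).1, (hcon i).2, map_zero, zero_mul, zero_add] at h1
    exact hi ((mul_eq_zero.mp h1).resolve_left hc)
  sat := by
    intro K _ _ ι x y h
    exact sat_of p q _ _ T.x T.y T.hx T.eqn ξ c hg K ι x y h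

/-- The link of the Jacobian fibration with the surface. -/
theorem exists_fb (T : Fibration k F L Ω) {M : ℕ} (ξ : Fin M → Ω) (hξ : ξ ≠ 0)
    (hfix : ∀ σ ∈ T.G, ∀ i, σ (ξ i) = ξ i) (c : Ω) (p q : Fin M → L[X]) (hc : c ≠ 0)
    (hg : ∀ i, c * ξ i = aeval T.x (p i) + aeval T.x (q i) * T.y) (D : Ell k F)
    (ha : T.a = -3 * D.al) (hb : T.b = -2 * D.be)
    (hbad : 1 ≤ D.N → D.be ^ 2 / (D.be ^ 2 - D.al ^ 3) ∉ D.e1.ring ∨
      (0 < ord D.e1.ring (D.be ^ 2 - D.al ^ 3) + 12 * D.E D.e1 ∧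
        ((D.al ≠ 0 ∧ ord D.e1.ring D.al + 4 * D.E D.e1 < 4) ∨
          (D.be ≠ 0 ∧ ord D.e1.ring D.be + 6 * D.E D.e1 < 6)))) :
    Nonempty (Fb D (mkCv T ξ hξ c p q hc hg)) := by
  have hL0 : CharZero L := charZero_of_injective_algebraMap (algebraMap k L).injective
  obtain ⟨H, hfin, hH1, hH2⟩ := exists_res_subgroup T.G T.finG T.stable
  have hinj : Function.Injective (algebraMap L Ω) := (algebraMap L Ω).injective
  have hdisc : 4 * (algebraMap F L T.a) ^ 3 + 27 * (algebraMap F L T.b) ^ 2 ≠ 0 :=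
    (mkCv T ξ hξ c p q hc hg).hΔ
  exact ⟨{
    ha := congrArg (algebraMap F L) ha
    hb := congrArg (algebraMap F L) hb
    bad := hbad
    H := H
    finH := hfin
    fixF := by
      intro τ hτ f
      obtain ⟨σ, hσ, h⟩ := hH1 τ hτ
      apply hinj
      rw [← h, T.fixF σ hσ]
    fixed := by
      intro z hz
      apply T.fixed
      intro σ hσ
      obtain ⟨τ, hτ, h⟩ := hH2 σ hσ
      rw [h, hz τ hτ]
    tw := by
      intro τ hτ
      obtain ⟨σ, hσ, h⟩ := hH1 τ hτ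
      rcases T.translation σ hσ with ⟨h1, h2⟩ | ⟨e, f, h0, h1, h2⟩
      · exact ⟨0, tw_of_zero p q _ _ T.x T.y T.hx T.eqn ξ c hg σ τ h (hfix σ hσ) h1 h2⟩
      · exact ⟨_, tw_of_some p q _ _ T.x T.y T.hx T.eqn ξ c hg σ τ h (hfix σ hσ) e f
          (nonsing_of_disc hdisc h0) h1 h2⟩ }⟩

/-- The main theorem for the fibration `T` with Jacobian `D`, in terms of the functionals on the
Jacobian fibration, for all cycles which are killed by the functionals coming from the base. -/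
theorem voisin_core (T : Fibration k F L Ω) (D : Ell k F) (ha : T.a = -3 * D.al)
    (hb : T.b = -2 * D.be) (hbad : 1 ≤ D.N → D.be ^ 2 / (D.be ^ 2 - D.al ^ 3) ∉ D.e1.ring ∨
      (0 < ord D.e1.ring (D.be ^ 2 - D.al ^ 3) + 12 * D.E D.e1 ∧
        ((D.al ≠ 0 ∧ ord D.e1.ring D.al + 4 * D.E D.e1 < 4) ∨
          (D.be ≠ 0 ∧ ord D.e1.ring D.be + 6 * D.E D.e1 < 6)))) {M : ℕ} (ξ : Fin M → Ω)
    (hξ : ξ ≠ 0) (hfix : ∀ σ ∈ T.G, ∀ i, σ (ξ i) = ξ i) {n : ℕ} (hvan : Van D n)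
    (a : Fin n → (proj k (vanB k ξ)).Cycles)
    (hcy : ∀ i, ∀ (φ : (proj k (vanB k ξ)).Pt → k) (κ : Place k F → k),
      Kills (proj k (vanB k ξ)) φ → Harm T.hF κ →
      (∀ (P : Place k F) (s : Fin M → k) (hs : s ≠ 0) (hss : Sat (vanB k ξ) s),
        Clo T.j ξ P s → φ (ppt s hs hss) = κ P) →
      (∀ c : k, (∀ P, κ P = c) → ∀ s, φ s = c) →
      Finsupp.linearCombination ℤ φ (a i) = 0) :
    ∃ m : ℕ, 0 < m ∧ m • ∑ σ : Equiv.Perm (Fin n), ((Equiv.Perm.sign σ : ℤˣ) : ℤ) •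
      extProd (fun i => a (σ i)) ∈ ((proj k (vanB k ξ)).pow n).Rat := by
  classical
  obtain ⟨c, p, q, hc, hgg⟩ := exists_num _ _ T.x T.y T.eqn T.gen ξ
  obtain ⟨B⟩ := exists_fb T ξ hξ hfix c p q hc hgg D ha hb hbad
  have hev : ev p q (IsScalarTower.toAlgHom k L Ω) T.x T.y = fun i => c * ξ i := by
    funext i
    rw [hgg i]
    rfl
  refine transferV (linkB B) hvan a fun i φ hφ h0 => ?_
  have hI : ∀ (P : MvPolynomial (Fin M) k) (m : ℕ), P.IsHomogeneous m →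
      MvPolynomial.aeval (ev p q (IsScalarTower.toAlgHom k L Ω) T.x T.y) P = 0 →
      P ∈ vanB k ξ := by
    intro P m hP h
    rw [hev, aeval_smul' hP] at h
    exact (mul_eq_zero.mp h).resolve_left (pow_ne_zero _ hc)
  obtain ⟨κ, hκ, h1, h2⟩ := const_X B (IsScalarTower.toAlgHom k L Ω) T.x T.y T.eqn hI hφ h0
  refine hcy i φ κ hφ hκ (fun P s hs hss hcl => h1 P s hs hss ?_) h2
  change Clo T.j (ev p q (IsScalarTower.toAlgHom k L Ω) T.x T.y) P s
  rw [hev]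
  exact (clo_scale hc).mpr hcl

/-- The main theorem, for all cycles which are killed by the functionals coming from the base. -/
theorem voisin_gen (T : Fibration k F L Ω) {g : ℕ} (hg : IsGenus k F g) (E : Place k F →₀ ℤ)
    (hj : ∀ c : k, T.a ^ 3 ≠ algebraMap k F c * (4 * T.a ^ 3 + 27 * T.b ^ 2))
    (h4 : ∀ P : Place k F, 0 ≤ ord P.ring T.a + 4 * E P)
    (h6 : ∀ P : Place k F, 0 ≤ ord P.ring T.b + 6 * E P) {M : ℕ} (ξ : Fin M → Ω) (hξ : ξ ≠ 0)
    (hfix : ∀ σ ∈ T.G, ∀ i, σ (ξ i) = ξ i) {n : ℕ} (hn : (E.sum fun _ m => m) + g ≤ n)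
    (a : Fin n → (proj k (vanB k ξ)).Cycles)
    (ha : ∀ i, ∀ (φ : (proj k (vanB k ξ)).Pt → k) (κ : Place k F → k),
      Kills (proj k (vanB k ξ)) φ → Harm T.hF κ →
      (∀ (P : Place k F) (s : Fin M → k) (hs : s ≠ 0) (hss : Sat (vanB k ξ) s),
        Clo T.j ξ P s → φ (ppt s hs hss) = κ P) →
      (∀ c : k, (∀ P, κ P = c) → ∀ s, φ s = c) →
      Finsupp.linearCombination ℤ φ (a i) = 0) :
    ∃ m : ℕ, 0 < m ∧ m • ∑ σ : Equiv.Perm (Fin n), ((Equiv.Perm.sign σ : ℤˣ) : ℤ) •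
      extProd (fun i => a (σ i)) ∈ ((proj k (vanB k ξ)).pow n).Rat := by
  obtain ⟨D, hDa, hDb, hDN, hDp, hDg⟩ := exists_ell T.hF T.a T.b T.disc hj E h4 h6
  have hn' : D.N + g ≤ n := by
    rw [← hDN] at hn
    exact_mod_cast hn
  exact voisin_core T D hDa hDb (fun _ => Or.inl hDp) ξ hξ hfix
    (fun _ hΨ p hp => Helper51.VB.vb_main D hg hn' hΨ p hp) a ha

/-- Voisin's conjecture for a surface with a morphism to a curve whose generic fibre has genus one,
with non-constant `j`-invariant. -/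
theorem voisin_fib (T : Fibration k F L Ω) {g : ℕ} (hg : IsGenus k F g) (E : Place k F →₀ ℤ)
    (hj : ∀ c : k, T.a ^ 3 ≠ algebraMap k F c * (4 * T.a ^ 3 + 27 * T.b ^ 2))
    (h4 : ∀ P : Place k F, 0 ≤ ord P.ring T.a + 4 * E P)
    (h6 : ∀ P : Place k F, 0 ≤ ord P.ring T.b + 6 * E P) {M : ℕ} (ξ : Fin M → Ω) (hξ : ξ ≠ 0)
    (hfix : ∀ σ ∈ T.G, ∀ i, σ (ξ i) = ξ i)
    (π : (proj k (vanB k ξ)).Pt → Place k F) (hπ : IsMorph T.j ξ π) {n : ℕ}
    (hn : (E.sum fun _ m => m) + g ≤ n) (a : Fin n → (proj k (vanB k ξ)).Cycles)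
    (ha : ∀ i, (a i).mapDomain π ∈ (curve T.hF).Rat) :
    ∃ m : ℕ, 0 < m ∧ m • ∑ σ : Equiv.Perm (Fin n), ((Equiv.Perm.sign σ : ℤˣ) : ℤ) •
      extProd (fun i => a (σ i)) ∈ ((proj k (vanB k ξ)).pow n).Rat := by
  refine voisin_gen T hg E hj h4 h6 ξ hξ hfix hn a fun i φ κ hφ hκ h1 _ => ?_
  have hs : ∀ s : (proj k (vanB k ξ)).Pt, φ s = κ (π s) := by
    intro s
    have h3 := h1 (π s) s.1.rep s.1.rep_nonzero s.2 (clo_morph hπ s)
    rw [← h3]
    congr 1
    exact Subtype.ext s.1.mk_rep.symm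
  have hk := harm_curve hκ _ (ha i)
  rw [Finsupp.linearCombination_mapDomain] at hk
  have e : φ = κ ∘ π := funext hs
  rw [e]
  exact hk

/-- Zero-cycles on a surface covered by a family of curves of genus one. -/
theorem kimura_fib (T : Fibration k F L Ω) {g : ℕ} (hg : IsGenus k F g) (E : Place k F →₀ ℤ)
    (hj : ∀ c : k, T.a ^ 3 ≠ algebraMap k F c * (4 * T.a ^ 3 + 27 * T.b ^ 2))
    (h4 : ∀ P : Place k F, 0 ≤ ord P.ring T.a + 4 * E P)
    (h6 : ∀ P : Place k F, 0 ≤ ord P.ring T.b + 6 * E P) {M : ℕ} (ξ : Fin M → Ω) (hξ : ξ ≠ 0)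
    (hfix : ∀ σ ∈ T.G, ∀ i, σ (ξ i) = ξ i)
    (K : Type u) [Field K] [Algebra k K] (hK : IsFunctionField k K) (ι : F →ₐ[k] K) (z : K)
    (f : Fin M → k[X]) (hf : (fun i => aeval z (f i)) ≠ 0)
    (H : ∀ (n : ℕ) (G : MvPolynomial (Fin M) F), G.IsHomogeneous n →
      G.eval₂ (T.j : F →+* Ω) ξ = 0 → G.eval₂ (ι : F →+* K) (fun i => aeval z (f i)) = 0)
    {n : ℕ} (hn : (E.sum fun _ m => m) + g ≤ n) (a : Fin n → (proj k (vanB k ξ)).Cycles)
    (ha : ∀ i, (a i).sum (fun _ c => c) = 0) :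
    ∃ m : ℕ, 0 < m ∧ m • ∑ σ : Equiv.Perm (Fin n), ((Equiv.Perm.sign σ : ℤˣ) : ℤ) •
      extProd (fun i => a (σ i)) ∈ ((proj k (vanB k ξ)).pow n).Rat := by
  classical
  have hS : Sat (vanB k ξ) (fun i => aeval z (f i)) := by
    intro P hP m hm
    have h1 : MvPolynomial.aeval ξ P = 0 := hP
    have h2 := H m (P.map (algebraMap k F)) (hm.map _) (by
      rw [MvPolynomial.eval₂_map]
      have e : ((T.j : F →+* Ω)).comp (algebraMap k F) = algebraMap k Ω := by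
        ext r
        exact T.j.commutes r
      rw [e]
      exact h1)
    rw [MvPolynomial.eval₂_map] at h2
    have e : ((ι : F →+* K)).comp (algebraMap k F) = algebraMap k K := by
      ext r
      exact ι.commutes r
    rw [e] at h2
    exact h2
  refine voisin_gen T hg E hj h4 h6 ξ hξ hfix hn a fun i φ κ hφ hκ h1 h2 => ?_
  obtain ⟨c, p, q, hc, hgg⟩ := exists_num _ _ T.x T.y T.eqn T.gen ξ
  obtain ⟨r, hr⟩ := kappa_rat (D := (exists_ell T.hF T.a T.b T.disc hj E h4 h6).choose)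
    (C := mkCv T ξ hξ c p q hc hgg) T.j ξ hφ κ h1 hK ι z f hf hS H
  have hs := h2 r hr
  have h3 : Finsupp.linearCombination ℤ φ (a i) = ((a i).sum (fun _ c => c) : ℤ) • r := by
    rw [Finsupp.linearCombination_apply, Finsupp.sum, Finsupp.sum, Finset.sum_smul]
    exact Finset.sum_congr rfl fun s _ => by rw [hs s]
  rw [h3, ha i, zero_smul]

end Pool.Agent.Helper21.TB
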