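import Mathlib
import Pool.Agent.Helper9.NS
import Pool.Agent.Helper21.TB.Final
import Pool.Agent.Helper21.TB.EllC
import Pool.Agent.Helper51.IS.Van

/-!
# TB: Voisin's conjecture for surfaces with a genus one fibration over a curve of arbitrary genus

Either the `j`-invariant is not constant, or the degree of `E` is positive and `E` is minimal (no
condition on `j` and on the base).
-/

set_option linter.unusedSectionVars false

namespace Pool.Agent.Helper21.TB

open VC VF Function Polynomial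
open Pool.Agent.Helper21.TO
open Pool.Agent.Helper51.VB (Ell KPt BP rs OJ)
open Pool.Agent.Helper51.VN (OnE Harm)

universe u

variable {k : Type u} [Field k] [IsAlgClosed k] [CharZero k] {F L Ω : Type u} [Field F]
  [Algebra k F] [Field L] [Algebra k L] [Algebra F L] [IsScalarTower k F L] [Field Ω]
  [Algebra k Ω] [Algebra L Ω] [IsScalarTower k L Ω]

/-- The main theorem, for all cycles which are killed by the functionals coming from the base.
Either the `j`-invariant is not constant, or `E` is minimal of positive degree. -/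
theorem voisin_min (T : Fibration k F L Ω) {g : ℕ} (hg : IsGenus k F g) (E : Place k F →₀ ℤ)
    (h4 : ∀ P : Place k F, T.a ≠ 0 → 0 ≤ ord P.ring T.a + 4 * E P)
    (h6 : ∀ P : Place k F, T.b ≠ 0 → 0 ≤ ord P.ring T.b + 6 * E P)
    (hc : (∀ c : k, T.a ^ 3 ≠ algebraMap k F c * (4 * T.a ^ 3 + 27 * T.b ^ 2)) ∨
      ((1 ≤ E.sum fun _ m => m) ∧
        ∀ P : Place k F, (T.a ≠ 0 ∧ ord P.ring T.a + 4 * E P < 4) ∨
          (T.b ≠ 0 ∧ ord P.ring T.b + 6 * E P < 6)))
    {M : ℕ} (ξ : Fin M → Ω) (hξ : ξ ≠ 0) (hfix : ∀ σ ∈ T.G, ∀ i, σ (ξ i) = ξ i) {n : ℕ}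
    (hn : (E.sum fun _ m => m) + g ≤ n) (a : Fin n → (proj k (vanB k ξ)).Cycles)
    (ha : ∀ i, ∀ (φ : (proj k (vanB k ξ)).Pt → k) (κ : Place k F → k),
      Kills (proj k (vanB k ξ)) φ → Harm T.hF κ →
      (∀ (P : Place k F) (s : Fin M → k) (hs : s ≠ 0) (hss : Sat (vanB k ξ) s),
        Clo T.j ξ P s → φ (ppt s hs hss) = κ P) →
      (∀ c : k, (∀ P, κ P = c) → ∀ s, φ s = c) →
      Finsupp.linearCombination ℤ φ (a i) = 0) :
    ∃ m : ℕ, 0 < m ∧ m • ∑ σ : Equiv.Perm (Fin n), ((Equiv.Perm.sign σ : ℤˣ) : ℤ) •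
      extProd (fun i => a (σ i)) ∈ ((proj k (vanB k ξ)).pow n).Rat := by
  rcases hc with hj | ⟨hN, hmin⟩
  · have hF0 : CharZero F := charZero_of_injective_algebraMap (algebraMap k F).injective
    have ha0 : T.a ≠ 0 := by
      intro h
      apply hj 0
      rw [h, map_zero, zero_mul]
      norm_num
    have hb0 : T.b ≠ 0 := by
      intro h
      apply hj (1 / 4)
      rw [h, map_div₀, map_one, map_ofNat]
      ring
    exact voisin_gen T hg E hj (fun P => h4 P ha0) (fun P => h6 P hb0) ξ hξ hfix hn a ha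
  · obtain ⟨D, hDa, hDb, hDN, -, -, hDe⟩ := exists_ellC T.hF T.a T.b T.disc E h4 h6
      (fun _ => hmin)
    have h1 : 1 ≤ D.N := by
      rw [← hDN] at hN
      exact_mod_cast hN
    have hP : D.Pos := ⟨h1⟩
    have hn' : D.N + g ≤ n := by
      rw [← hDN] at hn
      exact_mod_cast hn
    exact voisin_core T D hDa hDb (fun h => Or.inr (hDe h)) ξ hξ hfix
      (fun Ψ hΨ p hp => Helper51.IS.van_all D (hDe h1).1 hg hn' hΨ p hp) a ha

/-- Voisin's conjecture for a surface with a morphism to a curve whose generic fibre has genus one.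
Either the `j`-invariant is not constant, or the divisor `E` is minimal, of positive degree. -/
theorem voisin_all' (T : Fibration k F L Ω) {g : ℕ} (hg : IsGenus k F g) (E : Place k F →₀ ℤ)
    (h4 : ∀ P : Place k F, T.a ≠ 0 → 0 ≤ ord P.ring T.a + 4 * E P)
    (h6 : ∀ P : Place k F, T.b ≠ 0 → 0 ≤ ord P.ring T.b + 6 * E P)
    (hc : (∀ c : k, T.a ^ 3 ≠ algebraMap k F c * (4 * T.a ^ 3 + 27 * T.b ^ 2)) ∨
      ((1 ≤ E.sum fun _ m => m) ∧
        ∀ P : Place k F, (T.a ≠ 0 ∧ ord P.ring T.a + 4 * E P < 4) ∨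
          (T.b ≠ 0 ∧ ord P.ring T.b + 6 * E P < 6)))
    {M : ℕ} (ξ : Fin M → Ω) (hξ : ξ ≠ 0) (hfix : ∀ σ ∈ T.G, ∀ i, σ (ξ i) = ξ i)
    (π : (proj k (vanB k ξ)).Pt → Place k F) (hπ : IsMorph T.j ξ π) {n : ℕ}
    (hn : (E.sum fun _ m => m) + g ≤ n) (a : Fin n → (proj k (vanB k ξ)).Cycles)
    (ha : ∀ i, (a i).mapDomain π ∈ (curve T.hF).Rat) :
    ∃ m : ℕ, 0 < m ∧ m • ∑ σ : Equiv.Perm (Fin n), ((Equiv.Perm.sign σ : ℤˣ) : ℤ) •
      extProd (fun i => a (σ i)) ∈ ((proj k (vanB k ξ)).pow n).Rat := by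
  refine voisin_min T hg E h4 h6 hc ξ hξ hfix hn a fun i φ κ hφ hκ h1 _ => ?_
  have hs : ∀ s : (proj k (vanB k ξ)).Pt, φ s = κ (π s) := by
    intro s
    have h3 := h1 (π s) s.1.rep s.1.rep_nonzero s.2 (clo_morph hπ s)
    rw [← h3]
    congr 1
    exact Subtype.ext s.1.mk_rep.symm
  have hk := harm_curve hκ _ (ha i)
  rw [Finsupp.linearCombination_mapDomain] at hk
  have e : φ = κ ∘ π := funext hs
  rw [e]
  exact hk

end Pool.Agent.Helper21.TB
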