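import Mathlib
import Pool.Agent.Helper9.NS
import Pool.Agent.Helper21.TB.AllC
import Pool.Agent.Helper51.IZ.Main

/-!
# TB: Voisin's conjecture for surfaces with a genus one fibration, nontrivial Jacobian

`E` is minimal and not principal (in particular its degree may be zero).
-/

set_option linter.unusedSectionVars false

namespace Pool.Agent.Helper21.TB

open VC VF Function Polynomial
open Pool.Agent.Helper21.TO
open Pool.Agent.Helper51.VB (Ell KPt BP rs OJ)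
open Pool.Agent.Helper51.VN (OnE Harm)

universe u

variable {k : Type u} [Field k] [IsAlgClosed k] [CharZero k] {F L Ω : Type u} [Field F]
  [Algebra k F] [Field L] [Algebra k L] [Algebra F L] [IsScalarTower k F L] [Field Ω]
  [Algebra k Ω] [Algebra L Ω] [IsScalarTower k L Ω]

/-- The main theorem, for all cycles which are killed by the functionals coming from the base. The
divisor `E` is minimal and not principal. -/
theorem voisin_np (T : Fibration k F L Ω) {g : ℕ} (hg : IsGenus k F g) (E : Place k F →₀ ℤ)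
    (h4 : ∀ P : Place k F, T.a ≠ 0 → 0 ≤ ord P.ring T.a + 4 * E P)
    (h6 : ∀ P : Place k F, T.b ≠ 0 → 0 ≤ ord P.ring T.b + 6 * E P)
    (hmin : ∀ P : Place k F, (T.a ≠ 0 ∧ ord P.ring T.a + 4 * E P < 4) ∨
      (T.b ≠ 0 ∧ ord P.ring T.b + 6 * E P < 6))
    (hnp : ¬ ∃ u : F, u ≠ 0 ∧ ∀ P : Place k F, ord P.ring u = E P)
    {M : ℕ} (ξ : Fin M → Ω) (hξ : ξ ≠ 0) (hfix : ∀ σ ∈ T.G, ∀ i, σ (ξ i) = ξ i) {n : ℕ}
    (hn : (E.sum fun _ m => m) + g ≤ n) (a : Fin n → (proj k (vanB k ξ)).Cycles)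
    (ha : ∀ i, ∀ (φ : (proj k (vanB k ξ)).Pt → k) (κ : Place k F → k),
      Kills (proj k (vanB k ξ)) φ → Harm T.hF κ →
      (∀ (P : Place k F) (s : Fin M → k) (hs : s ≠ 0) (hss : Sat (vanB k ξ) s),
        Clo T.j ξ P s → φ (ppt s hs hss) = κ P) →
      (∀ c : k, (∀ P, κ P = c) → ∀ s, φ s = c) →
      Finsupp.linearCombination ℤ φ (a i) = 0) :
    ∃ m : ℕ, 0 < m ∧ m • ∑ σ : Equiv.Perm (Fin n), ((Equiv.Perm.sign σ : ℤˣ) : ℤ) •
      extProd (fun i => a (σ i)) ∈ ((proj k (vanB k ξ)).pow n).Rat := by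
  obtain ⟨D, hDa, hDb, hDN, hDE, -, hDe⟩ := exists_ellC T.hF T.a T.b T.disc E h4 h6
    (fun _ => hmin)
  rcases Nat.eq_zero_or_pos D.N with h0 | h1
  · have hn' : g ≤ n := by
      rw [← hDN, h0] at hn
      simpa using hn
    rw [← hDE] at hnp
    exact voisin_core T D hDa hDb (fun h => by omega) ξ hξ hfix
      (fun Ψ hΨ p hp => Helper51.IZ.iz_main D h0 hnp hg hn' hΨ p hp) a ha
  · have h2 : 1 ≤ E.sum fun _ m => m := by
      rw [← hDN]
      exact_mod_cast h1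
    exact voisin_min T hg E h4 h6 (Or.inr ⟨h2, hmin⟩) ξ hξ hfix hn a ha

/-- Voisin's conjecture for a surface with a morphism to a curve whose generic fibre has genus one.
The divisor `E` is minimal and not principal. -/
theorem voisin_fib_np (T : Fibration k F L Ω) {g : ℕ} (hg : IsGenus k F g) (E : Place k F →₀ ℤ)
    (h4 : ∀ P : Place k F, T.a ≠ 0 → 0 ≤ ord P.ring T.a + 4 * E P)
    (h6 : ∀ P : Place k F, T.b ≠ 0 → 0 ≤ ord P.ring T.b + 6 * E P)
    (hmin : ∀ P : Place k F, (T.a ≠ 0 ∧ ord P.ring T.a + 4 * E P < 4) ∨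
      (T.b ≠ 0 ∧ ord P.ring T.b + 6 * E P < 6))
    (hnp : ¬ ∃ u : F, u ≠ 0 ∧ ∀ P : Place k F, ord P.ring u = E P)
    {M : ℕ} (ξ : Fin M → Ω) (hξ : ξ ≠ 0) (hfix : ∀ σ ∈ T.G, ∀ i, σ (ξ i) = ξ i)
    (π : (proj k (vanB k ξ)).Pt → Place k F) (hπ : IsMorph T.j ξ π) {n : ℕ}
    (hn : (E.sum fun _ m => m) + g ≤ n) (a : Fin n → (proj k (vanB k ξ)).Cycles)
    (ha : ∀ i, (a i).mapDomain π ∈ (curve T.hF).Rat) :
    ∃ m : ℕ, 0 < m ∧ m • ∑ σ : Equiv.Perm (Fin n), ((Equiv.Perm.sign σ : ℤˣ) : ℤ) •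
      extProd (fun i => a (σ i)) ∈ ((proj k (vanB k ξ)).pow n).Rat := by
  refine voisin_np T hg E h4 h6 hmin hnp ξ hξ hfix hn a fun i φ κ hφ hκ h1 _ => ?_
  have hs : ∀ s : (proj k (vanB k ξ)).Pt, φ s = κ (π s) := by
    intro s
    have h3 := h1 (π s) s.1.rep s.1.rep_nonzero s.2 (clo_morph hπ s)
    rw [← h3]
    congr 1
    exact Subtype.ext s.1.mk_rep.symm
  have hk := harm_curve hκ _ (ha i)
  rw [Finsupp.linearCombination_mapDomain] at hk
  have e : φ = κ ∘ π := funext hs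
  rw [e]
  exact hk

end Pool.Agent.Helper21.TB
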