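import Mathlib
import Pool.Agent.Helper9.NS
import Pool.Agent.Helper21.TB.Defs
import Pool.Agent.Helper17.FF.Genus

/-!
# Block TB-LineA: the Weierstrass equation over the projective line
`t` is transcendental over `k` (otherwise `F = k (t) = k`, but `F` is a function field). The places of `F`: for `c ∈ k`
the place `P_c` with `t - c` as a uniformizer, and `P_∞` with `1 / t` (`F ≃ k (t)`, `RatFunc`; or argue with `E.support`
only: a place with `t` regular has `t ≡ c`, and `t - c` generates the maximal ideal as `F = k (t)`). Let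
`h = ∏_c (t - c) ^ (E (P_c))`, so `ord_{P_c} h = E (P_c)` and `ord_{P_∞} h = E (P_∞) - N`, `N = deg E`
(degree of a principal divisor: `FF.deg_dv`). Then `h ^ 4 a` has `ord_{P_c} ≥ 0` for all `c` and
`ord_{P_∞} ≥ -4 N` (or is zero), so it is a polynomial in `t` of degree `≤ 4 N`, i.e. `A (1, t)` for a binary form `A` of
degree `4 N` (`A = ∑ a_i X_0 ^ (4 N - i) X_1 ^ i`); the same for `h ^ 6 b`. `4 A ^ 3 + 27 B ^ 2 ≠ 0` as its value at `(1, t)` is
`h ^ 12 (4 a ^ 3 + 27 b ^ 2)`. Minimal: let `l ≠ 0` be a linear form with `l ^ 4 ∣ A`, `l ^ 6 ∣ B`. It is proportional to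
`X_1 - c X_0` or to `X_0`. In the first case `(t - c) ^ 4 ∣ h ^ 4 a`: `ord_{P_c} a + 4 E (P_c) ≥ 4` if `a ≠ 0`, and
`ord_{P_c} b + 6 E (P_c) ≥ 6` if `b ≠ 0`, against `hmin`. In the second case the polynomials have degrees
`≤ 4 N - 4`, `≤ 6 N - 6` and the same holds at `P_∞`. `Wei` is defined in Helper51/EW/Defs.lean (`N`, `A`, `B`, `hA`, `hB`), `Minimal`
in TO/Defs.lean.
-/

set_option linter.unusedSectionVars false

namespace Pool.Agent.Helper21.TB

open VC VF Function Polynomial
open Pool.Agent.Helper21.TO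
open Pool.Agent.Helper51.VB (Ell KPt BP rs OJ)
open Pool.Agent.Helper51.VN (OnE Harm)

universe u

variable {k : Type u} [Field k] [IsAlgClosed k] [CharZero k] {F : Type u} [Field F] [Algebra k F]

omit [IsAlgClosed k] [CharZero k] in
private lemma homog_h12 (n : ℕ) (p : k[X]) (hp : p.natDegree ≤ n) :
    ∃ A : MvPolynomial (Fin 2) k, A.IsHomogeneous n ∧
      ∀ x : F, MvPolynomial.aeval ![1, x] A = aeval x p := by
  refine ⟨∑ i ∈ Finset.range (n + 1), MvPolynomial.C (p.coeff i) *
    (MvPolynomial.X 0 ^ (n - i) * MvPolynomial.X 1 ^ i), ?_, ?_⟩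
  · apply MvPolynomial.IsHomogeneous.sum
    intro i hi
    have hi' := Finset.mem_range.mp hi
    have h1 := (MvPolynomial.isHomogeneous_C (Fin 2) (p.coeff i)).mul
      (((MvPolynomial.isHomogeneous_X k (0 : Fin 2)).pow (n - i)).mul
        ((MvPolynomial.isHomogeneous_X k (1 : Fin 2)).pow i))
    have e : 0 + (1 * (n - i) + 1 * i) = n := by omega
    rwa [e] at h1
  · intro x
    rw [map_sum, aeval_eq_sum_range' (Nat.lt_succ_of_le hp)]
    refine Finset.sum_congr rfl fun i _ => ?_
    simp [Algebra.smul_def]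

section line

variable (hF : IsFunctionField k F) {t : F} (ht : IntermediateField.adjoin k {t} = ⊤)

include hF ht in
omit [CharZero k] in
private lemma trans_h12 : Transcendental k t := by
  by_contra hcon
  obtain ⟨b, rfl⟩ := FF.exists_const_of_not_transcendental hcon
  obtain ⟨x, hx, _⟩ := hF
  apply hx
  have h1 : IntermediateField.adjoin k {algebraMap k F b} = ⊥ :=
    IntermediateField.adjoin_simple_eq_bot_iff.mpr (IntermediateField.algebraMap_mem ⊥ b)
  rw [h1] at ht
  have h2 : x ∈ (⊥ : IntermediateField k F) := by rw [ht]; trivial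
  rw [IntermediateField.mem_bot] at h2
  obtain ⟨y, rfl⟩ := h2
  exact isAlgebraic_algebraMap y

include ht in
omit [CharZero k] in
private lemma exists_inf_h12 : ∃ P : Place k F, FF.poles hF t = Finsupp.single P 1 := by
  classical
  have h1 := FF.deg_poles hF (trans_h12 hF ht)
  have h0 : Module.finrank (IntermediateField.adjoin k {t}) F = 1 := by
    rw [ht]
    exact IntermediateField.finrank_top
  rw [h0] at h1
  obtain ⟨P, hP⟩ := FF.exists_pos_of_deg (D := FF.poles hF t) (by rw [h1]; norm_num)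
  refine ⟨P, ?_⟩
  have h2 := FF.eq_zero_of_deg (D := FF.poles hF t - Finsupp.single P 1) (fun Q => by
      rw [Finsupp.sub_apply, Finsupp.single_apply]
      have := FF.poles_nonneg hF t Q
      split_ifs with h
      · subst h; omega
      · omega) (by rw [map_sub, h1, FF.deg_single]; norm_num)
  exact sub_eq_zero.mp h2

variable {Pi : Place k F} (hPi : FF.poles hF t = Finsupp.single Pi 1)
include hPi

omit [CharZero k] in
private lemma ord_inf_h12 : ord Pi.ring t = -1 := by
  have h := DFunLike.congr_fun hPi Pi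
  rw [FF.poles_apply, Finsupp.single_eq_same] at h
  rcases le_total (-ord Pi.ring t) 0 with h1 | h1
  · rw [max_eq_right h1] at h; omega
  · rw [max_eq_left h1] at h; omega

omit [CharZero k] in
private lemma t_ne_h12 : t ≠ 0 := by
  rintro rfl
  have := ord_inf_h12 hF hPi
  rw [FF.ord_zero] at this
  omega

omit [CharZero k] in
private lemma t_mem_h12 {P : Place k F} (hP : P ≠ Pi) : t ∈ P.ring := by
  classical
  have h := DFunLike.congr_fun hPi P
  rw [FF.poles_apply, Finsupp.single_apply, if_neg (Ne.symm hP)] at h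
  rw [← FF.ord_nonneg_iff hF P (t_ne_h12 hF hPi)]
  have := le_max_left (-ord P.ring t) 0
  omega

omit [CharZero k] in
private lemma t_notMem_h12 : t ∉ Pi.ring := by
  rw [← FF.ord_nonneg_iff hF Pi (t_ne_h12 hF hPi), ord_inf_h12 hF hPi]
  norm_num

omit [CharZero k] in
private lemma tinv_mem_h12 : t⁻¹ ∈ Pi.ring :=
  (Pi.ring.mem_or_inv_mem t).resolve_left (t_notMem_h12 hF hPi)

omit [CharZero k] in
private lemma tc_ne_h12 (c : k) : t - algebraMap k F c ≠ 0 := by
  intro h
  apply t_notMem_h12 hF hPi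
  rw [sub_eq_zero.mp h]
  exact Pi.algebraMap_mem c

omit [CharZero k] in
private lemma t_rr_h12 : t ∈ riemannRochSpace k F (Finsupp.single Pi 1) := by
  rw [← hPi]
  exact FF.mem_rr_poles hF t

omit [CharZero k] in
private lemma c_rr_h12 (c : k) : algebraMap k F c ∈ riemannRochSpace k F (Finsupp.single Pi 1) := by
  classical
  rcases eq_or_ne c 0 with rfl | hc
  · rw [map_zero]; exact Submodule.zero_mem _
  · rw [FF.mem_rr hF _ (by rwa [ne_eq, map_eq_zero])]
    intro P
    rw [FF.ord_algebraMap hF P hc, Finsupp.single_apply]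
    split_ifs <;> norm_num

omit [CharZero k] in
private lemma dv_h12 {P : Place k F} (hP : P ≠ Pi) {c : k}
    (hc : t - algebraMap k F c ∈ P.ring.nonunits) :
    FF.dv hF (t - algebraMap k F c) = Finsupp.single P 1 - Finsupp.single Pi 1 := by
  classical
  have hne := tc_ne_h12 hF hPi c
  have h1 : t - algebraMap k F c ∈ riemannRochSpace k F (Finsupp.single Pi 1) :=
    Submodule.sub_mem _ (t_rr_h12 hF hPi) (c_rr_h12 hF hPi c)
  rw [FF.mem_rr hF _ hne] at h1
  have h2 := (FF.ord_pos_iff hF P hne).mpr hc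
  have h3 := FF.eq_zero_of_deg
    (D := FF.dv hF (t - algebraMap k F c) + Finsupp.single Pi 1 - Finsupp.single P 1) (fun Q => by
      rw [Finsupp.sub_apply, Finsupp.add_apply, FF.dv_apply, Finsupp.single_apply (a := P)]
      have h4 := h1 Q
      split_ifs with h
      · subst h
        rw [Finsupp.single_apply, if_neg (Ne.symm hP)] at h4 ⊢
        omega
      · omega) (by
      rw [map_sub, map_add, FF.deg_dv hF hne, FF.deg_single, FF.deg_single]
      norm_num)
  rw [sub_eq_zero] at h3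
  rw [← h3]
  abel

omit [CharZero k] in
private lemma exists_g_h12 (P : Place k F) :
    ∃ g : F, g ≠ 0 ∧ FF.dv hF g = Finsupp.single P 1 - Finsupp.single Pi 1 := by
  by_cases hP : P = Pi
  · subst hP
    exact ⟨1, one_ne_zero, by rw [FF.dv_one, sub_self]⟩
  · have h1 := FF.ev_spec hF P ⟨t, t_mem_h12 hF hPi hP⟩
    exact ⟨_, tc_ne_h12 hF hPi _, dv_h12 hF hPi hP h1⟩

omit [CharZero k] in
private lemma exists_h_h12 (E : Place k F →₀ ℤ) :
    ∃ h : F, h ≠ 0 ∧ FF.dv hF h = E - FF.deg E • Finsupp.single Pi 1 := by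
  classical
  induction E using Finsupp.induction_linear with
  | zero => exact ⟨1, one_ne_zero, by rw [FF.dv_one, map_zero, zero_smul, sub_zero]⟩
  | add D E hD hE =>
    obtain ⟨f, hf, hf'⟩ := hD
    obtain ⟨g, hg, hg'⟩ := hE
    refine ⟨f * g, mul_ne_zero hf hg, ?_⟩
    rw [FF.dv_mul hF hf hg, hf', hg', map_add, add_smul]
    abel
  | single P m =>
    obtain ⟨g, hg, hg'⟩ := exists_g_h12 hF hPi P
    refine ⟨g ^ m, zpow_ne_zero _ hg, ?_⟩
    ext Q
    have h1 := DFunLike.congr_fun hg' Q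
    rw [FF.dv_apply, Finsupp.sub_apply] at h1
    rw [FF.dv_apply, FF.ord_zpow hF Q hg, h1, Finsupp.sub_apply, FF.deg_single, Finsupp.smul_apply,
      smul_eq_mul, Finsupp.single_apply, Finsupp.single_apply, Finsupp.single_apply]
    split_ifs <;> ring

include ht in
omit [CharZero k] in
private lemma poly_h12 (n : ℕ) {f : F}
    (hf : f ∈ riemannRochSpace k F (Finsupp.single Pi (n : ℤ))) :
    ∃ p : k[X], p.natDegree ≤ n ∧ aeval t p = f := by
  classical
  have htr := trans_h12 hF ht
  have ht0 := t_ne_h12 hF hPi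
  have hmon : ∀ i ≤ n, t ^ i ∈ riemannRochSpace k F (Finsupp.single Pi (n : ℤ)) := by
    intro i hi
    rw [FF.mem_rr hF _ (pow_ne_zero _ ht0)]
    intro P
    rw [FF.ord_pow hF P ht0, Finsupp.single_apply]
    split_ifs with h
    · subst h
      rw [ord_inf_h12 hF hPi]
      omega
    · have := (FF.ord_nonneg_iff hF P ht0).mpr (t_mem_h12 hF hPi (fun e => h e.symm))
      positivity
  have hmem : ∀ p ∈ degreeLT k (n + 1), aeval t p ∈
      riemannRochSpace k F (Finsupp.single Pi (n : ℤ)) := by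
    intro p hp
    have hd : p.natDegree < n + 1 := by
      rcases eq_or_ne p 0 with h0 | h0
      · rw [h0, natDegree_zero]; omega
      · exact (natDegree_lt_iff_degree_lt h0).mpr (by exact_mod_cast mem_degreeLT.mp hp)
    rw [aeval_eq_sum_range' hd]
    refine Submodule.sum_mem _ fun i hi => Submodule.smul_mem _ _ (hmon i ?_)
    have := Finset.mem_range.mp hi
    omega
  have hfin := FF.rr_le_aux hF n (Finsupp.single Pi (n : ℤ)) (fun P => by
      rw [Finsupp.single_apply]; split_ifs <;> positivity) (by rw [FF.deg_single]) 0 (by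
      rw [FF.rr_zero_eq hF]
      infer_instance)
  rw [zero_add, FF.ell_zero hF] at hfin
  obtain ⟨hfd, hle⟩ := hfin
  let ψ : degreeLT k (n + 1) →ₗ[k] riemannRochSpace k F (Finsupp.single Pi (n : ℤ)) :=
    ((aeval t : k[X] →ₐ[k] F).toLinearMap.comp (degreeLT k (n + 1)).subtype).codRestrict _
      (fun p => hmem p p.2)
  have hinj : Function.Injective ψ := by
    intro p q hpq
    have h1 : aeval t (p : k[X]) = aeval t (q : k[X]) := congrArg Subtype.val hpq
    exact Subtype.ext ((transcendental_iff_injective.mp htr) h1)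
  have hfd' : FiniteDimensional k (degreeLT k (n + 1)) :=
    Module.Finite.equiv (degreeLTEquiv k (n + 1)).symm
  have h1 : Module.finrank k (degreeLT k (n + 1)) = n + 1 := by
    rw [(degreeLTEquiv k (n + 1)).finrank_eq, Module.finrank_fin_fun]
  have h2 := LinearMap.finrank_le_finrank_of_injective hinj
  have h3 : Module.finrank k (degreeLT k (n + 1)) =
      Module.finrank k (riemannRochSpace k F (Finsupp.single Pi (n : ℤ))) := by
    have h4 : Module.finrank k (riemannRochSpace k F (Finsupp.single Pi (n : ℤ))) ≤ 1 + n := hle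
    omega
  obtain ⟨p, hp⟩ := (LinearMap.injective_iff_surjective_of_finrank_eq_finrank h3).mp hinj ⟨f, hf⟩
  refine ⟨p, ?_, congrArg Subtype.val hp⟩
  have := mem_degreeLT.mp p.2
  rcases eq_or_ne (p : k[X]) 0 with h0 | h0
  · rw [h0, natDegree_zero]; exact Nat.zero_le _
  · exact Nat.lt_succ_iff.mp ((natDegree_lt_iff_degree_lt h0).mpr (by exact_mod_cast this))

omit [CharZero k] [IsAlgClosed k] hPi in
private lemma aev_mem_h12 {P : Place k F} (htP : t ∈ P.ring) (G : MvPolynomial (Fin 2) k) :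
    MvPolynomial.aeval ![1, t] G ∈ P.ring := by
  induction G using MvPolynomial.induction_on with
  | C c => rw [MvPolynomial.aeval_C]; exact P.algebraMap_mem c
  | add p q hp hq => rw [map_add]; exact P.ring.add_mem _ _ hp hq
  | mul_X p i hp =>
    rw [map_mul, MvPolynomial.aeval_X]
    refine P.ring.mul_mem _ _ hp ?_
    fin_cases i
    · exact P.ring.one_mem
    · exact htP

omit [CharZero k] in
private lemma aev_inf_h12 (G : MvPolynomial (Fin 2) k) :
    MvPolynomial.aeval ![1, t] G * t⁻¹ ^ G.totalDegree ∈ Pi.ring := by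
  have ht0 := t_ne_h12 hF hPi
  have e : MvPolynomial.aeval ![1, t] G =
      ∑ m ∈ G.support, algebraMap k F (G.coeff m) * t ^ (m 1) := by
    rw [MvPolynomial.aeval_def, MvPolynomial.eval₂_eq']
    refine Finset.sum_congr rfl fun m _ => ?_
    rw [Fin.prod_univ_two]
    simp
  rw [e, Finset.sum_mul]
  refine Pi.ring.toSubring.sum_mem fun m hm => ?_
  have h1 : m 1 ≤ G.totalDegree := by
    refine le_trans ?_ (MvPolynomial.le_totalDegree hm)
    rw [Finsupp.sum_fintype _ _ (fun _ => rfl), Fin.sum_univ_two]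
    exact Nat.le_add_left _ _
  have e2 : algebraMap k F (G.coeff m) * t ^ (m 1) * t⁻¹ ^ G.totalDegree =
      algebraMap k F (G.coeff m) * t⁻¹ ^ (G.totalDegree - m 1) := by
    rw [mul_assoc]
    congr 1
    conv_lhs => rw [← Nat.add_sub_cancel' h1, pow_add, ← mul_assoc, ← mul_pow, mul_inv_cancel₀ ht0,
      one_pow, one_mul]
  rw [e2]
  exact Pi.ring.mul_mem _ _ (Pi.algebraMap_mem _) (Pi.ring.pow_mem (tinv_mem_h12 hF hPi) _)

omit [CharZero k] in
private lemma aev_ord_h12 {G : MvPolynomial (Fin 2) k} (hG : MvPolynomial.aeval ![1, t] G ≠ 0)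
    (P : Place k F) : 0 ≤ ord P.ring (MvPolynomial.aeval ![1, t] G) +
      Finsupp.single Pi (G.totalDegree : ℤ) P := by
  classical
  have ht0 := t_ne_h12 hF hPi
  rw [Finsupp.single_apply]
  split_ifs with h
  · subst h
    have h1 := aev_inf_h12 hF hPi G
    rw [← FF.ord_nonneg_iff hF Pi (mul_ne_zero hG (pow_ne_zero _ (inv_ne_zero ht0))),
      FF.ord_mul hF Pi hG (pow_ne_zero _ (inv_ne_zero ht0)), FF.ord_pow hF Pi (inv_ne_zero ht0),
      FF.ord_inv hF Pi ht0, ord_inf_h12 hF hPi] at h1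
    linarith
  · rw [add_zero, FF.ord_nonneg_iff hF P hG]
    exact aev_mem_h12 (t_mem_h12 hF hPi (fun e => h e.symm)) G

include ht in
omit [CharZero k] in
/-- the form belonging to `h ^ e * f` -/
private lemma exists_form_h12 {N : ℕ} {E : Place k F →₀ ℤ} (hN : (N : ℤ) = FF.deg E) {h : F}
    (hh : h ≠ 0) (hdv : FF.dv hF h = E - FF.deg E • Finsupp.single Pi 1) (e : ℕ) (f : F)
    (hf : ∀ P : Place k F, f ≠ 0 → 0 ≤ ord P.ring f + e * E P) :
    ∃ A : MvPolynomial (Fin 2) k, A.IsHomogeneous (e * N) ∧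
      MvPolynomial.aeval ![1, t] A = h ^ e * f := by
  classical
  have h1 : h ^ e * f ∈ riemannRochSpace k F (Finsupp.single Pi ((e * N : ℕ) : ℤ)) := by
    rcases eq_or_ne f 0 with h0 | h0
    · rw [h0, mul_zero]; exact Submodule.zero_mem _
    · rw [FF.mem_rr hF _ (mul_ne_zero (pow_ne_zero _ hh) h0)]
      intro P
      have h2 := DFunLike.congr_fun hdv P
      rw [FF.dv_apply, Finsupp.sub_apply, Finsupp.smul_apply, smul_eq_mul, ← hN,
        Finsupp.single_apply] at h2
      rw [FF.ord_mul hF P (pow_ne_zero _ hh) h0, FF.ord_pow hF P hh, h2, Finsupp.single_apply]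
      have h3 := hf P h0
      push_cast
      split_ifs <;> linarith
  obtain ⟨p, hp, hp'⟩ := poly_h12 hF ht hPi (e * N) h1
  obtain ⟨A, hA, hA'⟩ := homog_h12 (F := F) (e * N) p hp
  exact ⟨A, hA, by rw [hA', hp']⟩

omit [CharZero k] in
/-- the key inequality for the minimality -/
private lemma min_h12 {N : ℕ} {E : Place k F →₀ ℤ} (hN : (N : ℤ) = FF.deg E) {h : F}
    (hh : h ≠ 0) (hdv : FF.dv hF h = E - FF.deg E • Finsupp.single Pi 1) (e : ℕ) {f : F}
    (hf : f ≠ 0) {A l : MvPolynomial (Fin 2) k} (hA : A.IsHomogeneous (e * N))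
    (hA' : MvPolynomial.aeval ![1, t] A = h ^ e * f) (hl : l.IsHomogeneous 1)
    {P : Place k F} (hP : FF.dv hF (MvPolynomial.aeval ![1, t] l) =
      Finsupp.single P 1 - Finsupp.single Pi 1) (hd : l ^ e ∣ A) :
    (e : ℤ) ≤ ord P.ring f + e * E P := by
  classical
  obtain ⟨A', rfl⟩ := hd
  have hne : h ^ e * f ≠ 0 := mul_ne_zero (pow_ne_zero _ hh) hf
  rw [← hA', map_mul, map_pow] at hne
  have hne1 : MvPolynomial.aeval ![1, t] l ^ e ≠ 0 := left_ne_zero_of_mul hne
  have hne2 : MvPolynomial.aeval ![1, t] A' ≠ 0 := right_ne_zero_of_mul hne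
  have hA'0 : A' ≠ 0 := by rintro rfl; exact hne2 (map_zero _)
  have hle0 : l ^ e ≠ 0 := by
    intro h0
    apply hne1
    rw [← map_pow, h0, map_zero]
  have hdeg : e * N = e + A'.totalDegree := by
    have h1 := hA.totalDegree (mul_ne_zero hle0 hA'0)
    rw [MvPolynomial.totalDegree_mul_of_isDomain hle0 hA'0, (hl.pow e).totalDegree hle0,
      one_mul] at h1
    exact h1.symm
  have h2 := aev_ord_h12 hF hPi hne2 P
  have h3 := DFunLike.congr_fun hdv P
  rw [FF.dv_apply, Finsupp.sub_apply, Finsupp.smul_apply, smul_eq_mul, ← hN,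
    Finsupp.single_apply] at h3
  have h4 := DFunLike.congr_fun hP P
  rw [FF.dv_apply, Finsupp.sub_apply, Finsupp.single_eq_same, Finsupp.single_apply] at h4
  have h5 : ord P.ring (MvPolynomial.aeval ![1, t] (l ^ e * A')) =
      e * ord P.ring (MvPolynomial.aeval ![1, t] l) +
        ord P.ring (MvPolynomial.aeval ![1, t] A') := by
    rw [map_mul, map_pow, FF.ord_mul hF P hne1 hne2]
    rcases Nat.eq_zero_or_pos e with he | he
    · subst he
      rw [pow_zero, FF.ord_one hF P]
      simp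
    · rw [FF.ord_pow hF P (fun h0 => hne1 (by rw [h0, zero_pow (by omega)]))]
  rw [hA', FF.ord_mul hF P (pow_ne_zero _ hh) hf, FF.ord_pow hF P hh, h3, h4] at h5
  rw [Finsupp.single_apply] at h2
  have h6 : (e : ℤ) * N = e + A'.totalDegree := by exact_mod_cast hdeg
  split_ifs at h2 h5 with hc
  · nlinarith
  · nlinarith

end line

theorem exists_wei (hF : IsFunctionField k F) (t : F) (ht : IntermediateField.adjoin k {t} = ⊤)
    (a b : F) (hd : 4 * a ^ 3 + 27 * b ^ 2 ≠ 0) (E : Place k F →₀ ℤ)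
    (h4 : ∀ P : Place k F, a ≠ 0 → 0 ≤ ord P.ring a + 4 * E P)
    (h6 : ∀ P : Place k F, b ≠ 0 → 0 ≤ ord P.ring b + 6 * E P)
    (hN : 1 ≤ E.sum fun _ m => m)
    (hmin : ∀ P : Place k F, (a ≠ 0 ∧ ord P.ring a + 4 * E P < 4) ∨
      (b ≠ 0 ∧ ord P.ring b + 6 * E P < 6)) :
    ∃ (W : Pool.Agent.Helper51.EW.Wei k) (h : F), h ≠ 0 ∧ ((W.N : ℤ) = E.sum fun _ m => m) ∧
      MvPolynomial.aeval ![1, t] W.A = h ^ 4 * a ∧ MvPolynomial.aeval ![1, t] W.B = h ^ 6 * b ∧
      4 * W.A ^ 3 + 27 * W.B ^ 2 ≠ 0 ∧ Minimal W := by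
  classical
  obtain ⟨Pi, hPi⟩ := exists_inf_h12 hF ht
  obtain ⟨h, hh, hdv⟩ := exists_h_h12 hF hPi E
  have hsum : (E.sum fun _ m => m) = FF.deg E := (FF.deg_eq E).symm
  rw [hsum] at hN ⊢
  obtain ⟨N, hNE⟩ : ∃ N : ℕ, (N : ℤ) = FF.deg E :=
    ⟨(FF.deg E).toNat, Int.toNat_of_nonneg (by omega)⟩
  obtain ⟨A, hA, hA'⟩ := exists_form_h12 hF ht hPi hNE hh hdv 4 a (by exact_mod_cast h4)
  obtain ⟨B, hB, hB'⟩ := exists_form_h12 hF ht hPi hNE hh hdv 6 b (by exact_mod_cast h6)
  refine ⟨⟨N, A, B, hA, hB⟩, h, hh, hNE, hA', hB', ?_, ?_⟩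
  · intro h0
    have h1 := congrArg (MvPolynomial.aeval ![1, t]) h0
    rw [map_add, map_mul, map_mul, map_pow, map_pow, hA', hB', map_zero, map_ofNat, map_ofNat]
      at h1
    have h2 : h ^ 12 * (4 * a ^ 3 + 27 * b ^ 2) = 0 := by
      rw [← h1]
      ring
    exact mul_ne_zero (pow_ne_zero _ hh) hd h2
  · intro l hl hl0 hdvd
    obtain ⟨hd4, hd6⟩ := hdvd
    change l ^ 4 ∣ A at hd4
    change l ^ 6 ∣ B at hd6
    -- the value of `l` is not zero
    have hne : MvPolynomial.aeval ![1, t] l ≠ 0 := by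
      intro h0
      have ha : a = 0 := by
        obtain ⟨A', rfl⟩ := hd4
        rw [map_mul, map_pow, h0, zero_pow (by norm_num), zero_mul] at hA'
        exact (mul_eq_zero.mp hA'.symm).resolve_left (pow_ne_zero _ hh)
      have hb : b = 0 := by
        obtain ⟨B', rfl⟩ := hd6
        rw [map_mul, map_pow, h0, zero_pow (by norm_num), zero_mul] at hB'
        exact (mul_eq_zero.mp hB'.symm).resolve_left (pow_ne_zero _ hh)
      apply hd
      rw [ha, hb]
      ring
    -- its zero
    obtain ⟨P, hP⟩ : ∃ P, FF.dv hF (MvPolynomial.aeval ![1, t] l) =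
        Finsupp.single P 1 - Finsupp.single Pi 1 := by
      have h1 : FF.deg (FF.dv hF (MvPolynomial.aeval ![1, t] l) + Finsupp.single Pi 1) = 1 := by
        rw [map_add, FF.deg_dv hF hne, FF.deg_single, zero_add]
      have h2 : ∀ Q, 0 ≤ (FF.dv hF (MvPolynomial.aeval ![1, t] l) +
          Finsupp.single Pi 1 : Place k F →₀ ℤ) Q := by
        intro Q
        rw [Finsupp.add_apply, FF.dv_apply]
        have h3 := aev_ord_h12 hF hPi hne Q
        rwa [hl.totalDegree hl0, Nat.cast_one] at h3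
      obtain ⟨P, hP⟩ := FF.exists_pos_of_deg (by rw [h1]; norm_num :
        0 < FF.deg (FF.dv hF (MvPolynomial.aeval ![1, t] l) + Finsupp.single Pi 1))
      refine ⟨P, ?_⟩
      have h4 := FF.eq_zero_of_deg (D := FF.dv hF (MvPolynomial.aeval ![1, t] l) +
        Finsupp.single Pi 1 - Finsupp.single P 1) (fun Q => by
          rw [Finsupp.sub_apply, Finsupp.single_apply (a := P)]
          have := h2 Q
          split_ifs with hc
          · subst hc; omega
          · omega) (by rw [map_sub, h1, FF.deg_single]; norm_num)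
      rw [sub_eq_zero] at h4
      rw [← h4]
      abel
    rcases hmin P with ⟨ha0, ha⟩ | ⟨hb0, hb⟩
    · have := min_h12 hF hPi hNE hh hdv 4 ha0 hA hA' hl hP hd4
      push_cast at this
      linarith
    · have := min_h12 hF hPi hNE hh hdv 6 hb0 hB hB' hl hP hd6
      push_cast at this
      linarith

end Pool.Agent.Helper21.TB
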