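import Mathlib
import Pool.Agent.Helper9.NS
import Pool.Agent.Helper21.TB.Defs
import Pool.Agent.Helper21.TB.Fib
import Pool.Agent.Helper21.TO.Defs3

/-!
# Block TB-LineB: the torsor over the projective line
`Torsor` is in TO/Defs3.lean, `Fibration` in TB/Fib.lean. Take `hL := T.hL`, `t := algebraMap F L t` (transcendental over
`k`: otherwise `t ∈ k`, `F = k`), `x := h ^ 2 x`, `y := h ^ 3 y` (with the image of `h` in `Ω`), `G := T.G`, `r := h ^ 2 r`, `s := h s` (image of `h`
in `L`). `A (1, t)` in `L` is the image of `A (1, t)` in `F` (`MvPolynomial.aeval` and `algebraMap`: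
`MvPolynomial.aeval_algebraMap_apply` or `MvPolynomial.comp_aeval_apply` with `IsScalarTower.toAlgHom k F L`), which is `h ^ 4 a`. `hx`:
`h ^ 2 x` is transcendental over `L` (`transcendental` of a product with a nonzero constant; if `g (h ^ 2 x) = 0`
then `x` is a root of `g (h ^ 2 X)`). `gen`: `L (h ^ 2 x, h ^ 3 y) = L (x, y)`. `fixt`: `T.fixF`. `fixed`:
`z ∈ range (algebraMap F L)` and `F = k (t)` give `z ∈ k (algebraMap t)` (`IntermediateField.adjoin_map`). `translation`: with
`e' = h ^ 2 e`, `f' = h ^ 3 f`, `σ h = h` (`T.fixF`). `hr`: `∏ (X - h ^ 2 r_i)`: compare coefficients, or substitute: from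
`∏ (X - r_i) = X ^ 3 + a X + b` get `r_0 + r_1 + r_2 = 0`, `a = ..`, `b = ..`.
-/

set_option linter.unusedSectionVars false

namespace Pool.Agent.Helper21.TB

open VC VF Function Polynomial
open Pool.Agent.Helper21.TO
open Pool.Agent.Helper51.VB (Ell KPt BP rs OJ)
open Pool.Agent.Helper51.VN (OnE Harm)

universe u

variable {k : Type u} [Field k] [IsAlgClosed k] [CharZero k] {F L Ω : Type u} [Field F]
  [Algebra k F] [Field L] [Algebra k L] [Algebra F L] [IsScalarTower k F L] [Field Ω]
  [Algebra k Ω] [Algebra L Ω] [IsScalarTower k L Ω]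

private theorem aeval67 (t : F) (P : MvPolynomial (Fin 2) k) :
    MvPolynomial.aeval ![1, algebraMap F L t] P = algebraMap F L (MvPolynomial.aeval ![1, t] P) := by
  rw [← MvPolynomial.aeval_algebraMap_apply]
  congr 2
  funext i
  fin_cases i <;> simp

private theorem trans67 (hF : IsFunctionField k F) (t : F) (ht : IntermediateField.adjoin k {t} = ⊤) :
    Transcendental k (algebraMap F L t) := by
  intro hn
  have h1 : IsAlgebraic k t := (isAlgebraic_algebraMap_iff (algebraMap F L).injective).1 hn
  obtain ⟨t0, h0, -⟩ := hF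
  apply h0
  have h2 : FiniteDimensional k (IntermediateField.adjoin k {t}) :=
    IntermediateField.adjoin.finiteDimensional h1.isIntegral
  have h3 : t0 ∈ IntermediateField.adjoin k {t} := by rw [ht]; exact IntermediateField.mem_top
  have h4 : IsAlgebraic k (⟨t0, h3⟩ : IntermediateField.adjoin k {t}) :=
    Algebra.IsAlgebraic.isAlgebraic _
  exact (isAlgebraic_algebraMap_iff
    (algebraMap (IntermediateField.adjoin k {t}) F).injective).2 h4

private theorem roots67 {a b g : L} {r : Fin 3 → L}
    (hr : (X ^ 3 + C a * X + C b : L[X]) = ∏ i, (X - C (r i))) (h2 : (2 : L) ≠ 0) :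
    (X ^ 3 + C (g ^ 4 * a) * X + C (g ^ 6 * b) : L[X]) = ∏ i, (X - C (g ^ 2 * r i)) := by
  rw [Fin.prod_univ_three] at hr ⊢
  have e0 := congrArg (Polynomial.eval (0 : L)) hr
  have e1 := congrArg (Polynomial.eval (1 : L)) hr
  have e2 := congrArg (Polynomial.eval (-1 : L)) hr
  simp only [eval_add, eval_mul, eval_sub, eval_pow, eval_X, eval_C] at e0 e1 e2
  have f1 : r 0 + r 1 + r 2 = 0 := by
    have : (2 : L) * (r 0 + r 1 + r 2) = 0 := by
      linear_combination e1 + e2 - 2 * e0
    exact (mul_eq_zero.1 this).resolve_left h2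
  have f3 : b = -(r 0 * r 1 * r 2) := by linear_combination e0
  have f2 : a = r 0 * r 1 + r 0 * r 2 + r 1 * r 2 := by
    linear_combination e1 - e0 + -f1
  have c1 : C (r 0) + C (r 1) + C (r 2) = (0 : L[X]) := by
    rw [← C_add, ← C_add, f1, C_0]
  rw [f2, f3]
  simp only [C_mul, C_pow, C_neg, C_add]
  linear_combination (C g ^ 2 * X ^ 2) * c1

theorem exists_torsor (T : Fibration k F L Ω) (t : F)
    (ht : IntermediateField.adjoin k {t} = ⊤) (W : Pool.Agent.Helper51.EW.Wei k) (h : F)
    (h0 : h ≠ 0) (hA : MvPolynomial.aeval ![1, t] W.A = h ^ 4 * T.a)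
    (hB : MvPolynomial.aeval ![1, t] W.B = h ^ 6 * T.b) :
    ∃ T' : Torsor W L Ω, T'.G = T.G := by
  have hg0 : algebraMap F L h ≠ 0 := (map_ne_zero (algebraMap F L)).2 h0
  set g : L := algebraMap F L h with hg
  have hG0 : algebraMap L Ω g ≠ 0 := (map_ne_zero (algebraMap L Ω)).2 hg0
  have hAL : MvPolynomial.aeval ![1, algebraMap F L t] W.A = g ^ 4 * algebraMap F L T.a := by
    rw [aeval67, hA, map_mul, map_pow]
  have hBL : MvPolynomial.aeval ![1, algebraMap F L t] W.B = g ^ 6 * algebraMap F L T.b := by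
    rw [aeval67, hB, map_mul, map_pow]
  have hx' : algebraMap L Ω (g ^ 2)⁻¹ * (algebraMap L Ω g ^ 2 * T.x) = T.x := by
    rw [map_inv₀, map_pow, inv_mul_cancel_left₀ (pow_ne_zero 2 hG0)]
  have hy' : algebraMap L Ω (g ^ 3)⁻¹ * (algebraMap L Ω g ^ 3 * T.y) = T.y := by
    rw [map_inv₀, map_pow, inv_mul_cancel_left₀ (pow_ne_zero 3 hG0)]
  have hσ : ∀ σ ∈ T.G, σ (algebraMap L Ω g) = algebraMap L Ω g := fun σ hσ => T.fixF σ hσ h
  have : CharZero L := charZero_of_injective_algebraMap (algebraMap k L).injective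
  refine ⟨{ hL := T.hL
            t := algebraMap F L t
            ht := trans67 T.hF t ht
            x := algebraMap L Ω g ^ 2 * T.x
            y := algebraMap L Ω g ^ 3 * T.y
            hx := ?_
            eqn := ?_
            gen := ?_
            G := T.G
            finG := T.finG
            stable := T.stable
            fixt := fun σ hσ => T.fixF σ hσ t
            fixed := ?_
            translation := ?_
            r := fun i => g ^ 2 * T.r i
            hr := ?_
            s := fun i => g * T.s i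
            hs := ?_ }, rfl⟩
  · intro hn
    apply T.hx
    rw [← hx']
    exact (isAlgebraic_algebraMap _).mul hn
  · rw [hAL, hBL]
    simp only [map_mul, map_pow]
    linear_combination (algebraMap L Ω g ^ 6) * T.eqn
  · rw [eq_top_iff, ← T.gen, IntermediateField.adjoin_le_iff]
    rintro z (rfl | rfl)
    · have h1 : algebraMap L Ω g ^ 2 * T.x ∈ IntermediateField.adjoin L
          {algebraMap L Ω g ^ 2 * T.x, algebraMap L Ω g ^ 3 * T.y} :=
        IntermediateField.subset_adjoin _ _ (Or.inl rfl)
      have h2 := mul_mem (IntermediateField.algebraMap_mem (IntermediateField.adjoin L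
          {algebraMap L Ω g ^ 2 * T.x, algebraMap L Ω g ^ 3 * T.y}) (g ^ 2)⁻¹) h1
      rwa [hx'] at h2
    · have h1 : algebraMap L Ω g ^ 3 * T.y ∈ IntermediateField.adjoin L
          {algebraMap L Ω g ^ 2 * T.x, algebraMap L Ω g ^ 3 * T.y} :=
        IntermediateField.subset_adjoin _ _ (Or.inr rfl)
      have h2 := mul_mem (IntermediateField.algebraMap_mem (IntermediateField.adjoin L
          {algebraMap L Ω g ^ 2 * T.x, algebraMap L Ω g ^ 3 * T.y}) (g ^ 3)⁻¹) h1
      rwa [hy'] at h2
  · intro z hz
    obtain ⟨f, rfl⟩ := T.fixed z hz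
    have h1 : f ∈ IntermediateField.adjoin k {t} := by rw [ht]; exact IntermediateField.mem_top
    have h2 : IsScalarTower.toAlgHom k F L f ∈
        (IntermediateField.adjoin k {t}).map (IsScalarTower.toAlgHom k F L) := ⟨f, h1, rfl⟩
    rw [IntermediateField.adjoin_map, Set.image_singleton] at h2
    exact h2
  · intro σ hσG
    have hs := hσ σ hσG
    rcases T.translation σ hσG with ⟨h1, h2⟩ | ⟨e, f, h1, h2, h3⟩
    · left
      exact ⟨by rw [map_mul, map_pow, hs, h1], by rw [map_mul, map_pow, hs, h2]⟩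
    · right
      refine ⟨g ^ 2 * e, g ^ 3 * f, ?_, ?_, ?_⟩
      · rw [hAL, hBL]
        linear_combination g ^ 6 * h1
      · have h4 : (algebraMap L Ω g ^ 3 * T.y - algebraMap L Ω (g ^ 3 * f)) /
            (algebraMap L Ω g ^ 2 * T.x - algebraMap L Ω (g ^ 2 * e)) =
            algebraMap L Ω g * ((T.y - algebraMap L Ω f) / (T.x - algebraMap L Ω e)) := by
          rw [map_mul, map_mul, map_pow, map_pow, ← mul_sub, ← mul_sub, mul_div_mul_comm]
          congr 1
          field_simp
        rw [h4, map_mul, map_pow, hs, h2, map_mul, map_pow]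
        ring
      · have h4 : (algebraMap L Ω g ^ 3 * T.y - algebraMap L Ω (g ^ 3 * f)) /
            (algebraMap L Ω g ^ 2 * T.x - algebraMap L Ω (g ^ 2 * e)) =
            algebraMap L Ω g * ((T.y - algebraMap L Ω f) / (T.x - algebraMap L Ω e)) := by
          rw [map_mul, map_mul, map_pow, map_pow, ← mul_sub, ← mul_sub, mul_div_mul_comm]
          congr 1
          field_simp
        rw [h4, map_mul, map_pow, hs, h3, map_mul, map_pow, hs]
        ring
  · rw [hAL, hBL]
    exact roots67 T.hr two_ne_zero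
  · intro i
    linear_combination g ^ 2 * T.hs i

end Pool.Agent.Helper21.TB
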