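import Mathlib
import Pool.Agent.Helper9.NS
import Pool.Agent.Helper21.TB.Final
import Pool.Agent.Helper21.TB.LineA
import Pool.Agent.Helper21.TB.LineB
import Pool.Agent.Helper21.TO.Final
import Pool.Agent.Helper21.TO.Wei

/-!
# TB: Voisin's conjecture for surfaces with a genus one fibration

The fibrations over a curve of arbitrary genus with non-constant `j`-invariant, and all fibrations
over the projective line with Jacobian fibration of positive degree.
-/

set_option linter.unusedSectionVars false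

namespace Pool.Agent.Helper21.TB

open VC VF Function Polynomial
open Pool.Agent.Helper21.TO
open Pool.Agent.Helper51.VN (OnE Harm)

universe u

variable {k : Type u} [Field k] [IsAlgClosed k] [CharZero k] {F L Ω : Type u} [Field F]
  [Algebra k F] [Field L] [Algebra k L] [Algebra F L] [IsScalarTower k F L] [Field Ω]
  [Algebra k Ω] [Algebra L Ω] [IsScalarTower k L Ω]

/-- A cycle with principal image in the base has degree zero. -/
theorem deg_of_rat {S : Variety k} (hF : IsFunctionField k F) (π : S.Pt → Place k F) (a : S.Cycles)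
    (ha : a.mapDomain π ∈ (curve hF).Rat) : a.sum (fun _ c => c) = 0 := by
  have hk := harm_curve (harm_const hF (1 : k)) _ ha
  rw [Finsupp.linearCombination_mapDomain] at hk
  have h3 : Finsupp.linearCombination ℤ ((fun _ : Place k F => (1 : k)) ∘ π) a =
      ((a.sum (fun _ c => c) : ℤ) : k) := by
    rw [Finsupp.linearCombination_apply, Finsupp.sum, Finsupp.sum, Int.cast_sum]
    exact Finset.sum_congr rfl fun s _ => by
      rw [Function.comp_apply, zsmul_eq_mul, mul_one]
  rw [h3] at hk
  exact_mod_cast hk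

/-- Voisin's conjecture for a surface with a morphism to a curve whose generic fibre has genus one.
Either the `j`-invariant is not constant, or the curve is rational and the divisor `E` is
minimal, of positive degree. -/
theorem voisin_all (T : Fibration k F L Ω) {g : ℕ} (hg : IsGenus k F g) (E : Place k F →₀ ℤ)
    (h4 : ∀ P : Place k F, T.a ≠ 0 → 0 ≤ ord P.ring T.a + 4 * E P)
    (h6 : ∀ P : Place k F, T.b ≠ 0 → 0 ≤ ord P.ring T.b + 6 * E P)
    (hc : (∀ c : k, T.a ^ 3 ≠ algebraMap k F c * (4 * T.a ^ 3 + 27 * T.b ^ 2)) ∨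
      ((∃ t : F, IntermediateField.adjoin k {t} = ⊤) ∧ (1 ≤ E.sum fun _ m => m) ∧
        ∀ P : Place k F, (T.a ≠ 0 ∧ ord P.ring T.a + 4 * E P < 4) ∨
          (T.b ≠ 0 ∧ ord P.ring T.b + 6 * E P < 6)))
    {M : ℕ} (ξ : Fin M → Ω) (hξ : ξ ≠ 0) (hfix : ∀ σ ∈ T.G, ∀ i, σ (ξ i) = ξ i)
    (π : (proj k (vanB k ξ)).Pt → Place k F) (hπ : IsMorph T.j ξ π) {n : ℕ}
    (hn : (E.sum fun _ m => m) + g ≤ n) (a : Fin n → (proj k (vanB k ξ)).Cycles)
    (ha : ∀ i, (a i).mapDomain π ∈ (curve T.hF).Rat) :
    ∃ m : ℕ, 0 < m ∧ m • ∑ σ : Equiv.Perm (Fin n), ((Equiv.Perm.sign σ : ℤˣ) : ℤ) •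
      extProd (fun i => a (σ i)) ∈ ((proj k (vanB k ξ)).pow n).Rat := by
  rcases hc with hj | ⟨⟨t, ht⟩, hN, hmin⟩
  · have hF0 : CharZero F := charZero_of_injective_algebraMap (algebraMap k F).injective
    have ha0 : T.a ≠ 0 := by
      intro h
      apply hj 0
      rw [h, map_zero, zero_mul]
      norm_num
    have hb0 : T.b ≠ 0 := by
      intro h
      apply hj (1 / 4)
      rw [h, map_div₀, map_one, map_ofNat]
      ring
    exact voisin_fib T hg E hj (fun P => h4 P ha0) (fun P => h6 P hb0) ξ hξ hfix π hπ hn a ha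
  · obtain ⟨W, h, h0, hWN, hWA, hWB, hΔ, hm⟩ := exists_wei T.hF t ht T.a T.b T.disc E h4 h6 hN hmin
    obtain ⟨T', hT'⟩ := exists_torsor T t ht W h h0 hWA hWB
    have hWN1 : 1 ≤ W.N := by
      rw [← hWN] at hN
      exact_mod_cast hN
    have hn' : W.N ≤ n := by
      rw [← hWN] at hn
      have : (W.N : ℤ) ≤ n := by
        have := Int.natCast_nonneg g
        omega
      exact_mod_cast this
    exact voisin_torsor hΔ hm T' ξ hξ (by rw [hT']; exact hfix)
      (fun b hb => voisin_wei hWN1 hn' hΔ b hb) a fun i => deg_of_rat T.hF π (a i) (ha i)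

end Pool.Agent.Helper21.TB
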